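import Pool.Agent.Work.MP_2482e4_mp.Comm
import Pool.Agent.Work.MP_2482e4_mp.Defs3
import Mathlib

-- merged part: Pool.Agent.Work.MP_2482e4_mp.Gn.Rs
section
-- merged part: Pool.Agent.Work.MP_2482e4_mp.NecGen
section
open scoped ComplexOrder Topology ContDiff Matrix.Norms.L2Operator
open Matrix NormedSpace Filter Module

namespace Pool.Agent.Work.MP_2482e4_mp

variable {n : Type} [Fintype n] [DecidableEq n]
variable {E : Type} [NormedAddCommGroup E] [NormedSpace ℝ E] [FiniteDimensional ℝ E]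
variable {ι : E →ₗ[ℝ] Matrix n n ℂ} {g : E → E →L[ℝ] E →L[ℝ] ℝ} {f : ℝ → ℝ} {U : Matrix n n ℂ}

omit [FiniteDimensional ℝ E] in
theorem eq_of_rep {τ : E →L[ℝ] ℝ} {b : E →L[ℝ] E →L[ℝ] ℝ} (hb : ∀ X, X ≠ 0 → 0 < b X X)
    {X X' : E} (hX : τ X = 0) (hX' : τ X' = 0) (h : ∀ Y, τ Y = 0 → b Y X = b Y X') : X = X' := by
  by_contra hne
  have h1 := hb _ (sub_ne_zero.2 hne)
  rw [map_sub (b (X - X')), h _ (by simp [hX, hX']), sub_self] at h1
  exact lt_irrefl _ h1

theorem nec_general (hι : IsHermModel ι) (hg : IsPetz ι f g) (hf : ∀ t, 0 < t → 0 < f t)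
    (hfs : ∀ t, 0 < t → f t = t * f t⁻¹) (hsm : ∀ q ∈ states ι, ContDiffAt ℝ ∞ g q) {ρ : E}
    (hρ : ρ ∈ states ι) {V : Submodule ℝ E} (hV : ∀ X ∈ V, trL ι X = 0) (h : Admissible ι g ρ V)
    (W : Submodule ℝ E) (Λ : E →L[ℝ] E) (hΛ : ∀ b ∈ W, ι (Λ b) ∈ eRep ι g ρ V) {Γ : E → E}
    (hΓ : Differentiable ℝ Γ) (hΓ0 : Γ 0 = ρ) (hΓs : ∀ b, Γ b ∈ states ι)
    (hrep : ∀ b ∈ W, ∀ t : ℝ, trL ι (fderiv ℝ Γ (t • b) b) = 0 ∧ ∀ Y, trL ι Y = 0 →
      g (Γ (t • b)) Y (fderiv ℝ Γ (t • b) b) = (ι Y * ι (Λ b)).trace.re) :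
    ∀ᶠ b in 𝓝 (0 : E), b ∈ W → ∀ c ∈ W,
      fderiv ℝ Γ b c ∈ orth (trL ι) (g (Γ b)).flip (orth (trL ι) (g ρ) V) := by
  have := nonempty_of_states hρ
  obtain ⟨N, hNs, hNm, hauto, hρN, hT⟩ := h
  obtain ⟨Φ, F, hρs, hΦ, hΦ', hN⟩ := hNm ρ hρN
  have hN1 : ∀ q ∈ N, trL ι q = 1 := fun q hq => nrm_of_states hι (hNs hq)
  have hA := tangent_eq_near (trL_iff hι) hN1 (fun q hq => hsm q (hNs hq))
    (fun q hq => petz_pos hι hg hf (hNs hq).1) hρs hΦ hΦ' hN hauto hρN hT
  have hpos := petz_pos hι hg hf hρ.1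
  obtain ⟨K, hKcd, hK⟩ := exists_K hι hg hf hfs hρ.1 (hsm ρ hρ)
  set G : E → E →L[ℝ] E := fun q => (K q - ((trL ι).comp (K q)).smulRight q).comp Λ with hG
  have hGcd : ContDiffAt ℝ ∞ G ρ := cdAt_clm' fun a =>
    (hKcd.clm_apply contDiffAt_const).sub (((trL ι).contDiff.contDiffAt.comp ρ
      (hKcd.clm_apply contDiffAt_const)).smul contDiffAt_id)
  have hGr : ∀ q ∈ states ι, ∀ a, trL ι (G q a) = 0 ∧
      ∀ Y, trL ι Y = 0 → g q Y (G q a) = (ι Y * ι (Λ a)).trace.re := fun q hq a => by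
    have hq1 := nrm_of_states hι hq
    have h1 : G q a = fderiv ℝ (nrm ι) q (K q (Λ a)) := by
      rw [fderiv_nrm (by simp [hq1])]
      simp [hq1, hG]
    obtain ⟨U', d', hU', hx', hd'⟩ := exists_Dg_pos hq.1
    have h2 := nrm_rep hι hg hU' hx' hd' (K q (Λ a))
    rwa [hK q U' d' hU' hx' hd', Sch_Sch hU', Sch_congr (l := fun _ _ => 1)
      (fun i j => inv_mul_cancel₀ (m_ne hf hd' i j)), Sch_one hU',
      show nrm ι q = q by simp [nrm, hq1], ← h1] at h2
  have hstay := stay_in hρs hΦ hΦ' hN hρN hGcd (W := W)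
    (by
      filter_upwards [hA, self_mem_nhdsWithin] with p hp hpN a ha
      rw [hp]
      exact (mem_D_iff hι hpos hV (herm_ι hι _) (hGr p (hNs hpN) a).1 (hGr p (hNs hpN) a).2).2
        (hΛ a ha))
    hΓ.continuous.continuousAt hΓ0 (by
      intro a ha t
      have hl : HasDerivAt (fun t : ℝ => t • a) a t := by
        simpa using (hasDerivAt_id t).smul_const a
      refine ((hΓ _).hasFDerivAt.comp_hasDerivAt t hl).congr_deriv ?_
      exact eq_of_rep (petz_pos hι hg hf (hΓs _).1) (hrep a ha t).1 (hGr _ (hΓs _) a).1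
        fun Y hY => by rw [(hrep a ha t).2 Y hY, (hGr _ (hΓs _) a).2 Y hY])
  have hten : Tendsto Γ (𝓝 0) (𝓝 ρ) := hΓ0 ▸ hΓ.continuous.tendsto 0
  filter_upwards [eventually_eventually_nhds.2 hstay,
    hten.eventually (eventually_nhdsWithin_iff.1 hA)] with a h1 h2 ha c hc
  have hl : HasDerivAt (fun t : ℝ => a + t • c) c 0 := by
    simpa using ((hasDerivAt_id (0 : ℝ)).smul_const c).const_add a
  rw [← SetLike.mem_coe, ← h2 (h1.self_of_nhds ha)]
  refine ⟨fun t => Γ (a + t • c), by simp, ?_, ?_⟩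
  · have h4 : Tendsto (fun t : ℝ => a + t • c) (𝓝 0) (𝓝 a) := by
      simpa using hl.continuousAt.tendsto
    filter_upwards [h4.eventually h1] with t ht
    exact ht (W.add_mem ha (W.smul_mem t hc))
  · have := HasFDerivAt.comp_hasDerivAt_of_eq (0 : ℝ) (hΓ a).hasFDerivAt hl (by simp)
    exact this

theorem sq_of_inv (hU : U * star U = 1) {W : Submodule ℝ (Matrix n n ℂ)} {w : ℝ → ℝ} {ε : ℝ}
    (hw : ∀ u, w |u| = w u) (hinj : Set.InjOn w (Set.Ico 0 ε)) {c : n → ℝ} {s : ℝ} (hs : s ≠ 0)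
    (h3 : ∀ i j, |s * c i - s * c j| < ε)
    (hinv : ∀ B ∈ W, Sch U (fun i j => w (s * c i - s * c j)) B ∈ W) {B : Matrix n n ℂ}
    (hB : B ∈ W) : ⁅Dg U c, ⁅Dg U c, B⁆⁆ ∈ W := by
  have h5 := Sch_comp_mem hU _ _ hinv (fun y => (Function.invFunOn w (Set.Ico 0 ε) y) ^ 2) hB
  have h6 : ∀ i j, (Function.invFunOn w (Set.Ico 0 ε) (w (s * c i - s * c j))) ^ 2 =
      s ^ 2 * ((c i - c j) * (c i - c j)) := fun i j => by
    rw [← hw, hinj.leftInvOn_invFunOn ⟨abs_nonneg _, h3 i j⟩, sq_abs]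
    ring
  rw [Sch_congr h6, Sch_const_mul hU, ← Sch_Sch hU, ← lie_Dg hU, ← lie_Dg hU] at h5
  exact (W.smul_mem_iff (pow_ne_zero 2 hs)).1 h5

theorem analyticAt_ddExp : AnalyticAt ℝ (fun u => ddExp u 0) 0 := by
  have h1 : (fun u => ddExp u 0) = dslope Real.exp 0 := by
    funext u
    by_cases h : u = 0
    · simp [h, ddExp]
    · rw [dslope_of_ne _ h, ddExp, if_neg h, slope_def_field]
  obtain ⟨p, hp⟩ := analyticAt_rexp (x := (0 : ℝ))
  rw [h1]
  exact ⟨_, hp.has_fpower_series_dslope_fslope⟩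

theorem ev_injOn : ∃ ε : ℝ, 0 < ε ∧
    Set.InjOn (fun u => ddExp u 0 + ddExp (-u) 0) (Set.Ico 0 ε) := by
  refine injOn_of_analytic (analyticAt_ddExp.add
    (AnalyticAt.comp_of_eq analyticAt_ddExp analyticAt_id.neg neg_zero)) fun h => ?_
  obtain ⟨u, h1, h2⟩ := ((h.filter_mono (nhdsWithin_le_nhds (s := Set.Ioi 0))).and
    self_mem_nhdsWithin).exists
  have hu : (0 : ℝ) < u := h2
  change ddExp u 0 + ddExp (-u) 0 = ddExp 0 0 + ddExp (-0) 0 at h1
  simp only [ddExp, if_neg hu.ne', if_neg (neg_ne_zero.2 hu.ne'), neg_zero, if_true, Real.exp_zero,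
    sub_zero] at h1
  have h3 := Real.self_lt_sinh_iff.2 hu
  rw [Real.sinh_eq] at h3
  field_simp at h1
  linarith

theorem od_ne {u : ℝ} (hu : u ≠ 0) : ddExp (-u) 0 - ddExp u 0 ≠ 0 := by
  simp only [ddExp, if_neg hu, if_neg (neg_ne_zero.2 hu), Real.exp_zero, sub_zero]
  have h3 := Real.one_lt_cosh.2 hu
  rw [Real.cosh_eq] at h3
  intro h
  field_simp at h
  linarith

theorem exists_Dg_cfc {A : Matrix n n ℂ} (hA : A.IsHermitian) :
    ∃ (U : Matrix n n ℂ) (d : n → ℝ), U * star U = 1 ∧ A = Dg U d ∧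
      ∀ φ : ℝ → ℝ, cfc φ A = Dg U fun i => φ (d i) :=
  ⟨hA.eigenvectorUnitary, hA.eigenvalues, Unitary.coe_mul_star_self _, hA.spectral_theorem,
    fun φ => hA.cfc_eq φ⟩

theorem Dg_mul_Dg (hU : U * star U = 1) (a b : n → ℝ) :
    Dg U a * Dg U b = Dg U fun i => a i * b i := by rw [Dg_mul hU, Sch_Dg hU]

theorem Dg_inv (hU : U * star U = 1) {a : n → ℝ} (ha : ∀ i, a i ≠ 0) :
    (Dg U a)⁻¹ = Dg U fun i => (a i)⁻¹ := by
  refine Matrix.inv_eq_right_inv ?_
  rw [Dg_mul_Dg hU, ← Dg_one hU]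
  simp [ha]

end Pool.Agent.Work.MP_2482e4_mp
end

-- merged part: Pool.Agent.Work.MP_2482e4_mp.Gn.Def
section
/-! Definitions for the classification for generic `f` (see PROOF.md in this folder).
There is no global `LieRing` instance on matrices: unfold brackets with `Ring.lie_def` and use `noncomm_ring`, or put
`attribute [local instance 100] LieRing.ofAssociativeRing` after the statements' variables to get `lie_add`, `leibniz_lie`. -/

open scoped ComplexOrder Topology ContDiff Matrix.Norms.L2Operator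
open Matrix Filter Module

set_option linter.unusedSectionVars false

namespace Pool.Agent.Work.MP_2482e4_mp.Gn

/-- Square complex matrices. -/
abbrev Mt (n : Type) := Matrix n n ℂ

variable {n : Type} [Fintype n] [DecidableEq n]

/-- The real inner product `Re tr (X* Y)`. -/
noncomputable def ip : Mt n →ₗ[ℝ] Mt n →ₗ[ℝ] ℝ :=
  LinearMap.mk₂ ℝ (fun X Y => (star X * Y).trace.re)
    (fun X X' Y => by simp [add_mul]) (fun c X Y => by simp)
    (fun X Y Y' => by simp [mul_add]) (fun c X Y => by simp)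

theorem ip_apply (X Y : Mt n) : ip X Y = (star X * Y).trace.re := rfl

/-- `X ↦ [H, X]`. -/
noncomputable def ad (H : Mt n) : Module.End ℝ (Mt n) :=
  LinearMap.mulLeft ℝ H - LinearMap.mulRight ℝ H

theorem ad_apply (H X : Mt n) : ad H X = ⁅H, X⁆ := rfl

theorem ad_pow_succ (H X : Mt n) (m : ℕ) : (ad H ^ (m + 1)) X = ⁅H, (ad H ^ m) X⁆ := by
  rw [pow_succ']
  rfl

/-- The operator `w (ad H)` for Hermitian `H`. -/
noncomputable def Zf (w : ℝ → ℝ) (H : Mt n) : Module.End ℝ (Mt n) :=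
  if hH : H.IsHermitian then
    (Sch hH.eigenvectorUnitary fun i j => w (hH.eigenvalues i - hH.eigenvalues j)).restrictScalars ℝ
  else 0

/-- `w (x) = x f (e ^ x) / (e ^ x - 1)`. -/
noncomputable def wf (f : ℝ → ℝ) (x : ℝ) : ℝ := (wt f x)⁻¹

section Res
variable {J : Type} [Fintype J] [DecidableEq J]

/-- A resolution of the identity by orthogonal projections. -/
structure IsRes (P : J → Mt n) : Prop where
  herm : ∀ a, (P a).IsHermitian
  mul : ∀ a b, P a * P b = if a = b then P a else 0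
  sum : ∑ a, P a = 1

/-- `∑ l a • P a`. -/
noncomputable def dg (P : J → Mt n) (l : J → ℝ) : Mt n := ∑ a, l a • P a

/-- The multiplier `X ↦ ∑ κ a b • P a X P b`. -/
noncomputable def mlt (P : J → Mt n) (κ : J → J → ℝ) : Module.End ℝ (Mt n) where
  toFun X := ∑ a, ∑ b, κ a b • (P a * X * P b)
  map_add' X Y := by simp [mul_add, add_mul, Finset.sum_add_distrib]
  map_smul' c X := by simp [Finset.smul_sum, smul_comm c]

theorem mk_apply (P : J → Mt n) (κ : J → J → ℝ) (X : Mt n) :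
    mlt P κ X = ∑ a, ∑ b, κ a b • (P a * X * P b) := rfl

/-- `∑ τ a c b • P a X P c Y P b`. -/
noncomputable def tri (P : J → Mt n) (τ : J → J → J → ℝ) (X Y : Mt n) : Mt n :=
  ∑ a, ∑ c, ∑ b, τ a c b • (P a * X * P c * Y * P b)

/-- The mean value of `v` on the range of `P a`. -/
noncomputable def mu (P : J → Mt n) (v : Mt n) (a : J) : ℝ :=
  (P a * v).trace.re * ((P a).trace.re)⁻¹

/-- The derivative of the spectral projection `P a` in the direction `v`. -/
noncomputable def dP (P : J → Mt n) (l : J → ℝ) (v : Mt n) (a : J) : Mt n :=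
  ∑ c, (l a - l c)⁻¹ • (P a * v * P c + P c * v * P a)

/-- Divided difference of a kernel in its first variable. -/
noncomputable def dd (l : J → ℝ) (κ κ' : J → J → ℝ) (a c b : J) : ℝ :=
  if c = a then κ' a b else (κ a b - κ c b) * (l a - l c)⁻¹

/-- Divided difference of a kernel in its second variable. -/
noncomputable def de (l : J → ℝ) (κ κ' : J → J → ℝ) (a c b : J) : ℝ :=
  if c = b then κ' a b else (κ a b - κ a c) * (l c - l b)⁻¹

end Res

/-- The derivative of `H ↦ (ad H) ^ m B` in the direction `A`. -/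
noncomputable def dad (H A B : Mt n) : ℕ → Mt n
  | 0 => 0
  | m + 1 => ⁅A, (ad H ^ m) B⁆ + ⁅H, dad H A B m⁆

/-- The first variation of the torsion. -/
noncomputable def tor (m : ℕ) (H A B : Mt n) : Mt n := dad H A B m - dad H B A m

/-- What is used of an integral manifold of the distribution `H ↦ w (ad H) 𝒜`. -/
structure Leaf (w : ℝ → ℝ) (𝒜 : Submodule ℝ (Mt n)) (N : Set (Mt n)) : Prop where
  herm : ∀ H ∈ N, H.IsHermitian
  curve : ∀ H ∈ N, ∀ A ∈ 𝒜, ∃ γ : ℝ → Mt n, γ 0 = H ∧ (∀ᶠ s in 𝓝 (0 : ℝ), γ s ∈ N) ∧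
    HasDerivAt γ (Zf w H A) 0
  invol : ∀ H ∈ N, ∀ A ∈ 𝒜, ∀ B ∈ 𝒜, ∀ (γ δ : ℝ → Mt n) (X Y : Mt n), γ 0 = H → δ 0 = H →
    (∀ᶠ s in 𝓝 (0 : ℝ), γ s ∈ N) → (∀ᶠ s in 𝓝 (0 : ℝ), δ s ∈ N) →
    HasDerivAt γ (Zf w H A) 0 → HasDerivAt δ (Zf w H B) 0 →
    HasDerivAt (fun s => Zf w (γ s) B) X 0 → HasDerivAt (fun s => Zf w (δ s) A) Y 0 →
    ∃ C ∈ 𝒜, X - Y = Zf w H C

/-- Continuous spectral data with a constant number of distinct eigenvalues. -/
structure Strat (N : Set (Mt n)) {m : ℕ} (l : Mt n → Fin m → ℝ) (P : Mt n → Fin m → Mt n) :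
    Prop where
  res : ∀ H ∈ N, IsRes (P H)
  ne : ∀ H ∈ N, ∀ a, P H a ≠ 0
  eq : ∀ H ∈ N, H = dg (P H) (l H)
  inj : ∀ H ∈ N, Function.Injective (l H)
  cl : ∀ a, ContinuousOn (fun H => l H a) N
  cP : ∀ a, ContinuousOn (fun H => P H a) N

/-- A piece of a leaf on which nothing degenerates. `R a b` says that `l a - l b` has zero
derivative along the leaf. -/
structure Good (w : ℝ → ℝ) (𝒜 : Submodule ℝ (Mt n)) (N : Set (Mt n)) {m : ℕ}
    (l : Mt n → Fin m → ℝ) (P : Mt n → Fin m → Mt n) (R : Fin m → Fin m → Prop) : Prop where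
  leaf : Leaf w 𝒜 N
  strat : Strat N l P
  cst : ∀ a b, R a b → ∀ H ∈ N, ∀ A ∈ 𝒜, mu (P H) A a = mu (P H) A b
  ncst : ∀ a b, ¬ R a b → ∀ H ∈ N, ∃ A ∈ 𝒜, mu (P H) A a ≠ mu (P H) A b
  sep : ∀ a b c d, (∀ H ∈ N, l H a - l H b = l H c - l H d) ∨
    ∀ H ∈ N, l H a - l H b ≠ l H c - l H d
  sgn : ∀ a b, (∀ H ∈ N, l H a ≤ l H b) ∨ ∀ H ∈ N, l H b < l H a

/-- Matrix valued maps whose entries have real and imaginary parts in a given algebra. -/
def PM {Ω : Type} (𝒮 : Subalgebra ℝ (Ω → ℝ)) (Φ : Ω → Mt n) : Prop :=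
  ∀ j k, (fun x => (Φ x j k).re) ∈ 𝒮 ∧ (fun x => (Φ x j k).im) ∈ 𝒮

/-- Real polynomial functions of a matrix. -/
def Pol (n : Type) : Subalgebra ℝ (Mt n → ℝ) :=
  Algebra.adjoin ℝ {F | ∃ j k, F = (fun X => (X j k).re) ∨ F = fun X => (X j k).im}

/-- What is used of the Zariski closure of a generic leaf. -/
structure Hull (𝒜 : Submodule ℝ (Mt n)) (S : Set (Mt n)) : Prop where
  hermA : ∀ A ∈ 𝒜, A.IsHermitian
  herm : ∀ H ∈ S, H.IsHermitian
  transl : ∀ H ∈ S, ∀ A ∈ 𝒜, H + A ∈ S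
  stab : ∀ Φ : Mt n → Mt n, PM (Pol n) Φ → (∀ H ∈ S, Φ H = 0) → ∀ H ∈ S, ∀ A ∈ 𝒜, ∀ Y,
    HasDerivAt (fun s : ℝ => Φ (H + s • ⁅H, ⁅H, A⁆⁆)) Y 0 → Y = 0
  trs : ∀ H ∈ S, ∀ A ∈ 𝒜, ∀ B ∈ 𝒜, ∀ k, tor (2 * k) H A B ∈ 𝒜

/-- The centre of `𝒜`. -/
def cen (𝒜 : Submodule ℝ (Mt n)) : Submodule ℝ (Mt n) where
  carrier := {Z | Z ∈ 𝒜 ∧ ∀ C ∈ 𝒜, Commute Z C}
  add_mem' hX hY := ⟨add_mem hX.1 hY.1, fun C hC => (hX.2 C hC).add_left (hY.2 C hC)⟩
  zero_mem' := ⟨zero_mem _, fun C _ => Commute.zero_left C⟩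
  smul_mem' c _ hX := ⟨𝒜.smul_mem c hX.1, fun C hC => (hX.2 C hC).smul_left c⟩

/-- A simple ideal of the Lie triple system `𝒜`. -/
structure Irr (𝒜 W : Submodule ℝ (Mt n)) : Prop where
  le : W ≤ 𝒜
  inv : ∀ A ∈ 𝒜, ∀ B ∈ 𝒜, ∀ C ∈ W, ⁅⁅A, B⁆, C⁆ ∈ W
  perp : ∀ C ∈ 𝒜, (∀ A ∈ W, ip A C = 0) → ∀ A ∈ W, Commute A C
  form : ∀ b : Mt n →ₗ[ℝ] Mt n →ₗ[ℝ] ℝ, (∀ A ∈ 𝒜, ∀ B ∈ 𝒜, b A B = b B A) →
    (∀ A₁ ∈ 𝒜, ∀ A₂ ∈ 𝒜, ∀ A ∈ 𝒜, ∀ B ∈ 𝒜, b ⁅⁅A₁, A₂⁆, A⁆ B + b A ⁅⁅A₁, A₂⁆, B⁆ = 0) →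
    ∃ c : ℝ, ∀ A ∈ W, ∀ B ∈ 𝒜, b A B = c * ip A B
  func : ∀ l : Mt n →ₗ[ℝ] ℝ, (∀ A₁ ∈ 𝒜, ∀ A₂ ∈ 𝒜, ∀ A ∈ W, l ⁅⁅A₁, A₂⁆, A⁆ = 0) →
    ∀ A ∈ W, l A = 0
  nonab : ∃ A ∈ W, ∃ B ∈ W, ⁅A, B⁆ ≠ 0

/-- A joint spectral resolution of a commuting family `𝔷`. -/
structure Joint (𝔷 : Submodule ℝ (Mt n)) {m : ℕ} (Q : Fin m → Mt n)
    (d : Fin m → Module.Dual ℝ 𝔷) : Prop where
  res : IsRes Q
  eq : ∀ A : 𝔷, (A : Mt n) = dg Q fun a => d a A
  inj : Function.Injective d
  comm : ∀ X : Mt n, (∀ A ∈ 𝔷, Commute X A) → ∀ a, Commute X (Q a)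

open Classical in
/-- The component of weight `α`. -/
noncomputable def comp {𝔷 : Submodule ℝ (Mt n)} {m : ℕ} (Q : Fin m → Mt n)
    (d : Fin m → Module.Dual ℝ 𝔷) (α : Module.Dual ℝ 𝔷) : Module.End ℝ (Mt n) :=
  mlt Q fun a b => if d a - d b = α then 1 else 0

/-- The derivative of order `k + 1` in `t` of `(1 + s) / 2 * (t / (t + s) + t / (1 + t s))`. -/
noncomputable def kk (k : ℕ) (s t : ℝ) : ℝ :=
  (1 + s) / 2 * ((-1) ^ k * (k + 1).factorial) *
    (s / (t + s) ^ (k + 2) + s ^ k / (1 + t * s) ^ (k + 2))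

end Pool.Agent.Work.MP_2482e4_mp.Gn
end

-- merged part: Pool.Agent.Work.MP_2482e4_mp.Gn.Rs
section
/-!
Resolutions of the identity: calculus of components P a X P b.
Hints. Everything follows from res_ext and the component formulas. P a * P b = if a = b then P a else 0; use
Finset.sum_eq_single or simp with Finset.mul_sum, Finset.sum_mul, mul_assoc after rewriting
P a * (P c * X) = (P a * P c) * X. dad_res: induction on m, compare components (comp_mul, comp_tri, comp_mk) term by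
term in c. Scalar identity for c different from a, with x_ab = x_ac + x_cb:
x_ab * (x_ab^m - x_cb^m) / x_ac + x_cb^m = (x_ab^(m+1) - x_cb^(m+1)) / x_ac; for c = a: x^m + x * (m * x^(m-1)) = (m+1) * x^m.
-/

open scoped ComplexOrder Topology ContDiff Matrix.Norms.L2Operator
open Matrix Filter Module

set_option linter.unusedSectionVars false

namespace Pool.Agent.Work.MP_2482e4_mp.Gn

variable {n : Type} [Fintype n] [DecidableEq n]

variable {J : Type} [Fintype J] [DecidableEq J] {P : J → Mt n}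

theorem IsRes.mul' (h : IsRes P) (a c : J) (X : Mt n) :
    P a * (P c * X) = if a = c then P a * X else 0 := by
  rw [← mul_assoc, h.mul]
  split_ifs <;> simp

theorem IsRes.ins (h : IsRes P) (X Y : Mt n) : X * Y = ∑ c, X * (P c * Y) := by
  rw [← Finset.mul_sum, ← Finset.sum_mul, h.sum, one_mul]

theorem IsRes.sum_comp (h : IsRes P) (X : Mt n) : ∑ a, ∑ b, P a * X * P b = X := by
  simp only [← Finset.mul_sum, ← Finset.sum_mul, h.sum, mul_one, one_mul]

theorem IsRes.ext (h : IsRes P) {X Y : Mt n} (e : ∀ a b, P a * X * P b = P a * Y * P b) :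
    X = Y := by
  rw [← h.sum_comp X, ← h.sum_comp Y]
  simp only [e]

theorem IsRes.comp_mk (h : IsRes P) (κ : J → J → ℝ) (X : Mt n) (a b : J) :
    P a * mlt P κ X * P b = κ a b • (P a * X * P b) := by
  simp [mk_apply, Finset.mul_sum, Finset.sum_mul, mul_assoc, h.mul', h.mul, mul_ite, smul_ite]

theorem IsRes.comp_tri (h : IsRes P) (τ : J → J → J → ℝ) (X Y : Mt n) (a b : J) :
    P a * tri P τ X Y * P b = ∑ c, τ a c b • (P a * X * P c * Y * P b) := by
  simp only [tri, Finset.mul_sum, Finset.sum_mul, mul_assoc, h.mul', h.mul, ite_mul, mul_ite,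
    smul_ite, mul_smul_comm, smul_mul_assoc, mul_zero, zero_mul, smul_zero]
  rw [Finset.sum_comm]
  simp

theorem IsRes.comp_mul (h : IsRes P) (X Y : Mt n) (a b : J) :
    P a * (X * Y) * P b = ∑ c, P a * X * P c * Y * P b := by
  simp only [mul_assoc]
  rw [h.ins X, Finset.mul_sum]

theorem IsRes.mul_dg (h : IsRes P) (l : J → ℝ) (a : J) : P a * dg P l = l a • P a := by
  simp [dg, Finset.mul_sum, h.mul]

theorem IsRes.dg_mul (h : IsRes P) (l : J → ℝ) (a : J) : dg P l * P a = l a • P a := by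
  simp [dg, Finset.sum_mul, h.mul]

theorem IsRes.dg_herm (h : IsRes P) (l : J → ℝ) : (dg P l).IsHermitian := by
  change star (dg P l) = _
  simp only [dg, star_sum, star_smul, star_trivial]
  exact Finset.sum_congr rfl fun a _ => by rw [show star (P a) = P a from h.herm a]

theorem IsRes.mk_one (h : IsRes P) (X : Mt n) : mlt P (fun _ _ => 1) X = X := by
  simp only [mk_apply, one_smul, h.sum_comp]

theorem IsRes.mk_mk (h : IsRes P) (κ κ' : J → J → ℝ) (X : Mt n) :
    mlt P κ (mlt P κ' X) = mlt P (fun a b => κ a b * κ' a b) X :=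
  h.ext fun a b => by simp only [h.comp_mk, smul_smul]

theorem mk_congr {κ κ' : J → J → ℝ} {X : Mt n}
    (e : ∀ a b, P a * X * P b ≠ 0 → κ a b = κ' a b) : mlt P κ X = mlt P κ' X :=
  Finset.sum_congr rfl fun a _ => Finset.sum_congr rfl fun b _ => by
    by_cases h : P a * X * P b = 0
    · simp only [h, smul_zero]
    · rw [e a b h]

theorem mk_add (κ κ' : J → J → ℝ) (X : Mt n) :
    mlt P (fun a b => κ a b + κ' a b) X = mlt P κ X + mlt P κ' X := by
  simp only [mk_apply, add_smul, Finset.sum_add_distrib]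

theorem mk_const_mul (c : ℝ) (κ : J → J → ℝ) (X : Mt n) :
    mlt P (fun a b => c * κ a b) X = c • mlt P κ X := by
  simp only [mk_apply, mul_smul, Finset.smul_sum]

theorem IsRes.lie_dg (h : IsRes P) (l : J → ℝ) (X : Mt n) :
    ⁅dg P l, X⁆ = mlt P (fun a b => l a - l b) X :=
  h.ext fun a b => by
    rw [h.comp_mk, Ring.lie_def, mul_sub, sub_mul, ← mul_assoc, h.mul_dg, mul_assoc (P a) (X * _),
      mul_assoc X, h.dg_mul, sub_smul]
    simp [mul_assoc]

theorem IsRes.ad_pow (h : IsRes P) (l : J → ℝ) (m : ℕ) (X : Mt n) :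
    (ad (dg P l) ^ m) X = mlt P (fun a b => (l a - l b) ^ m) X := by
  induction m with
  | zero => simp only [pow_zero, h.mk_one, Module.End.one_apply]
  | succ m ih =>
    rw [ad_pow_succ, ih, h.lie_dg, h.mk_mk]
    simp only [pow_succ']

theorem IsRes.star_mk (h : IsRes P) (κ : J → J → ℝ) (X : Mt n) :
    star (mlt P κ X) = mlt P (fun a b => κ b a) (star X) := by
  have e : ∀ a, star (P a) = P a := h.herm
  simp only [mk_apply, star_sum, star_smul, star_trivial, star_mul, e, mul_assoc]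
  rw [Finset.sum_comm]

theorem IsRes.trace_pos (h : IsRes P) {a : J} (ha : P a ≠ 0) : 0 < (P a).trace.re := by
  have e : (P a)ᴴ * P a = P a := by rw [(h.herm a).eq, h.mul, if_pos rfl]
  have h1 := (posSemidef_conjTranspose_mul_self (P a)).trace_nonneg
  have h2 := trace_conjTranspose_mul_self_eq_zero_iff (A := P a)
  rw [e] at h1 h2
  refine (Complex.nonneg_iff.1 h1).1.lt_of_ne fun h3 => ha (h2.1 ?_)
  exact Complex.ext h3.symm (Complex.nonneg_iff.1 h1).2.symm

theorem IsRes.tri_mk_left (h : IsRes P) (τ : J → J → J → ℝ) (κ : J → J → ℝ) (X Y : Mt n) :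
    tri P τ (mlt P κ X) Y = tri P (fun a c b => τ a c b * κ a c) X Y := by
  simp only [tri, h.comp_mk, smul_mul_assoc, smul_smul]

theorem IsRes.tri_mk_right (h : IsRes P) (τ : J → J → J → ℝ) (κ : J → J → ℝ) (X Y : Mt n) :
    tri P τ X (mlt P κ Y) = tri P (fun a c b => τ a c b * κ c b) X Y := by
  have e : ∀ a c b, P a * X * P c * mlt P κ Y * P b = κ c b • (P a * X * P c * Y * P b) := by
    intro a c b
    have := h.comp_mk κ Y c b
    simp only [mul_assoc] at this ⊢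
    rw [this, mul_smul_comm, mul_smul_comm]
  simp only [tri, e, smul_smul]

theorem IsRes.mk_tri (h : IsRes P) (κ : J → J → ℝ) (τ : J → J → J → ℝ) (X Y : Mt n) :
    mlt P κ (tri P τ X Y) = tri P (fun a c b => κ a b * τ a c b) X Y :=
  h.ext fun a b => by simp only [h.comp_mk, h.comp_tri, Finset.smul_sum, smul_smul]

theorem tri_add (τ τ' : J → J → J → ℝ) (X Y : Mt n) :
    tri P (fun a c b => τ a c b + τ' a c b) X Y = tri P τ X Y + tri P τ' X Y := by
  simp only [tri, add_smul, Finset.sum_add_distrib]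

theorem ip_tri (M : Mt n) (τ : J → J → J → ℝ) (X Y : Mt n) :
    ip M (tri P τ X Y) = ∑ a, ∑ c, ∑ b, τ a c b * ip M (P a * X * P c * Y * P b) := by
  simp only [tri, map_sum, map_smul, smul_eq_mul]

/-- The mean value only depends on the diagonal component. -/
theorem IsRes.mu_mk (h : IsRes P) (κ : J → J → ℝ) (X : Mt n) (a : J) :
    mu P (mlt P κ X) a = κ a a * mu P X a := by
  have e : ∀ Y : Mt n, (P a * Y).trace = (P a * Y * P a).trace := fun Y => by
    rw [trace_mul_comm (P a * Y), h.mul', if_pos rfl]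
  rw [mu, mu, e, e X, h.comp_mk, trace_smul, Complex.smul_re, smul_eq_mul, mul_assoc]

theorem IsRes.trace_dP (h : IsRes P) (l : J → ℝ) (v : Mt n) (a : J) : (dP P l v a).trace = 0 := by
  rw [dP, trace_sum]
  refine Finset.sum_eq_zero fun c _ => ?_
  rcases eq_or_ne a c with rfl | hac
  · simp
  · rw [trace_smul, trace_add, trace_mul_comm _ (P c), trace_mul_comm _ (P a), h.mul', h.mul',
      if_neg hac, if_neg hac.symm]
    simp

/-- `tr (P a A P c A)` is the squared norm of the component. -/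
theorem IsRes.trace_comp (h : IsRes P) {A : Mt n} (hA : A.IsHermitian) (a c : J) :
    (P a * A * P c * A).trace.re = ip (P a * A * P c) (P a * A * P c) ∧
    (P c * A * P a * A).trace.re = ip (P a * A * P c) (P a * A * P c) := by
  have e : ∀ a, star (P a) = P a := h.herm
  have e' : star A = A := hA
  have h2 : (P c * A * P a * A).trace = (star (P a * A * P c) * (P a * A * P c)).trace := by
    rw [← mul_assoc (star _), trace_mul_comm _ (P c)]
    simp only [star_mul, e, e', mul_assoc, h.mul', if_true]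
  rw [ip_apply, ← h2]
  refine ⟨?_, rfl⟩
  rw [mul_assoc (P a * A), trace_mul_comm, ← mul_assoc]

theorem IsRes.dad_res (h : IsRes P) {l : J → ℝ} (hl : Function.Injective l) (A B : Mt n) (m : ℕ) :
    dad (dg P l) A B m =
      tri P (dd l (fun a b => (l a - l b) ^ m) fun a b => m * (l a - l b) ^ (m - 1)) A B -
      tri P (de l (fun a b => (l a - l b) ^ m) fun a b => m * (l a - l b) ^ (m - 1)) B A := by
  induction m with
  | zero => simp [dad, tri, dd, de]
  | succ m ih =>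
    refine h.ext fun a b => ?_
    rw [dad, ih, h.lie_dg, h.ad_pow, Ring.lie_def]
    have e1 : ∀ c, P a * A * P c * mlt P (fun a b => (l a - l b) ^ m) B * P b =
        (l c - l b) ^ m • (P a * A * P c * B * P b) := fun c => by
      have := h.comp_mk (fun a b => (l a - l b) ^ m) B c b
      simp only [mul_assoc] at this ⊢
      rw [this, mul_smul_comm, mul_smul_comm]
    simp only [mul_add, add_mul, mul_sub, sub_mul, h.comp_mul, h.comp_mk, h.comp_tri, e1,
      smul_mul_assoc, smul_sub, Finset.smul_sum, smul_smul]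
    rw [sub_add_sub_comm, ← Finset.sum_add_distrib, ← Finset.sum_add_distrib]
    have k : ∀ x : ℝ, x ^ m + x * (m * x ^ (m - 1)) = (m + 1 : ℕ) * x ^ (m + 1 - 1) := fun x => by
      rcases m with _ | m
      · simp
      · simp only [Nat.add_sub_cancel]
        push_cast
        ring
    congr 1 <;> refine Finset.sum_congr rfl fun c _ => ?_ <;> rw [← add_smul] <;> congr 1
    · unfold dd
      split_ifs with hc
      · rw [hc, ← sub_mul]
        exact k _
      · have := sub_ne_zero.2 fun e => hc (hl e).symm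
        field_simp
        ring
    · unfold de
      split_ifs with hc
      · rw [hc, ← sub_mul]
        exact k _
      · have := sub_ne_zero.2 fun e => hc (hl e)
        field_simp
        ring

end Pool.Agent.Work.MP_2482e4_mp.Gn
end

-- merged part: Pool.Agent.Work.MP_2482e4_mp.Gn.PM
section
/-!
Closure properties of PM and of the algebra Pol of polynomial functions.
Hints. Real and imaginary part of a product of entries: Complex.mul_re, Complex.mul_im, Matrix.mul_apply,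
Complex.re_sum; membership of a function sum: rewrite as a sum in the Pi algebra (Finset.sum_apply, funext) and use
Subalgebra.sum_mem. PM.functional: l X = sum over j k of (X j k).re * l (single j k 1) + (X j k).im * l (single j k I)
(Matrix.matrix_eq_sum_single). Pol facts: Algebra.adjoin_induction; generators are continuous linear maps.
-/

open scoped ComplexOrder Topology ContDiff Matrix.Norms.L2Operator
open Matrix Filter Module

set_option linter.unusedSectionVars false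

namespace Pool.Agent.Work.MP_2482e4_mp.Gn

variable {n : Type} [Fintype n] [DecidableEq n]

variable {Ω : Type} {𝒮 : Subalgebra ℝ (Ω → ℝ)} {Φ Ψ : Ω → Mt n}

theorem fun_sum_mem {κ : Type} (s : Finset κ) {F : κ → Ω → ℝ} (h : ∀ i ∈ s, F i ∈ 𝒮) :
    (fun x => ∑ i ∈ s, F i x) ∈ 𝒮 := by
  have e : (fun x => ∑ i ∈ s, F i x) = ∑ i ∈ s, F i := funext fun x => (Finset.sum_apply x s F).symm
  rw [e]
  exact 𝒮.sum_mem h

theorem fun_prod_mem {κ : Type} (s : Finset κ) {F : κ → Ω → ℝ} (h : ∀ i ∈ s, F i ∈ 𝒮) :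
    (fun x => ∏ i ∈ s, F i x) ∈ 𝒮 := by
  have e : (fun x => ∏ i ∈ s, F i x) = ∏ i ∈ s, F i := funext fun x => (Finset.prod_apply x s F).symm
  rw [e]
  exact 𝒮.prod_mem h

theorem PM.const (X : Mt n) : PM 𝒮 fun _ => X := fun _ _ => ⟨𝒮.algebraMap_mem _, 𝒮.algebraMap_mem _⟩

theorem PM.add (h : PM 𝒮 Φ) (h' : PM 𝒮 Ψ) : PM 𝒮 fun x => Φ x + Ψ x := fun j k =>
  ⟨add_mem (h j k).1 (h' j k).1, add_mem (h j k).2 (h' j k).2⟩

theorem PM.sub (h : PM 𝒮 Φ) (h' : PM 𝒮 Ψ) : PM 𝒮 fun x => Φ x - Ψ x := fun j k =>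
  ⟨sub_mem (h j k).1 (h' j k).1, sub_mem (h j k).2 (h' j k).2⟩

theorem PM.mul (h : PM 𝒮 Φ) (h' : PM 𝒮 Ψ) : PM 𝒮 fun x => Φ x * Ψ x := fun j k => by
  simp only [Matrix.mul_apply, Complex.re_sum, Complex.im_sum, Complex.mul_re, Complex.mul_im]
  exact ⟨fun_sum_mem _ fun i _ => sub_mem (mul_mem (h j i).1 (h' i k).1) (mul_mem (h j i).2 (h' i k).2),
    fun_sum_mem _ fun i _ => add_mem (mul_mem (h j i).1 (h' i k).2) (mul_mem (h j i).2 (h' i k).1)⟩

theorem PM.smul {r : Ω → ℝ} (hr : r ∈ 𝒮) (h : PM 𝒮 Φ) : PM 𝒮 fun x => r x • Φ x := fun j k => by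
  simp only [Matrix.smul_apply, Complex.smul_re, Complex.smul_im, smul_eq_mul]
  exact ⟨mul_mem hr (h j k).1, mul_mem hr (h j k).2⟩

theorem PM.sum {κ : Type} (s : Finset κ) {F : κ → Ω → Mt n} (h : ∀ i ∈ s, PM 𝒮 (F i)) :
    PM 𝒮 fun x => ∑ i ∈ s, F i x := fun j k => by
  simp only [Matrix.sum_apply, Complex.re_sum, Complex.im_sum]
  exact ⟨fun_sum_mem _ fun i hi => (h i hi j k).1, fun_sum_mem _ fun i hi => (h i hi j k).2⟩

theorem PM.lie (h : PM 𝒮 Φ) (h' : PM 𝒮 Ψ) : PM 𝒮 fun x => ⁅Φ x, Ψ x⁆ := (h.mul h').sub (h'.mul h)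

theorem PM.functional (h : PM 𝒮 Φ) (l : Mt n →ₗ[ℝ] ℝ) : (fun x => l (Φ x)) ∈ 𝒮 := by
  have e : ∀ X : Mt n, l X = ∑ j, ∑ k, ((X j k).re * l (single j k 1) +
      (X j k).im * l (single j k Complex.I)) := fun X => by
    conv_lhs => rw [Matrix.matrix_eq_sum_single X]
    simp only [map_sum, ← smul_eq_mul, ← map_smul, ← map_add]
    refine Finset.sum_congr rfl fun j _ => Finset.sum_congr rfl fun k _ => ?_
    rw [smul_single, smul_single, ← single_add]
    congr 2
    apply Complex.ext <;> simp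
  rw [funext fun x => e (Φ x)]
  exact fun_sum_mem _ fun j _ => fun_sum_mem _ fun k _ =>
    add_mem (mul_mem (h j k).1 (𝒮.algebraMap_mem _)) (mul_mem (h j k).2 (𝒮.algebraMap_mem _))

theorem PM.map (h : PM 𝒮 Φ) (T : Mt n →ₗ[ℝ] Mt n) : PM 𝒮 fun x => T (Φ x) := fun j k =>
  ⟨h.functional (Complex.reLm ∘ₗ Matrix.entryLinearMap ℝ ℂ j k ∘ₗ T),
    h.functional (Complex.imLm ∘ₗ Matrix.entryLinearMap ℝ ℂ j k ∘ₗ T)⟩

theorem PM.trace (h : PM 𝒮 Φ) : (fun x => (Φ x).trace.re) ∈ 𝒮 :=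
  h.functional (Complex.reLm ∘ₗ Matrix.traceLinearMap n ℝ ℂ)

theorem PM.mult {J : Type} [Fintype J] {P : Ω → J → Mt n} {κ : Ω → J → J → ℝ}
    (hP : ∀ a, PM 𝒮 fun x => P x a) (hκ : ∀ a b, (fun x => κ x a b) ∈ 𝒮) (h : PM 𝒮 Φ) :
    PM 𝒮 fun x => mlt (P x) (κ x) (Φ x) :=
  PM.sum Finset.univ fun a _ => PM.sum Finset.univ fun b _ =>
    PM.smul (hκ a b) (((hP a).mul h).mul (hP b))

theorem PM.adPow (h : PM 𝒮 Φ) (h' : PM 𝒮 Ψ) (m : ℕ) : PM 𝒮 fun x => (ad (Φ x) ^ m) (Ψ x) := by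
  induction m with
  | zero => exact h'
  | succ m ih =>
    simp only [ad_pow_succ]
    exact h.lie ih

theorem PM.torsion (h : PM 𝒮 Φ) (m : ℕ) (A B : Mt n) : PM 𝒮 fun x => tor m (Φ x) A B := by
  have key : ∀ (A B : Mt n) (m : ℕ), PM 𝒮 fun x => dad (Φ x) A B m := fun A B m => by
    induction m with
    | zero => exact PM.const 0
    | succ m ih => exact ((PM.const A).lie (h.adPow (PM.const B) m)).add (h.lie ih)
  exact (key A B m).sub (key B A m)

theorem PM.self : PM (Pol n) fun X : Mt n => X := fun j k =>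
  ⟨Algebra.subset_adjoin ⟨j, k, Or.inl rfl⟩, Algebra.subset_adjoin ⟨j, k, Or.inr rfl⟩⟩

variable {F : Mt n → ℝ}

theorem pol_comp (hF : F ∈ Pol n) (h : PM 𝒮 Φ) : (fun x => F (Φ x)) ∈ 𝒮 := by
  induction hF using Algebra.adjoin_induction with
  | mem F hF =>
    obtain ⟨j, k, rfl | rfl⟩ := hF
    exacts [(h j k).1, (h j k).2]
  | algebraMap c => exact 𝒮.algebraMap_mem c
  | add _ _ _ _ h1 h2 => exact add_mem h1 h2
  | mul _ _ _ _ h1 h2 => exact mul_mem h1 h2

theorem pol_gen {F : Mt n → ℝ} (hF : ∃ j k, F = (fun X => (X j k).re) ∨ F = fun X => (X j k).im) :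
    ∃ L : Mt n →L[ℝ] ℝ, F = L := by
  obtain ⟨j, k, rfl | rfl⟩ := hF
  · exact ⟨LinearMap.toContinuousLinearMap (Complex.reLm ∘ₗ Matrix.entryLinearMap ℝ ℂ j k), rfl⟩
  · exact ⟨LinearMap.toContinuousLinearMap (Complex.imLm ∘ₗ Matrix.entryLinearMap ℝ ℂ j k), rfl⟩

theorem pol_differentiable (hF : F ∈ Pol n) : Differentiable ℝ F := by
  induction hF using Algebra.adjoin_induction with
  | mem F hF =>
    obtain ⟨L, rfl⟩ := pol_gen hF
    exact L.differentiable
  | algebraMap c => exact differentiable_const c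
  | add _ _ _ _ h1 h2 => exact h1.add h2
  | mul _ _ _ _ h1 h2 => exact h1.mul h2

theorem pol_fderiv (hF : F ∈ Pol n) (h : PM 𝒮 Φ) (h' : PM 𝒮 Ψ) :
    (fun x => fderiv ℝ F (Φ x) (Ψ x)) ∈ 𝒮 := by
  induction hF using Algebra.adjoin_induction with
  | mem F hF =>
    obtain ⟨L, rfl⟩ := pol_gen hF
    simp only [L.fderiv]
    exact h'.functional L.toLinearMap
  | algebraMap c =>
    have e : (algebraMap ℝ (Mt n → ℝ) c) = fun _ => c := rfl
    simp only [e, fderiv_fun_const, Pi.zero_apply, _root_.zero_apply]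
    exact zero_mem _
  | add _ _ g1 g2 h1 h2 =>
    simp only [fderiv_add (pol_differentiable g1 _) (pol_differentiable g2 _),
      _root_.add_apply]
    exact add_mem h1 h2
  | mul _ _ g1 g2 h1 h2 =>
    simp only [fderiv_mul (pol_differentiable g1 _) (pol_differentiable g2 _),
      _root_.add_apply, _root_.smul_apply, smul_eq_mul]
    exact add_mem (mul_mem (pol_comp g1 h) h2) (mul_mem (pol_comp g2 h) h1)

theorem pol_line (hF : F ∈ Pol n) (H A : Mt n) :
    ∃ q : Polynomial ℝ, ∀ s : ℝ, F (H + s • A) = q.eval s := by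
  induction hF using Algebra.adjoin_induction with
  | mem F hF =>
    obtain ⟨L, rfl⟩ := pol_gen hF
    exact ⟨Polynomial.C (L H) + Polynomial.X * Polynomial.C (L A), fun s => by
      rw [map_add, map_smul]
      simp only [Polynomial.eval_add, Polynomial.eval_mul, Polynomial.eval_C, Polynomial.eval_X,
        smul_eq_mul]⟩
  | algebraMap c => exact ⟨Polynomial.C c, fun s => by simp⟩
  | add _ _ _ _ h1 h2 =>
    obtain ⟨q1, h1⟩ := h1
    obtain ⟨q2, h2⟩ := h2
    exact ⟨q1 + q2, fun s => by simp [h1, h2]⟩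
  | mul _ _ _ _ h1 h2 =>
    obtain ⟨q1, h1⟩ := h1
    obtain ⟨q2, h2⟩ := h2
    exact ⟨q1 * q2, fun s => by simp [h1, h2]⟩

end Pool.Agent.Work.MP_2482e4_mp.Gn
end
end

-- merged part: Pool.Agent.Work.MP_2482e4_mp.Gn.Der
section
/-!
First order perturbation of eigenvalues and spectral projections along a curve in a stratum.
Plan. Write P s, l s for the data at γ s (continuous at 0: ContinuousOn composed with γ, which tends to H within N).
Identity for s near 0: P 0 c * (γ s - γ 0) * P s a = (l s a - l 0 c) • (P 0 c * P s a).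
c = a: take traces, (l s a - l 0 a) / s = tr (P 0 a * slope * P s a) / tr (P 0 a * P s a) tends to mu; pass to the limit in
the identity divided by s to get P a v P a = mu • P a (hasDerivAt_iff_tendsto_slope_zero).
c different from a: P 0 c * P s a = (l s a - l 0 c)⁻¹ • P 0 c * (γ s - γ 0) * P s a has derivative
(l a - l c)⁻¹ • P c v P a. Finally P s a = ∑ c, P 0 c * P s a and P 0 a * P s a = P 0 a - ∑ over c different from a of
P 0 a * P s c. hasDerivAt_mk: product rule, then compare components with IsRes.ext.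
-/

open scoped ComplexOrder Topology ContDiff Matrix.Norms.L2Operator
open Matrix Filter Module

set_option linter.unusedSectionVars false

namespace Pool.Agent.Work.MP_2482e4_mp.Gn

variable {n : Type} [Fintype n] [DecidableEq n]

variable {N : Set (Mt n)} {m : ℕ} {l : Mt n → Fin m → ℝ} {P : Mt n → Fin m → Mt n}
  {γ : ℝ → Mt n} {H v : Mt n}

theorem Der_op {E F G : Type} [NormedAddCommGroup E] [NormedSpace ℝ E] [TopologicalSpace F]
    [NormedAddCommGroup G] [NormedSpace ℝ G] (op : E → F → G)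
    (hc : Continuous fun p : E × F => op p.1 p.2)
    (hs : ∀ (c : ℝ) x y, op (c • x) y = c • op x y) {f : ℝ → E} {f' : E} {g : ℝ → F}
    (hf : HasDerivAt f f' 0) (h0 : f 0 = 0) (hg : ContinuousAt g 0) :
    HasDerivAt (fun s => op (f s) (g s)) (op f' (g 0)) 0 := by
  have hz : ∀ y, op 0 y = 0 := fun y => by simpa using hs 0 0 y
  rw [hasDerivAt_iff_tendsto_slope_zero] at hf ⊢
  simp only [zero_add, h0, hz, sub_zero, ← hs] at hf ⊢
  exact (hc.tendsto (f', g 0)).comp (hf.prodMk_nhds (hg.tendsto.mono_left nhdsWithin_le_nhds))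

theorem Der_sum {J M : Type} [Fintype J] [DecidableEq J] [AddCommGroup M] [Module ℝ M]
    (l k k' : J → ℝ) (T : J → J → M) :
    ∑ a, (k a • ∑ c, (l a - l c)⁻¹ • (T a c + T c a) + k' a • T a a) =
      ∑ a, ∑ c, (if c = a then k' a else (k a - k c) * (l a - l c)⁻¹) • T a c := by
  have e : ∀ a c, (if c = a then k' a else (k a - k c) * (l a - l c)⁻¹) • T a c =
      (k a * (l a - l c)⁻¹) • T a c + (k c * (l c - l a)⁻¹) • T a c +
        if c = a then k' a • T a a else 0 := fun a c => by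
    split_ifs with hc
    · simp [hc]
    · rw [← neg_sub (l a) (l c), inv_neg]
      module
  simp only [e, Finset.sum_add_distrib, Finset.sum_ite_eq', Finset.mem_univ, if_true,
    Finset.smul_sum, smul_add, smul_smul]
  rw [Finset.sum_comm (f := fun a c => (k c * (l c - l a)⁻¹) • T a c)]

/-- The real part of the trace. -/
noncomputable def Der_tr : Mt n →L[ℝ] ℝ :=
  LinearMap.toContinuousLinearMap (Complex.reLm ∘ₗ Matrix.traceLinearMap n ℝ ℂ)

theorem Der_tr_apply (X : Mt n) : Der_tr X = X.trace.re := rfl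

theorem Der_lim (hH : H ∈ N) (h0 : γ 0 = H) (hN : ∀ᶠ s in 𝓝 (0 : ℝ), γ s ∈ N)
    (hγ : HasDerivAt γ v 0) {Y : Type} [TopologicalSpace Y] {f : Mt n → Y}
    (hf : ContinuousOn f N) : ContinuousAt (fun s => f (γ s)) 0 := by
  subst h0
  exact (hf _ hH).tendsto.comp (tendsto_nhdsWithin_iff.2 ⟨hγ.continuousAt.tendsto, hN⟩)

theorem Strat.Der_id (h : Strat N l P) (hH : H ∈ N) {G : Mt n} (hG : G ∈ N) (c a : Fin m) :
    P H c * (G - H) * P G a = (l G a - l H c) • (P H c * P G a) := by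
  have h1 := (h.res G hG).dg_mul (l G) a
  have h2 := (h.res H hH).mul_dg (l H) c
  rw [← h.eq G hG] at h1
  rw [← h.eq H hH] at h2
  rw [mul_sub, sub_mul, mul_assoc, h1, h2, sub_smul, mul_smul_comm, smul_mul_assoc]

theorem Strat.Der_F (h : Strat N l P) (hH : H ∈ N) (h0 : γ 0 = H)
    (hN : ∀ᶠ s in 𝓝 (0 : ℝ), γ s ∈ N) (hγ : HasDerivAt γ v 0) (c a : Fin m) :
    HasDerivAt (fun s => P H c * (γ s - H) * P (γ s) a) (P H c * v * P H a) 0 := by
  have := Der_op (fun x y : Mt n => x * y) continuous_mul smul_mul_assoc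
    ((hγ.sub_const H).const_mul (P H c)) (by simp [h0]) (Der_lim hH h0 hN hγ (h.cP a))
  rwa [h0] at this

theorem Strat.Der_sq (h : Strat N l P) (hH : H ∈ N) (a : Fin m) : P H a * P H a = P H a := by
  rw [(h.res H hH).mul, if_pos rfl]

theorem Strat.deriv_l (h : Strat N l P) (hH : H ∈ N) (h0 : γ 0 = H)
    (hN : ∀ᶠ s in 𝓝 (0 : ℝ), γ s ∈ N) (hγ : HasDerivAt γ v 0) (a : Fin m) :
    HasDerivAt (fun s => l (γ s) a) (mu (P H) v a) 0 := by
  have hp := ((h.res H hH).trace_pos (h.ne H hH a)).ne'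
  have hc : ContinuousAt (fun s => Der_tr (P H a * P (γ s) a)) 0 :=
    Der_tr.continuous.continuousAt.comp (continuousAt_const.mul (Der_lim hH h0 hN hγ (h.cP a)))
  have hne : Der_tr (P H a * P (γ 0) a) ≠ 0 := by rwa [h0, h.Der_sq hH]
  have h1 := Der_op (fun x y : ℝ => x * y) continuous_mul smul_mul_assoc
    (Der_tr.hasFDerivAt.comp_hasDerivAt 0 (h.Der_F hH h0 hN hγ a a)) (by simp [h0]) (hc.inv₀ hne)
  have e : Der_tr (P H a * v * P H a) * (Der_tr (P H a * P (γ 0) a))⁻¹ = mu (P H) v a := by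
    rw [h0, h.Der_sq hH, Der_tr_apply, trace_mul_comm, ← mul_assoc, h.Der_sq hH]
    rfl
  refine (e ▸ h1.add_const (l H a)).congr_of_eventuallyEq ?_
  filter_upwards [hN, hc.eventually_ne hne] with s hs hs'
  simp only [Function.comp_apply, Pi.inv_apply]
  rw [h.Der_id hH hs, map_smul, smul_eq_mul, mul_inv_cancel_right₀ hs', sub_add_cancel]

theorem Strat.diag (h : Strat N l P) (hH : H ∈ N) (h0 : γ 0 = H)
    (hN : ∀ᶠ s in 𝓝 (0 : ℝ), γ s ∈ N) (hγ : HasDerivAt γ v 0) (a : Fin m) :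
    P H a * v * P H a = mu (P H) v a • P H a := by
  have h1 := Der_op (fun (x : ℝ) (y : Mt n) => x • y) continuous_smul smul_assoc
    ((h.deriv_l hH h0 hN hγ a).sub_const (l H a)) (by simp [h0])
    (g := fun s => P H a * P (γ s) a) (continuousAt_const.mul (Der_lim hH h0 hN hγ (h.cP a)))
  rw [h0, h.Der_sq hH] at h1
  exact (h.Der_F hH h0 hN hγ a a).unique
    (h1.congr_of_eventuallyEq (hN.mono fun s hs => h.Der_id hH hs a a))

theorem Strat.deriv_P (h : Strat N l P) (hH : H ∈ N) (h0 : γ 0 = H)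
    (hN : ∀ᶠ s in 𝓝 (0 : ℝ), γ s ∈ N) (hγ : HasDerivAt γ v 0) (a : Fin m) :
    HasDerivAt (fun s => P (γ s) a) (dP (P H) (l H) v a) 0 := by
  have key : ∀ c a, c ≠ a → HasDerivAt (fun s => P H c * P (γ s) a)
      ((l H a - l H c)⁻¹ • (P H c * v * P H a)) 0 := fun c a hca => by
    have hc : ContinuousAt (fun s => l (γ s) a - l H c) 0 :=
      (Der_lim hH h0 hN hγ (h.cl a)).sub continuousAt_const
    have hne : l (γ 0) a - l H c ≠ 0 := by
      rw [h0]
      exact sub_ne_zero.2 fun e => hca (h.inj H hH e).symm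
    have h1 := Der_op (fun (x : Mt n) (y : ℝ) => y • x) (continuous_snd.smul continuous_fst)
      (fun c x y => smul_comm y c x) (h.Der_F hH h0 hN hγ c a) (by simp [h0]) (hc.inv₀ hne)
    simp only [Pi.inv_apply, h0] at h1
    refine h1.congr_of_eventuallyEq ?_
    filter_upwards [hN, hc.eventually_ne hne] with s hs hs'
    rw [h.Der_id hH hs, inv_smul_smul₀ hs']
  have h1 : ∀ c ∈ Finset.univ, HasDerivAt (fun s => P H c * P (γ s) a - P H a * P (γ s) c)
      ((l H a - l H c)⁻¹ • (P H a * v * P H c + P H c * v * P H a)) 0 := fun c _ => by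
    rcases eq_or_ne c a with rfl | hc
    · simpa using hasDerivAt_const (0 : ℝ) (0 : Mt n)
    · refine ((key c a hc).fun_sub (key a c hc.symm)).congr_deriv ?_
      rw [← neg_sub (l H a) (l H c), inv_neg]
      module
  refine ((HasDerivAt.fun_sum h1).add_const (P H a)).congr_of_eventuallyEq (hN.mono fun s hs => ?_)
  simp only [Finset.sum_sub_distrib, ← Finset.sum_mul, ← Finset.mul_sum, (h.res H hH).sum,
    (h.res _ hs).sum, one_mul, mul_one, sub_add_cancel]

theorem Strat.hasDerivAt_mk (h : Strat N l P) (hH : H ∈ N) (h0 : γ 0 = H)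
    (hN : ∀ᶠ s in 𝓝 (0 : ℝ), γ s ∈ N) (hγ : HasDerivAt γ v 0) {κ : ℝ → Fin m → Fin m → ℝ}
    {κ' : Fin m → Fin m → ℝ}
    (hκ : ∀ a b, HasDerivAt (fun s => κ s a b) (κ' a b * (mu (P H) v a - mu (P H) v b)) 0)
    (B : Mt n) :
    HasDerivAt (fun s => mlt (P (γ s)) (κ s) B)
      (tri (P H) (dd (l H) (κ 0) κ') v B - tri (P H) (de (l H) (κ 0) κ') B v) 0 := by
  have hP := h.deriv_P hH h0 hN hγ
  have hd := h.diag hH h0 hN hγ
  have h1 := HasDerivAt.fun_sum (u := Finset.univ) fun a _ =>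
    HasDerivAt.fun_sum (u := Finset.univ) fun b _ =>
      (hκ a b).fun_smul (((hP a).mul_const B).fun_mul (hP b))
  simp only [h0] at h1
  refine h1.congr_deriv ?_
  have e1 : tri (P H) (dd (l H) (κ 0) κ') v B = ∑ a, ∑ b, (κ 0 a b • (dP (P H) (l H) v a * B * P H b) +
      (κ' a b * mu (P H) v a) • (P H a * B * P H b)) := by
    rw [tri, Finset.sum_comm (f := fun a b => κ 0 a b • (dP (P H) (l H) v a * B * P H b) + _)]
    simp only [Finset.sum_comm (s := Finset.univ) (t := Finset.univ)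
      (f := fun c b => dd (l H) (κ 0) κ' _ c b • _)]
    rw [Finset.sum_comm]
    refine Finset.sum_congr rfl fun b _ => ?_
    refine (Der_sum (l H) (fun a => κ 0 a b) (fun a => κ' a b)
      fun a c => P H a * v * P H c * B * P H b).symm.trans (Finset.sum_congr rfl fun a _ => ?_)
    simp only [dP, hd, Finset.sum_mul, smul_mul_assoc, add_mul, smul_smul]
  have e2 : tri (P H) (de (l H) (κ 0) κ') B v = ∑ a, ∑ b,
      -(κ 0 a b • (P H a * B * dP (P H) (l H) v b) +
        (-κ' a b * mu (P H) v b) • (P H a * B * P H b)) := by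
    refine Finset.sum_congr rfl fun a _ => ?_
    have h2 := Der_sum (l H) (fun b => κ 0 a b) (fun b => -κ' a b)
      fun b c => P H a * B * (P H c * v * P H b)
    rw [Finset.sum_comm, Finset.sum_neg_distrib, eq_neg_iff_add_eq_zero]
    refine Eq.trans (congrArg _ ((Finset.sum_congr rfl fun b _ => ?_).trans h2)) ?_
    · simp only [dP, hd, Finset.mul_sum, mul_smul_comm, mul_add, smul_smul,
        add_comm (P H a * B * (P H b * v * P H _))]
    · simp only [← Finset.sum_add_distrib]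
      refine Finset.sum_eq_zero fun b _ => Finset.sum_eq_zero fun c _ => ?_
      simp only [de, ← mul_assoc, ← add_smul]
      split_ifs
      · simp
      · rw [← neg_sub (l H b) (l H c), inv_neg]
        simp
  rw [e1, e2, ← Finset.sum_sub_distrib]
  refine Finset.sum_congr rfl fun a _ => ?_
  rw [← Finset.sum_sub_distrib]
  refine Finset.sum_congr rfl fun b _ => ?_
  module

end Pool.Agent.Work.MP_2482e4_mp.Gn
end

-- merged part: Pool.Agent.Work.MP_2482e4_mp.Gn.Zf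
section
-- merged part: Pool.Agent.Work.MP_2482e4_mp.Gn.Ip
section
/-!
The real inner product on matrices: elementary facts, orthogonal projections, eigenvectors.
Hints. ip X X = Re tr (X* X), see posSemidef_conjTranspose_mul_self, trace_conjTranspose_mul_self_eq_zero_iff.
exists_proj: LinearMap.BilinForm.isCompl_orthogonal_of_restrict_nondegenerate, or a local InnerProductSpace.Core.
exists_eig: maximise b A A on the compact set of A in W with ip A A = 1, or use a local inner product space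
structure on W and LinearMap.IsSymmetric.hasEigenvalue_iSup_of_finiteDimensional.
inner_der: x = projection of X on I; star x has the same property so x is Hermitian; [X - x, Y] lies in I and is
orthogonal to I by ip_lie; if [A, X] = 0 then [A, x] lies in I and equals -[A, X - x], which is orthogonal to I.
-/

open scoped ComplexOrder Topology ContDiff Matrix.Norms.L2Operator
open Matrix Filter Module

set_option linter.unusedSectionVars false

namespace Pool.Agent.Work.MP_2482e4_mp.Gn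

variable {n : Type} [Fintype n] [DecidableEq n]

theorem ip_comm (X Y : Mt n) : ip X Y = ip Y X := by
  rw [ip_apply, ip_apply, ← Complex.conj_re, ← Complex.star_def, ← trace_conjTranspose]
  congr 2
  exact (star_mul _ _).trans (by rw [star_star])

theorem ip_self_nonneg (X : Mt n) : 0 ≤ ip X X :=
  (Complex.nonneg_iff.1 (posSemidef_conjTranspose_mul_self X).trace_nonneg).1

theorem ip_self_eq_zero {X : Mt n} (h : ip X X = 0) : X = 0 :=
  trace_conjTranspose_mul_self_eq_zero_iff.1 (Complex.ext h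
    (Complex.nonneg_iff.1 (posSemidef_conjTranspose_mul_self X).trace_nonneg).2.symm)

theorem ip_self_pos {X : Mt n} (h : X ≠ 0) : 0 < ip X X :=
  (ip_self_nonneg X).lt_of_ne fun e => h (ip_self_eq_zero e.symm)

theorem ip_herm {X : Mt n} (hX : X.IsHermitian) (Y : Mt n) : ip X Y = (X * Y).trace.re := by
  rw [ip_apply, show star X = X from hX]

theorem ip_star (X Y : Mt n) : ip (star X) (star Y) = ip X Y := by
  rw [ip_comm X, ip_apply, ip_apply, star_star, trace_mul_comm]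

theorem ip_lie (X K Y : Mt n) : ip X ⁅K, Y⁆ = ip ⁅star K, X⁆ Y := by
  simp only [ip_apply, Ring.lie_def, star_sub, star_mul, star_star, mul_sub, sub_mul, trace_sub,
    mul_assoc]
  rw [trace_mul_comm K, mul_assoc]

theorem ip_lie_herm {K : Mt n} (hK : K.IsHermitian) (X Y : Mt n) : ip X ⁅K, Y⁆ = ip ⁅K, X⁆ Y := by
  rw [ip_lie, show star K = K from hK]

theorem star_lie' (X Y : Mt n) : star ⁅X, Y⁆ = -⁅star X, star Y⁆ := by
  simp only [Ring.lie_def, star_sub, star_mul, neg_sub]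

theorem ip_lie_lie {A B : Mt n} (hA : A.IsHermitian) (hB : B.IsHermitian) (X Y : Mt n) :
    ip X ⁅⁅A, B⁆, Y⁆ = -ip ⁅⁅A, B⁆, X⁆ Y := by
  rw [ip_lie, star_lie', show star A = A from hA, show star B = B from hB, ← LinearMap.neg_apply,
    ← map_neg]
  congr 2
  simp only [Ring.lie_def]
  noncomm_ring

theorem herm_lie_lie {A B C : Mt n} (hA : A.IsHermitian) (hB : B.IsHermitian)
    (hC : C.IsHermitian) : (⁅⁅A, B⁆, C⁆ : Mt n).IsHermitian := by
  change star (⁅⁅A, B⁆, C⁆ : Mt n) = _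
  rw [star_lie', star_lie', show star A = A from hA, show star B = B from hB,
    show star C = C from hC]
  simp only [Ring.lie_def]
  noncomm_ring

theorem lie_eq_zero_iff {X Y : Mt n} : ⁅X, Y⁆ = 0 ↔ Commute X Y := sub_eq_zero

theorem commute_lie {X A B : Mt n} (hA : Commute X A) (hB : Commute X B) : Commute X ⁅A, B⁆ := (hA.mul_right hB).sub_right (hB.mul_right hA)

/-- For a Hermitian `X` orthogonal to a Hermitian `Y` the trace of the product vanishes. -/
theorem trace_eq_ip {X Y : Mt n} (hX : X.IsHermitian) (hY : Y.IsHermitian) :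
    (X * Y).trace = (ip X Y : ℝ) := by
  rw [ip_herm hX]
  have h : star (X * Y).trace = (X * Y).trace := by
    rw [← trace_conjTranspose, conjTranspose_mul, hX.eq, hY.eq, trace_mul_comm]
  exact (Complex.conj_eq_iff_re.1 h).symm

/-- A linear functional on `W` is represented by a vector of `W`. -/
theorem exists_riesz (W : Submodule ℝ (Mt n)) (l : Mt n →ₗ[ℝ] ℝ) :
    ∃ x ∈ W, ∀ Y ∈ W, l Y = ip Y x := by
  let φ : W →ₗ[ℝ] Module.Dual ℝ W := ip.flip.compl₁₂ W.subtype W.subtype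
  have hinj : Function.Injective φ := by
    rw [← LinearMap.ker_eq_bot, LinearMap.ker_eq_bot']
    intro x hx
    exact Subtype.ext (ip_self_eq_zero (congrArg (fun L : Module.Dual ℝ W => L x) hx))
  obtain ⟨x, hx⟩ := (LinearMap.injective_iff_surjective_of_finrank_eq_finrank
    Subspace.dual_finrank_eq.symm).1 hinj (l ∘ₗ W.subtype)
  exact ⟨x, x.2, fun Y hY => (congrArg (fun L : Module.Dual ℝ W => L ⟨Y, hY⟩) hx).symm⟩

theorem exists_proj (W : Submodule ℝ (Mt n)) (X : Mt n) :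
    ∃ x ∈ W, ∀ Y ∈ W, ip Y (X - x) = 0 := by
  obtain ⟨x, hx, h⟩ := exists_riesz W (ip.flip X)
  exact ⟨x, hx, fun Y hY => by rw [map_sub, ← h Y hY, LinearMap.flip_apply, sub_self]⟩

theorem mem_of_perp {W : Submodule ℝ (Mt n)} {X : Mt n}
    (h : ∀ M, (∀ Y ∈ W, ip Y M = 0) → ip M X = 0) : X ∈ W := by
  obtain ⟨x, hx, h1⟩ := exists_proj W X
  have h2 : ip (X - x) (X - x) = 0 := by
    rw [map_sub (ip (X - x)), h _ h1, ip_comm, h1 x hx, sub_zero]
  rwa [sub_eq_zero.1 (ip_self_eq_zero h2)]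

/-- Among Hermitian matrices it is enough to test with Hermitian matrices. -/
theorem mem_of_perp_herm {W : Submodule ℝ (Mt n)} (hW : ∀ Y ∈ W, Y.IsHermitian) {X : Mt n}
    (hX : X.IsHermitian) (h : ∀ M : Mt n, M.IsHermitian → (∀ Y ∈ W, ip Y M = 0) → ip M X = 0) :
    X ∈ W := by
  obtain ⟨x, hx, h1⟩ := exists_proj W X
  have h2 : ip (X - x) (X - x) = 0 := by
    rw [map_sub (ip (X - x)), h _ (hX.sub (hW x hx)) h1, ip_comm, h1 x hx, sub_zero]
  rwa [sub_eq_zero.1 (ip_self_eq_zero h2)]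

theorem Ip_eig {V : Type} [AddCommGroup V] [Module ℝ V] [FiniteDimensional ℝ V] [Nontrivial V]
    (C : InnerProductSpace.Core ℝ V) (S : V →ₗ[ℝ] V)
    (hS : ∀ x y, C.inner (S x) y = C.inner x (S y)) : ∃ (c : ℝ) (A : V), A ≠ 0 ∧ S A = c • A := by
  let _ := C.toNormedAddCommGroup
  let _ : InnerProductSpace ℝ V := InnerProductSpace.ofCore C.toCore
  obtain ⟨A, hA⟩ := (LinearMap.IsSymmetric.hasEigenvalue_iSup_of_finiteDimensional (T := S)
    hS).exists_hasEigenvector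
  exact ⟨_, A, hA.2, hA.apply_eq_smul⟩

theorem exists_eig {W : Submodule ℝ (Mt n)} (hW : W ≠ ⊥) (b : Mt n →ₗ[ℝ] Mt n →ₗ[ℝ] ℝ)
    (hb : ∀ A ∈ W, ∀ B ∈ W, b A B = b B A) :
    ∃ c : ℝ, ∃ A ∈ W, A ≠ 0 ∧ ∀ B ∈ W, b A B = c * ip A B := by
  have : Nontrivial W := Submodule.nontrivial_iff_ne_bot.2 hW
  choose T hT hT' using fun A : Mt n => exists_riesz W (b A)
  let C : InnerProductSpace.Core ℝ W :=
    { inner := fun X Y => ip (X : Mt n) Y
      conj_inner_symm := fun X Y => by simpa using ip_comm _ _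
      re_inner_nonneg := fun X => ip_self_nonneg _
      add_left := fun X Y Z => by simp
      smul_left := fun X Y r => by simp
      definite := fun X h => Subtype.ext (ip_self_eq_zero h) }
  have uniq : ∀ X Y : W, (∀ Z ∈ W, ip Z (X : Mt n) = ip Z (Y : Mt n)) → X = Y := fun X Y h =>
    Subtype.ext (sub_eq_zero.1 (ip_self_eq_zero (by
      rw [map_sub (ip _), h _ (W.sub_mem X.2 Y.2), sub_self])))
  let S : W →ₗ[ℝ] W :=
    { toFun := fun A => ⟨T A, hT A⟩
      map_add' := fun A B => uniq _ _ fun Z hZ => by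
        simp only [Submodule.coe_add, map_add, ← hT' _ Z hZ, LinearMap.add_apply]
      map_smul' := fun c A => uniq _ _ fun Z hZ => by
        simp only [Submodule.coe_smul, map_smul, ← hT' _ Z hZ, LinearMap.smul_apply,
          RingHom.id_apply] }
  obtain ⟨c, A, hA0, hA⟩ := Ip_eig C S fun x y => by
    change ip (T x) y = ip (x : Mt n) (T y)
    rw [ip_comm, ← hT' _ _ y.2, ← hT' _ _ x.2, hb _ x.2 _ y.2]
  refine ⟨c, A, A.2, fun e => hA0 (Subtype.ext e), fun B hB => ?_⟩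
  rw [hT' _ B hB, show T A = c • (A : Mt n) from congrArg Subtype.val hA, map_smul, ip_comm,
    smul_eq_mul]

theorem inner_der {I : Submodule ℝ (Mt n)} (hs : ∀ Y ∈ I, star Y ∈ I)
    (hl : ∀ X ∈ I, ∀ Y ∈ I, ⁅X, Y⁆ ∈ I) {X : Mt n} (hX : X.IsHermitian)
    (hn : ∀ Y ∈ I, ⁅X, Y⁆ ∈ I) :
    ∃ x ∈ I, x.IsHermitian ∧ (∀ Y ∈ I, Commute (X - x) Y) ∧
      ∀ A : Mt n, A.IsHermitian → (∀ Y ∈ I, ⁅A, Y⁆ ∈ I) → Commute A X → Commute A x := by
  obtain ⟨x, hx, h1⟩ := exists_proj I X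
  have hX' : star X = X := hX
  have h2 : star x = x := by
    refine sub_eq_zero.1 (ip_self_eq_zero ?_)
    have h3 := I.sub_mem (hs x hx) hx
    have h4 := h1 _ (hs _ h3)
    rw [← ip_star, star_star, star_sub, hX'] at h4
    have h5 : star x - x = (X - x) - (X - star x) := by abel
    nth_rewrite 2 [h5]
    rw [map_sub (ip _), h1 _ h3, h4, sub_zero]
  have h3 : star (X - x) = X - x := by rw [star_sub, hX', h2]
  refine ⟨x, hx, h2, fun Y hY => lie_eq_zero_iff.1 (ip_self_eq_zero ?_), fun A hA hAI hc =>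
    lie_eq_zero_iff.1 (ip_self_eq_zero ?_)⟩
  · have h4 : ⁅X - x, Y⁆ ∈ I := by
      have := I.sub_mem (hn Y hY) (hl x hx Y hY)
      convert this using 1
      simp only [Ring.lie_def]
      noncomm_ring
    have h5 := h1 _ (hl _ (hs Y hY) _ h4)
    have h6 : ⁅X - x, Y⁆ = -⁅Y, X - x⁆ := by simp only [Ring.lie_def, neg_sub]
    rw [← ip_lie] at h5
    nth_rewrite 2 [h6]
    rw [map_neg, h5, neg_zero]
  · have h4 : ⁅A, x⁆ = -⁅A, X - x⁆ := by
      simp only [Ring.lie_def, mul_sub, sub_mul, hc.eq]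
      abel
    nth_rewrite 2 [h4]
    rw [map_neg, ip_lie_herm hA, h1 _ (hAI _ (hAI x hx)), neg_zero]

end Pool.Agent.Work.MP_2482e4_mp.Gn
end

-- merged part: Pool.Agent.Work.MP_2482e4_mp.Gn.Zf
section
/-!
The operator w (ad H).
Hints. Zf_Dg: Sch_transfer (CommAlg) with the trivial predicate and lie_Dg. Zf_poly: s = set of differences of
eigenvalues, Sch U (p (x i - x j)) = aeval (ad H) p by induction on p (Polynomial.induction_on), lie_Dg, Sch_Sch.
Zf_res: choose (exists_poly) p agreeing with w on s and on all l a - l b, use IsRes.ad_pow.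
Zf_mem: Sch_comp_mem as in comm_suf (Comm). Zf_add_comm: p agreeing with w on both finite sets;
(ad (h + R)) ^ k A = (ad h) ^ k A by induction, as R commutes with (ad h) ^ k A.
Zf_eig: in an eigenbasis each nonzero entry of B has (x i - x j) ^ 2 = c.
-/

open scoped ComplexOrder Topology ContDiff Matrix.Norms.L2Operator
open Matrix Filter Module

set_option linter.unusedSectionVars false

namespace Pool.Agent.Work.MP_2482e4_mp.Gn

variable {n : Type} [Fintype n] [DecidableEq n]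

variable {w v : ℝ → ℝ} {H : Mt n}

theorem Zf_aeval {T : Module.End ℝ (Mt n)} {A : Mt n} (F : (ℝ → ℝ) → Mt n)
    (h1 : ∀ f g, F (fun x => f x + g x) = F f + F g) (h2 : ∀ c f, F (fun x => c * f x) = c • F f)
    (h3 : ∀ m : ℕ, (T ^ m) A = F fun x => x ^ m) (p : Polynomial ℝ) :
    Polynomial.aeval T p A = F fun x => p.eval x := by
  induction p using Polynomial.induction_on' with
  | add p q hp hq => simp only [map_add, LinearMap.add_apply, Polynomial.eval_add, h1, hp, hq]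
  | monomial m a =>
    simp only [Polynomial.aeval_monomial, Module.End.mul_apply, Module.algebraMap_end_apply,
      Polynomial.eval_monomial, h2, h3]

theorem Zf_aeval_congr {T T' : Module.End ℝ (Mt n)} {A : Mt n}
    (h : ∀ m : ℕ, (T ^ m) A = (T' ^ m) A) (p : Polynomial ℝ) :
    Polynomial.aeval T p A = Polynomial.aeval T' p A := by
  induction p using Polynomial.induction_on' with
  | add p q hp hq => simp only [map_add, LinearMap.add_apply, hp, hq]
  | monomial m a =>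
    simp only [Polynomial.aeval_monomial, Module.End.mul_apply, Module.algebraMap_end_apply, h]

theorem Zf_sqrt (hw : ∀ x, w (-x) = w x) (x : ℝ) : w (√(x * x)) = w x := by
  rw [Real.sqrt_mul_self_eq_abs]
  rcases abs_choice x with h | h <;> rw [h]
  exact hw x

theorem Zf_Dg {U : Mt n} (hU : U * star U = 1) (x : n → ℝ) (w : ℝ → ℝ) (A : Mt n) :
    Zf w (Dg U x) A = Sch U (fun i j => w (x i - x j)) A := by
  have hH : (Dg U x).IsHermitian := Dg_herm x
  have hV : (hH.eigenvectorUnitary : Mt n) * star (hH.eigenvectorUnitary : Mt n) = 1 :=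
    Unitary.coe_mul_star_self _
  have e : Dg U x = Dg hH.eigenvectorUnitary hH.eigenvalues := hH.spectral_theorem
  rw [Zf, dif_pos hH]
  exact Sch_transfer hV hU (fun _ => True) _ _
    (fun B _ => ⟨by rw [← lie_Dg hV, ← lie_Dg hU, ← e], trivial⟩) w trivial

theorem Zf_poly (hH : H.IsHermitian) : ∃ s : Finset ℝ, ∀ (w : ℝ → ℝ) (p : Polynomial ℝ),
    (∀ x ∈ s, p.eval x = w x) → Zf w H = Polynomial.aeval (ad H) p := by
  classical
  obtain ⟨U, x, hU, rfl⟩ := exists_Dg hH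
  refine ⟨Finset.univ.image fun q : n × n => x q.1 - x q.2, fun w p hp => LinearMap.ext fun A => ?_⟩
  rw [Zf_Dg hU, Zf_aeval (fun f => Sch U (fun i j => f (x i - x j)) A)
    (fun f g => Sch_add hU _ _ A) (fun c f => Sch_const_mul hU c _ A)]
  · exact Sch_congr (fun i j => (hp _ (Finset.mem_image.2 ⟨(i, j), Finset.mem_univ _, rfl⟩)).symm) A
  · intro m
    induction m with
    | zero => simp [Sch_one hU]
    | succ m ih =>
      rw [ad_pow_succ, ih, lie_Dg hU, Sch_Sch hU]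
      exact Sch_congr (fun i j => by ring) A

theorem Zf_res {J : Type} [Fintype J] [DecidableEq J] {P : J → Mt n} (h : IsRes P) (l : J → ℝ)
    (w : ℝ → ℝ) (A : Mt n) : Zf w (dg P l) A = mlt P (fun a b => w (l a - l b)) A := by
  classical
  obtain ⟨s, hs⟩ := Zf_poly (h.dg_herm l)
  obtain ⟨p, hp⟩ := exists_poly (s ∪ Finset.univ.image fun q : J × J => l q.1 - l q.2) w
  rw [hs w p fun x hx => hp x (Finset.mem_union_left _ hx),
    Zf_aeval (fun f => mlt P (fun a b => f (l a - l b)) A) (fun f g => mk_add _ _ A)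
      (fun c f => mk_const_mul c _ A) fun m => h.ad_pow l m A]
  exact mk_congr fun a b _ => hp _ (Finset.mem_union_right _
    (Finset.mem_image.2 ⟨(a, b), Finset.mem_univ _, rfl⟩))

theorem Zf_Zf (hH : H.IsHermitian) (w v : ℝ → ℝ) (A : Mt n) :
    Zf w H (Zf v H A) = Zf (fun x => w x * v x) H A := by
  obtain ⟨U, x, hU, rfl⟩ := exists_Dg hH
  rw [Zf_Dg hU, Zf_Dg hU, Zf_Dg hU, Sch_Sch hU]

theorem Zf_one (hH : H.IsHermitian) (A : Mt n) : Zf (fun _ => 1) H A = A := by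
  obtain ⟨U, x, hU, rfl⟩ := exists_Dg hH
  rw [Zf_Dg hU, Sch_one hU]

theorem Zf_herm (hw : ∀ x, w (-x) = w x) (H : Mt n) {A : Mt n} (hA : A.IsHermitian) :
    (Zf w H A).IsHermitian := by
  by_cases hH : H.IsHermitian
  · obtain ⟨U, x, hU, rfl⟩ := exists_Dg hH
    rw [Zf_Dg hU]
    exact Sch_herm hU (fun i j => by rw [← hw, neg_sub]) hA
  · rw [Zf, dif_neg hH]
    exact isHermitian_zero

theorem Zf_mem (hw : ∀ x, w (-x) = w x) (hH : H.IsHermitian) {W : Submodule ℝ (Mt n)}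
    (hW : ∀ B ∈ W, ⁅H, ⁅H, B⁆⁆ ∈ W) {B : Mt n} (hB : B ∈ W) : Zf w H B ∈ W := by
  obtain ⟨U, x, hU, rfl⟩ := exists_Dg hH
  have := Sch_comp_mem hU W (fun i j => (x i - x j) * (x i - x j)) (fun B hB => by
    have := hW B hB
    rwa [lie_Dg hU, lie_Dg hU, Sch_Sch hU] at this) (fun t => w (√t)) hB
  simp only [Zf_sqrt hw] at this
  rwa [Zf_Dg hU]

theorem Zf_add_comm (w : ℝ → ℝ) {h R A : Mt n} (hh : h.IsHermitian) (hR : R.IsHermitian)
    (h1 : Commute R h) (h2 : Commute R A) : Zf w (h + R) A = Zf w h A := by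
  classical
  obtain ⟨s, hs⟩ := Zf_poly (hh.add hR)
  obtain ⟨t, ht⟩ := Zf_poly hh
  obtain ⟨p, hp⟩ := exists_poly (s ∪ t) w
  rw [hs w p fun x hx => hp x (Finset.mem_union_left _ hx),
    ht w p fun x hx => hp x (Finset.mem_union_right _ hx)]
  have key : ∀ m : ℕ, Commute R ((ad h ^ m) A) := by
    intro m
    induction m with
    | zero => exact h2
    | succ m ih =>
      rw [ad_pow_succ]
      exact commute_lie h1 ih
  refine Zf_aeval_congr (fun m => ?_) p
  induction m with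
  | zero => rfl
  | succ m ih =>
    rw [ad_pow_succ, ad_pow_succ, ih, Ring.lie_def, Ring.lie_def, add_mul, mul_add, (key m).eq]
    abel

theorem Zf_of_commute (w : ℝ → ℝ) (hH : H.IsHermitian) {A : Mt n} (h : Commute H A) :
    Zf w H A = w 0 • A := by
  obtain ⟨U, x, hU, rfl⟩ := exists_Dg hH
  rw [Zf_Dg hU, Sch_of_commute hU h (l := fun _ _ => w 0 * 1) fun i j e => by simp [e],
    Sch_const_mul hU, Sch_one hU]

theorem Zf_neg (hw : ∀ x, w (-x) = w x) (H A : Mt n) : Zf w (-H) A = Zf w H A := by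
  by_cases hH : H.IsHermitian
  · obtain ⟨U, x, hU, rfl⟩ := exists_Dg hH
    rw [← neg_one_smul ℝ, ← Dg_smul, Zf_Dg hU, Zf_Dg hU]
    exact Sch_congr (fun i j => by rw [← hw]; congr 1; ring) A
  · rw [Zf, Zf, dif_neg hH, dif_neg fun h => hH (by simpa using h.neg)]

theorem Zf_eig (hw : ∀ x, w (-x) = w x) (hH : H.IsHermitian) {B : Mt n} {c : ℝ}
    (h : ⁅H, ⁅H, B⁆⁆ = c • B) : Zf w H B = w (√c) • B := by
  obtain ⟨U, x, hU, rfl⟩ := exists_Dg hH
  rw [lie_Dg hU, lie_Dg hU, Sch_Sch hU] at h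
  rw [Zf_Dg hU]
  refine conj_ext hU fun i j => ?_
  have h1 := conj_Sch hU (fun i j => (x i - x j) * (x i - x j)) B i j
  rw [h, Matrix.mul_smul, Matrix.smul_mul, Matrix.smul_apply, Complex.real_smul] at h1
  rw [conj_Sch hU, Matrix.mul_smul, Matrix.smul_mul, Matrix.smul_apply, Complex.real_smul]
  by_cases hb : (star U * B * U) i j = 0
  · rw [hb, mul_zero, mul_zero]
  · rw [Complex.ofReal_injective (mul_right_cancel₀ hb h1), Zf_sqrt hw]

variable {f : ℝ → ℝ}

theorem wf_pos (hf : ∀ t, 0 < t → 0 < f t) (x : ℝ) : 0 < wf f x :=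
  inv_pos.2 (div_pos (ddExp_pos _ _) (hf _ (Real.exp_pos x)))

theorem wf_neg (hfs : ∀ t, 0 < t → f t = t * f t⁻¹) (x : ℝ) : wf f (-x) = wf f x := by
  rw [wf, wf, wt_neg hfs]

theorem wf_zero (hf1 : f 1 = 1) : wf f 0 = 1 := by
  simp [wf, wt, ddExp, hf1]

theorem wf_eq (f : ℝ → ℝ) {x : ℝ} (hx : x ≠ 0) :
    wf f x = x * (Real.exp x - 1)⁻¹ * f (Real.exp x) := by
  rw [wf, wt, ddExp, if_neg hx, Real.exp_zero, sub_zero, inv_div, div_div_eq_mul_div,
    div_eq_mul_inv]
  ring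

theorem wf_hasDerivAt (hfd : ContDiffOn ℝ ∞ f (Set.Ioi 0)) {x : ℝ} (hx : x ≠ 0) :
    HasDerivAt (wf f)
      (((Real.exp x - 1)⁻¹ - x * Real.exp x * (Real.exp x - 1)⁻¹ ^ 2) * f (Real.exp x) +
        x * Real.exp x * (Real.exp x - 1)⁻¹ * deriv f (Real.exp x)) x := by
  have h1 : Real.exp x - 1 ≠ 0 := by
    rwa [sub_ne_zero, Ne, Real.exp_eq_one_iff]
  have h2 : HasDerivAt f (deriv f (Real.exp x)) (Real.exp x) :=
    ((hfd.contDiffAt (Ioi_mem_nhds (Real.exp_pos x))).differentiableAt (by simp)).hasDerivAt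
  have h3 := ((hasDerivAt_id' x).mul (((Real.hasDerivAt_exp x).sub_const 1).inv h1)).mul
    (h2.comp x (Real.hasDerivAt_exp x))
  refine (h3.congr_of_eventuallyEq ?_).congr_deriv ?_
  · filter_upwards [isOpen_ne.mem_nhds hx] with y hy
    exact wf_eq f hy
  · simp only [Pi.mul_apply, Pi.inv_apply, Function.comp_apply]
    field_simp
    ring

/-- The components of an element of the sum of commuting triple systems move separately. -/
theorem Zf_iSup_mem (hw : ∀ x, w (-x) = w x) {r : ℕ} {L : Fin r → Submodule ℝ (Mt n)}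
    (hh : ∀ i, ∀ X ∈ L i, X.IsHermitian) (hl : ∀ i, IsLieTriple (L i : Set (Mt n)))
    (hc : ∀ i j, i ≠ j → ∀ X ∈ L i, ∀ Y ∈ L j, Commute X Y) (hH : H ∈ ⨆ i, L i) (i : Fin r) :
    ∃ h ∈ L i, (H - h).IsHermitian ∧ (∀ X ∈ L i, Commute (H - h) X) ∧
      ∀ A ∈ L i, Zf w H A = Zf w h A ∧ Zf w H A ∈ L i := by
  have key : ∃ h ∈ L i, (H - h).IsHermitian ∧ ∀ X ∈ L i, Commute (H - h) X := by
    induction hH using Submodule.iSup_induction' with
    | mem j Y hY =>
      by_cases e : j = i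
      · exact ⟨Y, e ▸ hY, by simp, by simp⟩
      · exact ⟨0, zero_mem _, by simpa using hh j Y hY, by simpa using hc j i e Y hY⟩
    | zero => exact ⟨0, zero_mem _, by simp, by simp⟩
    | add X Y _ _ hX hY =>
      obtain ⟨a, ha, a1, a2⟩ := hX
      obtain ⟨b, hb, b1, b2⟩ := hY
      refine ⟨a + b, add_mem ha hb, ?_, fun Z hZ => ?_⟩ <;> rw [add_sub_add_comm]
      · exact a1.add b1
      · exact (a2 Z hZ).add_left (b2 Z hZ)
  obtain ⟨h, h1, h2, h3⟩ := key
  refine ⟨h, h1, h2, h3, fun A hA => ?_⟩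
  have e := Zf_add_comm w (hh i h h1) h2 (h3 h h1) (h3 A hA)
  rw [add_sub_cancel] at e
  refine ⟨e, e ▸ Zf_mem hw (hh i h h1) (fun B hB => ?_) hA⟩
  have e2 : ⁅h, ⁅h, B⁆⁆ = ⁅⁅B, h⁆, h⁆ := by
    simp only [Ring.lie_def]
    noncomm_ring
  rw [e2]
  exact hl i B hB h h1 h h1

end Pool.Agent.Work.MP_2482e4_mp.Gn
end

-- merged part: Pool.Agent.Work.MP_2482e4_mp.Gn.Ampl1
section
/-!
Algebra for the amplification lemma: filtration of the polynomial ring by the order of the jet variables.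
-/

set_option linter.unusedSectionVars false

namespace Pool.Agent.Work.MP_2482e4_mp.Gn

open MvPolynomial

theorem Ampl_card {κ : Type} [Fintype κ] {z : κ → ℝ} (hz : AlgebraicIndependent ℚ z)
    (T : Finset ℝ) (h : ∀ i, z i ∈ IntermediateField.adjoin ℚ (T : Set ℝ)) :
    Fintype.card κ ≤ T.card := by
  have h1 : (AlgebraicIndependent.matroid ℚ ℝ).Indep (Set.range z) := hz.to_subtype_range
  have h2 : Set.range z ⊆ (AlgebraicIndependent.matroid ℚ ℝ).closure (T : Set ℝ) := by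
    rintro _ ⟨i, rfl⟩
    rw [AlgebraicIndependent.matroid_closure_eq, SetLike.mem_coe, Subalgebra.mem_algebraicClosure]
    obtain ⟨p, hp, q, hq, e⟩ := IntermediateField.mem_adjoin_iff_div.mp (h i)
    by_cases hq0 : q = 0
    · rw [e, hq0, div_zero]
      exact isAlgebraic_zero
    · refine ⟨Polynomial.C ⟨q, hq⟩ * Polynomial.X - Polynomial.C ⟨p, hp⟩, ?_, ?_⟩
      · intro h0
        have h1 := congrArg (fun r => Polynomial.coeff r 1) h0
        simp only [Polynomial.coeff_sub, Polynomial.coeff_C_mul, Polynomial.coeff_X_one, mul_one,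
          Polynomial.coeff_C_succ, sub_zero, Polynomial.coeff_zero] at h1
        exact hq0 (congrArg Subtype.val h1)
      · rw [e]
        simp only [map_sub, map_mul, Polynomial.aeval_C, Polynomial.aeval_X]
        change q * (p / q) - p = 0
        field_simp
        ring
  have h3 := h1.encard_le_eRk_of_subset h2
  rw [Matroid.eRk_closure_eq] at h3
  have h4 := h3.trans (Matroid.eRk_le_encard _ _)
  rw [Set.encard_coe_eq_coe_finsetCard, ← Set.image_univ,
    hz.injective.injOn.encard_image, Set.encard_univ, ENat.card_eq_coe_fintype_card] at h4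
  exact_mod_cast h4

variable {Γ ι : Type}

/-- Polynomials with constants in `Cs`, the base variables and the jet variables of `V`. -/
noncomputable def AmplF (Cs : Set ℝ) (V : Set (ι × ℕ)) : Subring (MvPolynomial (Γ ⊕ (ι × ℕ)) ℝ) :=
  Subring.closure (C '' Cs ∪ (Set.range (fun g => X (Sum.inl g)) ∪ (fun p => X (Sum.inr p)) '' V))

theorem Ampl_C {Cs : Set ℝ} (V : Set (ι × ℕ)) {c : ℝ} (hc : c ∈ Cs) :
    (C c : MvPolynomial (Γ ⊕ (ι × ℕ)) ℝ) ∈ AmplF Cs V :=
  Subring.subset_closure (Or.inl ⟨c, hc, rfl⟩)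

theorem Ampl_inl (Cs : Set ℝ) (V : Set (ι × ℕ)) (g : Γ) :
    (X (Sum.inl g) : MvPolynomial (Γ ⊕ (ι × ℕ)) ℝ) ∈ AmplF Cs V :=
  Subring.subset_closure (Or.inr (Or.inl ⟨g, rfl⟩))

theorem Ampl_inr (Cs : Set ℝ) {V : Set (ι × ℕ)} {p : ι × ℕ} (hp : p ∈ V) :
    (X (Sum.inr p) : MvPolynomial (Γ ⊕ (ι × ℕ)) ℝ) ∈ AmplF Cs V :=
  Subring.subset_closure (Or.inr (Or.inr ⟨p, hp, rfl⟩))

theorem Ampl_mono {Cs Cs' : Set ℝ} {V V' : Set (ι × ℕ)} (h1 : Cs ⊆ Cs') (h2 : V ⊆ V') :
    (AmplF Cs V : Subring (MvPolynomial (Γ ⊕ (ι × ℕ)) ℝ)) ≤ AmplF Cs' V' :=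
  Subring.closure_mono (Set.union_subset_union (Set.image_mono h1)
    (Set.union_subset_union_right _ (Set.image_mono h2)))

/-- A ring homomorphism maps the filtration into any subring containing the images of the generators. -/
theorem Ampl_map {R : Type} [CommRing R] (φ : MvPolynomial (Γ ⊕ (ι × ℕ)) ℝ →+* R) (S : Subring R)
    {Cs : Set ℝ} {V : Set (ι × ℕ)} (h1 : ∀ c ∈ Cs, φ (C c) ∈ S) (h2 : ∀ g, φ (X (Sum.inl g)) ∈ S)
    (h3 : ∀ p ∈ V, φ (X (Sum.inr p)) ∈ S) {Q : MvPolynomial (Γ ⊕ (ι × ℕ)) ℝ}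
    (hQ : Q ∈ AmplF Cs V) : φ Q ∈ S := by
  have : AmplF Cs V ≤ S.comap φ := by
    refine Subring.closure_le.mpr ?_
    rintro _ (⟨c, hc, rfl⟩ | ⟨g, rfl⟩ | ⟨p, hp, rfl⟩)
    · exact h1 c hc
    · exact h2 g
    · exact h3 p hp
  exact this hQ

theorem Ampl_der (E : Derivation ℝ (MvPolynomial (Γ ⊕ (ι × ℕ)) ℝ) (MvPolynomial (Γ ⊕ (ι × ℕ)) ℝ))
    {Cs : Set ℝ} {V V' : Set (ι × ℕ)} (hV : V ⊆ V') (h2 : ∀ g, E (X (Sum.inl g)) ∈ AmplF Cs V')
    (h3 : ∀ p ∈ V, E (X (Sum.inr p)) ∈ AmplF Cs V') {Q : MvPolynomial (Γ ⊕ (ι × ℕ)) ℝ}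
    (hQ : Q ∈ AmplF Cs V) : E Q ∈ AmplF Cs V' := by
  induction hQ using Subring.closure_induction with
  | mem x hx =>
    rcases hx with ⟨c, hc, rfl⟩ | ⟨g, rfl⟩ | ⟨p, hp, rfl⟩
    · rw [derivation_C]
      exact zero_mem _
    · exact h2 g
    · exact h3 p hp
  | zero => rw [map_zero]; exact zero_mem _
  | one => rw [Derivation.map_one_eq_zero]; exact zero_mem _
  | add x y _ _ hx hy => rw [map_add]; exact add_mem hx hy
  | neg x _ hx => rw [map_neg]; exact neg_mem hx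
  | mul x y hx' hy' hx hy =>
    rw [Derivation.leibniz, smul_eq_mul, smul_eq_mul]
    exact add_mem (mul_mem (Ampl_mono le_rfl hV hx') hy) (mul_mem (Ampl_mono le_rfl hV hy') hx)

theorem Ampl_pderiv (s : Γ ⊕ (ι × ℕ)) {Cs : Set ℝ} {V : Set (ι × ℕ)}
    {Q : MvPolynomial (Γ ⊕ (ι × ℕ)) ℝ} (hQ : Q ∈ AmplF Cs V) : pderiv s Q ∈ AmplF Cs V := by
  classical
  have h : ∀ t, pderiv s (X t : MvPolynomial (Γ ⊕ (ι × ℕ)) ℝ) ∈ AmplF Cs V := by
    intro t
    rw [pderiv_X, Pi.single_apply]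
    split_ifs
    · exact one_mem _
    · exact zero_mem _
  exact Ampl_der _ le_rfl (fun g => h _) (fun p _ => h _) hQ

theorem Ampl_fin {V : Set (ι × ℕ)} {Q : MvPolynomial (Γ ⊕ (ι × ℕ)) ℝ} (hQ : Q ∈ AmplF Set.univ V) :
    ∃ Cs : Finset ℝ, Q ∈ AmplF (Cs : Set ℝ) V := by
  classical
  induction hQ using Subring.closure_induction with
  | mem x hx =>
    rcases hx with ⟨c, -, rfl⟩ | ⟨g, rfl⟩ | ⟨p, hp, rfl⟩
    · exact ⟨{c}, Ampl_C _ (by simp)⟩
    · exact ⟨∅, Ampl_inl _ _ g⟩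
    · exact ⟨∅, Ampl_inr _ hp⟩
  | zero => exact ⟨∅, zero_mem _⟩
  | one => exact ⟨∅, one_mem _⟩
  | add x y _ _ hx hy =>
    obtain ⟨A, hA⟩ := hx
    obtain ⟨B, hB⟩ := hy
    exact ⟨A ∪ B, add_mem (Ampl_mono (by simp) le_rfl hA) (Ampl_mono (by simp) le_rfl hB)⟩
  | neg x _ hx =>
    obtain ⟨A, hA⟩ := hx
    exact ⟨A, neg_mem hA⟩
  | mul x y _ _ hx hy =>
    obtain ⟨A, hA⟩ := hx
    obtain ⟨B, hB⟩ := hy
    exact ⟨A ∪ B, mul_mem (Ampl_mono (by simp) le_rfl hA) (Ampl_mono (by simp) le_rfl hB)⟩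

theorem Ampl_vars (Q : MvPolynomial (Γ ⊕ (ι × ℕ)) ℝ) :
    ∃ V : Finset (ι × ℕ), Q ∈ AmplF Set.univ (V : Set (ι × ℕ)) := by
  classical
  induction Q using MvPolynomial.induction_on with
  | C a => exact ⟨∅, Ampl_C _ (Set.mem_univ a)⟩
  | add p q hp hq =>
    obtain ⟨A, hA⟩ := hp
    obtain ⟨B, hB⟩ := hq
    exact ⟨A ∪ B, add_mem (Ampl_mono le_rfl (by simp) hA) (Ampl_mono le_rfl (by simp) hB)⟩
  | mul_X p s hp =>
    obtain ⟨A, hA⟩ := hp
    rcases s with g | v
    · exact ⟨A, mul_mem hA (Ampl_inl _ _ g)⟩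
    · exact ⟨insert v A, mul_mem (Ampl_mono le_rfl (by simp) hA) (Ampl_inr _ (by simp))⟩

/-- The formal total derivative. -/
noncomputable def AmplD (δ : Γ → MvPolynomial (Γ ⊕ (ι × ℕ)) ℝ) (ϑ : ι → MvPolynomial (Γ ⊕ (ι × ℕ)) ℝ) :
    Derivation ℝ (MvPolynomial (Γ ⊕ (ι × ℕ)) ℝ) (MvPolynomial (Γ ⊕ (ι × ℕ)) ℝ) :=
  mkDerivation ℝ (Sum.elim δ fun p => ϑ p.1 * X (Sum.inr (p.1, p.2 + 1)))

variable {δ : Γ → MvPolynomial (Γ ⊕ (ι × ℕ)) ℝ} {ϑ : ι → MvPolynomial (Γ ⊕ (ι × ℕ)) ℝ}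

theorem AmplD_inl (g : Γ) : AmplD δ ϑ (X (Sum.inl g)) = δ g := mkDerivation_X _ _ _

theorem AmplD_inr (i : ι) (k : ℕ) :
    AmplD δ ϑ (X (Sum.inr (i, k))) = ϑ i * X (Sum.inr (i, k + 1)) := mkDerivation_X _ _ _

theorem Ampl_lt {Cs : Set ℝ} {a b : ℕ} (h : a ≤ b) {Q : MvPolynomial (Γ ⊕ (ι × ℕ)) ℝ}
    (hQ : Q ∈ AmplF Cs {p : ι × ℕ | p.2 < a}) : Q ∈ AmplF Cs {p : ι × ℕ | p.2 < b} :=
  Ampl_mono le_rfl (fun _ hp => lt_of_lt_of_le hp h) hQ

theorem AmplD_mem {Cs : Set ℝ} (hδ : ∀ g, δ g ∈ AmplF Cs {p : ι × ℕ | p.2 < 1})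
    (hϑ : ∀ i, ϑ i ∈ AmplF Cs {p : ι × ℕ | p.2 < 1}) {J : ℕ} {Q : MvPolynomial (Γ ⊕ (ι × ℕ)) ℝ}
    (hQ : Q ∈ AmplF Cs {p : ι × ℕ | p.2 < J}) :
    AmplD δ ϑ Q ∈ AmplF Cs {p : ι × ℕ | p.2 < J + 1} := by
  refine Ampl_der _ (fun p hp => Nat.lt_succ_of_lt hp) (fun g => ?_) (fun p hp => ?_) hQ
  · rw [AmplD_inl]
    exact Ampl_lt (by omega) (hδ g)
  · obtain ⟨i, k⟩ := p
    rw [AmplD_inr]
    exact mul_mem (Ampl_lt (by omega) (hϑ i)) (Ampl_inr _ (Nat.succ_lt_succ hp))

variable [Fintype ι]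

theorem AmplD_top {Cs : Set ℝ} (hδ : ∀ g, δ g ∈ AmplF Cs {p : ι × ℕ | p.2 < 1})
    (hϑ : ∀ i, ϑ i ∈ AmplF Cs {p : ι × ℕ | p.2 < 1}) {K : ℕ} {Q : MvPolynomial (Γ ⊕ (ι × ℕ)) ℝ}
    (hQ : Q ∈ AmplF Cs {p : ι × ℕ | p.2 < K + 1}) (j : ℕ) :
    (AmplD δ ϑ)^[j + 1] Q - ∑ i, pderiv (Sum.inr (i, K)) Q * ϑ i ^ (j + 1) * X (Sum.inr (i, K + j + 1))
      ∈ AmplF Cs {p : ι × ℕ | p.2 < K + j + 1} := by
  classical
  induction j with
  | zero =>
    let E : Derivation ℝ (MvPolynomial (Γ ⊕ (ι × ℕ)) ℝ) (MvPolynomial (Γ ⊕ (ι × ℕ)) ℝ) :=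
      AmplD δ ϑ - ∑ i, (ϑ i * X (Sum.inr (i, K + 1))) • pderiv (Sum.inr (i, K))
    have hE : ∀ R, E R = AmplD δ ϑ R -
        ∑ i, pderiv (Sum.inr (i, K)) R * ϑ i * X (Sum.inr (i, K + 1)) := by
      intro R
      simp only [E, Derivation.coe_sub, Pi.sub_apply]
      congr 1
      rw [show (⇑(∑ i, (ϑ i * X (Sum.inr (i, K + 1))) • pderiv (R := ℝ) (Sum.inr (i, K) : Γ ⊕ (ι × ℕ))) :
          MvPolynomial (Γ ⊕ (ι × ℕ)) ℝ → MvPolynomial (Γ ⊕ (ι × ℕ)) ℝ) =
          ∑ i, ⇑((ϑ i * X (Sum.inr (i, K + 1))) • pderiv (R := ℝ) (Sum.inr (i, K) : Γ ⊕ (ι × ℕ))) from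
        map_sum Derivation.coeFnAddMonoidHom _ _, Finset.sum_apply]
      refine Finset.sum_congr rfl fun i _ => ?_
      rw [Derivation.smul_apply, smul_eq_mul]
      ring
    have h1 : E Q ∈ AmplF Cs {p : ι × ℕ | p.2 < K + 1} := by
      refine Ampl_der E le_rfl (fun g => ?_) (fun p hp => ?_) hQ
      · rw [hE, AmplD_inl, Finset.sum_eq_zero, sub_zero]
        · exact Ampl_lt (by omega) (hδ g)
        · intro i _
          rw [pderiv_X_of_ne (by simp), zero_mul, zero_mul]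
      · obtain ⟨i, k⟩ := p
        rw [hE, AmplD_inr]
        by_cases hk : k = K
        · subst hk
          rw [Finset.sum_eq_single i, pderiv_X_self, one_mul, sub_self]
          · exact zero_mem _
          · intro i' _ hi
            rw [pderiv_X_of_ne (by simpa using hi.symm), zero_mul, zero_mul]
          · simp
        · rw [Finset.sum_eq_zero, sub_zero]
          · have hp' : k < K + 1 := hp
            exact mul_mem (Ampl_lt (by omega) (hϑ i)) (Ampl_inr _ (show k + 1 < K + 1 by omega))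
          · intro i' _
            rw [pderiv_X_of_ne (by simp [hk]), zero_mul, zero_mul]
    rw [hE] at h1
    simpa using h1
  | succ j ih =>
    have h1 := AmplD_mem hδ hϑ ih
    have h2 : ∑ i, AmplD δ ϑ (pderiv (Sum.inr (i, K)) Q * ϑ i ^ (j + 1)) * X (Sum.inr (i, K + j + 1)) ∈
        AmplF Cs {p : ι × ℕ | p.2 < K + j + 1 + 1} := by
      refine sum_mem fun i _ => mul_mem ?_ (Ampl_inr _ (show K + j + 1 < K + j + 1 + 1 by omega))
      exact Ampl_lt (by omega) (AmplD_mem hδ hϑ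
        (mul_mem (Ampl_pderiv _ hQ) (pow_mem (Ampl_lt (by omega) (hϑ i)) _)))
    have h3 := add_mem h1 h2
    rw [map_sub, map_sum] at h3
    have e : K + (j + 1) + 1 = K + j + 1 + 1 := by omega
    rw [Function.iterate_succ_apply', e]
    convert h3 using 1
    rw [sub_add, ← Finset.sum_sub_distrib]
    congr 1
    refine Finset.sum_congr rfl fun i _ => ?_
    rw [Derivation.leibniz (AmplD δ ϑ) _ (X _), AmplD_inr, smul_eq_mul, smul_eq_mul]
    ring

/-- If all total derivatives of `Q` vanish at a generic point, so do its derivatives in the top variables. -/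
theorem Ampl_step [Fintype Γ] (v : Γ ⊕ (ι × ℕ) → ℝ)
    (hδ : ∀ g, δ g ∈ AmplF Set.univ {p : ι × ℕ | p.2 < 1})
    (hϑ : ∀ i, ϑ i ∈ AmplF Set.univ {p : ι × ℕ | p.2 < 1}) {K : ℕ}
    {Q : MvPolynomial (Γ ⊕ (ι × ℕ)) ℝ} (hQ : Q ∈ AmplF Set.univ {p : ι × ℕ | p.2 < K + 1})
    (h0 : ∀ j, aeval v ((AmplD δ ϑ)^[j] Q) = 0) {i₀ : ι} (hi : aeval v (ϑ i₀) ≠ 0) {K₀ : ℕ}
    (hgen : AlgebraicIndependent ℚ fun p : ι × ℕ => v (Sum.inr (p.1, K₀ + p.2))) :
    aeval v (pderiv (Sum.inr (i₀, K)) Q) = 0 := by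
  classical
  by_contra hne
  obtain ⟨C0, hC0⟩ := Ampl_fin hQ
  choose C1 hC1 using fun g => Ampl_fin (hδ g)
  choose C2 hC2 using fun i => Ampl_fin (hϑ i)
  let Cs : Finset ℝ := C0 ∪ (Finset.univ.biUnion C1 ∪ Finset.univ.biUnion C2)
  have hQ' : Q ∈ AmplF (Cs : Set ℝ) {p : ι × ℕ | p.2 < K + 1} :=
    Ampl_mono (by simp [Cs]) le_rfl hC0
  have hδ' : ∀ g, δ g ∈ AmplF (Cs : Set ℝ) {p : ι × ℕ | p.2 < 1} := fun g =>
    Ampl_mono (fun c hc => by
      simp only [Cs, Finset.coe_union, Set.mem_union, Finset.mem_coe, Finset.mem_biUnion]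
      exact Or.inr (Or.inl ⟨g, Finset.mem_univ _, hc⟩)) le_rfl (hC1 g)
  have hϑ' : ∀ i, ϑ i ∈ AmplF (Cs : Set ℝ) {p : ι × ℕ | p.2 < 1} := fun i =>
    Ampl_mono (fun c hc => by
      simp only [Cs, Finset.coe_union, Set.mem_union, Finset.mem_coe, Finset.mem_biUnion]
      exact Or.inr (Or.inr ⟨i, Finset.mem_univ _, hc⟩)) le_rfl (hC2 i)
  let T0 : Finset ℝ := Cs ∪ (Finset.univ.image (fun g => v (Sum.inl g)) ∪
    (Finset.univ ×ˢ Finset.range (K₀ + (K + 1))).image fun p => v (Sum.inr p))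
  let J := T0.card + 1
  let T1 : Finset ℝ := ((Finset.univ.erase i₀) ×ˢ Finset.range J).image
    fun p : ι × ℕ => v (Sum.inr (p.1, K₀ + (K + 1) + p.2))
  let L := IntermediateField.adjoin ℚ ((T0 ∪ T1 : Finset ℝ) : Set ℝ)
  have hL : ∀ t ∈ T0 ∪ T1, t ∈ L := fun t ht => IntermediateField.subset_adjoin _ _ ht
  have hF : ∀ n, (∀ k < n, ∀ i, v (Sum.inr (i, k)) ∈ L) →
      ∀ R ∈ AmplF (Cs : Set ℝ) {p : ι × ℕ | p.2 < n}, aeval v R ∈ L := by
    intro n hn R hR
    refine Ampl_map (aeval v : MvPolynomial (Γ ⊕ (ι × ℕ)) ℝ →ₐ[ℝ] ℝ).toRingHom L.toSubfield.toSubring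
      (fun c hc => ?_) (fun g => ?_) (fun p hp => ?_) hR
    · change aeval v (C c : MvPolynomial (Γ ⊕ (ι × ℕ)) ℝ) ∈ L
      rw [aeval_C]
      exact hL c (Finset.mem_union_left _ (Finset.mem_union_left _ hc))
    · change aeval v (X (Sum.inl g) : MvPolynomial (Γ ⊕ (ι × ℕ)) ℝ) ∈ L
      rw [aeval_X]
      exact hL _ (Finset.mem_union_left _ (Finset.mem_union_right _ (Finset.mem_union_left _
        (Finset.mem_image_of_mem _ (Finset.mem_univ g)))))
    · change aeval v (X (Sum.inr p) : MvPolynomial (Γ ⊕ (ι × ℕ)) ℝ) ∈ L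
      rw [aeval_X]
      exact hn p.2 hp p.1
  have hall : ∀ k, k < K₀ + (K + 1) + J → ∀ i, v (Sum.inr (i, k)) ∈ L := by
    intro k
    induction k using Nat.strong_induction_on with
    | _ k ih =>
      intro hk
      by_cases hk1 : k < K₀ + (K + 1)
      · intro i
        exact hL _ (Finset.mem_union_left _ (Finset.mem_union_right _ (Finset.mem_union_right _
          (Finset.mem_image_of_mem _ (Finset.mem_product.mpr
            ⟨Finset.mem_univ _, Finset.mem_range.mpr hk1⟩)))))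
      · have hoth : ∀ i, i ≠ i₀ → v (Sum.inr (i, k)) ∈ L := by
          intro i hi0
          refine hL _ (Finset.mem_union_right _ (Finset.mem_image.mpr ⟨(i, k - (K₀ + (K + 1))), ?_, ?_⟩))
          · exact Finset.mem_product.mpr ⟨Finset.mem_erase.mpr ⟨hi0, Finset.mem_univ _⟩,
              Finset.mem_range.mpr (by omega)⟩
          · have : K₀ + (K + 1) + (k - (K₀ + (K + 1))) = k := by omega
            simp only [this]
        intro i
        by_cases hi0 : i = i₀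
        · subst hi0
          obtain ⟨j, rfl⟩ : ∃ j, k = K + j + 1 := ⟨k - (K + 1), by omega⟩
          have hlow := hF (K + j + 1) fun k' hk' => ih k' hk' (by omega)
          have h1 := hlow _ (AmplD_top hδ' hϑ' hQ' j)
          rw [map_sub, h0, zero_sub, neg_mem_iff, map_sum,
            ← Finset.add_sum_erase _ _ (Finset.mem_univ i)] at h1
          have hco : ∀ i', aeval v (pderiv (Sum.inr (i', K)) Q * ϑ i' ^ (j + 1)) ∈ L := fun i' =>
            hlow _ (mul_mem (Ampl_lt (by omega) (Ampl_pderiv _ hQ'))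
              (pow_mem (Ampl_lt (by omega) (hϑ' i')) _))
          have h2 : ∑ i' ∈ Finset.univ.erase i, aeval v (pderiv (Sum.inr (i', K)) Q * ϑ i' ^ (j + 1) *
              X (Sum.inr (i', K + j + 1))) ∈ L := by
            refine sum_mem fun i' hi' => ?_
            rw [map_mul, aeval_X]
            exact mul_mem (hco i') (hoth i' (Finset.mem_erase.mp hi').1)
          have h3 := sub_mem h1 h2
          rw [add_sub_cancel_right, map_mul, aeval_X] at h3
          have h4 : aeval v (pderiv (Sum.inr (i, K)) Q * ϑ i ^ (j + 1)) ≠ 0 := by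
            rw [map_mul, map_pow]
            exact mul_ne_zero hne (pow_ne_zero _ hi)
          have h5 := mul_mem (inv_mem (hco i)) h3
          rwa [← mul_assoc, inv_mul_cancel₀ h4, one_mul] at h5
        · exact hoth i hi0
  have hind : AlgebraicIndependent ℚ fun p : ι × Fin J => v (Sum.inr (p.1, K₀ + (K + 1 + p.2))) := by
    refine hgen.comp (fun p : ι × Fin J => (p.1, K + 1 + (p.2 : ℕ))) ?_
    rintro ⟨a, b⟩ ⟨a', b'⟩ h
    simp only [Prod.mk.injEq, add_right_inj] at h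
    exact Prod.ext h.1 (Fin.ext h.2)
  have hc := Ampl_card hind (T0 ∪ T1) fun p => hall _ (by have := p.2.2; omega) _
  have hc1 : T1.card ≤ (Fintype.card ι - 1) * J := by
    refine Finset.card_image_le.trans ?_
    rw [Finset.card_product, Finset.card_erase_of_mem (Finset.mem_univ _), Finset.card_univ,
      Finset.card_range]
  have hc2 := Finset.card_union_le T0 T1
  rw [Fintype.card_prod, Fintype.card_fin] at hc
  have hpos : 0 < Fintype.card ι := Fintype.card_pos_iff.mpr ⟨i₀⟩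
  obtain ⟨m, hm⟩ : ∃ m, Fintype.card ι = m + 1 := ⟨Fintype.card ι - 1, by omega⟩
  rw [hm, Nat.add_sub_cancel] at hc1
  rw [hm, add_mul, one_mul] at hc
  have hJ : J = T0.card + 1 := rfl
  omega

/-- If all derivatives in one variable vanish at a point, that variable can be replaced by a constant. -/
theorem Ampl_subst {σ : Type} [DecidableEq σ] (v : σ → ℝ) (s : σ) (Q : MvPolynomial σ ℝ)
    (h : ∀ j, aeval v ((pderiv s)^[j] Q) = 0) (t : ℝ) : aeval (Function.update v s t) Q = 0 := by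
  let ψ : MvPolynomial σ ℝ →ₐ[ℝ] Polynomial ℝ :=
    aeval (Function.update (fun s' => Polynomial.C (v s')) s Polynomial.X)
  have h1 : ∀ R, Polynomial.derivative (ψ R) = ψ (pderiv s R) := by
    intro R
    induction R using MvPolynomial.induction_on with
    | C a => simp [ψ]
    | add p q hp hq => rw [map_add, map_add, hp, hq, map_add, map_add]
    | mul_X p s' hp =>
      rw [map_mul, Polynomial.derivative_mul, hp, Derivation.leibniz, smul_eq_mul, smul_eq_mul,
        map_add, map_mul, map_mul]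
      by_cases hs : s' = s
      · subst hs
        simp [ψ, add_comm, mul_comm]
      · simp [ψ, hs, pderiv_X_of_ne hs, mul_comm]
  have h2 : ∀ (u : ℝ) R, Polynomial.eval u (ψ R) = aeval (Function.update v s u) R := by
    intro u R
    induction R using MvPolynomial.induction_on with
    | C a => simp [ψ]
    | add p q hp hq => rw [map_add, Polynomial.eval_add, hp, hq, map_add]
    | mul_X p s' hp =>
      rw [map_mul, Polynomial.eval_mul, hp, map_mul]
      congr 1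
      by_cases hs : s' = s
      · subst hs
        simp [ψ]
      · simp [ψ, hs]
  have h3 : ∀ j R, Polynomial.derivative^[j] (ψ R) = ψ ((pderiv s)^[j] R) := by
    intro j
    induction j with
    | zero => intro R; rfl
    | succ j ih =>
      intro R
      rw [Function.iterate_succ_apply, Function.iterate_succ_apply, h1, ih]
  have h4 : ψ Q = 0 := by
    refine Polynomial.eq_zero_of_hasseDeriv_eq_zero _ (v s) fun k => ?_
    have h5 := congrFun (Polynomial.factorial_smul_hasseDeriv (R := ℝ) k) (ψ Q)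
    have h6 := congrArg (Polynomial.eval (v s)) h5
    rw [h3, h2, Function.update_eq_self, h, LinearMap.smul_apply, Polynomial.eval_smul,
      nsmul_eq_mul] at h6
    exact (mul_eq_zero.mp h6).resolve_left (by exact_mod_cast k.factorial_ne_zero)
  rw [← h2, h4, Polynomial.eval_zero]

end Pool.Agent.Work.MP_2482e4_mp.Gn
end

-- merged part: Pool.Agent.Work.MP_2482e4_mp.Gn.Ampl
section
/-!
Abstract amplification lemma: a polynomial relation between base functions and jets that can be differentiated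
does not involve the jets, if the jets of large order are algebraically independent at each point.

Plan. Let `σ = G ⊕ (ι × ℕ)` and `ev x η : MvPolynomial σ ℝ →ₐ[ℝ] ℝ := aeval (Sum.elim (fun g => g x) η)`,
`jet x = fun p => y p.1 p.2 x`. `F q = ev q.1 q.2 Q` for some `Q` (adjoin induction, or
`Algebra.adjoin_range_eq_range_aeval`). `Ord K` = polynomials in the variables `inl g` and `inr (i, k)`, `k < K`
(`MvPolynomial.supported` or `Algebra.adjoin`). For each `d` choose polynomials `δ d g`, `ϑ d i` in `Ord 1` whose values at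
`jet x` are the derivative of `g` and `θ d i`, and let `𝒟 d = MvPolynomial.mkDerivation` with `𝒟 (X (inl g)) = δ d g`,
`𝒟 (X (inr (i, k))) = ϑ d i * X (inr (i, k + 1))`. Chain rule (MvPolynomial.induction_on):
`Der d (fun x => ev x (jet x) Q) (fun x => ev x (jet x) (𝒟 d Q))`, so `I = {Q | ∀ x, ev x (jet x) Q = 0}` is stable under `𝒟 d`.
Step 1: if `Q ∈ I ∩ Ord (K + 1)` then `pderiv (inr (i, K)) Q ∈ I`. Otherwise its value at some `x` is not zero; take `d` with
`θ d i x ≠ 0` and a finite set `C` of reals containing the coefficients of `Q`, `δ d g`, `ϑ d i'`; let `Fil J` be the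
`ℚ`-subalgebra generated by the constants in `C` and the variables of `Ord J`. Then `𝒟 (Fil J) ⊆ Fil (J + 1)` for `J ≥ 1`,
`𝒟 Q - ∑ i', pderiv (inr (i', K)) Q * ϑ i' * X (inr (i', K + 1)) ∈ Fil (K + 1)` (adjoin induction) and by induction
`𝒟^[j + 1] Q - ∑ i', pderiv (inr (i', K)) Q * ϑ i' ^ (j + 1) * X (inr (i', K + j + 1)) ∈ Fil (K + j + 1)`. Evaluate at `x`:
`y i (K + j + 1) x` lies in the field generated by `C`, the `g x`, the jets of lower order and the other jets of the same order.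
By induction all jets of order `< K + 1 + J` lie in a field generated by `c + (card ι - 1) * J` elements (`c` independent of
`J`; start the count at `max (K + 1) K₀`), but it contains `card ι * J` algebraically independent elements: contradiction
for `J > c` (lemma `card_le_of_indep`).
Step 2: strong induction on the total degree and induction on `K`: if all `pderiv (inr (i, K)) Q` vanish for all `η`, then
`ev x η Q` does not depend on the variables of order `K` (a polynomial function with zero derivative in that variable; or use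
that `Q - Q₀` is handled one variable at a time), so replace `Q` by `Q₀ = bind₁ (set the variables of order K to 0) Q`.
-/

set_option linter.unusedSectionVars false

namespace Pool.Agent.Work.MP_2482e4_mp.Gn

/-- An algebraically independent family inside the field generated by a finite set is not larger than the set. -/
theorem card_le_of_indep {κ : Type} [Fintype κ] {z : κ → ℝ} (hz : AlgebraicIndependent ℚ z)
    (T : Finset ℝ) (h : ∀ i, z i ∈ IntermediateField.adjoin ℚ (T : Set ℝ)) :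
    Fintype.card κ ≤ T.card :=
  Ampl_card hz T h

theorem ampl {X ι D : Type} [Fintype ι] (Der : D → (X → ℝ) → (X → ℝ) → Prop)
    (hc : ∀ d (c : ℝ), Der d (fun _ => c) 0)
    (hadd : ∀ d g g' h h', Der d g g' → Der d h h' → Der d (g + h) (g' + h'))
    (hmul : ∀ d g g' h h', Der d g g' → Der d h h' → Der d (g * h) (g' * h + g * h'))
    (hzero : ∀ d g', Der d 0 g' → g' = 0)
    (G : Set (X → ℝ)) (hG : G.Finite) (y : ι → ℕ → X → ℝ) (θ : D → ι → X → ℝ)
    (hGd : ∀ d, ∀ g ∈ G, ∃ g' ∈ Algebra.adjoin ℝ (G ∪ Set.range fun i => y i 0), Der d g g')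
    (hθ : ∀ d i, θ d i ∈ Algebra.adjoin ℝ (G ∪ Set.range fun i => y i 0))
    (hy : ∀ d i k, Der d (y i k) (θ d i * y i (k + 1)))
    (hne : ∀ x i, ∃ d, θ d i x ≠ 0)
    (hgen : ∀ x, ∃ K : ℕ, AlgebraicIndependent ℚ fun p : ι × ℕ => y p.1 (K + p.2) x)
    {F : X × (ι × ℕ → ℝ) → ℝ}
    (hF : F ∈ Algebra.adjoin ℝ ((fun (g : X → ℝ) (q : X × (ι × ℕ → ℝ)) => g q.1) '' G ∪
      Set.range fun (p : ι × ℕ) (q : X × (ι × ℕ → ℝ)) => q.2 p))
    (h0 : ∀ x, F (x, fun p => y p.1 p.2 x) = 0) : F = 0 := by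
  classical
  have : Fintype G := hG.fintype
  let val : X → (ι × ℕ → ℝ) → G ⊕ (ι × ℕ) → ℝ := fun x η => Sum.elim (fun g => g.1 x) η
  let jet : X → ι × ℕ → ℝ := fun x p => y p.1 p.2 x
  let Φ : MvPolynomial (G ⊕ (ι × ℕ)) ℝ →ₐ[ℝ] (X → ℝ) :=
    MvPolynomial.aeval (Sum.elim (fun g => g.1) fun p => y p.1 p.2)
  have hΦ : ∀ Q x, Φ Q x = MvPolynomial.aeval (val x (jet x)) Q := by
    intro Q x
    induction Q using MvPolynomial.induction_on with
    | C a => simp [Φ]
    | add p q hp hq => rw [map_add, map_add, Pi.add_apply, hp, hq]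
    | mul_X p s hp =>
      rw [map_mul, map_mul, Pi.mul_apply, hp]
      congr 1
      rcases s with g | v <;> simp [Φ, val, jet]
  have hrep : ∀ f ∈ Algebra.adjoin ℝ (G ∪ Set.range fun i => y i 0),
      ∃ Q ∈ AmplF Set.univ {p : ι × ℕ | p.2 < 1}, Φ Q = f := by
    intro f hf
    induction hf using Algebra.adjoin_induction with
    | mem f hf =>
      rcases hf with hf | ⟨i, rfl⟩
      · exact ⟨_, Ampl_inl _ _ ⟨f, hf⟩, by simp [Φ]⟩
      · exact ⟨_, Ampl_inr _ (p := (i, 0)) (by simp), by simp [Φ]⟩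
    | algebraMap r => exact ⟨_, Ampl_C _ (Set.mem_univ r), by simp [Φ]⟩
    | add f g _ _ hf hg =>
      obtain ⟨p, hp, rfl⟩ := hf
      obtain ⟨q, hq, rfl⟩ := hg
      exact ⟨p + q, add_mem hp hq, map_add _ _ _⟩
    | mul f g _ _ hf hg =>
      obtain ⟨p, hp, rfl⟩ := hf
      obtain ⟨q, hq, rfl⟩ := hg
      exact ⟨p * q, mul_mem hp hq, map_mul _ _ _⟩
  have hδ : ∀ d (g : G), ∃ Q ∈ AmplF Set.univ {p : ι × ℕ | p.2 < 1}, Der d g.1 (Φ Q) := by
    intro d g
    obtain ⟨g', h1, h2⟩ := hGd d g.1 g.2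
    obtain ⟨Q, h3, rfl⟩ := hrep g' h1
    exact ⟨Q, h3, h2⟩
  choose δ hδ1 hδ2 using hδ
  choose ϑ hϑ1 hϑ2 using fun d i => hrep _ (hθ d i)
  have hchain : ∀ d Q, Der d (Φ Q) (Φ (AmplD (δ d) (ϑ d) Q)) := by
    intro d Q
    induction Q using MvPolynomial.induction_on with
    | C a =>
      rw [MvPolynomial.derivation_C, map_zero]
      have : Φ (MvPolynomial.C a) = fun _ => a := by
        funext x
        simp [Φ]
      rw [this]
      exact hc d a
    | add p q hp hq =>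
      rw [map_add, map_add, map_add]
      exact hadd d _ _ _ _ hp hq
    | mul_X p s hp =>
      have hs : Der d (Φ (MvPolynomial.X s)) (Φ (AmplD (δ d) (ϑ d) (MvPolynomial.X s))) := by
        rcases s with g | ⟨i, k⟩
        · rw [AmplD_inl]
          simpa [Φ] using hδ2 d g
        · rw [AmplD_inr, map_mul, hϑ2]
          simpa [Φ] using hy d i k
      have h1 := hmul d _ _ _ _ hp hs
      rw [map_mul, Derivation.leibniz, smul_eq_mul, smul_eq_mul, map_add, map_mul, map_mul]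
      convert h1 using 1
      ring
  have hiter : ∀ d j Q, Φ Q = 0 → Φ ((AmplD (δ d) (ϑ d))^[j] Q) = 0 := by
    intro d j
    induction j with
    | zero => exact fun Q h => h
    | succ j ih =>
      intro Q h
      rw [Function.iterate_succ_apply]
      refine ih _ (hzero d _ ?_)
      have h1 := hchain d Q
      rwa [h] at h1
  have hstep : ∀ i K Q, Q ∈ AmplF Set.univ {p : ι × ℕ | p.2 < K + 1} → Φ Q = 0 →
      Φ (MvPolynomial.pderiv (Sum.inr (i, K)) Q) = 0 := by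
    intro i K Q hQ h
    funext x
    obtain ⟨d, hd⟩ := hne x i
    obtain ⟨K₀, hK₀⟩ := hgen x
    rw [hΦ]
    refine Ampl_step (val x (jet x)) (hδ1 d) (hϑ1 d) hQ (fun j => ?_) ?_ (K₀ := K₀) hK₀
    · rw [← hΦ, hiter d j Q h]
      rfl
    · rw [← hΦ, hϑ2]
      exact hd
  have hsteps : ∀ i K j Q, Q ∈ AmplF Set.univ {p : ι × ℕ | p.2 < K + 1} → Φ Q = 0 →
      Φ ((MvPolynomial.pderiv (Sum.inr (i, K)))^[j] Q) = 0 := by
    intro i K j
    induction j with
    | zero => exact fun Q _ h => h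
    | succ j ih =>
      intro Q hQ h
      rw [Function.iterate_succ_apply]
      exact ih _ (Ampl_pderiv _ hQ) (hstep i K Q hQ h)
  have hmain : ∀ (V : Finset (ι × ℕ)) Q, Q ∈ AmplF Set.univ (V : Set (ι × ℕ)) → Φ Q = 0 →
      ∀ x η, MvPolynomial.aeval (val x η) Q = 0 := by
    intro V
    induction V using Finset.induction_on_max_value (fun p : ι × ℕ => p.2) with
    | empty =>
      intro Q hQ h x η
      have h1 : Q ∈ RingHom.eqLocus
          (MvPolynomial.aeval (val x η) : MvPolynomial (G ⊕ (ι × ℕ)) ℝ →ₐ[ℝ] ℝ).toRingHom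
          (MvPolynomial.aeval (val x (jet x)) : MvPolynomial (G ⊕ (ι × ℕ)) ℝ →ₐ[ℝ] ℝ).toRingHom := by
        refine Ampl_map (RingHom.id _) _ (fun c _ => ?_) (fun g => ?_) (fun p hp => ?_) hQ
        · simp [RingHom.mem_eqLocus]
        · simp [RingHom.mem_eqLocus, val]
        · simp at hp
      have h2 : MvPolynomial.aeval (val x η) Q = MvPolynomial.aeval (val x (jet x)) Q := h1
      rw [h2, ← hΦ, h]
      rfl
    | insert a V ha hmax ih =>
      intro Q hQ h x η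
      let s : G ⊕ (ι × ℕ) := Sum.inr a
      let τ : MvPolynomial (G ⊕ (ι × ℕ)) ℝ →ₐ[ℝ] MvPolynomial (G ⊕ (ι × ℕ)) ℝ :=
        MvPolynomial.aeval (Function.update MvPolynomial.X s (MvPolynomial.C (η a)))
      have hτ : ∀ (w : G ⊕ (ι × ℕ) → ℝ) R,
          MvPolynomial.aeval w (τ R) = MvPolynomial.aeval (Function.update w s (η a)) R := by
        intro w R
        induction R using MvPolynomial.induction_on with
        | C c => simp [τ]
        | add p q hp hq => rw [map_add, map_add, hp, hq, map_add]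
        | mul_X p s' hp =>
          rw [map_mul, map_mul, hp, map_mul]
          congr 1
          by_cases hs : s' = s
          · subst hs
            simp [τ]
          · simp [τ, hs]
      have hQ1 : Q ∈ AmplF Set.univ {p : ι × ℕ | p.2 < a.2 + 1} := by
        refine Ampl_mono le_rfl (fun p hp => ?_) hQ
        rcases Finset.mem_insert.mp (Finset.mem_coe.mp hp) with rfl | hp
        · exact Nat.lt_succ_self _
        · exact Nat.lt_succ_of_le (hmax p hp)
      have hQ2 : τ Q ∈ AmplF Set.univ (V : Set (ι × ℕ)) := by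
        refine Ampl_map τ.toRingHom _ (fun c _ => ?_) (fun g => ?_) (fun p hp => ?_) hQ
        · simpa [τ] using Ampl_C _ (Set.mem_univ c)
        · simpa [τ, s] using Ampl_inl _ _ g
        · rcases Finset.mem_insert.mp (Finset.mem_coe.mp hp) with rfl | hp
          · simpa [τ, s] using Ampl_C _ (Set.mem_univ (η p))
          · have hpa : p ≠ a := fun e => ha (e ▸ hp)
            simpa [τ, s, hpa] using Ampl_inr _ (Finset.mem_coe.mpr hp)
      have hQ3 : Φ (τ Q) = 0 := by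
        funext x'
        rw [hΦ, hτ]
        refine Ampl_subst _ s Q (fun j => ?_) _
        rw [← hΦ, hsteps a.1 a.2 j Q hQ1 h]
        rfl
      have h1 := ih _ hQ2 hQ3 x η
      rw [hτ] at h1
      have h2 : Function.update (val x η) s (η a) = val x η := Function.update_eq_self s (val x η)
      rwa [h2] at h1
  have hrepF : ∃ Q : MvPolynomial (G ⊕ (ι × ℕ)) ℝ, ∀ x η,
      F (x, η) = MvPolynomial.aeval (val x η) Q := by
    clear h0
    induction hF using Algebra.adjoin_induction with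
    | mem f hf =>
      rcases hf with ⟨g, hg, rfl⟩ | ⟨p, rfl⟩
      · exact ⟨MvPolynomial.X (Sum.inl ⟨g, hg⟩), fun x η => by simp [val]⟩
      · exact ⟨MvPolynomial.X (Sum.inr p), fun x η => by simp [val]⟩
    | algebraMap r => exact ⟨MvPolynomial.C r, fun x η => by simp⟩
    | add f g _ _ hf hg =>
      obtain ⟨p, hp⟩ := hf
      obtain ⟨q, hq⟩ := hg
      exact ⟨p + q, fun x η => by rw [map_add, Pi.add_apply, hp, hq]⟩
    | mul f g _ _ hf hg =>
      obtain ⟨p, hp⟩ := hf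
      obtain ⟨q, hq⟩ := hg
      exact ⟨p * q, fun x η => by rw [map_mul, Pi.mul_apply, hp, hq]⟩
  obtain ⟨Q, hQ⟩ := hrepF
  obtain ⟨V, hV⟩ := Ampl_vars Q
  have h1 : Φ Q = 0 := by
    funext x
    rw [hΦ, ← hQ]
    exact h0 x
  funext q
  obtain ⟨x, η⟩ := q
  rw [hQ]
  exact hmain V Q hV h1 x η

end Pool.Agent.Work.MP_2482e4_mp.Gn
end

-- merged part: Pool.Agent.Work.MP_2482e4_mp.Gn.Amp
section
/-!
The amplification lemma on a good piece of a leaf.
-/

open scoped ComplexOrder Topology ContDiff Matrix.Norms.L2Operator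
open Matrix Filter Module

set_option linter.unusedSectionVars false

namespace Pool.Agent.Work.MP_2482e4_mp.Gn

variable {n : Type} [Fintype n] [DecidableEq n]

variable {m : ℕ}

/-- Points of `N` with two free kernels. -/
abbrev Om (N : Set (Mt n)) (m : ℕ) := N × (Fin m → Fin m → ℝ) × (Fin m → Fin m → ℝ)

/-- The algebra of functions of the spectral data and of the free kernels. -/
def PP (w : ℝ → ℝ) (N : Set (Mt n)) (l : Mt n → Fin m → ℝ) (P : Mt n → Fin m → Mt n)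
    (R : Fin m → Fin m → Prop) : Subalgebra ℝ (Om N m → ℝ) :=
  Algebra.adjoin ℝ {F | (∃ a j k, F = fun x => (P x.1 a j k).re) ∨
    (∃ a j k, F = fun x => (P x.1 a j k).im) ∨ (∃ a, F = fun x => l x.1 a) ∨
    (∃ a b, F = fun x => (l x.1 a - l x.1 b)⁻¹) ∨ (∃ a, F = fun x => ((P x.1 a).trace.re)⁻¹) ∨
    (∃ a b, R a b ∧ F = fun x => w (l x.1 a - l x.1 b)) ∨
    (∃ a b, ¬ R a b ∧ F = fun x => x.2.1 a b) ∨ ∃ a b, ¬ R a b ∧ F = fun x => x.2.2 a b}

/-- The kernels of an even function `η` with derivative `η'` on the positive axis. -/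
noncomputable def jet (η η' : ℝ → ℝ) (l : Fin m → ℝ) :
    (Fin m → Fin m → ℝ) × (Fin m → Fin m → ℝ) :=
  (fun a b => η |l a - l b|, fun a b => (SignType.sign (l a - l b) : ℝ) * η' |l a - l b|)

section
variable {Ω : Type} {𝒮 : Subalgebra ℝ (Ω → ℝ)} {p q : Ω → ℝ}

theorem fconst (c : ℝ) : (fun _ : Ω => c) ∈ 𝒮 := 𝒮.algebraMap_mem c

theorem fadd (hp : p ∈ 𝒮) (hq : q ∈ 𝒮) : (fun x => p x + q x) ∈ 𝒮 := add_mem hp hq

theorem fsub (hp : p ∈ 𝒮) (hq : q ∈ 𝒮) : (fun x => p x - q x) ∈ 𝒮 := sub_mem hp hq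

theorem fmul (hp : p ∈ 𝒮) (hq : q ∈ 𝒮) : (fun x => p x * q x) ∈ 𝒮 := mul_mem hp hq

theorem fneg (hp : p ∈ 𝒮) : (fun x => -p x) ∈ 𝒮 := neg_mem hp

theorem fpow (hp : p ∈ 𝒮) (k : ℕ) : (fun x => p x ^ k) ∈ 𝒮 := pow_mem hp k

theorem adj_comp {Ω' : Type} {G : Set (Ω' → ℝ)} (Ψ : Ω → Ω') (h : ∀ F ∈ G, F ∘ Ψ ∈ 𝒮)
    {F : Ω' → ℝ} (hF : F ∈ Algebra.adjoin ℝ G) : F ∘ Ψ ∈ 𝒮 := by
  induction hF using Algebra.adjoin_induction with
  | mem F hF => exact h F hF
  | algebraMap c => exact 𝒮.algebraMap_mem c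
  | add _ _ _ _ h1 h2 => exact add_mem h1 h2
  | mul _ _ _ _ h1 h2 => exact mul_mem h1 h2

theorem adj_eq {G : Set (Ω → ℝ)} {x y : Ω} (h : ∀ F ∈ G, F x = F y) {F : Ω → ℝ}
    (hF : F ∈ Algebra.adjoin ℝ G) : F x = F y := by
  induction hF using Algebra.adjoin_induction with
  | mem F hF => exact h F hF
  | algebraMap c => rfl
  | add _ _ _ _ h1 h2 => exact congrArg₂ (· + ·) h1 h2
  | mul _ _ _ _ h1 h2 => exact congrArg₂ (· * ·) h1 h2

theorem PM.mean {J : Type} {P : Ω → J → Mt n} {Φ : Ω → Mt n} {a : J} (hP : PM 𝒮 fun x => P x a)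
    (ht : (fun x => ((P x a).trace.re)⁻¹) ∈ 𝒮) (h : PM 𝒮 Φ) :
    (fun x => mu (P x) (Φ x) a) ∈ 𝒮 := fmul (hP.mul h).trace ht

theorem PM.dproj {J : Type} [Fintype J] {P : Ω → J → Mt n} {l : Ω → J → ℝ} {Φ : Ω → Mt n}
    (hP : ∀ a, PM 𝒮 fun x => P x a) (hl : ∀ a b, (fun x => (l x a - l x b)⁻¹) ∈ 𝒮) (h : PM 𝒮 Φ)
    (a : J) : PM 𝒮 fun x => dP (P x) (l x) (Φ x) a :=
  PM.sum Finset.univ fun c _ =>
    PM.smul (hl a c) ((((hP a).mul h).mul (hP c)).add (((hP c).mul h).mul (hP a)))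

end

theorem iter_hasDerivAt {f : ℝ → ℝ} (hfd : ContDiffOn ℝ ∞ f (Set.Ioi 0)) (k : ℕ) {t : ℝ}
    (ht : 0 < t) : HasDerivAt (iteratedDeriv k f) (iteratedDeriv (k + 1) f t) t := by
  have h1 : ∀ k, ContDiffOn ℝ ∞ (iteratedDeriv k f) (Set.Ioi 0) := by
    intro k
    induction k with
    | zero => simpa using hfd
    | succ k ih =>
      rw [iteratedDeriv_succ]
      exact ((contDiffOn_infty_iff_deriv_of_isOpen isOpen_Ioi).1 ih).2
  rw [iteratedDeriv_succ]
  exact (((h1 k).contDiffAt (Ioi_mem_nhds ht)).differentiableAt (by simp)).hasDerivAt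

theorem entry_deriv {γ : ℝ → Mt n} {v : Mt n} (h : HasDerivAt γ v 0) (L : Mt n →ₗ[ℝ] ℝ) :
    HasDerivAt (fun s => L (γ s)) (L v) 0 :=
  (LinearMap.toContinuousLinearMap L).hasFDerivAt.comp_hasDerivAt 0 h

/-- The real part of an entry. -/
def reE (j k : n) : Mt n →ₗ[ℝ] ℝ where
  toFun X := (X j k).re
  map_add' _ _ := rfl
  map_smul' c X := by simp

/-- The imaginary part of an entry. -/
def imE (j k : n) : Mt n →ₗ[ℝ] ℝ where
  toFun X := (X j k).im
  map_add' _ _ := rfl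
  map_smul' c X := by simp

/-- The real part of the trace. -/
noncomputable def trE : Mt n →ₗ[ℝ] ℝ := Complex.reLm ∘ₗ Matrix.traceLinearMap n ℝ ℂ

section
variable {N : Set (Mt n)} {l : Mt n → Fin m → ℝ} {P : Mt n → Fin m → Mt n} {H : Mt n}

theorem Strat.Zf_eq (h : Strat N l P) (hH : H ∈ N) (w : ℝ → ℝ) (A : Mt n) :
    Zf w H A = mlt (P H) (fun a b => w (l H a - l H b)) A :=
  (congrArg (fun X => Zf w X A) (h.eq H hH)).trans (Zf_res (h.res H hH) _ _ _)

theorem Strat.mu_Zf (h : Strat N l P) (hH : H ∈ N) {w : ℝ → ℝ} (w0 : w 0 = 1) (A : Mt n)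
    (a : Fin m) : mu (P H) (Zf w H A) a = mu (P H) A a := by
  rw [h.Zf_eq hH, (h.res H hH).mu_mk, sub_self, w0, one_mul]

theorem Strat.trinv (h : Strat N l P) (hH : H ∈ N) {γ : ℝ → Mt n} {v : Mt n} (h0 : γ 0 = H)
    (hN : ∀ᶠ s in 𝓝 (0 : ℝ), γ s ∈ N) (hγ : HasDerivAt γ v 0) (a : Fin m) :
    HasDerivAt (fun s => ((P (γ s) a).trace.re)⁻¹) 0 0 := by
  have h1 := entry_deriv (h.deriv_P hH h0 hN hγ a) trE
  have h2 : trE (dP (P H) (l H) v a) = 0 := by
    change (dP (P H) (l H) v a).trace.re = 0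
    rw [(h.res H hH).trace_dP, Complex.zero_re]
  rw [h2] at h1
  have h3 : trE (P (γ 0) a) ≠ 0 := by
    rw [h0]
    exact ((h.res H hH).trace_pos (h.ne H hH a)).ne'
  have h4 := h1.inv h3
  rw [neg_zero, zero_div] at h4
  exact h4

end

theorem Good.amp {f : ℝ → ℝ} (hfs : ∀ t, 0 < t → f t = t * f t⁻¹)
    (hf1 : f 1 = 1) (hfd : ContDiffOn ℝ ∞ f (Set.Ioi 0)) (hg : IsGeneric f)
    {𝒜 : Submodule ℝ (Mt n)} {N : Set (Mt n)} {l : Mt n → Fin m → ℝ} {P : Mt n → Fin m → Mt n}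
    {R : Fin m → Fin m → Prop} (h : Good (wf f) 𝒜 N l P R) {F : Om N m → ℝ}
    (hF : F ∈ PP (wf f) N l P R) (h0 : ∀ H : N, F (H, jet (wf f) (deriv (wf f)) (l H)) = 0)
    (H : N) (η η' : ℝ → ℝ) : F (H, jet η η' (l H)) = 0 := by
  classical
  have w0 := wf_zero hf1
  have hS := h.strat
  let I := {φ : N → ℝ // ∃ a b, ¬ R a b ∧ φ = fun H : N => |l H a - l H b|}
  let idx : ∀ a b, ¬ R a b → I := fun a b hab => ⟨_, a, b, hab, rfl⟩
  have : Finite I := Finite.of_surjective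
    (fun p : {p : Fin m × Fin m // ¬ R p.1 p.2} => idx p.1.1 p.1.2 p.2)
    (by rintro ⟨_, a, b, hab, rfl⟩; exact ⟨⟨(a, b), hab⟩, rfl⟩)
  have := Fintype.ofFinite I
  have hne : ∀ a b, ¬ R a b → ∀ H : N, l H a - l H b ≠ 0 := fun a b hab H e => by
    obtain ⟨A, -, h1⟩ := h.ncst a b hab H H.2
    exact h1 (by rw [hS.inj H H.2 (sub_eq_zero.1 e)])
  have hor : ∀ i : I, ∃ a b, (∀ H : N, i.1 H = l H a - l H b) ∧
      ∀ H : N, ∃ A ∈ 𝒜, mu (P H) A a ≠ mu (P H) A b := by
    rintro ⟨_, a, b, hab, rfl⟩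
    rcases h.sgn a b with h1 | h1
    · refine ⟨b, a, fun H => ?_, fun H => ?_⟩
      · simp only [abs_of_nonpos (sub_nonpos.2 (h1 H H.2)), neg_sub]
      · obtain ⟨A, hA, h2⟩ := h.ncst a b hab H H.2
        exact ⟨A, hA, h2.symm⟩
    · exact ⟨a, b, fun H => abs_of_pos (sub_pos.2 (h1 H H.2)), fun H => h.ncst a b hab H H.2⟩
  choose pa pb hφ hmu using hor
  have hpos : ∀ (i : I) (H : N), 0 < i.1 H := by
    rintro ⟨_, a, b, hab, rfl⟩ H
    exact abs_pos.2 (hne a b hab H)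
  have he : ∀ (i : I) (H : N), Real.exp (i.1 H) - 1 ≠ 0 := fun i H =>
    (sub_pos.2 (Real.one_lt_exp_iff.2 (hpos i H))).ne'
  have hinj : ∀ (H : N) (i j : I), i.1 H = j.1 H → i = j := by
    intro H i j e
    refine Subtype.ext (funext fun H' => ?_)
    rw [hφ, hφ] at e ⊢
    exact ((h.sep _ _ _ _).resolve_right fun h1 => h1 H H.2 e) H' H'.2
  let gen : (Fin m × n × n) ⊕ (Fin m × n × n) ⊕ Fin m ⊕ (Fin m × Fin m) ⊕ Fin m ⊕
      {p : Fin m × Fin m // R p.1 p.2} ⊕ I ⊕ I → N → ℝ :=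
    Sum.elim (fun p H => (P H p.1 p.2.1 p.2.2).re) <| Sum.elim (fun p H => (P H p.1 p.2.1 p.2.2).im) <|
    Sum.elim (fun a H => l H a) <| Sum.elim (fun p H => (l H p.1 - l H p.2)⁻¹) <|
    Sum.elim (fun a H => ((P H a).trace.re)⁻¹) <|
    Sum.elim (fun p H => wf f (l H p.1.1 - l H p.1.2)) <|
    Sum.elim (fun i H => Real.exp (i.1 H)) fun i H => (Real.exp (i.1 H) - 1)⁻¹
  let 𝒢 := Algebra.adjoin ℝ (Set.range gen)
  have gm : ∀ j, gen j ∈ 𝒢 := fun j => Algebra.subset_adjoin ⟨j, rfl⟩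
  have gl : ∀ a, (fun H : N => l H a) ∈ 𝒢 := fun a => gm (.inr (.inr (.inl a)))
  have gi : ∀ a b, (fun H : N => (l H a - l H b)⁻¹) ∈ 𝒢 :=
    fun a b => gm (.inr (.inr (.inr (.inl (a, b)))))
  have gt : ∀ a, (fun H : N => ((P H a).trace.re)⁻¹) ∈ 𝒢 :=
    fun a => gm (.inr (.inr (.inr (.inr (.inl a)))))
  have gw : ∀ a b, R a b → (fun H : N => wf f (l H a - l H b)) ∈ 𝒢 :=
    fun a b hab => gm (.inr (.inr (.inr (.inr (.inr (.inl ⟨(a, b), hab⟩))))))
  have ge : ∀ i : I, (fun H : N => Real.exp (i.1 H)) ∈ 𝒢 :=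
    fun i => gm (.inr (.inr (.inr (.inr (.inr (.inr (.inl i)))))))
  have gd : ∀ i : I, (fun H : N => (Real.exp (i.1 H) - 1)⁻¹) ∈ 𝒢 :=
    fun i => gm (.inr (.inr (.inr (.inr (.inr (.inr (.inr i)))))))
  have gφ : ∀ i : I, (fun H : N => i.1 H) ∈ 𝒢 := fun i => by
    simp only [hφ]
    exact fsub (gl _) (gl _)
  let y : I → ℕ → N → ℝ := fun i k H => iteratedDeriv k f (Real.exp (i.1 H))
  let 𝒮 := Algebra.adjoin ℝ (Set.range gen ∪ Set.range fun i => y i 0)
  have hle : 𝒢 ≤ 𝒮 := Algebra.adjoin_mono Set.subset_union_left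
  have sP : ∀ a, PM 𝒮 fun H : N => P H a := fun a j k =>
    ⟨hle (gm (.inl (a, j, k))), hle (gm (.inr (.inl (a, j, k))))⟩
  have habs : ∀ x, wf f |x| = wf f x := fun x => by
    rcases abs_choice x with h | h <;> rw [h]
    exact wf_neg hfs x
  have sw : ∀ a b, (fun H : N => wf f (l H a - l H b)) ∈ 𝒮 := fun a b => by
    by_cases hab : R a b
    · exact hle (gw a b hab)
    · have e : (fun H : N => wf f (l H a - l H b)) = fun H : N => (idx a b hab).1 H *
          (Real.exp ((idx a b hab).1 H) - 1)⁻¹ * y (idx a b hab) 0 H := funext fun H => by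
        rw [← habs, wf_eq f (abs_pos.2 (hne a b hab H)).ne']
        rfl
      rw [e]
      exact fmul (hle (fmul (gφ _) (gd _))) (Algebra.subset_adjoin (Or.inr ⟨_, rfl⟩))
  have sZ : ∀ A : Mt n, PM 𝒮 fun H : N => Zf (wf f) (H : Mt n) A := fun A => by
    rw [funext fun H : N => hS.Zf_eq H.2 (wf f) A]
    exact PM.mult sP sw (PM.const A)
  have sm : ∀ A a, (fun H : N => mu (P H) A a) ∈ 𝒮 := fun A a =>
    PM.mean (sP a) (hle (gt a)) (PM.const A)
  let θ : 𝒜 → I → N → ℝ := fun A i H =>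
    Real.exp (i.1 H) * (mu (P H) A (pa i) - mu (P H) A (pb i))
  have sθ : ∀ A i, θ A i ∈ 𝒮 := fun A i => fmul (hle (ge i)) (fsub (sm _ _) (sm _ _))
  let Der : 𝒜 → (N → ℝ) → (N → ℝ) → Prop := fun A g g' => ∀ (H : N) (γ : ℝ → N), γ 0 = H →
    HasDerivAt (fun s => (γ s : Mt n)) (Zf (wf f) (H : Mt n) A) 0 → HasDerivAt (fun s => g (γ s)) (g' H) 0
  have dl : ∀ (A : 𝒜) a b, Der A (fun H => l H a - l H b) fun H => mu (P H) A a - mu (P H) A b :=
    fun A a b H γ h0 hγ => by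
      have h1 := fun a => hS.deriv_l H.2 (congrArg Subtype.val h0)
        (Eventually.of_forall fun s => (γ s).2) hγ a
      simp only [hS.mu_Zf H.2 w0] at h1
      exact (h1 a).sub (h1 b)
  have dθ : ∀ (A : 𝒜) i, Der A (fun H => Real.exp (i.1 H)) (θ A i) := fun A i H γ h0 hγ => by
    have h1 := (dl A (pa i) (pb i) H γ h0 hγ).exp
    simp only [← hφ, h0] at h1
    exact h1
  let Ψ : N × (I × ℕ → ℝ) → Om N m := fun q => (q.1,
    fun a b => if hab : R a b then 0 else (idx a b hab).1 q.1 *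
      (Real.exp ((idx a b hab).1 q.1) - 1)⁻¹ * q.2 (idx a b hab, 0),
    fun a b => if hab : R a b then 0 else (SignType.sign (l q.1 a - l q.1 b) : ℝ) *
      (((Real.exp ((idx a b hab).1 q.1) - 1)⁻¹ - (idx a b hab).1 q.1 * Real.exp ((idx a b hab).1 q.1) *
        (Real.exp ((idx a b hab).1 q.1) - 1)⁻¹ ^ 2) * q.2 (idx a b hab, 0) +
      (idx a b hab).1 q.1 * Real.exp ((idx a b hab).1 q.1) * (Real.exp ((idx a b hab).1 q.1) - 1)⁻¹ *
        q.2 (idx a b hab, 1)))
  have loc : ∀ (H : N) (u v : (Fin m → Fin m → ℝ) × (Fin m → Fin m → ℝ)),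
      (∀ a b, ¬ R a b → u.1 a b = v.1 a b ∧ u.2 a b = v.2 a b) → F (H, u) = F (H, v) := by
    intro H u v huv
    refine adj_eq ?_ hF
    rintro _ (⟨a, j, k, rfl⟩ | ⟨a, j, k, rfl⟩ | ⟨a, rfl⟩ | ⟨a, b, rfl⟩ | ⟨a, rfl⟩ | ⟨a, b, -, rfl⟩ |
      ⟨a, b, hab, rfl⟩ | ⟨a, b, hab, rfl⟩)
    exacts [rfl, rfl, rfl, rfl, rfl, rfl, (huv a b hab).1, (huv a b hab).2]
  have key : F ∘ Ψ = 0 := by
    refine ampl Der (fun _ c _ _ _ _ => hasDerivAt_const 0 c)
      (fun _ _ _ _ _ h1 h2 H γ h0 hγ => (h1 H γ h0 hγ).add (h2 H γ h0 hγ))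
      (fun _ _ _ _ _ h1 h2 H γ h0 hγ => by
        have := (h1 H γ h0 hγ).mul (h2 H γ h0 hγ)
        simp only [h0] at this
        exact this)
      (fun A g' h1 => funext fun H => ?_) (Set.range gen) (Set.finite_range gen) y θ ?_ sθ
      (fun A i k H γ h0 hγ => ?_) (fun H i => ?_) (fun H => ?_) ?_ fun H => ?_
    · obtain ⟨γ, h0, h2, h3⟩ := h.leaf.curve H H.2 A A.2
      refine (h1 H (fun s => if hs : γ s ∈ N then ⟨γ s, hs⟩ else H) ?_
        (h3.congr_of_eventuallyEq ?_)).unique (hasDerivAt_const 0 0)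
      · simp only [h0, H.2, dite_true]
      · filter_upwards [h2] with s hs
        simp only [hs, dite_true]
    · have dP' : ∀ (A : 𝒜) a (L : Mt n →ₗ[ℝ] ℝ), Der A (fun H => L (P H a))
          fun H => L (dP (P H) (l H) (Zf (wf f) (H : Mt n) A) a) := fun A a L H γ h0 hγ =>
        entry_deriv (hS.deriv_P H.2 (congrArg Subtype.val h0)
          (Eventually.of_forall fun s => (γ s).2) hγ a) L
      have sd := fun (A : Mt n) a => PM.dproj sP (fun a b => hle (gi a b)) (sZ A) a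
      rintro A _ ⟨⟨a, j, k⟩ | ⟨a, j, k⟩ | a | ⟨a, b⟩ | a | ⟨⟨a, b⟩, hab⟩ | i | i, rfl⟩
      · exact ⟨_, (sd A a j k).1, dP' A a (reE j k)⟩
      · exact ⟨_, (sd A a j k).2, dP' A a (imE j k)⟩
      · refine ⟨_, sm A a, fun H γ h0 hγ => ?_⟩
        have h1 := hS.deriv_l H.2 (congrArg Subtype.val h0)
          (Eventually.of_forall fun s => (γ s).2) hγ a
        rwa [hS.mu_Zf H.2 w0] at h1
      · refine ⟨_, fneg (fmul (fsub (sm A a) (sm A b)) (fpow (hle (gi a b)) 2)),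
          fun H γ h0 hγ => ?_⟩
        rcases eq_or_ne a b with rfl | hab
        · simpa [gen] using hasDerivAt_const (0 : ℝ) (0 : ℝ)
        · have h1 := (dl A a b H γ h0 hγ).inv (by
            simp only [h0]
            exact sub_ne_zero.2 fun e => hab (hS.inj H H.2 e))
          simp only [h0] at h1
          refine HasDerivAt.congr_deriv h1 ?_
          rw [inv_pow, neg_div, div_eq_mul_inv]
      · exact ⟨_, fconst 0, fun H γ h0 hγ => hS.trinv H.2 (congrArg Subtype.val h0)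
          (Eventually.of_forall fun s => (γ s).2) hγ a⟩
      · refine ⟨_, fconst 0, fun H γ h0 hγ => ?_⟩
        rcases eq_or_ne a b with rfl | hab'
        · simpa [gen] using hasDerivAt_const (0 : ℝ) (wf f 0)
        · have h1 := dl A a b H γ h0 hγ
          simp only [h.cst a b hab H H.2 A A.2, sub_self] at h1
          have h2 := HasDerivAt.comp_of_eq (0 : ℝ) (wf_hasDerivAt hfd
            (sub_ne_zero.2 fun e => hab' (hS.inj H H.2 e))) h1 (by simp only [h0])
          rw [mul_zero] at h2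
          exact h2
      · exact ⟨_, sθ A i, dθ A i⟩
      · refine ⟨_, fneg (fmul (sθ A i) (fpow (hle (gd i)) 2)), fun H γ h0 hγ => ?_⟩
        have h1 := ((dθ A i H γ h0 hγ).sub_const 1).inv (by simp only [h0]; exact he i H)
        simp only [h0] at h1
        refine HasDerivAt.congr_deriv h1 ?_
        rw [inv_pow, neg_div, div_eq_mul_inv]
    · have h1 := HasDerivAt.comp_of_eq (0 : ℝ) (iter_hasDerivAt hfd k (Real.exp_pos (i.1 H)))
        (dθ A i H γ h0 hγ) (by simp only [h0])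
      rw [mul_comm] at h1
      exact h1
    · obtain ⟨A, hA, h1⟩ := hmu i H
      exact ⟨⟨A, hA⟩, mul_ne_zero (Real.exp_pos _).ne' (sub_ne_zero.2 h1)⟩
    · obtain ⟨K, hK⟩ := hg (Finset.univ.image fun i : I => Real.exp (i.1 H)) fun t ht => by
        obtain ⟨i, -, rfl⟩ := Finset.mem_image.1 ht
        exact Real.one_lt_exp_iff.2 (hpos i H)
      refine ⟨K, hK.comp (fun p : I × ℕ =>
        (⟨Real.exp (p.1.1 H), Finset.mem_image_of_mem _ (Finset.mem_univ _)⟩, p.2)) ?_⟩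
      rintro ⟨i, k⟩ ⟨j, k'⟩ e
      obtain ⟨e1, e2⟩ := Prod.mk.inj e
      exact Prod.ext (hinj H i j (Real.exp_injective (congrArg Subtype.val e1))) e2
    · set 𝒯 := Algebra.adjoin ℝ ((fun (g : N → ℝ) (q : N × (I × ℕ → ℝ)) => g q.1) '' Set.range gen ∪
        Set.range fun (p : I × ℕ) (q : N × (I × ℕ → ℝ)) => q.2 p)
      have up : ∀ {g : N → ℝ}, g ∈ 𝒢 → (fun q : N × (I × ℕ → ℝ) => g q.1) ∈ 𝒯 := fun hg =>
        adj_comp Prod.fst (fun g hg => Algebra.subset_adjoin (Or.inl ⟨g, hg, rfl⟩)) hg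
      have fr : ∀ p, (fun q : N × (I × ℕ → ℝ) => q.2 p) ∈ 𝒯 :=
        fun p => Algebra.subset_adjoin (Or.inr ⟨p, rfl⟩)
      refine adj_comp Ψ ?_ hF
      rintro _ (⟨a, j, k, rfl⟩ | ⟨a, j, k, rfl⟩ | ⟨a, rfl⟩ | ⟨a, b, rfl⟩ | ⟨a, rfl⟩ |
        ⟨a, b, hab, rfl⟩ | ⟨a, b, hab, rfl⟩ | ⟨a, b, hab, rfl⟩)
      · exact up (gm (.inl (a, j, k)))
      · exact up (gm (.inr (.inl (a, j, k))))
      · exact up (gl a)
      · exact up (gi a b)
      · exact up (gt a)
      · exact up (gw a b hab)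
      · simp only [Function.comp_def, Ψ, dif_neg hab]
        exact fmul (up (fmul (gφ _) (gd _))) (fr _)
      · simp only [Function.comp_def, Ψ, dif_neg hab]
        refine fmul (up (g := fun H => (SignType.sign (l H a - l H b) : ℝ)) ?_)
          (fadd (fmul (up (fsub (gd _) (fmul (fmul (gφ _) (ge _)) (fpow (gd _) 2)))) (fr _))
            (fmul (up (fmul (fmul (gφ _) (ge _)) (gd _))) (fr _)))
        rcases h.sgn a b with h1 | h1
        · have e : ∀ H : N, SignType.sign (l H a - l H b) = -1 := fun H =>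
            sign_neg ((sub_nonpos.2 (h1 H H.2)).lt_of_ne (hne a b hab H))
          simp only [e]
          exact fconst _
        · have e : ∀ H : N, SignType.sign (l H a - l H b) = 1 := fun H =>
            sign_pos (sub_pos.2 (h1 H H.2))
          simp only [e]
          exact fconst _
    · refine (loc H _ _ fun a b hab => ?_).trans (h0 H)
      have h1 := (abs_pos.2 (hne a b hab H)).ne'
      simp only [dif_neg hab, jet, wf_eq f h1, (wf_hasDerivAt hfd h1).deriv, y,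
        iteratedDeriv_zero, iteratedDeriv_one]
      exact ⟨rfl, rfl⟩
  let ξ : I → ℝ := fun i => η (i.1 H) / (i.1 H * (Real.exp (i.1 H) - 1)⁻¹)
  refine (loc H _ _ fun a b hab => ?_).trans (congrFun key (H, fun p => if p.2 = 0 then ξ p.1 else
    (η' (p.1.1 H) - ((Real.exp (p.1.1 H) - 1)⁻¹ - p.1.1 H * Real.exp (p.1.1 H) *
      (Real.exp (p.1.1 H) - 1)⁻¹ ^ 2) * ξ p.1) /
        (p.1.1 H * Real.exp (p.1.1 H) * (Real.exp (p.1.1 H) - 1)⁻¹)))
  have h1 := (hpos (idx a b hab) H).ne'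
  have h2 := inv_ne_zero (he (idx a b hab) H)
  simp only [dif_neg hab, jet, if_true, one_ne_zero, if_false]
  rw [mul_div_cancel₀ _ (mul_ne_zero (mul_ne_zero h1 (Real.exp_pos _).ne') h2), add_sub_cancel,
    mul_div_cancel₀ _ (mul_ne_zero h1 h2)]
  exact ⟨rfl, rfl⟩

end Pool.Agent.Work.MP_2482e4_mp.Gn
end

-- merged part: Pool.Agent.Work.MP_2482e4_mp.Gn.Rel
section
/-!
The relations that hold on a good piece of a leaf for generic f.
-/

open scoped ComplexOrder Topology ContDiff Matrix.Norms.L2Operator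
open Matrix Filter Module

set_option linter.unusedSectionVars false

namespace Pool.Agent.Work.MP_2482e4_mp.Gn

variable {n : Type} [Fintype n] [DecidableEq n]

variable {m : ℕ} {f : ℝ → ℝ} {𝒜 : Submodule ℝ (Mt n)} {N : Set (Mt n)} {l : Mt n → Fin m → ℝ}
  {P : Mt n → Fin m → Mt n} {R : Fin m → Fin m → Prop}

/-- The hypotheses on `f`. -/
structure GenF (f : ℝ → ℝ) : Prop where
  pos : ∀ t, 0 < t → 0 < f t
  symm : ∀ t, 0 < t → f t = t * f t⁻¹
  one : f 1 = 1
  smooth : ContDiffOn ℝ ∞ f (Set.Ioi 0)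
  gen : IsGeneric f

theorem div_self_nonneg' (x : ℝ) : 0 ≤ x / x := by
  rcases eq_or_ne x 0 with rfl | h
  · simp
  · simp [h]

theorem irr_alg {J : Type} [Fintype J] {l r S : J → ℝ} {M : J → J → ℝ} (hl : Function.Injective l)
    (hr : ∀ a, 0 < r a) (hM : ∀ a c, M a c = M c a) (h0 : ∀ a c, 0 ≤ M a c)
    (hT : ∀ a, ∑ c, (l a - l c)⁻¹ * M a c = r a * S a) (hS : ∀ a c, M a c ≠ 0 → S a = S c)
    {a c : J} (hac : a ≠ c) : M a c = 0 := by
  have key : ∀ u : J → ℝ, 2 * ∑ a, u a * (r a * S a) =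
      ∑ a, ∑ c, (u a - u c) * ((l a - l c)⁻¹ * M a c) := by
    intro u
    have h1 : ∑ a, ∑ c, u c * ((l a - l c)⁻¹ * M a c) =
        -∑ a, ∑ c, u a * ((l a - l c)⁻¹ * M a c) := by
      rw [Finset.sum_comm, ← Finset.sum_neg_distrib]
      refine Finset.sum_congr rfl fun a _ => ?_
      rw [← Finset.sum_neg_distrib]
      refine Finset.sum_congr rfl fun c _ => ?_
      rw [← neg_sub (l a), inv_neg, hM c a]
      ring
    simp only [sub_mul, Finset.sum_sub_distrib, h1, ← hT, Finset.mul_sum]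
    simp only [← Finset.mul_sum]
    ring
  have h1 : ∑ a, S a * (r a * S a) = 0 := by
    have := key S
    rw [Finset.sum_eq_zero (s := Finset.univ) (f := fun a => ∑ c, (S a - S c) * _) fun a _ =>
      Finset.sum_eq_zero fun c _ => by
        by_cases h : M a c = 0
        · simp [h]
        · simp [hS a c h]] at this
    linarith
  have h2 : ∀ a, S a = 0 := fun a => by
    have := (Finset.sum_eq_zero_iff_of_nonneg fun a _ => by
      nlinarith [mul_nonneg (hr a).le (mul_self_nonneg (S a))]).1 h1 a (Finset.mem_univ a)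
    simpa [(hr a).ne'] using this
  have h3 := key l
  simp only [h2, mul_zero, Finset.sum_const_zero] at h3
  have h4 : ∀ a c, 0 ≤ (l a - l c) * ((l a - l c)⁻¹ * M a c) := fun a c => by
    rw [← mul_assoc]
    exact mul_nonneg (by rw [← div_eq_mul_inv]; exact div_self_nonneg' _) (h0 a c)
  have h5 := (Finset.sum_eq_zero_iff_of_nonneg fun c _ => h4 a c).1
    ((Finset.sum_eq_zero_iff_of_nonneg fun a _ => Finset.sum_nonneg fun c _ => h4 a c).1 h3.symm a
      (Finset.mem_univ a)) c (Finset.mem_univ c)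
  rwa [mul_inv_cancel_left₀ (sub_ne_zero.2 fun e => hac (hl e))] at h5

section
variable {w : ℝ → ℝ}

theorem PP_P (a : Fin m) : PM (PP w N l P R) fun x => P x.1 a := fun j k =>
  ⟨Algebra.subset_adjoin (.inl ⟨a, j, k, rfl⟩), Algebra.subset_adjoin (.inr (.inl ⟨a, j, k, rfl⟩))⟩

theorem PP_l (a : Fin m) : (fun x : Om N m => l x.1 a) ∈ PP w N l P R :=
  Algebra.subset_adjoin (.inr (.inr (.inl ⟨a, rfl⟩)))

theorem PP_i (a b : Fin m) : (fun x : Om N m => (l x.1 a - l x.1 b)⁻¹) ∈ PP w N l P R :=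
  Algebra.subset_adjoin (.inr (.inr (.inr (.inl ⟨a, b, rfl⟩))))

theorem PP_t (a : Fin m) : (fun x : Om N m => ((P x.1 a).trace.re)⁻¹) ∈ PP w N l P R :=
  Algebra.subset_adjoin (.inr (.inr (.inr (.inr (.inl ⟨a, rfl⟩)))))

theorem PP_w {a b : Fin m} (h : R a b) :
    (fun x : Om N m => w (l x.1 a - l x.1 b)) ∈ PP w N l P R :=
  Algebra.subset_adjoin (.inr (.inr (.inr (.inr (.inr (.inl ⟨a, b, h, rfl⟩))))))

theorem PP_k {a b : Fin m} (h : ¬ R a b) : (fun x : Om N m => x.2.1 a b) ∈ PP w N l P R :=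
  Algebra.subset_adjoin (.inr (.inr (.inr (.inr (.inr (.inr (.inl ⟨a, b, h, rfl⟩)))))))

theorem PP_d {a b : Fin m} (h : ¬ R a b) : (fun x : Om N m => x.2.2 a b) ∈ PP w N l P R :=
  Algebra.subset_adjoin (.inr (.inr (.inr (.inr (.inr (.inr (.inr ⟨a, b, h, rfl⟩)))))))

end

theorem wf_abs (hf : GenF f) (x : ℝ) : wf f |x| = wf f x := by
  rcases abs_choice x with h | h <;> rw [h]
  exact wf_neg hf.symm x

theorem Good.irr (hf : GenF f) (h : Good (wf f) 𝒜 N l P R) (hA : ∀ A ∈ 𝒜, A.IsHermitian)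
    {H : Mt n} (hH : H ∈ N) {A : Mt n} (hA' : A ∈ 𝒜) {a b : Fin m} (hab : R a b) (hne : a ≠ b) :
    P H a * A * P H b = 0 := by
  classical
  have hS := h.strat
  let K : Om N m → Fin m → Fin m → ℝ := fun x a b =>
    if R a b then wf f (l x.1 a - l x.1 b) else x.2.1 a b
  have hK : ∀ a b, (fun x => K x a b) ∈ PP (wf f) N l P R := fun a b => by
    by_cases hab : R a b
    · simpa only [K, if_pos hab] using PP_w hab
    · simpa only [K, if_neg hab] using PP_k hab
  let S : Om N m → Fin m → ℝ := fun x a =>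
    (dP (P x.1) (l x.1) (mlt (P x.1) (K x) A) a * A).trace.re * ((P x.1 a).trace.re)⁻¹
  have hSm : ∀ a, (fun x => S x a) ∈ PP (wf f) N l P R := fun a =>
    fmul ((PM.dproj PP_P PP_i (PM.mult PP_P hK (PM.const A)) a).mul (PM.const A)).trace (PP_t a)
  have key : ∀ a b, R a b → S (⟨H, hH⟩, jet 0 0 (l H)) a = S (⟨H, hH⟩, jet 0 0 (l H)) b := by
    intro a b hab
    refine sub_eq_zero.1 (h.amp hf.symm hf.one hf.smooth hf.gen (fsub (hSm a) (hSm b))
      (fun H' => ?_) ⟨H, hH⟩ 0 0)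
    obtain ⟨γ, h0, h1, h2⟩ := h.leaf.curve H' H'.2 A hA'
    have e : mlt (P H') (K (H', jet (wf f) (deriv (wf f)) (l H'))) A = Zf (wf f) H' A := by
      rw [hS.Zf_eq H'.2]
      congr 2
      funext a b
      simp only [K, jet, wf_abs hf, ite_self]
    have d : ∀ a, HasDerivAt (fun s => mu (P (γ s)) A a)
        (S (H', jet (wf f) (deriv (wf f)) (l H')) a) 0 := fun a => by
      have h3 := (entry_deriv ((hS.deriv_P H'.2 h0 h1 h2 a).mul_const A) trE).mul
        (hS.trinv H'.2 h0 h1 h2 a)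
      simp only [mul_zero, add_zero, h0] at h3
      simp only [S, e]
      exact h3
    exact sub_eq_zero.2 ((d a).unique ((d b).congr_of_eventuallyEq
      (h1.mono fun s hs => h.cst a b hab _ hs A hA')))
  have hr := hS.res H hH
  let K0 : Fin m → Fin m → ℝ := K (⟨H, hH⟩, jet 0 0 (l H))
  have K0n : ∀ a b, 0 ≤ K0 a b := fun a b => by
    by_cases hab : R a b
    · simpa only [K0, K, if_pos hab] using (wf_pos hf.pos _).le
    · simp [K0, K, if_neg hab, jet]
  have h1 := irr_alg (M := fun a c => (K0 a c + K0 c a) * ip (P H a * A * P H c) (P H a * A * P H c))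
    (S := S (⟨H, hH⟩, jet 0 0 (l H))) (hS.inj H hH) (fun a => hr.trace_pos (hS.ne H hH a))
    (fun a c => by
      rw [← (hr.trace_comp (hA A hA') a c).1, ← (hr.trace_comp (hA A hA') c a).2, add_comm])
    (fun a c => mul_nonneg (add_nonneg (K0n a c) (K0n c a)) (ip_self_nonneg _))
    (fun a => ?_) (fun a c hac => ?_) hne
  · have h2 : 0 < K0 a b := by simpa only [K0, K, if_pos hab] using wf_pos hf.pos _
    exact ip_self_eq_zero ((mul_eq_zero.1 h1).resolve_left (add_pos_of_pos_of_nonneg h2 (K0n b a)).ne')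
  · simp only [S]
    rw [mul_comm ((P H a).trace.re), inv_mul_cancel_right₀ (hr.trace_pos (hS.ne H hH a)).ne']
    simp only [dP, hr.comp_mk, Finset.sum_mul, smul_mul_assoc, add_mul, trace_sum, trace_smul,
      trace_add, Complex.re_sum, Complex.add_re, Complex.smul_re, smul_eq_mul,
      (hr.trace_comp (hA A hA') a _).1, (hr.trace_comp (hA A hA') a _).2]
    rfl
  · by_cases h2 : R a c
    · exact key a c h2
    · by_cases h3 : R c a
      · exact (key c a h3).symm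
      · simp [K0, K, h2, h3, jet] at hac

open Classical in
/-- A kernel that is polynomial on the pairs in `R` and free elsewhere. -/
noncomputable def Kc (R : Fin m → Fin m → Prop) (c : ℝ) (e : ℕ) (l : Fin m → ℝ)
    (κ : Fin m → Fin m → ℝ) (a b : Fin m) : ℝ := if R a b then 1 + c * (l a - l b) ^ e else κ a b

open Classical in
/-- Its derivative. -/
noncomputable def Kd (R : Fin m → Fin m → Prop) (c : ℝ) (e : ℕ) (l : Fin m → ℝ)
    (κ : Fin m → Fin m → ℝ) (a b : Fin m) : ℝ :=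
  if R a b then c * (e * (l a - l b) ^ (e - 1)) else κ a b

theorem Kc_mem (w : ℝ → ℝ) (c : ℝ) (e : ℕ) (a b : Fin m) :
    (fun x : Om N m => Kc R c e (l x.1) x.2.1 a b) ∈ PP w N l P R := by
  by_cases hab : R a b
  · simp only [Kc, if_pos hab]
    exact fadd (fconst _) (fmul (fconst _) (fpow (fsub (PP_l a) (PP_l b)) _))
  · simpa only [Kc, if_neg hab] using PP_k hab

theorem Kd_mem (w : ℝ → ℝ) (c : ℝ) (e : ℕ) (a b : Fin m) :
    (fun x : Om N m => Kd R c e (l x.1) x.2.2 a b) ∈ PP w N l P R := by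
  by_cases hab : R a b
  · simp only [Kd, if_pos hab]
    exact fmul (fconst _) (fmul (fconst _) (fpow (fsub (PP_l a) (PP_l b)) _))
  · simpa only [Kd, if_neg hab] using PP_d hab

theorem Good.Zf_Kc (hf : GenF f) (h : Good (wf f) 𝒜 N l P R) (hA : ∀ A ∈ 𝒜, A.IsHermitian)
    (c : ℝ) {e : ℕ} (he : e ≠ 0) (w' : ℝ → ℝ) {H : Mt n} (hH : H ∈ N) {A : Mt n} (hA' : A ∈ 𝒜) :
    Zf (wf f) H A = mlt (P H) (Kc R c e (l H) (jet (wf f) w' (l H)).1) A := by
  rw [h.strat.Zf_eq hH]
  refine mk_congr fun a b hab => ?_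
  by_cases h1 : R a b
  · obtain rfl : a = b := by_contra fun hne => hab (h.irr hf hA hH hA' h1 hne)
    simp [Kc, h1, wf_zero hf.one, he]
  · simp only [Kc, if_neg h1, jet, wf_abs hf]

theorem Kc_free (c : ℝ) {e : ℕ} (he : Even e) (η' : ℝ → ℝ) (l : Fin m → ℝ) :
    Kc R c e l (jet (fun x => 1 + c * x ^ e) η' l).1 = fun a b => 1 + c * (l a - l b) ^ e := by
  funext a b
  simp only [Kc, jet, he.pow_abs, ite_self]

theorem Kd_free (c : ℝ) {e : ℕ} (he : Even e) (he0 : e ≠ 0) (η : ℝ → ℝ) (l : Fin m → ℝ) :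
    Kd R c e l (jet η (fun x => c * (e * x ^ (e - 1))) l).2 =
      fun a b => c * (e * (l a - l b) ^ (e - 1)) := by
  funext a b
  have ho : Odd (e - 1) := Nat.Even.sub_odd (Nat.one_le_iff_ne_zero.2 he0) he odd_one
  have h1 : ∀ x : ℝ, (SignType.sign x : ℝ) * (c * (e * |x| ^ (e - 1))) = c * (e * x ^ (e - 1)) := by
    intro x
    rcases lt_trichotomy x 0 with h | rfl | h
    · rw [sign_neg h, abs_of_neg h, ho.neg_pow]
      simp
    · simp [ho.pos.ne']
    · rw [sign_pos h, abs_of_pos h]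
      simp
  simp only [Kd, jet, h1, ite_self]

theorem Good.Kc_deriv (hf : GenF f) (h : Good (wf f) 𝒜 N l P R) (c : ℝ) (e : ℕ) {H v : Mt n}
    (hH : H ∈ N) {γ : ℝ → Mt n} (h0 : γ 0 = H) (hN : ∀ᶠ s in 𝓝 (0 : ℝ), γ s ∈ N)
    (hγ : HasDerivAt γ v 0) (a b : Fin m) :
    HasDerivAt (fun s => Kc R c e (l (γ s)) (jet (wf f) (deriv (wf f)) (l (γ s))).1 a b)
      (Kd R c e (l H) (jet (wf f) (deriv (wf f)) (l H)).2 a b * (mu (P H) v a - mu (P H) v b)) 0 := by
  have h1 := (h.strat.deriv_l hH h0 hN hγ a).sub (h.strat.deriv_l hH h0 hN hγ b)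
  by_cases hab : R a b
  · simp only [Kc, Kd, if_pos hab]
    have h2 := ((h1.pow e).const_mul c).const_add 1
    simp only [Pi.sub_apply, h0] at h2
    exact HasDerivAt.congr_deriv h2 (by ring)
  · simp only [Kc, Kd, if_neg hab, jet]
    have h2 : l H a - l H b ≠ 0 := fun e => by
      obtain ⟨A, -, h3⟩ := h.ncst a b hab H hH
      exact h3 (by rw [h.strat.inj H hH (sub_eq_zero.1 e)])
    have h3 := (wf_hasDerivAt hf.smooth (abs_pos.2 h2).ne').differentiableAt.hasDerivAt.comp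
      (l H a - l H b) (hasDerivAt_abs h2)
    have h4 := HasDerivAt.comp_of_eq (0 : ℝ) h3 h1 (by simp only [Pi.sub_apply, h0])
    exact HasDerivAt.congr_deriv h4 (by ring)

theorem Good.stab (hf : GenF f) (h : Good (wf f) 𝒜 N l P R) (hA : ∀ A ∈ 𝒜, A.IsHermitian)
    {F : Mt n → ℝ} (hF : F ∈ Pol n) (h0 : ∀ H ∈ N, F H = 0) {H : Mt n} (hH : H ∈ N) {A : Mt n}
    (hA' : A ∈ 𝒜) : fderiv ℝ F H A = 0 ∧ fderiv ℝ F H ⁅H, ⁅H, A⁆⁆ = 0 := by
  have hS := h.strat
  have hr := hS.res H hH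
  have hid : PM (PP (wf f) N l P R) fun x : Om N m => (x.1 : Mt n) := by
    have : (fun x : Om N m => (x.1 : Mt n)) = fun x => ∑ a, l x.1 a • P x.1 a :=
      funext fun x => hS.eq _ x.1.2
    rw [this]
    exact PM.sum _ fun a _ => PM.smul (PP_l a) (PP_P a)
  have key : ∀ c : ℝ, fderiv ℝ F H (mlt (P H) (fun a b => 1 + c * (l H a - l H b) ^ 2) A) = 0 := by
    intro c
    have := h.amp hf.symm hf.one hf.smooth hf.gen
      (pol_fderiv hF hid (PM.mult PP_P (Kc_mem (wf f) c 2) (PM.const A))) (fun H' => ?_) ⟨H, hH⟩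
      (fun x => 1 + c * x ^ 2) 0
    · rwa [Kc_free c even_two] at this
    · obtain ⟨γ, e0, h1, h2⟩ := h.leaf.curve H' H'.2 A hA'
      simp only [← h.Zf_Kc hf hA c two_ne_zero _ H'.2 hA']
      exact (HasFDerivAt.comp_hasDerivAt_of_eq (0 : ℝ) (pol_differentiable hF H').hasFDerivAt h2
        e0.symm).unique ((hasDerivAt_const (0 : ℝ) (0 : ℝ)).congr_of_eventuallyEq
          (h1.mono fun s hs => h0 _ hs))
  have h1 : fderiv ℝ F H A = 0 := by
    have := key 0
    simp only [zero_mul, add_zero, hr.mk_one] at this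
    exact this
  refine ⟨h1, ?_⟩
  have h2 := key 1
  have h3 : ⁅H, ⁅H, A⁆⁆ = mlt (P H) (fun a b => (l H a - l H b) ^ 2) A := by
    rw [← hr.ad_pow, ← hS.eq H hH]
    rfl
  simp only [one_mul] at h2
  rwa [mk_add, hr.mk_one, map_add, h1, zero_add, ← h3] at h2

section
variable {J : Type} [Fintype J] [DecidableEq J]

/-- The torsion in terms of kernels. -/
noncomputable def TT (P : J → Mt n) (l : J → ℝ) (κ κ' μ : J → J → ℝ) (A B : Mt n) : Mt n :=
  tri P (dd l κ κ') (mlt P μ A) B - tri P (de l κ κ') B (mlt P μ A) -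
    (tri P (dd l κ κ') (mlt P μ B) A - tri P (de l κ κ') A (mlt P μ B))

/-- The product of the other values of a kernel. -/
noncomputable def oth (κ : J → J → ℝ) (a b : J) : ℝ := ∏ p ∈ Finset.univ.erase (a, b), κ p.1 p.2

variable {Ω : Type} {𝒮 : Subalgebra ℝ (Ω → ℝ)}

theorem PM.tril {P : Ω → J → Mt n} {τ : Ω → J → J → J → ℝ} {Φ Ψ : Ω → Mt n}
    (hP : ∀ a, PM 𝒮 fun x => P x a) (hτ : ∀ a c b, (fun x => τ x a c b) ∈ 𝒮) (h : PM 𝒮 Φ)
    (h' : PM 𝒮 Ψ) : PM 𝒮 fun x => tri (P x) (τ x) (Φ x) (Ψ x) :=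
  PM.sum Finset.univ fun a _ => PM.sum Finset.univ fun c _ => PM.sum Finset.univ fun b _ =>
    PM.smul (hτ a c b) (((((hP a).mul h).mul (hP c)).mul h').mul (hP b))

theorem TT_mem {P : Ω → J → Mt n} {l : Ω → J → ℝ} {κ κ' μ : Ω → J → J → ℝ}
    (hP : ∀ a, PM 𝒮 fun x => P x a) (hl : ∀ a b, (fun x => (l x a - l x b)⁻¹) ∈ 𝒮)
    (hκ : ∀ a b, (fun x => κ x a b) ∈ 𝒮) (hκ' : ∀ a b, (fun x => κ' x a b) ∈ 𝒮)
    (hμ : ∀ a b, (fun x => μ x a b) ∈ 𝒮) (M A B : Mt n) :
    (fun x => ip M (mlt (P x) (oth (μ x)) (TT (P x) (l x) (κ x) (κ' x) (μ x) A B))) ∈ 𝒮 := by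
  have h1 : ∀ a c b, (fun x => dd (l x) (κ x) (κ' x) a c b) ∈ 𝒮 := fun a c b => by
    by_cases h : c = a
    · simpa only [dd, if_pos h] using hκ' a b
    · simpa only [dd, if_neg h] using fmul (fsub (hκ a b) (hκ c b)) (hl a c)
  have h2 : ∀ a c b, (fun x => de (l x) (κ x) (κ' x) a c b) ∈ 𝒮 := fun a c b => by
    by_cases h : c = b
    · simpa only [de, if_pos h] using hκ' a b
    · simpa only [de, if_neg h] using fmul (fsub (hκ a b) (hκ a c)) (hl c b)
  have h3 := fun A => PM.mult hP hμ (PM.const (𝒮 := 𝒮) A)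
  exact (PM.mult hP (fun a b => fun_prod_mem _ fun p _ => hμ p.1 p.2)
    (((PM.tril hP h1 (h3 A) (PM.const B)).sub (PM.tril hP h2 (PM.const B) (h3 A))).sub
      ((PM.tril hP h1 (h3 B) (PM.const A)).sub (PM.tril hP h2 (PM.const A) (h3 B))))).functional (ip M)

theorem TT_lin (P : J → Mt n) (l : J → ℝ) (κ κ' μ : J → J → ℝ) (c : ℝ) (A B : Mt n) :
    TT P l (fun a b => 1 + c * κ a b) (fun a b => c * κ' a b) μ A B = c • TT P l κ κ' μ A B := by
  have h1 : dd l (fun a b => 1 + c * κ a b) (fun a b => c * κ' a b) =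
      fun a d b => c * dd l κ κ' a d b := by
    funext a d b
    unfold dd
    split_ifs <;> ring
  have h2 : de l (fun a b => 1 + c * κ a b) (fun a b => c * κ' a b) =
      fun a d b => c * de l κ κ' a d b := by
    funext a d b
    unfold de
    split_ifs <;> ring
  have h3 : ∀ (τ : J → J → J → ℝ) (X Y : Mt n),
      tri P (fun a d b => c * τ a d b) X Y = c • tri P τ X Y := fun τ X Y => by
    simp only [tri, Finset.smul_sum, mul_smul]
  simp only [TT, h1, h2, h3, smul_sub]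

end

theorem Good.tor_true (hf : GenF f) (h : Good (wf f) 𝒜 N l P R) (hA : ∀ A ∈ 𝒜, A.IsHermitian)
    (c : ℝ) {e : ℕ} (he0 : e ≠ 0) {H : Mt n} (hH : H ∈ N) {A B : Mt n} (hA' : A ∈ 𝒜) (hB : B ∈ 𝒜) :
    ∃ C ∈ 𝒜, TT (P H) (l H) (Kc R c e (l H) (jet (wf f) (deriv (wf f)) (l H)).1)
      (Kd R c e (l H) (jet (wf f) (deriv (wf f)) (l H)).2)
      (Kc R c e (l H) (jet (wf f) (deriv (wf f)) (l H)).1) A B =
        mlt (P H) (Kc R c e (l H) (jet (wf f) (deriv (wf f)) (l H)).1) C := by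
  obtain ⟨γ, γ0, γN, γd⟩ := h.leaf.curve H hH A hA'
  obtain ⟨δ, δ0, δN, δd⟩ := h.leaf.curve H hH B hB
  have h1 := (h.strat.hasDerivAt_mk hH γ0 γN γd
    (κ := fun s => Kc R c e (l (γ s)) (jet (wf f) (deriv (wf f)) (l (γ s))).1)
    (h.Kc_deriv hf c e hH γ0 γN γd) B).congr_of_eventuallyEq
      (f₁ := fun s => Zf (wf f) (γ s) B) (γN.mono fun s hs => h.Zf_Kc hf hA c he0 _ hs hB)
  have h2 := (h.strat.hasDerivAt_mk hH δ0 δN δd
    (κ := fun s => Kc R c e (l (δ s)) (jet (wf f) (deriv (wf f)) (l (δ s))).1)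
    (h.Kc_deriv hf c e hH δ0 δN δd) A).congr_of_eventuallyEq
      (f₁ := fun s => Zf (wf f) (δ s) A) (δN.mono fun s hs => h.Zf_Kc hf hA c he0 _ hs hA')
  obtain ⟨C, hC, e1⟩ := h.leaf.invol H hH A hA' B hB γ δ _ _ γ0 δ0 γN δN γd δd h1 h2
  refine ⟨C, hC, ?_⟩
  rw [γ0, δ0, h.Zf_Kc hf hA c he0 (deriv (wf f)) hH hA', h.Zf_Kc hf hA c he0 (deriv (wf f)) hH hB,
    h.Zf_Kc hf hA c he0 (deriv (wf f)) hH hC] at e1
  exact e1

theorem IsRes.oth_mlt {J : Type} [Fintype J] [DecidableEq J] {P : J → Mt n} (h : IsRes P)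
    (κ : J → J → ℝ) (C : Mt n) : mlt P (oth κ) (mlt P κ C) = (∏ p : J × J, κ p.1 p.2) • C := by
  rw [h.mk_mk]
  conv_rhs => rw [← h.mk_one C, ← mk_const_mul]
  congr 2
  funext a b
  rw [mul_one, oth, Finset.prod_erase_mul _ (fun p : J × J => κ p.1 p.2) (Finset.mem_univ (a, b))]

theorem IsRes.tor_lim {J : Type} [Fintype J] [DecidableEq J] {P : J → Mt n} (h : IsRes P)
    {l : J → ℝ} (hl : Function.Injective l) (e : ℕ) (M A B : Mt n)
    (key : ∀ c : ℝ, c * ip M (mlt P (oth fun a b => 1 + c * (l a - l b) ^ e)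
      (TT P l (fun a b => (l a - l b) ^ e) (fun a b => e * (l a - l b) ^ (e - 1))
        (fun a b => 1 + c * (l a - l b) ^ e) A B)) = 0) : ip M (tor e (dg P l) A B) = 0 := by
  have hc := TT_mem (𝒮 := continuousSubalgebra (α := ℝ) (R := ℝ) (A := ℝ)) (P := fun _ => P)
    (l := fun _ => l) (κ := fun _ a b => (l a - l b) ^ e)
    (κ' := fun _ a b => e * (l a - l b) ^ (e - 1)) (μ := fun c a b => 1 + c * (l a - l b) ^ e)
    (fun _ => PM.const _) (fun _ _ => fconst _) (fun _ _ => fconst _) (fun _ _ => fconst _)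
    (fun a b => show Continuous fun c : ℝ => 1 + c * (l a - l b) ^ e by fun_prop) M A B
  have h1 := congrFun (Continuous.ext_on (dense_compl_singleton (0 : ℝ)) hc continuous_zero
    fun c hc => (mul_eq_zero.1 (key c)).resolve_left hc) 0
  have h2 : (oth fun _ _ : J => (1 : ℝ)) = fun _ _ => 1 := by
    funext a b
    simp [oth]
  simp only [zero_mul, add_zero, h2, TT, h.mk_one] at h1
  rw [tor, h.dad_res hl, h.dad_res hl]
  exact h1

theorem Good.tor_mem (hf : GenF f) (h : Good (wf f) 𝒜 N l P R) (hA : ∀ A ∈ 𝒜, A.IsHermitian)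
    {H : Mt n} (hH : H ∈ N) {A B : Mt n} (hA' : A ∈ 𝒜) (hB : B ∈ 𝒜) (k : ℕ) :
    tor (2 * k) H A B ∈ 𝒜 := by
  rcases eq_or_ne k 0 with rfl | hk
  · simp [tor, dad]
  have he : Even (2 * k) := even_two_mul k
  have he0 : 2 * k ≠ 0 := by omega
  generalize 2 * k = e at he he0
  have hS := h.strat
  refine mem_of_perp fun M hM => ?_
  have h3 : tor e H A B = tor e (dg (P H) (l H)) A B := by rw [← hS.eq H hH]
  rw [h3]
  refine (hS.res H hH).tor_lim (hS.inj H hH) e M A B fun c => ?_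
  have hm := TT_mem (𝒮 := PP (wf f) N l P R) (P := fun x => P x.1) (l := fun x => l x.1)
    PP_P PP_i (Kc_mem (wf f) c e) (Kd_mem (wf f) c e) (Kc_mem (wf f) c e) M A B
  have := h.amp hf.symm hf.one hf.smooth hf.gen hm (fun H' => by
    obtain ⟨C, hC, e1⟩ := h.tor_true hf hA c he0 H'.2 hA' hB
    rw [e1, (hS.res H' H'.2).oth_mlt, map_smul, ip_comm, hM C hC, smul_zero])
    ⟨H, hH⟩ (fun x => 1 + c * x ^ e) fun x => c * (e * x ^ (e - 1))
  beta_reduce at this
  rwa [Kc_free c he, Kd_free c he he0, TT_lin, map_smul, map_smul, smul_eq_mul] at this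

end Pool.Agent.Work.MP_2482e4_mp.Gn
end
end

-- merged part: Pool.Agent.Work.MP_2482e4_mp.Gn.Sm
section
-- merged part: Pool.Agent.Work.MP_2482e4_mp.Gn.Ker
section
/-!
The functions `fMeas ν`: derivatives, positivity, symmetry, continuity in `ν`.
Hints. Differentiation under the integral: `hasDerivAt_integral_of_dominated_loc_of_deriv_le` on the ball of radius `t / 2`,
with a constant bound from compactness of `Icc 0 1 × Icc (t / 2) (2 t)` (continuous functions on the compact space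
`Icc 0 1` are integrable: `Continuous.integrable_of_hasCompactSupport`, `BoundedContinuousFunction.integrable`).
`iteratedDeriv_succ`, `Filter.EventuallyEq.deriv_eq` on the open set `Ioi 0`. Smoothness: `contDiffOn_succ_iff_deriv_of_isOpen`
by induction for all the functions `jt k ν` at once. Joint continuity: `|jt k ν t - jt k ν t₀|` is at most the sup over `s` of
`|kk k s t - kk k s t₀|` (uniform continuity), and `ν ↦ jt k ν t₀` is continuous
(`ProbabilityMeasure.continuous_integral_boundedContinuousFunction`, `BoundedContinuousFunction.mkOfCompact`).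
-/

open scoped Topology ContDiff
open Filter Set MeasureTheory

set_option linter.unusedSectionVars false

namespace Pool.Agent.Work.MP_2482e4_mp.Gn

/-- Probability measures on `[0, 1]`. -/
abbrev PrI := ProbabilityMeasure (Icc (0 : ℝ) 1)

/-- The derivative of order `k + 1` of `fMeas ν`. -/
noncomputable def jt (k : ℕ) (ν : PrI) (t : ℝ) : ℝ :=
  ∫ s, kk k (s : ℝ) t ∂(ν : Measure (Icc (0 : ℝ) 1))

theorem kk_hasDerivAt (k : ℕ) {s t : ℝ} (hs : 0 ≤ s) (ht : 0 < t) :
    HasDerivAt (kk k s) (kk (k + 1) s t) t := by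
  have h1 : t + s ≠ 0 := by positivity
  have h2 : 1 + t * s ≠ 0 := by positivity
  have d1 := (hasDerivAt_const t s).fun_div (((hasDerivAt_id' t).add_const s).fun_pow (k + 2))
    (pow_ne_zero _ h1)
  have d2 := (hasDerivAt_const t (s ^ k)).fun_div
    ((((hasDerivAt_id' t).mul_const s).const_add 1).fun_pow (k + 2)) (pow_ne_zero _ h2)
  refine ((d1.fun_add d2).const_mul ((1 + s) / 2 * ((-1) ^ k * (k + 1).factorial))).congr_deriv ?_
  simp only [kk, Nat.factorial_succ (k + 1), Nat.add_succ_sub_one]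
  push_cast
  field_simp
  ring

theorem kk_continuous (k : ℕ) {t : ℝ} (ht : 0 < t) :
    Continuous fun s : Icc (0 : ℝ) 1 => kk k s t := by
  unfold kk
  refine Continuous.mul (by fun_prop) (Continuous.add (Continuous.div (by fun_prop) (by fun_prop)
    fun s => ?_) (Continuous.div (by fun_prop) (by fun_prop) fun s => ?_)) <;>
  · have := s.2.1
    positivity

theorem Ker_bound (k : ℕ) (s : Icc (0 : ℝ) 1) {a t : ℝ} (ha : 0 < a) (ht : a ≤ t) :
    ‖kk k s t‖ ≤ (k + 1).factorial * (1 / a ^ (k + 2) + 1) := by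
  have h0 := s.2.1
  have h1 := s.2.2
  have ht0 := ha.trans_le ht
  have h2 : (s : ℝ) / (t + s) ^ (k + 2) ≤ 1 / a ^ (k + 2) := by
    gcongr
    linarith
  have h3 : (s : ℝ) ^ k / (1 + t * s) ^ (k + 2) ≤ 1 :=
    div_le_one_of_le₀ ((pow_le_one₀ h0 h1).trans
      (one_le_pow₀ (le_add_of_nonneg_right (by positivity)))) (by positivity)
  rw [kk, Real.norm_eq_abs, abs_mul, abs_mul, abs_mul, abs_neg_one_pow, one_mul, Nat.abs_cast,
    abs_of_nonneg (by positivity), abs_of_nonneg (by positivity)]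
  refine mul_le_mul (mul_le_of_le_one_left (by positivity) (by linarith)) (add_le_add h2 h3)
    (by positivity) (by positivity)

theorem Ker_int (ν : PrI) {g : Icc (0 : ℝ) 1 → ℝ} (hg : Continuous g) :
    Integrable g (ν : Measure (Icc (0 : ℝ) 1)) :=
  hg.integrable_of_hasCompactSupport (HasCompactSupport.of_compactSpace g)

theorem Ker_deriv (ν : PrI) (F : ℝ → ℝ → ℝ) (k : ℕ)
    (hF : ∀ s t, 0 ≤ s → 0 < t → HasDerivAt (F s) (kk k s t) t)
    (hc : ∀ t, 0 < t → Continuous fun s : Icc (0 : ℝ) 1 => F s t) {t : ℝ} (ht : 0 < t) :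
    HasDerivAt (fun t => ∫ s, F (s : ℝ) t ∂(ν : Measure (Icc (0 : ℝ) 1))) (jt k ν t) t := by
  refine (hasDerivAt_integral_of_dominated_loc_of_deriv_le (s := Ioi (t / 2))
    (F := fun t (s : Icc (0 : ℝ) 1) => F s t) (F' := fun t (s : Icc (0 : ℝ) 1) => kk k s t)
    (bound := fun _ => (k + 1).factorial * (1 / (t / 2) ^ (k + 2) + 1))
    (Ioi_mem_nhds (half_lt_self ht)) ?_ (Ker_int ν (hc t ht))
    (kk_continuous k ht).aestronglyMeasurable
    (Eventually.of_forall fun s u hu => Ker_bound k s (half_pos ht) (le_of_lt hu))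
    (integrable_const _)
    (Eventually.of_forall fun s u hu => hF s u s.2.1 ((half_pos ht).trans hu))).2
  filter_upwards [Ioi_mem_nhds ht] with u hu using (hc u hu).aestronglyMeasurable

theorem Ker_cont {t : ℝ} (ht : 0 < t) : Continuous fun s : Icc (0 : ℝ) 1 =>
    (1 + (s : ℝ)) / 2 * (t / (t + s) + t / (1 + t * s)) := by
  refine Continuous.mul (by fun_prop) (Continuous.add (Continuous.div (by fun_prop) (by fun_prop)
    fun s => ?_) (Continuous.div (by fun_prop) (by fun_prop) fun s => ?_)) <;>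
  · have := s.2.1
    positivity

theorem Ker_fMeas (ν : PrI) {t : ℝ} (ht : 0 < t) : HasDerivAt (fMeas ν) (jt 0 ν t) t := by
  refine Ker_deriv ν (fun s t => (1 + s) / 2 * (t / (t + s) + t / (1 + t * s))) 0
    (fun s t hs ht => ?_) (fun t ht => Ker_cont ht) ht
  have h1 : t + s ≠ 0 := by positivity
  have h2 : 1 + t * s ≠ 0 := by positivity
  have d1 := (hasDerivAt_id' t).fun_div ((hasDerivAt_id' t).add_const s) h1
  have d2 := (hasDerivAt_id' t).fun_div (((hasDerivAt_id' t).mul_const s).const_add 1) h2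
  refine ((d1.fun_add d2).const_mul ((1 + s) / 2)).congr_deriv ?_
  simp only [kk, Nat.factorial]
  push_cast
  field_simp
  ring

theorem jt_hasDerivAt (k : ℕ) (ν : PrI) {t : ℝ} (ht : 0 < t) :
    HasDerivAt (jt k ν) (jt (k + 1) ν t) t := by
  exact Ker_deriv ν (kk k) (k + 1) (fun s t hs ht => kk_hasDerivAt k hs ht)
    (fun t ht => kk_continuous k ht) ht

theorem jt_contDiffOn (k : ℕ) (ν : PrI) : ContDiffOn ℝ ∞ (jt k ν) (Ioi 0) := by
  refine contDiffOn_infty.2 fun n => ?_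
  induction n generalizing k with
  | zero =>
    exact contDiffOn_zero.2 fun t ht => (jt_hasDerivAt k ν ht).continuousAt.continuousWithinAt
  | succ n ih =>
    rw [Nat.cast_succ, contDiffOn_succ_iff_deriv_of_isOpen isOpen_Ioi]
    exact ⟨fun t ht => (jt_hasDerivAt k ν ht).differentiableAt.differentiableWithinAt, by simp,
      (ih (k + 1)).congr fun t ht => (jt_hasDerivAt k ν ht).deriv⟩

theorem iteratedDeriv_fMeas (ν : PrI) (k : ℕ) {t : ℝ} (ht : 0 < t) :
    iteratedDeriv (k + 1) (fMeas ν) t = jt k ν t := by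
  induction k generalizing t with
  | zero =>
    rw [zero_add, iteratedDeriv_one]
    exact (Ker_fMeas ν ht).deriv
  | succ k ih =>
    have e : iteratedDeriv (k + 1) (fMeas ν) =ᶠ[𝓝 t] jt k ν := by
      filter_upwards [Ioi_mem_nhds ht] with u hu using ih hu
    rw [iteratedDeriv_succ, e.deriv_eq]
    exact (jt_hasDerivAt k ν ht).deriv

theorem fMeas_smooth (ν : PrI) : ContDiffOn ℝ ∞ (fMeas ν) (Ioi 0) := by
  rw [contDiffOn_infty_iff_deriv_of_isOpen isOpen_Ioi]
  exact ⟨fun t ht => (Ker_fMeas ν ht).differentiableAt.differentiableWithinAt,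
    (jt_contDiffOn 0 ν).congr fun t ht => (Ker_fMeas ν ht).deriv⟩

theorem fMeas_pos (ν : PrI) {t : ℝ} (ht : 0 < t) : 0 < fMeas ν t := by
  have h1 : t / (t + 1) / 2 = ∫ _s, t / (t + 1) / 2 ∂(ν : Measure (Icc (0 : ℝ) 1)) := by simp
  refine lt_of_lt_of_le (by positivity : 0 < t / (t + 1) / 2) (h1.trans_le ?_)
  refine integral_mono (integrable_const _) (Ker_int ν (Ker_cont ht)) fun s => ?_
  have h0 := s.2.1
  have h2 : t / (t + 1) ≤ t / (t + s) :=
    div_le_div_of_nonneg_left ht.le (by positivity) (by linarith [s.2.2])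
  have h3 : 0 ≤ t / (1 + t * s) := by positivity
  have h4 : 0 ≤ t / (t + s) := by positivity
  have h5 := mul_nonneg h0 (add_nonneg h4 h3)
  beta_reduce
  linarith

theorem fMeas_symm (ν : PrI) {t : ℝ} (ht : 0 < t) : fMeas ν t = t * fMeas ν t⁻¹ := by
  unfold fMeas
  rw [← integral_const_mul]
  refine integral_congr_ae (Eventually.of_forall fun s => ?_)
  have h0 := s.2.1
  beta_reduce
  field_simp
  ring

theorem fMeas_one (ν : PrI) : fMeas ν 1 = 1 := by
  have : ∀ s : Icc (0 : ℝ) 1, (1 + (s : ℝ)) / 2 * (1 / (1 + s) + 1 / (1 + 1 * s)) = 1 := fun s => by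
    have h0 := s.2.1
    field_simp
    ring
  simp only [fMeas, this]
  simp

theorem jt_continuousOn (k : ℕ) :
    ContinuousOn (fun p : PrI × ℝ => jt k p.1 p.2) {p | 0 < p.2} := by
  rintro ⟨ν, t⟩ ht
  have ht : 0 < t := ht
  refine ContinuousAt.continuousWithinAt ?_
  have c1 : Continuous fun p : PrI × ℝ => jt k p.1 t :=
    (ProbabilityMeasure.continuous_integral_continuousMap
      (⟨_, kk_continuous k ht⟩ : C(Icc (0 : ℝ) 1, ℝ))).comp continuous_fst
  set C : ℝ := (k + 1 + 1).factorial * (1 / (t / 2) ^ (k + 1 + 2) + 1)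
  have c2 : Tendsto (fun p : PrI × ℝ => jt k p.1 p.2 - jt k p.1 t) (𝓝 (ν, t)) (𝓝 0) := by
    refine squeeze_zero_norm' (a := fun p => C * ‖p.2 - t‖) ?_
      (Continuous.tendsto' (by fun_prop) _ _ (by simp))
    have : ∀ᶠ p : PrI × ℝ in 𝓝 (ν, t), p.2 ∈ Ioi (t / 2) :=
      continuous_snd.continuousAt.eventually (Ioi_mem_nhds (half_lt_self ht))
    filter_upwards [this] with p hp
    refine (convex_Ioi (t / 2)).norm_image_sub_le_of_norm_hasDerivWithin_le
      (f' := jt (k + 1) p.1)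
      (fun u hu => (jt_hasDerivAt k p.1 ((half_pos ht).trans hu)).hasDerivWithinAt)
      (fun u hu => ?_) (half_lt_self ht) hp
    simpa [C, jt] using norm_integral_le_of_norm_le_const (μ := (p.1 : Measure (Icc (0 : ℝ) 1)))
      (Eventually.of_forall fun s => Ker_bound (k + 1) s (half_pos ht) (le_of_lt hu))
  simpa [ContinuousAt] using c2.add (c1.tendsto (ν, t))

end Pool.Agent.Work.MP_2482e4_mp.Gn
end

-- merged part: Pool.Agent.Work.MP_2482e4_mp.Gn.Sm
section
/-! The metric attached to `fMeas ν` exists and is smooth. -/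

open scoped ComplexOrder Topology ContDiff Matrix.Norms.L2Operator
open Matrix Filter Module Set MeasureTheory

set_option linter.unusedSectionVars false

namespace Pool.Agent.Work.MP_2482e4_mp.Gn

/-- The unit interval. -/
abbrev II := Icc (0 : ℝ) 1

/-- `2 / (1 + s)`. -/
noncomputable def cI : C(II, ℝ) := ⟨fun s => 2 / (1 + (s : ℝ)),
  Continuous.div (by fun_prop) (by fun_prop) fun s => by have := s.2.1; positivity⟩

/-- `2 s / (1 + s)`. -/
noncomputable def eI : C(II, ℝ) := ⟨fun s => 2 * (s : ℝ) / (1 + (s : ℝ)),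
  Continuous.div (by fun_prop) (by fun_prop) fun s => by have := s.2.1; positivity⟩

theorem inv_cd {R : Type} [NormedRing R] [NormedAlgebra ℝ R] [CompleteSpace R] {x : R}
    (h : IsUnit x) : ContDiffAt ℝ ∞ (Ring.inverse : R → R) x :=
  contDiffAt_ringInverse ℝ h.unit

section Gen
variable {A : Type} [NormedRing A] [NormedAlgebra ℝ A] [FiniteDimensional ℝ A]

/-- `B ↦ c X B + e B X`, as a function on the interval. -/
noncomputable def opA (c e : C(II, ℝ)) : A →ₗ[ℝ] C(II, A →L[ℝ] A) where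
  toFun X := ⟨fun s => c s • ContinuousLinearMap.mul ℝ A X +
    e s • (ContinuousLinearMap.mul ℝ A).flip X, by fun_prop⟩
  map_add' X Y := by
    ext1 s
    simp only [map_add, ContinuousMap.coe_mk, ContinuousMap.add_apply, smul_add]
    abel
  map_smul' a X := by
    ext1 s
    simp only [map_smul, ContinuousMap.coe_mk, ContinuousMap.smul_apply, smul_add, RingHom.id_apply,
      smul_comm a]

/-- Integration of operator valued functions. -/
noncomputable def intL (ν : PrI) : C(II, A →L[ℝ] A) →L[ℝ] A →L[ℝ] A :=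
  LinearMap.mkContinuous
    { toFun := fun φ : C(II, A →L[ℝ] A) => ∫ s, φ s ∂(ν : Measure II)
      map_add' := fun φ ψ => integral_add
        (φ.continuous.integrable_of_hasCompactSupport (HasCompactSupport.of_compactSpace _))
        (ψ.continuous.integrable_of_hasCompactSupport (HasCompactSupport.of_compactSpace _))
      map_smul' := fun a φ => integral_smul a _ } 1 fun φ => by
    simpa using norm_integral_le_of_norm_le_const (μ := (ν : Measure II))
      (Eventually.of_forall fun s => φ.norm_coe_le_norm s)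

/-- The operator with kernel `y f (x / y)`. -/
noncomputable def opK (ν : PrI) (X : A) : A →L[ℝ] A :=
  intL ν (Ring.inverse (opA cI eI X) + Ring.inverse (opA eI cI X)) *
    (ContinuousLinearMap.mul ℝ A X * (ContinuousLinearMap.mul ℝ A).flip X)

/-- The operator `opK` applied to an element. -/
noncomputable def apK (ν : PrI) (X B : A) : A := opK ν X B

/-- The inverse operator. -/
noncomputable def opG (ν : PrI) (X : A) : A →ₗ[ℝ] A := (Ring.inverse (opK ν X) : A →L[ℝ] A)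

theorem unit_of_inj {T : A →L[ℝ] A} (h : ∀ B, T B = 0 → B = 0) : IsUnit T := by
  have hinj : Function.Injective T.toLinearMap := (injective_iff_map_eq_zero _).2 h
  exact ⟨ContinuousLinearEquiv.toUnit
    (LinearEquiv.ofInjectiveEndo _ hinj).toContinuousLinearEquiv, rfl⟩

theorem opA_unit {c e : C(II, ℝ)} {X : A}
    (h : ∀ s B, c s • (X * B) + e s • (B * X) = 0 → B = 0) : IsUnit (opA c e X) := by
  have : CompleteSpace A := FiniteDimensional.complete ℝ A
  exact (ContinuousMap.isUnit_iff_forall_isUnit _).2 fun s => unit_of_inj (h s)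

theorem opA_inverse {c e : C(II, ℝ)} {X : A}
    (h : ∀ s B, c s • (X * B) + e s • (B * X) = 0 → B = 0) (s : II) (B : A) :
    Ring.inverse (opA c e X) s (c s • (X * B) + e s • (B * X)) = B := by
  have h1 : Ring.inverse (opA c e X) s * opA c e X s = 1 := by
    have hu := opA_unit h
    rw [← ContinuousMap.mul_apply, Ring.inverse_mul_cancel _ hu]
    rfl
  exact congrArg (fun T : A →L[ℝ] A => T B) h1

theorem apK_eq (ν : PrI) {X : A} (h : ∀ s B, cI s • (X * B) + eI s • (B * X) = 0 → B = 0)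
    (h' : ∀ s B, eI s • (X * B) + cI s • (B * X) = 0 → B = 0) (B : A) (C D : II → A)
    (hC : ∀ s, cI s • (X * C s) + eI s • (C s * X) = X * (B * X))
    (hD : ∀ s, eI s • (X * D s) + cI s • (D s * X) = X * (B * X)) (l : A →ₗ[ℝ] ℂ) :
    l (apK ν X B) = ∫ s, l (C s + D s) ∂(ν : Measure II) := by
  have : CompleteSpace A := FiniteDimensional.complete ℝ A
  let L : (A →L[ℝ] A) →L[ℝ] ℂ := (LinearMap.toContinuousLinearMap l).comp
    (ContinuousLinearMap.apply ℝ A (X * (B * X)))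
  set φ := Ring.inverse (opA cI eI X) + Ring.inverse (opA eI cI X) with hφ
  have h1 := L.integral_comp_comm (μ := (ν : Measure II))
    (φ.continuous.integrable_of_hasCompactSupport (HasCompactSupport.of_compactSpace _))
  refine h1.symm.trans (integral_congr_ae (Eventually.of_forall fun s => ?_))
  change l (Ring.inverse (opA cI eI X) s (X * (B * X)) +
    Ring.inverse (opA eI cI X) s (X * (B * X))) = l (C s + D s)
  congr 2
  · rw [← hC s, opA_inverse h]
  · rw [← hD s, opA_inverse h']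

theorem opG_apK (ν : PrI) {X : A} (h : ∀ B, apK ν X B = 0 → B = 0) (B : A) :
    opG ν X (apK ν X B) = B :=
  congrArg (fun T : A →L[ℝ] A => T B) (Ring.inverse_mul_cancel _ (unit_of_inj h))

theorem opG_smooth {E : Type} [NormedAddCommGroup E] [NormedSpace ℝ E] [FiniteDimensional ℝ E]
    (ν : PrI) (ι : E →ₗ[ℝ] A) (om : A →ₗ[ℝ] ℝ) {q : E}
    (h : ∀ s B, cI s • (ι q * B) + eI s • (B * ι q) = 0 → B = 0)
    (h' : ∀ s B, eI s • (ι q * B) + cI s • (B * ι q) = 0 → B = 0)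
    (hK : ∀ B, apK ν (ι q) B = 0 → B = 0) (B : A) :
    ContDiffAt ℝ ∞ (fun p => om (opG ν (ι p) B)) q := by
  have : CompleteSpace A := FiniteDimensional.complete ℝ A
  have h1 : ∀ c e : C(II, ℝ), (∀ s B, c s • (ι q * B) + e s • (B * ι q) = 0 → B = 0) →
      ContDiffAt ℝ ∞ (fun X : A => Ring.inverse (opA c e X)) (ι q) := fun c e h => by
    have h0 : ContDiff ℝ ∞ (LinearMap.toContinuousLinearMap (opA (A := A) c e)) :=
      ContinuousLinearMap.contDiff _
    exact (inv_cd (R := C(II, A →L[ℝ] A)) (opA_unit h)).comp (ι q) h0.contDiffAt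
  have h4 : ContDiff ℝ ∞ (intL (A := A) ν) := ContinuousLinearMap.contDiff _
  have h2 : ContDiffAt ℝ ∞ (opK ν) (ι q) :=
    (h4.contDiffAt.comp _ ((h1 _ _ h).add (h1 _ _ h'))).mul
      ((ContinuousLinearMap.mul ℝ A).contDiff.contDiffAt.mul
        (ContinuousLinearMap.mul ℝ A).flip.contDiff.contDiffAt)
  have h3 : ContDiffAt ℝ ∞ (fun X : A => Ring.inverse (opK ν X)) (ι q) :=
    (inv_cd (R := A →L[ℝ] A) (unit_of_inj hK)).comp (ι q) h2
  exact (LinearMap.toContinuousLinearMap om).contDiff.contDiffAt.comp q ((h3.comp q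
    (LinearMap.toContinuousLinearMap ι).contDiff.contDiffAt).clm_apply contDiffAt_const)

end Gen

variable {n : Type} [Fintype n] [DecidableEq n] {U : Mt n} {d : n → ℝ}

theorem ce_ne (hd : ∀ i, 0 < d i) (s : II) (i j : n) : cI s * d i + eI s * d j ≠ 0 := by
  have := s.2.1
  have := hd i
  have := hd j
  change 2 / (1 + (s : ℝ)) * d i + 2 * (s : ℝ) / (1 + (s : ℝ)) * d j ≠ 0
  positivity

theorem ec_ne (hd : ∀ i, 0 < d i) (s : II) (i j : n) : eI s * d i + cI s * d j ≠ 0 := by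
  rw [add_comm]
  exact ce_ne hd s j i

theorem lr_Dg (hU : U * star U = 1) (c e : ℝ) (B : Mt n) :
    c • (Dg U d * B) + e • (B * Dg U d) = Sch U (fun i j => c * d i + e * d j) B := by
  rw [Sch_add hU, Sch_const_mul hU, Sch_const_mul hU, Dg_mul hU, mul_Dg hU]

theorem lr_inj (hU : U * star U = 1) {c e : ℝ} (h : ∀ i j, c * d i + e * d j ≠ 0) (B : Mt n)
    (hB : c • (Dg U d * B) + e • (B * Dg U d) = 0) : B = 0 :=
  Sch_inj hU h (by rw [← lr_Dg hU, hB, map_zero])

theorem lr_solve (hU : U * star U = 1) {c e : ℝ} (h : ∀ i j, c * d i + e * d j ≠ 0) (B : Mt n) :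
    c • (Dg U d * Sch U (fun i j => (c * d i + e * d j)⁻¹ * (d i * d j)) B) +
      e • (Sch U (fun i j => (c * d i + e * d j)⁻¹ * (d i * d j)) B * Dg U d) =
      Dg U d * (B * Dg U d) := by
  rw [lr_Dg hU, Sch_Sch hU, mul_Dg hU, Dg_mul hU, Sch_Sch hU]
  exact Sch_congr (fun i j => mul_inv_cancel_left₀ (h i j) _) B

theorem apK_Dg (ν : PrI) (hU : U * star U = 1) (hd : ∀ i, 0 < d i) (B : Mt n) :
    apK ν (Dg U d) B = Sch U (fun i j => d j * fMeas ν (d i / d j)) B := by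
  refine conj_ext hU fun i j => ?_
  let l : Mt n →ₗ[ℝ] ℂ :=
    { toFun := fun T => (star U * T * U) i j
      map_add' := fun T T' => by simp [Matrix.mul_add, Matrix.add_mul]
      map_smul' := fun a T => by simp }
  refine (apK_eq ν (fun s => lr_inj hU (ce_ne hd s)) (fun s => lr_inj hU (ec_ne hd s)) B _ _
    (fun s => lr_solve hU (ce_ne hd s) B) (fun s => lr_solve hU (ec_ne hd s) B) l).trans ?_
  rw [conj_Sch hU, fMeas, ← integral_const_mul, ← integral_complex_ofReal, ← integral_mul_const]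
  refine integral_congr_ae (Eventually.of_forall fun s => ?_)
  beta_reduce
  rw [← Sch_add hU]
  refine (conj_Sch hU _ _ i j).trans ?_
  congr 2
  have := s.2.1
  have := hd i
  have := hd j
  change (2 / (1 + (s : ℝ)) * d i + 2 * (s : ℝ) / (1 + (s : ℝ)) * d j)⁻¹ * (d i * d j) +
    (2 * (s : ℝ) / (1 + (s : ℝ)) * d i + 2 / (1 + (s : ℝ)) * d j)⁻¹ * (d i * d j) = _
  field_simp
  ring

theorem ker_ne (ν : PrI) (hd : ∀ i, 0 < d i) (i j : n) : d j * fMeas ν (d i / d j) ≠ 0 :=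
  (mul_pos (hd j) (fMeas_pos ν (div_pos (hd i) (hd j)))).ne'

theorem apK_inj (ν : PrI) (hU : U * star U = 1) (hd : ∀ i, 0 < d i) (B : Mt n)
    (hB : apK ν (Dg U d) B = 0) : B = 0 :=
  Sch_inj hU (ker_ne ν hd) (by rw [← apK_Dg ν hU hd, hB, map_zero])

theorem opG_Dg (ν : PrI) (hU : U * star U = 1) (hd : ∀ i, 0 < d i) (B : Mt n) :
    opG ν (Dg U d) B = Sch U (fun i j => (d j * fMeas ν (d i / d j))⁻¹) B := by
  have h := opG_apK ν (apK_inj ν hU hd) (Sch U (fun i j => (d j * fMeas ν (d i / d j))⁻¹) B)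
  rwa [apK_Dg ν hU hd, Sch_Sch hU,
    Sch_congr (l := fun _ _ => 1) (fun i j => mul_inv_cancel₀ (ker_ne ν hd i j)), Sch_one hU] at h

variable {E : Type} [NormedAddCommGroup E] [NormedSpace ℝ E]
variable {ι : E →ₗ[ℝ] Mt n} {g : E → E →L[ℝ] E →L[ℝ] ℝ}

theorem petz_smooth_meas (hι : IsHermModel ι) (ν : PrI) (hg : IsPetz ι (fMeas ν) g) {q : E}
    (hq : (ι q).PosDef) : ContDiffAt ℝ ∞ g q := by
  have : FiniteDimensional ℝ E := FiniteDimensional.of_injective ι hι.1
  refine cdAt_clm' fun Y => cdAt_clm' fun X => ?_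
  set om : Mt n →ₗ[ℝ] ℝ :=
    Complex.reLm ∘ₗ (Matrix.traceLinearMap n ℝ ℂ) ∘ₗ LinearMap.mulLeft ℝ (ι Y) with hom
  have h1 : ContDiffAt ℝ ∞ (fun p => om (opG ν (ι p) (ι X))) q := by
    obtain ⟨U, d, hU, hx, hd⟩ := exists_Dg_pos hq
    refine opG_smooth ν ι om ?_ ?_ ?_ _ <;> rw [hx]
    exacts [fun s => lr_inj hU (ce_ne hd s), fun s => lr_inj hU (ec_ne hd s), apK_inj ν hU hd]
  refine h1.congr_of_eventuallyEq ((posDef_near hι hq).mono fun p hp => ?_)
  obtain ⟨U, d, hU, hx, hd⟩ := exists_Dg_pos hp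
  change g p Y X = (ι Y * opG ν (ι p) (ι X)).trace.re
  rw [petz_rep hι hg hU hx hd, hx, opG_Dg ν hU hd]

/-- Sanity check: the hypothesis `IsPetz ι (fMeas ν) g` can be satisfied. -/
theorem exists_petz_meas (hι : IsHermModel ι) (ν : PrI) :
    ∃ g : E → E →L[ℝ] E →L[ℝ] ℝ, IsPetz ι (fMeas ν) g := by
  have : FiniteDimensional ℝ E := FiniteDimensional.of_injective ι hι.1
  let β : E → E →ₗ[ℝ] E →L[ℝ] ℝ := fun p =>
    { toFun := fun Y => LinearMap.toContinuousLinearMap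
        (Complex.reLm ∘ₗ (Matrix.traceLinearMap n ℝ ℂ) ∘ₗ LinearMap.mulLeft ℝ (ι Y) ∘ₗ
          opG ν (ι p) ∘ₗ ι)
      map_add' := fun x y => by ext; simp [Matrix.add_mul]
      map_smul' := fun c x => by ext; simp }
  refine ⟨fun p => LinearMap.toContinuousLinearMap (β p), fun p Y X U d hU hd hx => ?_⟩
  have hx' : ι p = Dg U d := hx
  change (ι Y * opG ν (ι p) (ι X)).trace.re = _
  rw [hx', opG_Dg ν hU hd, trace_Sch hU _ (herm_ι hι Y), petzSum]
  simp only [div_eq_inv_mul]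

end Pool.Agent.Work.MP_2482e4_mp.Gn
end
end
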