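import Pool.Agent.Work.MP_2482e4_mp.Gn.Sm
import Mathlib

-- merged part: Pool.Agent.Work.MP_2482e4_mp.Gn.Strat
section
/-!
Shrinking a leaf to a piece with constant spectral pattern.
Plan. eig_near: if H E = x E with E nonzero and no eigenvalue of H' = Dg U y is within the norm of H - H' of x, then
E = Dg U (y - x)⁻¹ (H' - H) E and the norm of Dg U c is at most the sup of |c i| (l2_opNorm_diagonal, unitaries have norm
at most 1): contradiction. exists_strat: let sp H be the Finset image of the eigenvalues (H = Dg U y, sp H = image y).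
Take H₀ in N with the largest card (sp H₀) = m, enumerate l₀ : Fin m → ℝ injectively, δ = (least gap) / 8 (any positive
number if m ≤ 1), O = ball H₀ δ. For H in N ∩ O every l₀ a has an eigenvalue l H a of H within δ (eig_near); a ↦ l H a is
injective, so onto sp H by maximality. P H a = Dg U (indicator of y i = l H a); IsRes, nonzero, H = dg. l is 1-Lipschitz on
N ∩ O (eig_near again and the gap). Continuity of P: P H a = aeval H (Lagrange.basis univ (l H) a), written as a product over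
b different from a of (l H a - l H b)⁻¹ • (H - l H b • 1) (List.prod over a fixed list; compute with Dg_mul_Dg).
exists_good: apply exists_strat, then shrink to the functions mu (P H) (e i) a - mu (P H) (e i) b (e a basis of 𝒜),
l a - l b - (l c - l d), max (l a - l b) 0. R a b := all mu differences vanish identically; mu is linear in A.
-/

open scoped ComplexOrder Topology ContDiff Matrix.Norms.L2Operator
open Matrix Filter Module

set_option linter.unusedSectionVars false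

namespace Pool.Agent.Work.MP_2482e4_mp.Gn

variable {n : Type} [Fintype n] [DecidableEq n]

theorem Strat_norm {U : Mt n} (hU : U * star U = 1) (c : n → ℝ) :
    ‖Dg U c‖ = ‖fun i => (c i : ℂ)‖ := by
  have hu : U ∈ unitary (Mt n) := ⟨unit_comm hU, hU⟩
  rw [Dg, CStarRing.norm_mul_mem_unitary _ (Unitary.star_mem hu),
    CStarRing.norm_mem_unitary_mul _ hu, l2_opNorm_diagonal]

theorem Strat_sub {U : Mt n} (hU : U * star U = 1) (y : n → ℝ) (x : ℝ) :
    Dg U y - x • 1 = Dg U fun i => y i - x := by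
  rw [← Dg_one hU, ← Dg_smul, Dg, Dg, Dg, ← sub_mul, ← mul_sub, diagonal_sub]
  simp

theorem Strat_sum {J : Type} [Fintype J] (U : Mt n) (g : J → n → ℝ) :
    ∑ a, Dg U (g a) = Dg U fun i => ∑ a, g a i := by
  simp only [Dg, ← Finset.sum_mul, ← Finset.mul_sum]
  congr 2
  ext i j
  by_cases h : i = j
  · subst h
    simp [Matrix.sum_apply]
  · simp [Matrix.sum_apply, h]

theorem Strat_ne {U : Mt n} (hU : U * star U = 1) {c : n → ℝ} {i : n} (h : c i ≠ 0) :
    Dg U c ≠ 0 := fun h0 => by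
  have := congrFun (congrFun (conj_Dg hU c) i) i
  rw [h0] at this
  exact h (by simpa using this.symm)

theorem Strat_prod {J : Type} {U : Mt n} (hU : U * star U = 1) (g : J → n → ℝ) (L : List J) :
    (L.map fun b => Dg U (g b)).prod = Dg U fun i => (L.map fun b => g b i).prod := by
  induction L with
  | nil => simp [Dg_one hU]
  | cons b L ih => simp only [List.map_cons, List.prod_cons, ih, Dg_mul_Dg hU]

theorem eig_near {H H' E U : Mt n} {x : ℝ} (hE : E ≠ 0) (h : H * E = x • E) (hU : U * star U = 1)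
    {y : n → ℝ} (hy : H' = Dg U y) : ∃ i, |y i - x| ≤ ‖H - H'‖ := by
  by_contra hc
  push Not at hc
  have h0 : ∀ i, y i - x ≠ 0 := fun i => abs_pos.1 ((norm_nonneg _).trans_lt (hc i))
  have h1 : Dg U (fun i => (y i - x)⁻¹) * (H' - H) * E = E := by
    have e : (H' - H) * E = (H' - x • 1) * E := by simp [sub_mul, h]
    rw [mul_assoc, e, ← mul_assoc, hy, Strat_sub hU, Dg_mul_Dg hU]
    simp only [inv_mul_cancel₀ (h0 _), Dg_one hU, one_mul]
  have h2 : ‖H - H'‖ * ‖Dg U fun i => (y i - x)⁻¹‖ < 1 := by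
    rw [Strat_norm hU, ← norm_norm (H - H'), ← norm_smul, pi_norm_lt_iff one_pos]
    intro i
    rw [Pi.smul_apply, norm_smul, norm_norm, Complex.norm_real, Real.norm_eq_abs, abs_inv,
      ← div_eq_mul_inv, div_lt_one (abs_pos.2 (h0 i))]
    exact hc i
  have h3 : ‖E‖ ≤ ‖Dg U fun i => (y i - x)⁻¹‖ * ‖H' - H‖ * ‖E‖ :=
    (congrArg norm h1).symm.trans_le
      ((norm_mul_le _ _).trans (mul_le_mul_of_nonneg_right (norm_mul_le _ _) (norm_nonneg _)))
  rw [norm_sub_rev H'] at h3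
  nlinarith [norm_pos_iff.2 hE]

theorem Strat_near {U U' : Mt n} (hU : U * star U = 1) (hU' : U' * star U' = 1) (y y' : n → ℝ)
    (i : n) : ∃ j, |y' j - y i| ≤ ‖Dg U y - Dg U' y'‖ := by
  refine eig_near (E := Dg U fun k => if y k = y i then 1 else 0) (Strat_ne hU (i := i) (by simp))
    ?_ hU' rfl
  rw [Dg_mul_Dg hU, ← Dg_smul]
  congr 1
  funext k
  split_ifs with h
  · rw [h]
  · simp

theorem Strat_gap {m : ℕ} {l : Fin m → ℝ} (hl : Function.Injective l) :
    ∃ δ, 0 < δ ∧ ∀ a b, |l a - l b| < 4 * δ → a = b := by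
  have h : ∀ᶠ δ in 𝓝[>] (0 : ℝ), ∀ a b, |l a - l b| < 4 * δ → a = b := by
    refine eventually_all.2 fun a => eventually_all.2 fun b => ?_
    by_cases e : a = b
    · exact .of_forall fun _ _ => e
    · have h1 : 0 < |l a - l b| / 4 := by
        have := abs_pos.2 (sub_ne_zero.2 (hl.ne e))
        positivity
      filter_upwards [nhdsWithin_le_nhds (gt_mem_nhds h1)] with δ h2 h3
      linarith
  obtain ⟨δ, h1, h2⟩ := (h.and self_mem_nhdsWithin).exists
  exact ⟨δ, h2, h1⟩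

/-- The spectral projections as products. -/
noncomputable def Strat_P {m : ℕ} (H : Mt n) (l : Fin m → ℝ) (a : Fin m) : Mt n :=
  ((Finset.univ.erase a).toList.map fun b => (l a - l b)⁻¹ • (H - l b • 1)).prod

theorem Strat_P_eq {m : ℕ} {U : Mt n} (hU : U * star U = 1) {y : n → ℝ} {l : Fin m → ℝ}
    (hl : Function.Injective l) (hy : ∀ i, ∃ a, l a = y i) (a : Fin m) :
    Strat_P (Dg U y) l a = Dg U fun i => if l a = y i then 1 else 0 := by
  simp only [Strat_P, Strat_sub hU, ← Dg_smul, Strat_prod hU, Finset.prod_map_toList]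
  congr 1
  funext i
  obtain ⟨c, hc⟩ := hy i
  rw [← hc]
  split_ifs with h
  · refine Finset.prod_eq_one fun b hb => ?_
    rw [← h]
    exact inv_mul_cancel₀ (sub_ne_zero.2 (hl.ne (Finset.ne_of_mem_erase hb).symm))
  · exact Finset.prod_eq_zero (i := c)
      (Finset.mem_erase.2 ⟨fun e => h (by rw [e]), Finset.mem_univ _⟩) (by simp)

theorem Strat_data {m : ℕ} {U : Mt n} (hU : U * star U = 1) {y : n → ℝ} {l : Fin m → ℝ}
    (hl : Function.Injective l) (hy : ∀ i, ∃ a, l a = y i) :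
    IsRes (Strat_P (Dg U y) l) ∧ Dg U y = dg (Strat_P (Dg U y) l) l := by
  refine ⟨⟨fun a => ?_, fun a b => ?_, ?_⟩, ?_⟩
  · rw [Strat_P_eq hU hl hy]
    exact Dg_herm _
  · simp only [Strat_P_eq hU hl hy, Dg_mul_Dg hU]
    split_ifs with e
    · subst e
      congr 1
      funext i
      split_ifs <;> simp
    · have : ∀ i, ((if l a = y i then 1 else 0) * if l b = y i then 1 else 0 : ℝ) = 0 := fun i => by
        split_ifs with h1 h2
        · exact absurd (hl (h1.trans h2.symm)) e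
        all_goals simp
      simp [this, Dg]
  · simp only [Strat_P_eq hU hl hy, Strat_sum, ← Dg_one hU]
    congr 1
    funext i
    obtain ⟨c, hc⟩ := hy i
    simp [← hc, hl.eq_iff]
  · simp only [dg, Strat_P_eq hU hl hy, ← Dg_smul, Strat_sum]
    congr 1
    funext i
    obtain ⟨c, hc⟩ := hy i
    simp [← hc, hl.eq_iff]

theorem exists_strat {N : Set (Mt n)} (hN : N.Nonempty) (hh : ∀ H ∈ N, H.IsHermitian) :
    ∃ O : Set (Mt n), IsOpen O ∧ (N ∩ O).Nonempty ∧
      ∃ (m : ℕ) (l : Mt n → Fin m → ℝ) (P : Mt n → Fin m → Mt n), Strat (N ∩ O) l P := by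
  have h1 : ∀ H : Mt n, ∃ (U : Mt n) (y : n → ℝ), H ∈ N → U * star U = 1 ∧ H = Dg U y := fun H => by
    by_cases h : H ∈ N
    · obtain ⟨U, y, h⟩ := exists_Dg (hh H h)
      exact ⟨U, y, fun _ => h⟩
    · exact ⟨0, 0, fun h' => absurd h' h⟩
  choose U y hUy using h1
  have hnear : ∀ H ∈ N, ∀ H' ∈ N, ∀ i, ∃ j, |y H' j - y H i| ≤ ‖H - H'‖ := fun H hH H' hH' i => by
    have := Strat_near (hUy H hH).1 (hUy H' hH').1 (y H) (y H') i
    rwa [← (hUy H hH).2, ← (hUy H' hH').2] at this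
  obtain ⟨_, ⟨H₀, hH₀, rfl⟩, hmax⟩ := Set.exists_max_image
    ((fun H => (Finset.univ.image (y H)).card) '' N) id
    ((Set.finite_Iic (Fintype.card n)).subset (by
      rintro _ ⟨H, -, rfl⟩
      exact Finset.card_image_le)) (hN.image _)
  obtain ⟨m, hm⟩ : ∃ m, (Finset.univ.image (y H₀)).card = m := ⟨_, rfl⟩
  set l₀ := (Finset.univ.image (y H₀)).orderEmbOfFin hm
  obtain ⟨δ, hδ, hgap⟩ := Strat_gap (l := l₀) l₀.injective
  have h2 : ∀ H a, ∃ x, H ∈ N ∩ Metric.ball H₀ δ → (∃ j, y H j = x) ∧ |x - l₀ a| < δ := fun H a => by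
    by_cases h : H ∈ N ∩ Metric.ball H₀ δ
    · obtain ⟨i, -, hi⟩ := Finset.mem_image.1 (Finset.orderEmbOfFin_mem _ hm a)
      obtain ⟨j, hj⟩ := hnear H₀ hH₀ H h.1 i
      exact ⟨y H j, fun _ => ⟨⟨j, rfl⟩, (hi ▸ hj).trans_lt (mem_ball_iff_norm'.1 h.2)⟩⟩
    · exact ⟨0, fun h' => absurd h' h⟩
  choose l hl using h2
  have hinj : ∀ H ∈ N ∩ Metric.ball H₀ δ, Function.Injective (l H) := fun H hH a b e => by
    refine hgap a b ?_
    have a1 := abs_lt.1 (hl H a hH).2
    have a2 := abs_lt.1 (hl H b hH).2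
    rw [abs_lt]
    constructor <;> linarith
  have hsur : ∀ H ∈ N ∩ Metric.ball H₀ δ, ∀ i, ∃ a, l H a = y H i := fun H hH i => by
    have e : Finset.univ.image (l H) = Finset.univ.image (y H) := by
      refine Finset.eq_of_subset_of_card_le (fun x hx => ?_) ?_
      · obtain ⟨a, -, rfl⟩ := Finset.mem_image.1 hx
        obtain ⟨j, hj⟩ := (hl H a hH).1
        exact Finset.mem_image.2 ⟨j, Finset.mem_univ _, hj⟩
      · rw [Finset.card_image_of_injective _ (hinj H hH), Finset.card_fin, ← hm]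
        exact hmax _ ⟨H, hH.1, rfl⟩
    simpa using e.ge (Finset.mem_image_of_mem _ (Finset.mem_univ i))
  have hcl : ∀ a, ContinuousOn (fun H => l H a) (N ∩ Metric.ball H₀ δ) := fun a => by
    refine (LipschitzOnWith.of_dist_le_mul (K := 1) fun H' hH' H hH => ?_).continuousOn
    obtain ⟨i, hi⟩ := (hl H a hH).1
    obtain ⟨j, hj⟩ := hnear H hH.1 H' hH'.1 i
    obtain ⟨b, hb⟩ := hsur H' hH' j
    rw [← hb, hi, ← dist_eq_norm'] at hj
    have e : b = a := by
      refine hgap b a ?_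
      have a1 := abs_lt.1 (hl H a hH).2
      have a2 := abs_lt.1 (hl H' b hH').2
      have a3 := abs_le.1 hj
      have a4 := dist_triangle_right H' H H₀
      have a5 := Metric.mem_ball.1 hH.2
      have a6 := Metric.mem_ball.1 hH'.2
      rw [abs_lt]
      constructor <;> linarith
    rwa [NNReal.coe_one, one_mul, Real.dist_eq, ← congrArg (l H') e]
  refine ⟨Metric.ball H₀ δ, Metric.isOpen_ball, ⟨H₀, hH₀, Metric.mem_ball_self hδ⟩, m, l,
    fun H => Strat_P H (l H), fun H hH => ?_, fun H hH a => ?_, fun H hH => ?_, hinj, hcl,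
    fun a => ?_⟩
  · have := (Strat_data (hUy H hH.1).1 (hinj H hH) (hsur H hH)).1
    rwa [← (hUy H hH.1).2] at this
  · have := Strat_P_eq (hUy H hH.1).1 (hinj H hH) (hsur H hH) a
    rw [← (hUy H hH.1).2] at this
    obtain ⟨i, hi⟩ := (hl H a hH).1
    rw [this]
    exact Strat_ne (hUy H hH.1).1 (i := i) (by simp [hi])
  · have := (Strat_data (hUy H hH.1).1 (hinj H hH) (hsur H hH)).2
    rwa [← (hUy H hH.1).2] at this
  · refine continuousOn_list_prod _ fun b hb => ?_
    refine (((hcl a).sub (hcl b)).inv₀ fun H hH => ?_).smul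
      (continuousOn_id.sub ((hcl b).smul continuousOn_const))
    exact sub_ne_zero.2
      ((hinj H hH).ne (Finset.ne_of_mem_erase (Finset.mem_toList.1 hb)).symm)

theorem shrink {T κ : Type} [TopologicalSpace T] [Finite κ] {N : Set T} (hN : N.Nonempty)
    (g : κ → T → ℝ) (hg : ∀ k, ContinuousOn (g k) N) :
    ∃ O : Set T, IsOpen O ∧ (N ∩ O).Nonempty ∧
      ∀ k, (∀ x ∈ N ∩ O, g k x = 0) ∨ ∀ x ∈ N ∩ O, g k x ≠ 0 := by
  classical
  have := Fintype.ofFinite κ
  suffices h : ∀ s : Finset κ, ∃ O : Set T, IsOpen O ∧ (N ∩ O).Nonempty ∧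
      ∀ k ∈ s, (∀ x ∈ N ∩ O, g k x = 0) ∨ ∀ x ∈ N ∩ O, g k x ≠ 0 by
    obtain ⟨O, h1, h2, h3⟩ := h Finset.univ
    exact ⟨O, h1, h2, fun k => h3 k (Finset.mem_univ k)⟩
  intro s
  induction s using Finset.induction_on with
  | empty => exact ⟨Set.univ, isOpen_univ, by simpa using hN, by simp⟩
  | insert k s _ ih =>
    obtain ⟨O, h1, h2, h3⟩ := ih
    by_cases h : ∀ x ∈ N ∩ O, g k x = 0
    · exact ⟨O, h1, h2, (Finset.forall_mem_insert ..).2 ⟨.inl h, h3⟩⟩
    · push Not at h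
      obtain ⟨x, hx, hx0⟩ := h
      obtain ⟨V, hV, e⟩ := continuousOn_iff'.1 (hg k) {0}ᶜ isOpen_compl_singleton
      refine ⟨O ∩ V, h1.inter hV, ⟨x, hx.1, hx.2, (e.subset ⟨hx0, hx.1⟩).1⟩,
        (Finset.forall_mem_insert ..).2 ⟨.inr fun z hz => (e.symm.subset ⟨hz.2.2, hz.1⟩).1,
          fun j hj => ?_⟩⟩
      exact (h3 j hj).imp (fun h z hz => h z ⟨hz.1, hz.2.1⟩) fun h z hz => h z ⟨hz.1, hz.2.1⟩

theorem Leaf.inter {w : ℝ → ℝ} {𝒜 : Submodule ℝ (Mt n)} {N O : Set (Mt n)} (h : Leaf w 𝒜 N)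
    (hO : IsOpen O) : Leaf w 𝒜 (N ∩ O) := by
  refine ⟨fun H hH => h.herm H hH.1, fun H hH A hA => ?_,
    fun H hH A hA B hB γ δ X Y h1 h2 h3 h4 => h.invol H hH.1 A hA B hB γ δ X Y h1 h2
      (h3.mono fun _ e => e.1) (h4.mono fun _ e => e.1)⟩
  obtain ⟨γ, h1, h2, h3⟩ := h.curve H hH.1 A hA
  exact ⟨γ, h1, h2.and (h3.continuousAt.eventually (hO.mem_nhds (h1 ▸ hH.2))), h3⟩

theorem Strat.mono {N N' : Set (Mt n)} {m : ℕ} {l : Mt n → Fin m → ℝ} {P : Mt n → Fin m → Mt n}
    (h : Strat N l P) (hN : N' ⊆ N) : Strat N' l P := by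
  exact ⟨fun H hH => h.res H (hN hH), fun H hH => h.ne H (hN hH), fun H hH => h.eq H (hN hH),
    fun H hH => h.inj H (hN hH), fun a => (h.cl a).mono hN, fun a => (h.cP a).mono hN⟩

theorem Strat_mu_cont {N : Set (Mt n)} {m : ℕ} {l : Mt n → Fin m → ℝ} {P : Mt n → Fin m → Mt n}
    (h : Strat N l P) (A : Mt n) (a : Fin m) : ContinuousOn (fun H => mu (P H) A a) N := by
  have ht : Continuous fun X : Mt n => X.trace.re :=
    Complex.continuous_re.comp continuous_id.matrix_trace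
  exact (ht.comp_continuousOn ((h.cP a).mul continuousOn_const)).mul
    ((ht.comp_continuousOn (h.cP a)).inv₀ fun H hH => ((h.res H hH).trace_pos (h.ne H hH a)).ne')

theorem Strat_mu_sum {ι J : Type} [Fintype ι] (P : J → Mt n) (c : ι → ℝ) (v : ι → Mt n) (a : J) :
    mu P (∑ i, c i • v i) a = ∑ i, c i * mu P (v i) a := by
  simp [mu, Finset.mul_sum, trace_sum, Finset.sum_mul, mul_assoc]

theorem exists_good {w : ℝ → ℝ} {𝒜 : Submodule ℝ (Mt n)} {N : Set (Mt n)} (h : Leaf w 𝒜 N)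
    (hN : N.Nonempty) : ∃ N' ⊆ N, N'.Nonempty ∧ ∃ (m : ℕ) (l : Mt n → Fin m → ℝ)
      (P : Mt n → Fin m → Mt n) (R : Fin m → Fin m → Prop), Good w 𝒜 N' l P R := by
  obtain ⟨O, hO, hne, m, l, P, hS⟩ := exists_strat hN h.herm
  let e := finBasis ℝ 𝒜
  obtain ⟨V, hV, hne', hk⟩ := shrink
    (κ := (Fin (finrank ℝ 𝒜) × Fin m × Fin m) ⊕ (Fin m × Fin m × Fin m × Fin m) ⊕ Fin m × Fin m) hne
    (Sum.elim (fun k H => mu (P H) (e k.1) k.2.1 - mu (P H) (e k.1) k.2.2)
      (Sum.elim (fun k H => l H k.1 - l H k.2.1 - (l H k.2.2.1 - l H k.2.2.2))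
        fun k H => max (l H k.1 - l H k.2) 0)) (by
      rintro (k | k | k)
      · exact (Strat_mu_cont hS _ _).sub (Strat_mu_cont hS _ _)
      · exact ((hS.cl _).sub (hS.cl _)).sub ((hS.cl _).sub (hS.cl _))
      · exact ((hS.cl _).sub (hS.cl _)).sup continuousOn_const)
  refine ⟨N ∩ O ∩ V, fun H hH => hH.1.1, hne', m, l, P,
    fun a b => ∀ H ∈ N ∩ O ∩ V, ∀ A ∈ 𝒜, mu (P H) A a = mu (P H) A b,
    (h.inter hO).inter hV, hS.mono Set.inter_subset_left, fun a b h => h, fun a b hR H hH => ?_,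
    fun a b c d => ?_, fun a b => ?_⟩
  · by_contra hc
    push Not at hc
    refine hR fun H' hH' A hA => ?_
    have e1 : A = ∑ i, e.repr ⟨A, hA⟩ i • (e i : Mt n) := by
      simpa only [Submodule.coe_sum, Submodule.coe_smul] using
        (congrArg Subtype.val (e.sum_repr ⟨A, hA⟩)).symm
    rw [e1, Strat_mu_sum, Strat_mu_sum]
    refine Finset.sum_congr rfl fun i _ => ?_
    rcases hk (.inl (i, a, b)) with h1 | h1
    · rw [sub_eq_zero.1 (h1 H' hH')]
    · exact absurd (sub_eq_zero.2 (hc _ (e i).2)) (h1 H hH)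
  · exact (hk (.inr (.inl (a, b, c, d)))).imp (fun h1 H hH => sub_eq_zero.1 (h1 H hH))
      fun h1 H hH => sub_ne_zero.1 (h1 H hH)
  · exact (hk (.inr (.inr (a, b)))).imp
      (fun h1 H hH => sub_nonpos.1 (max_eq_right_iff.1 (h1 H hH)))
      fun h1 H hH => not_le.1 fun h2 => h1 H hH (max_eq_right (sub_nonpos.2 h2))

end Pool.Agent.Work.MP_2482e4_mp.Gn
end

-- merged part: Pool.Agent.Work.MP_2482e4_mp.Gn.Span
section
/-!
The jets of finitely many kernels span the jet space at every configuration of points.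
Plan. `R s = ∑ p, lam p * kk p.2 s (t p.1) - c`. Multiply by `Π s = ∏ i, ((t i + s) * (1 + t i * s)) ^ (J + 1)`: there is a real
polynomial `N` of degree at most `D₀ = 2 m (J + 1) + J + 2` (any bound depending on `m`, `J` only) with
`N.eval s = Π s * R s` whenever `Π s ≠ 0`. Take `D = D₀ + 1` distinct nodes `j / D` in `[0, 1]`;
`Polynomial.eq_zero_of_natDegree_lt_card_of_eval_eq_zero` gives `N = 0`, so `R s = 0` off finitely many points. If `lam ≠ 0` take
`i` and the largest `k` with `lam (i, k) ≠ 0`; `(t i + s) ^ (k + 2) * R s` tends, as `s` tends to `-t i` (punctured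
neighbourhood; `-t i` differs from `-t j`, `-(t j)⁻¹`, `-1`, `0`), to
`lam (i, k) * (1 - t i) / 2 * (± (k + 1)!) * (-t i) ≠ 0`, a contradiction.
-/

open scoped Topology
open Filter Set

set_option linter.unusedSectionVars false

namespace Pool.Agent.Work.MP_2482e4_mp.Gn

open Polynomial in
/-- The common denominator. -/
noncomputable def Span_P {m : ℕ} (J : ℕ) (t : Fin m → ℝ) : ℝ[X] :=
  ∏ i, ((C (t i) + X) * (1 + C (t i) * X)) ^ (J + 1)

theorem Span_deg {m : ℕ} (J : ℕ) (t : Fin m → ℝ) : (Span_P J t).natDegree ≤ m * ((J + 1) * 2) := by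
  refine (Polynomial.natDegree_prod_le _ _).trans ((Finset.sum_le_card_nsmul _ _ ((J + 1) * 2)
    fun i _ => Polynomial.natDegree_pow_le_of_le _ ?_).trans (by simp))
  compute_degree

theorem Span_ne {m : ℕ} (J : ℕ) {t : Fin m → ℝ} (ht : ∀ i, 1 < t i) {s : ℝ} (hs : 0 ≤ s) :
    (Span_P J t).eval s ≠ 0 := by
  rw [Span_P, Polynomial.eval_prod]
  refine (Finset.prod_pos fun i _ => ?_).ne'
  have := zero_lt_one.trans (ht i)
  simp only [Polynomial.eval_pow, Polynomial.eval_mul, Polynomial.eval_add, Polynomial.eval_C,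
    Polynomial.eval_X, Polynomial.eval_one]
  positivity

theorem Span_div {P u : Polynomial ℝ} (hP : P ≠ 0) (h : u ∣ P) : ∃ Q : Polynomial ℝ,
    Q.natDegree ≤ P.natDegree ∧ ∀ s, P.eval s ≠ 0 → Q.eval s = P.eval s / u.eval s := by
  obtain ⟨Q, rfl⟩ := h
  refine ⟨Q, Polynomial.natDegree_le_of_dvd (dvd_mul_left Q u) hP, fun s hs => ?_⟩
  rw [Polynomial.eval_mul] at hs ⊢
  rw [mul_div_cancel_left₀ _ (left_ne_zero_of_mul hs)]

open Polynomial in
theorem Span_one {m J : ℕ} (t : Fin m → ℝ) (hP : Span_P J t ≠ 0) (p : Fin m × Fin J) :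
    ∃ N : ℝ[X], N.natDegree ≤ m * ((J + 1) * 2) + J + 1 ∧ ∀ s, (Span_P J t).eval s ≠ 0 →
      N.eval s = (Span_P J t).eval s * kk p.2 s (t p.1) := by
  obtain ⟨i, k, hk⟩ := p
  have hd : ((C (t i) + X) * (1 + C (t i) * X)) ^ (k + 2) ∣ Span_P J t :=
    (pow_dvd_pow _ (by omega)).trans (Finset.dvd_prod_of_mem _ (Finset.mem_univ i))
  rw [mul_pow] at hd
  obtain ⟨Q₁, h1, e1⟩ := Span_div hP (dvd_of_mul_right_dvd hd)
  obtain ⟨Q₂, h2, e2⟩ := Span_div hP (dvd_of_mul_left_dvd hd)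
  have h3 := Span_deg J t
  refine ⟨C ((-1) ^ k * (k + 1).factorial / 2 : ℝ) * (1 + X) * (X * Q₁ + X ^ k * Q₂), ?_,
    fun s hs => ?_⟩
  · have h4 : (C ((-1) ^ k * (k + 1).factorial / 2 : ℝ) * (1 + X)).natDegree ≤ 1 := by
      compute_degree
    have h5 : (X * Q₁).natDegree ≤ J + m * ((J + 1) * 2) :=
      natDegree_mul_le_of_le (natDegree_X_le.trans (by omega)) (h1.trans h3)
    have h6 : (X ^ k * Q₂).natDegree ≤ J + m * ((J + 1) * 2) :=
      natDegree_mul_le_of_le ((natDegree_X_pow_le k).trans hk.le) (h2.trans h3)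
    exact (natDegree_mul_le_of_le h4 (natDegree_add_le_of_degree_le h5 h6)).trans (by omega)
  · simp only [eval_mul, eval_add, eval_pow, eval_C, eval_X, eval_one, e1 s hs, e2 s hs, kk]
    ring

open Polynomial in
theorem Span_N {m J : ℕ} (t : Fin m → ℝ) (hP : Span_P J t ≠ 0) (lam : Fin m × Fin J → ℝ) (c : ℝ) :
    ∃ N : ℝ[X], N.natDegree ≤ m * ((J + 1) * 2) + J + 1 ∧ ∀ s, (Span_P J t).eval s ≠ 0 →
      N.eval s = (Span_P J t).eval s * (∑ p, lam p * kk p.2 s (t p.1) - c) := by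
  choose N h1 h2 using Span_one t hP
  refine ⟨∑ p, C (lam p) * N p - C c * Span_P J t, ?_, fun s hs => ?_⟩
  · refine (natDegree_sub_le _ _).trans (max_le (natDegree_sum_le_of_forall_le _ _ fun p _ =>
      (natDegree_C_mul_le _ _).trans (h1 p)) ((natDegree_C_mul_le _ _).trans ?_))
    exact (Span_deg J t).trans (by omega)
  · rw [eval_sub, eval_finsetSum, mul_sub, Finset.mul_sum, eval_mul, eval_C, mul_comm c]
    congr 1
    exact Finset.sum_congr rfl fun p _ => by rw [eval_mul, eval_C, h2 p s hs, mul_left_comm]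

theorem Span_far {a b : ℝ} (ha : 1 < a) (hb : 1 < b) (hab : a ≠ b) (k l : ℕ) :
    Tendsto (fun s => (a + s) ^ (k + 2) * kk l s b) (𝓝[≠] (-a)) (𝓝 0) := by
  have h1 : (b + -a) ^ (l + 2) ≠ 0 := pow_ne_zero _ fun e => hab (by linarith)
  have h2 : (1 + b * -a) ^ (l + 2) ≠ 0 := pow_ne_zero _ (by nlinarith)
  have h : ContinuousAt (fun s => (a + s) ^ (k + 2) * kk l s b) (-a) := by
    unfold kk
    fun_prop (disch := assumption)
  simpa using h.tendsto.mono_left nhdsWithin_le_nhds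

theorem Span_near {a : ℝ} (ha : 1 < a) (l d : ℕ) :
    Tendsto (fun s => (a + s) ^ (l + d + 2) * kk l s a) (𝓝[≠] (-a))
      (𝓝 ((1 + -a) / 2 * ((-1) ^ l * (l + 1).factorial) * (-a * 0 ^ d))) := by
  have h2 : (1 + a * -a) ^ (l + 2) ≠ 0 := pow_ne_zero _ (by nlinarith)
  have h : ContinuousAt (fun s => (1 + s) / 2 * ((-1) ^ l * (l + 1).factorial) *
      (s * (a + s) ^ d + (a + s) ^ (l + d + 2) * (s ^ l / (1 + a * s) ^ (l + 2)))) (-a) := by
    fun_prop (disch := assumption)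
  have h3 := h.tendsto.mono_left (nhdsWithin_le_nhds (s := {-a}ᶜ))
  simp only [add_neg_cancel, zero_pow (Nat.succ_ne_zero _), zero_mul, add_zero] at h3
  refine h3.congr' ?_
  filter_upwards [self_mem_nhdsWithin] with s hs
  have h4 : (a + s) ^ (l + 2) ≠ 0 := pow_ne_zero _ fun e => hs (eq_neg_of_add_eq_zero_right e)
  have h5 : (a + s) ^ (l + d + 2) * (s / (a + s) ^ (l + 2)) = s * (a + s) ^ d := by
    rw [add_right_comm l, pow_add _ (l + 2)]
    field_simp
  rw [kk, ← h5]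
  ring

theorem Span_step {m J : ℕ} {t : Fin m → ℝ} (hinj : Function.Injective t) (ht : ∀ i, 1 < t i)
    {lam : Fin m × Fin J → ℝ} {c : ℝ} (i : Fin m) (k : Fin J) (ih : ∀ l, k < l → lam (i, l) = 0)
    (h : ∀ᶠ s in 𝓝[≠] (-t i), ∑ p, lam p * kk p.2 s (t p.1) = c) : lam (i, k) = 0 := by
  have h1 : Tendsto (fun s => ∑ p, lam p * ((t i + s) ^ ((k : ℕ) + 2) * kk p.2 s (t p.1)))
      (𝓝[≠] (-t i)) (𝓝 (∑ p, if p = (i, k) then lam (i, k) *
        ((1 + -t i) / 2 * ((-1) ^ (k : ℕ) * ((k : ℕ) + 1).factorial) * -t i) else 0)) := by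
    refine tendsto_finsetSum _ fun ⟨j, l⟩ _ => ?_
    by_cases e : j = i
    · subst e
      rcases lt_trichotomy l k with h2 | rfl | h2
      · obtain ⟨d, hd⟩ := Nat.exists_eq_add_of_lt (Fin.lt_def.1 h2)
        have h3 := (Span_near (ht j) l (d + 1)).const_mul (lam (j, l))
        rw [if_neg fun e => h2.ne (Prod.ext_iff.1 e).2, hd]
        simpa [add_assoc] using h3
      · simpa using (Span_near (ht j) l 0).const_mul (lam (j, l))
      · rw [if_neg fun e => h2.ne' (Prod.ext_iff.1 e).2]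
        simp [ih l h2]
    · rw [if_neg fun e' => e (Prod.ext_iff.1 e').1]
      simpa using (Span_far (ht i) (ht j) (fun e' => e (hinj e').symm) k l).const_mul (lam (j, l))
  have h2 : Tendsto (fun s => (t i + s) ^ ((k : ℕ) + 2) * c) (𝓝[≠] (-t i)) (𝓝 0) := by
    have : ContinuousAt (fun s => (t i + s) ^ ((k : ℕ) + 2) * c) (-t i) := by fun_prop
    simpa using this.tendsto.mono_left nhdsWithin_le_nhds
  have h3 := tendsto_nhds_unique_of_eventuallyEq h1 h2 (h.mono fun s hs => by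
    simp only [← hs, Finset.mul_sum, mul_left_comm])
  rw [Finset.sum_ite_eq', if_pos (Finset.mem_univ _)] at h3
  have h4 := ht i
  refine (mul_eq_zero.1 h3).resolve_right (mul_ne_zero (mul_ne_zero ?_ (by positivity)) ?_)
  · exact (by linarith : (1 + -t i) / 2 < 0).ne
  · exact (by linarith : -t i < 0).ne
theorem exists_nodes (m J : ℕ) : ∃ (D : ℕ) (s : Fin D → Icc (0 : ℝ) 1),
    ∀ t : Fin m → ℝ, Function.Injective t → (∀ i, 1 < t i) → ∀ (lam : Fin m × Fin J → ℝ) (c : ℝ),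
      (∀ j, ∑ p, lam p * kk p.2 (s j) (t p.1) = c) → lam = 0 := by
  refine ⟨m * ((J + 1) * 2) + J + 1 + 1, fun j => ⟨(j : ℕ) / (m * ((J + 1) * 2) + J + 1 + 1 : ℕ),
    by positivity, div_le_one_of_le₀ (Nat.cast_le.2 j.2.le) (Nat.cast_nonneg _)⟩,
    fun t hinj ht lam c h => ?_⟩
  have hP : Span_P J t ≠ 0 := fun e => Span_ne J ht le_rfl (by rw [e, Polynomial.eval_zero])
  obtain ⟨N, hN, hev⟩ := Span_N t hP lam c
  have h0 : N = 0 := by
    refine Polynomial.eq_zero_of_natDegree_lt_card_of_eval_eq_zero N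
      (f := fun j : Fin (m * ((J + 1) * 2) + J + 1 + 1) =>
        ((j : ℕ) : ℝ) / (m * ((J + 1) * 2) + J + 1 + 1 : ℕ)) (fun a b e => ?_) (fun j => ?_) ?_
    · exact Fin.ext (Nat.cast_injective (R := ℝ) ((div_left_inj' (by positivity)).1 e))
    · rw [hev _ (Span_ne J ht (by positivity)), sub_eq_zero.2 (h j), mul_zero]
    · rw [Fintype.card_fin]
      exact Nat.lt_succ_of_le hN
  have h1 (a : ℝ) : ∀ᶠ s in 𝓝[≠] a, ∑ p, lam p * kk p.2 s (t p.1) = c := by
    filter_upwards [nhdsNE_le_cofinite a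
      (Polynomial.finite_setOfPred_isRoot hP).compl_mem_cofinite] with s hs
    have h2 := hev s hs
    rw [h0, Polynomial.eval_zero] at h2
    exact sub_eq_zero.1 ((mul_eq_zero.1 h2.symm).resolve_left hs)
  funext ⟨i, k⟩
  induction k using WellFoundedGT.induction with
  | ind k ih => exact Span_step hinj ht i k ih (h1 _)

end Pool.Agent.Work.MP_2482e4_mp.Gn
end

-- merged part: Pool.Agent.Work.MP_2482e4_mp.Gn.Baire
section
-- merged part: Pool.Agent.Work.MP_2482e4_mp.Gn.Dim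
section
/-!
Dimension count and blocks of algebraic relations.
dimH_level: near each `x ∈ U` the set lies in the image of a neighbourhood of `0` in `ker f'` under
`HasStrictFDerivAt.implicitFunction` (`eq_implicitFunction`, `to_implicitFunction`, `HasStrictFDerivAt.exists_lipschitzOnWith`,
`LipschitzOnWith.dimH_image_le`, `Real.dimH_univ_eq_finrank`, `LinearMap.finrank_range_add_finrank_ker`); cover `U` by countably
many such neighbourhoods (`TopologicalSpace.countable_cover_nhdsWithin`, `dimH_bUnion`).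
dense_avoid: `Prod.snd` is Lipschitz, `dense_compl_of_dimH_lt_finrank`.
exists_blocks: induction on `r`, keeping a bound `K` on the orders of all variables used so far and of the `v a`; a new nonzero
relation among orders at least `K` (rename), of least total degree among the nonzero relations in these variables; it is not
constant, so some variable `v` occurs, `pderiv v Q ≠ 0` (characteristic zero) has smaller degree, so it does not vanish at `y`.
-/

open scoped Topology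
open Filter Set Module

set_option linter.unusedSectionVars false

namespace Pool.Agent.Work.MP_2482e4_mp.Gn

theorem dimH_level {E F : Type} [NormedAddCommGroup E] [NormedSpace ℝ E] [FiniteDimensional ℝ E]
    [NormedAddCommGroup F] [NormedSpace ℝ F] [FiniteDimensional ℝ F] {f : E → F} {U : Set E}
    (h : ∀ x ∈ U, ∃ f' : E →L[ℝ] F, HasStrictFDerivAt f f' x ∧ Function.Surjective f')
    (h0 : ∀ x ∈ U, f x = 0) : dimH U ≤ (finrank ℝ E - finrank ℝ F : ℕ) := by
  refine le_of_not_gt fun hlt => ?_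
  obtain ⟨x, hx, ht⟩ := exists_mem_nhdsWithin_lt_dimH_of_lt_dimH hlt
  obtain ⟨f', hf, hs⟩ := h x hx
  have : CompleteSpace E := FiniteDimensional.complete ℝ E
  have hr : f'.range = ⊤ := LinearMap.range_eq_top.2 hs
  obtain ⟨K, s, hs0, hL⟩ := (hf.to_implicitFunction hr).exists_lipschitzOnWith
  have c1 : ContinuousAt (fun z => (hf.implicitToOpenPartialHomeomorph f f' hr z).2) x :=
    continuousAt_snd.comp ((hf.implicitToOpenPartialHomeomorph f f' hr).continuousAt
      (hf.mem_implicitToOpenPartialHomeomorph_source hr))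
  have c2 : ∀ᶠ z in 𝓝 x, (hf.implicitToOpenPartialHomeomorph f f' hr z).2 ∈ s := by
    refine c1 ?_
    simpa using hs0
  have c3 : hf.implicitFunction f f' hr (f x) '' s ∈ 𝓝[U] x := by
    filter_upwards [self_mem_nhdsWithin, mem_nhdsWithin_of_mem_nhds c2,
      mem_nhdsWithin_of_mem_nhds (hf.eq_implicitFunction hr)] with z h1 h2 h3
    exact ⟨_, h2, by rw [h0 x hx, ← h0 z h1]; exact h3⟩
  refine (ht _ c3).not_ge (hL.dimH_image_le.trans ((dimH_mono (subset_univ s)).trans ?_))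
  have e := LinearMap.finrank_range_add_finrank_ker (f' : E →ₗ[ℝ] F)
  rw [hr, finrank_top] at e
  rw [Real.dimH_univ_eq_finrank, ← e, Nat.add_sub_cancel_left]

theorem dense_avoid {m D r : ℕ} (hr : m < r) {f : (Fin m → ℝ) × (Fin D → ℝ) → Fin r → ℝ}
    {U : Set ((Fin m → ℝ) × (Fin D → ℝ))}
    (h : ∀ x ∈ U, ∃ f' : ((Fin m → ℝ) × (Fin D → ℝ)) →L[ℝ] (Fin r → ℝ),
      HasStrictFDerivAt f f' x ∧ Function.Surjective f')
    (h0 : ∀ x ∈ U, f x = 0) : Dense (Prod.snd '' U)ᶜ := by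
  rcases U.eq_empty_or_nonempty with rfl | ⟨x, hx⟩
  · simp
  obtain ⟨f', -, hs⟩ := h x hx
  have k := LinearMap.finrank_le_finrank_of_surjective (f := f'.toLinearMap) hs
  refine dense_compl_of_dimH_lt_finrank ((LipschitzWith.prod_snd.dimH_image_le U).trans_lt
    ((dimH_level h h0).trans_lt ?_))
  simp only [finrank_prod, finrank_fintype_fun_eq_card, Fintype.card_fin] at k ⊢
  rw [Nat.cast_lt]
  omega

open MvPolynomial in
theorem Dim_min {σ : Type} (z : σ → ℝ) (n : ℕ) : ∀ Q : MvPolynomial σ ℚ, Q.totalDegree < n →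
    Q ≠ 0 → aeval z Q = 0 →
      ∃ (Q : MvPolynomial σ ℚ) (v : σ), aeval z Q = 0 ∧ aeval z (pderiv v Q) ≠ 0 := by
  classical
  induction n with
  | zero => exact fun Q h => absurd h (Nat.not_lt_zero _)
  | succ n ih =>
    intro Q hn hQ h0
    have h1 : Q.totalDegree ≠ 0 := fun k => by
      rw [totalDegree_eq_zero_iff_eq_C] at k
      rw [k, aeval_C, map_eq_zero] at h0
      exact hQ (by rw [k, h0, C_0])
    obtain ⟨s, hs, v, hv⟩ : ∃ s ∈ Q.support, ∃ v, s v ≠ 0 := by
      by_contra hc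
      push Not at hc
      exact h1 ((totalDegree_eq_zero_iff σ Q).2 hc)
    by_cases h2 : aeval z (pderiv v Q) = 0
    · refine ih (pderiv v Q) ?_ (fun k => ?_) h2
      · refine (Finset.sup_lt_iff (show ⊥ < n by rw [bot_eq_zero]; omega)).2 fun t ht => ?_
        rw [MvPolynomial.mem_support_iff, coeff_pderiv] at ht
        have h3 := le_totalDegree
          (MvPolynomial.mem_support_iff.2 (left_ne_zero_of_mul ht))
        rw [Finsupp.sum_add_index' (fun _ => rfl) fun _ _ _ => rfl,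
          Finsupp.sum_single_index rfl] at h3
        omega
      · have h3 := coeff_pderiv (i := v) Q (s - Finsupp.single v 1)
        rw [k, coeff_zero, Finsupp.sub_add_single_one_cancel hv] at h3
        exact mul_ne_zero (MvPolynomial.mem_support_iff.1 hs) (by positivity) h3.symm
    · exact ⟨Q, v, h0, h2⟩

open MvPolynomial in
theorem Dim_block {m : ℕ} (y : Fin m × ℕ → ℝ) (K : ℕ)
    (h : ¬ AlgebraicIndependent ℚ fun p : Fin m × ℕ => y (p.1, K + p.2)) :
    ∃ (Q : MvPolynomial (Fin m × ℕ) ℚ) (v : Fin m × ℕ) (K' : ℕ), aeval y Q = 0 ∧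
      aeval y (pderiv v Q) ≠ 0 ∧ ∀ u ∈ Q.vars, K ≤ u.2 ∧ u.2 < K' := by
  rw [algebraicIndependent_iff] at h
  push Not at h
  obtain ⟨Q0, h0, h1⟩ := h
  obtain ⟨Q, v, h2, h3⟩ := Dim_min _ _ Q0 (Nat.lt_succ_self _) h1 h0
  have hi : Function.Injective fun p : Fin m × ℕ => (p.1, K + p.2) := fun p q k =>
    Prod.ext (congrArg Prod.fst k :) (Nat.add_left_cancel (congrArg Prod.snd k))
  refine ⟨rename (fun p => (p.1, K + p.2)) Q, (v.1, K + v.2), K + Q.vars.sup Prod.snd + 1, ?_, ?_,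
    fun u hu => ?_⟩
  · rw [aeval_rename]
    exact h2
  · rw [pderiv_rename hi v Q, aeval_rename]
    exact h3
  · obtain ⟨p, hp, rfl⟩ := mem_vars_rename _ _ hu
    have k : p.2 ≤ Q.vars.sup Prod.snd := Finset.le_sup (f := Prod.snd) hp
    exact ⟨Nat.le_add_right _ _, Nat.lt_succ_of_le (Nat.add_le_add_left k K)⟩

theorem exists_blocks {m : ℕ} (y : Fin m × ℕ → ℝ)
    (h : ∀ K : ℕ, ¬ AlgebraicIndependent ℚ fun p : Fin m × ℕ => y (p.1, K + p.2)) (r : ℕ) :
    ∃ (Q : Fin r → MvPolynomial (Fin m × ℕ) ℚ) (v : Fin r → Fin m × ℕ),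
      (∀ a, MvPolynomial.aeval y (Q a) = 0) ∧
      (∀ a, MvPolynomial.aeval y (MvPolynomial.pderiv (v a) (Q a)) ≠ 0) ∧
      ∀ a b, a ≠ b → MvPolynomial.pderiv (v b) (Q a) = 0 := by
  choose Q v K' h1 h2 h3 using fun K => Dim_block y K (h K)
  have h4 : ∀ K, K ≤ (v K).2 ∧ (v K).2 < K' K := fun K => h3 K _ (by
    by_contra k
    exact h2 K (by rw [MvPolynomial.pderiv_eq_zero_of_notMem_vars k, map_zero]))
  let k : ℕ → ℕ := fun n => K'^[n] 0
  have hk : ∀ n, k (n + 1) = K' (k n) := fun n => Function.iterate_succ_apply' _ _ _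
  have hm : Monotone k := monotone_nat_of_le_succ fun n => by
    rw [hk]
    exact (h4 _).1.trans (h4 _).2.le
  refine ⟨fun a => Q (k a), fun a => v (k a), fun a => h1 _, fun a => h2 _, fun a b hab =>
    MvPolynomial.pderiv_eq_zero_of_notMem_vars fun hv => ?_⟩
  have a1 := h3 _ _ hv
  have a2 := h4 (k b)
  rw [← hk] at a1 a2
  rcases lt_or_gt_of_ne (Fin.val_ne_of_ne hab) with c | c
  · have := hm (Nat.succ_le_of_lt c)
    exact absurd (a1.2.trans_le this) a2.1.not_gt
  · have := hm (Nat.succ_le_of_lt c)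
    exact absurd (a2.2.trans_le this) a1.1.not_gt

end Pool.Agent.Work.MP_2482e4_mp.Gn
end

-- merged part: Pool.Agent.Work.MP_2482e4_mp.Gn.Baire
section
/-!
Generic functions form a residual set.
Plan. bad_closed: `Bad` is the projection along the compact set of configurations `t` of a closed set (`jt_continuousOn`;
`aeval` of continuous functions is continuous by `MvPolynomial.induction_on`; `isClosedMap_fst_of_compactSpace` on the subtype).
bad_dense: let `J` bound the orders of the variables of all `Q a` and of the `v a`; `D`, `s` from `exists_nodes m J`. For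
`ν`, small `η > 0` and `|u j| < 1 / (D + 1) ^ 2` let
`ν u = (1 - η) ν + η (∑ j, (1 / (D + 1) + u j) δ (s j) + (1 / (D + 1) - ∑ j, u j) δ 0)`; as `η` tends to `0` it tends to `ν` uniformly
in `u` (for a sequence `η k → 0` and any admissible `u k`: `ProbabilityMeasure.tendsto_iff_forall_integral_tendsto`).
`jt k (ν u) t = (1 - η) jt k ν t + η (…)` is smooth in `(t, u)` for `t > 0`. `f (t, u) a = aeval (jets) (Q a)`; at a bad point the
derivative in `u` is onto: if `∑ a, μ a * f' (0, e j) a = 0` for all `j` then `lam p = ∑ a, μ a * aeval jets (pderiv p (Q a))`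
satisfies `∑ p, lam p * kk p.2 (s j) (t p.1) = ∑ p, lam p * kk p.2 0 (t p.1)`, so `lam = 0` and `lam (v a) = 0` gives `μ a = 0`.
`dense_avoid` gives an admissible `u` with `ν u` not bad. residual_generic: countable intersection over
`(m, Q, v, N)` (`countable_iInter_mem`, `residual_of_dense_open`); if `fMeas ν` is not generic, enumerate the finite set by
`Fin m`, use `iteratedDeriv_fMeas` and `exists_blocks` with `r = m + 1`, and choose `N` large.
-/

open scoped Topology ContDiff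
open Filter Set MeasureTheory

set_option linter.unusedSectionVars false

namespace Pool.Agent.Work.MP_2482e4_mp.Gn

/-- Measures whose jets satisfy given relations regularly at some well separated configuration. -/
def Bad {m r : ℕ} (Q : Fin r → MvPolynomial (Fin m × ℕ) ℚ) (v : Fin r → Fin m × ℕ) (N : ℕ) :
    Set PrI :=
  {ν | ∃ t : Fin m → ℝ, (∀ i, 1 + 1 / ((N : ℝ) + 1) ≤ t i ∧ t i ≤ N) ∧
    (∀ i j, i ≠ j → 1 / ((N : ℝ) + 1) ≤ |t i - t j|) ∧
    ∀ a, MvPolynomial.aeval (fun p : Fin m × ℕ => jt p.2 ν (t p.1)) (Q a) = 0 ∧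
      1 / ((N : ℝ) + 1) ≤
        |MvPolynomial.aeval (fun p : Fin m × ℕ => jt p.2 ν (t p.1)) (MvPolynomial.pderiv (v a) (Q a))|}

theorem Baire_aeval_cont {X σ : Type} [TopologicalSpace X] {g : X → σ → ℝ}
    (hg : ∀ p, Continuous fun x => g x p) (P : MvPolynomial σ ℚ) :
    Continuous fun x => MvPolynomial.aeval (g x) P := by
  induction P using MvPolynomial.induction_on with
  | C a => simpa using continuous_const
  | add p q hp hq => simpa using hp.fun_add hq
  | mul_X p i hp => simpa using hp.fun_mul (hg i)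

theorem Baire_aeval_contDiffAt {X σ : Type} [NormedAddCommGroup X] [NormedSpace ℝ X]
    {g : X → σ → ℝ} {x : X}
    (hg : ∀ p, ContDiffAt ℝ 1 (fun x => g x p) x) (P : MvPolynomial σ ℚ) :
    ContDiffAt ℝ 1 (fun x => MvPolynomial.aeval (g x) P) x := by
  induction P using MvPolynomial.induction_on with
  | C a => simpa using contDiffAt_const
  | add p q hp hq => simpa using hp.add hq
  | mul_X p i hp => simpa using hp.mul (hg i)

theorem Baire_aeval_deriv {σ : Type} [DecidableEq σ] (P : MvPolynomial σ ℚ) :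
    ∃ S₀ : Finset σ, ∀ S : Finset σ, S₀ ⊆ S → ∀ (G : ℝ → σ → ℝ) (G' : σ → ℝ),
      (∀ p, HasDerivAt (fun ε => G ε p) (G' p) 0) →
      HasDerivAt (fun ε => MvPolynomial.aeval (G ε) P)
        (∑ p ∈ S, MvPolynomial.aeval (G 0) (MvPolynomial.pderiv p P) * G' p) 0 := by
  induction P using MvPolynomial.induction_on with
  | C a =>
    refine ⟨∅, fun S _ G G' _ => ?_⟩
    simpa using hasDerivAt_const (0 : ℝ) (algebraMap ℚ ℝ a)
  | add p q hp hq =>
    obtain ⟨S₁, h₁⟩ := hp
    obtain ⟨S₂, h₂⟩ := hq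
    refine ⟨S₁ ∪ S₂, fun S hS G G' hG => ?_⟩
    have := (h₁ S (Finset.union_subset_left hS) G G' hG).fun_add
      (h₂ S (Finset.union_subset_right hS) G G' hG)
    simpa [add_mul, Finset.sum_add_distrib] using this
  | mul_X p i hp =>
    obtain ⟨S₁, h₁⟩ := hp
    refine ⟨insert i S₁, fun S hS G G' hG => ?_⟩
    have hi : i ∈ S := hS (Finset.mem_insert_self _ _)
    have := (h₁ S ((Finset.subset_insert _ _).trans hS) G G' hG).fun_mul (hG i)
    have e : ∑ q ∈ S, MvPolynomial.aeval (G 0) (MvPolynomial.pderiv q (p * MvPolynomial.X i)) * G' q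
        = (∑ q ∈ S, MvPolynomial.aeval (G 0) (MvPolynomial.pderiv q p) * G' q) * G 0 i
          + MvPolynomial.aeval (G 0) p * G' i := by
      have : ∀ q ∈ S, MvPolynomial.aeval (G 0) (MvPolynomial.pderiv q (p * MvPolynomial.X i)) * G' q
          = MvPolynomial.aeval (G 0) (MvPolynomial.pderiv q p) * G' q * G 0 i
            + if q = i then MvPolynomial.aeval (G 0) p * G' q else 0 := by
        intro q _
        rw [MvPolynomial.pderiv_mul, MvPolynomial.pderiv_X]
        by_cases h : q = i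
        · subst h
          simp
          ring
        · simp [h]
          ring
      rw [Finset.sum_congr rfl this, Finset.sum_add_distrib, Finset.sum_mul, Finset.sum_ite_eq' S i]
      simp [hi]
    rw [e]
    simpa using this

theorem bad_closed {m r : ℕ} (Q : Fin r → MvPolynomial (Fin m × ℕ) ℚ) (v : Fin r → Fin m × ℕ)
    (N : ℕ) : IsClosed (Bad Q v N) := by
  set T : Set (Fin m → ℝ) := Icc (fun _ => 1 + 1 / ((N : ℝ) + 1)) (fun _ => (N : ℝ)) with hT
  have : CompactSpace T := isCompact_iff_compactSpace.mp isCompact_Icc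
  have hpos : ∀ (t : T) (i : Fin m), 0 < t.1 i := fun t i =>
    lt_of_lt_of_le (by positivity) (t.2.1 i)
  have hc : ∀ i : Fin m, Continuous fun x : PrI × T => x.2.1 i := fun i =>
    (continuous_apply i).comp (continuous_subtype_val.comp continuous_snd)
  have hj : ∀ p : Fin m × ℕ, Continuous fun x : PrI × T => jt p.2 x.1 (x.2.1 p.1) := by
    intro p
    have h1 : Continuous fun x : PrI × T => (x.1, x.2.1 p.1) := continuous_fst.prodMk (hc p.1)
    exact (jt_continuousOn p.2).comp_continuous h1 fun x => hpos x.2 p.1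
  set C : Set (PrI × T) := {x | (∀ i j, i ≠ j → 1 / ((N : ℝ) + 1) ≤ |x.2.1 i - x.2.1 j|) ∧
    ∀ a, MvPolynomial.aeval (fun p : Fin m × ℕ => jt p.2 x.1 (x.2.1 p.1)) (Q a) = 0 ∧
      1 / ((N : ℝ) + 1) ≤ |MvPolynomial.aeval (fun p : Fin m × ℕ => jt p.2 x.1 (x.2.1 p.1))
        (MvPolynomial.pderiv (v a) (Q a))|} with hC
  have hCc : IsClosed C := by
    rw [hC, ofPred_and]
    refine IsClosed.inter ?_ ?_
    · simp only [ofPred_forall]
      refine isClosed_iInter fun i => isClosed_iInter fun j => isClosed_iInter fun _ => ?_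
      exact isClosed_le continuous_const ((hc i).sub (hc j)).abs
    · simp only [ofPred_forall, ofPred_and]
      refine isClosed_iInter fun a => IsClosed.inter ?_ ?_
      · exact isClosed_eq (Baire_aeval_cont hj _) continuous_const
      · exact isClosed_le continuous_const (Baire_aeval_cont hj _).abs
  have e : Bad Q v N = Prod.fst '' C := by
    ext ν
    constructor
    · rintro ⟨t, h1, h2, h3⟩
      exact ⟨(ν, ⟨t, fun i => (h1 i).1, fun i => (h1 i).2⟩), ⟨h2, h3⟩, rfl⟩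
    · rintro ⟨x, ⟨h2, h3⟩, rfl⟩
      exact ⟨x.2.1, fun i => ⟨x.2.2.1 i, x.2.2.2 i⟩, h2, h3⟩
  rw [e]
  exact isClosedMap_fst_of_compactSpace C hCc

theorem Baire_int {g : Icc (0 : ℝ) 1 → ℝ} (hg : Continuous g) (μ : Measure (Icc (0 : ℝ) 1))
    [IsFiniteMeasure μ] : Integrable g μ :=
  hg.integrable_of_hasCompactSupport (HasCompactSupport.of_compactSpace g)

theorem Baire_mix (ν ρ : PrI) {η : ℝ} (h0 : 0 ≤ η) (h1 : η ≤ 1) :
    ∃ ν' : PrI, ∀ g : Icc (0 : ℝ) 1 → ℝ, Continuous g →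
      ∫ s, g s ∂(ν' : Measure (Icc (0 : ℝ) 1)) =
        (1 - η) * ∫ s, g s ∂(ν : Measure (Icc (0 : ℝ) 1))
          + η * ∫ s, g s ∂(ρ : Measure (Icc (0 : ℝ) 1)) := by
  refine ⟨⟨ENNReal.ofReal (1 - η) • (ν : Measure (Icc (0 : ℝ) 1))
    + ENNReal.ofReal η • (ρ : Measure (Icc (0 : ℝ) 1)), ⟨?_⟩⟩, fun g hg => ?_⟩
  · simp only [Measure.add_apply, Measure.smul_apply, measure_univ, smul_eq_mul, mul_one]
    rw [← ENNReal.ofReal_add (by linarith) h0]
    simp
  · change ∫ s, g s ∂(ENNReal.ofReal (1 - η) • (ν : Measure (Icc (0 : ℝ) 1))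
      + ENNReal.ofReal η • (ρ : Measure (Icc (0 : ℝ) 1))) = _
    rw [integral_add_measure ((Baire_int hg _).smul_measure ENNReal.ofReal_ne_top)
      ((Baire_int hg _).smul_measure ENNReal.ofReal_ne_top), integral_smul_measure,
      integral_smul_measure, ENNReal.toReal_ofReal (by linarith), ENNReal.toReal_ofReal h0]
    simp

theorem Baire_atoms {ι : Type} [Fintype ι] (s : ι → Icc (0 : ℝ) 1) (w : ι → ℝ)
    (h0 : ∀ j, 0 ≤ w j) (h1 : ∑ j, w j = 1) :
    ∃ ρ : PrI, ∀ g : Icc (0 : ℝ) 1 → ℝ, Continuous g →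
      ∫ x, g x ∂(ρ : Measure (Icc (0 : ℝ) 1)) = ∑ j, w j * g (s j) := by
  refine ⟨⟨∑ j, ENNReal.ofReal (w j) • Measure.dirac (s j), ⟨?_⟩⟩, fun g hg => ?_⟩
  · simp only [Measure.coe_finsetSum, Finset.sum_apply, Measure.smul_apply, measure_univ,
      smul_eq_mul, mul_one]
    rw [← ENNReal.ofReal_sum_of_nonneg fun j _ => h0 j, h1]
    simp
  · change ∫ x, g x ∂(∑ j, ENNReal.ofReal (w j) • Measure.dirac (s j)) = _
    rw [integral_finsetSum_measure fun j _ =>
      (Baire_int hg _).smul_measure ENNReal.ofReal_ne_top]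
    refine Finset.sum_congr rfl fun j _ => ?_
    rw [integral_smul_measure, integral_dirac, ENNReal.toReal_ofReal (h0 j)]
    simp

theorem Baire_kk_contDiffAt (k : ℕ) {s t : ℝ} (hs : 0 ≤ s) (ht : 0 < t) :
    ContDiffAt ℝ 1 (kk k s) t := by
  unfold kk
  have h1 : (t + s) ^ (k + 2) ≠ 0 := by positivity
  have h2 : (1 + t * s) ^ (k + 2) ≠ 0 := by positivity
  refine contDiffAt_const.mul (ContDiffAt.add ?_ ?_)
  · exact contDiffAt_const.div (by fun_prop) h1
  · exact contDiffAt_const.div (by fun_prop) h2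

/-- The jets of the perturbed measure. -/
noncomputable def Baire_F {m D : ℕ} (ν : PrI) (η : ℝ) (s : Fin D → Icc (0 : ℝ) 1)
    (x : (Fin m → ℝ) × (Fin D → ℝ)) (p : Fin m × ℕ) : ℝ :=
  (1 - η) * jt p.2 ν (x.1 p.1) + η * ((1 / ((D : ℝ) + 1) - ∑ j, x.2 j) * kk p.2 0 (x.1 p.1)
    + ∑ j, (1 / ((D : ℝ) + 1) + x.2 j) * kk p.2 (s j) (x.1 p.1))

/-- The direction of one weight. -/
def Baire_e (m : ℕ) {D : ℕ} (j : Fin D) : (Fin m → ℝ) × (Fin D → ℝ) := (0, Pi.single j 1)

theorem Baire_F_contDiffAt {m D : ℕ} (ν : PrI) (η : ℝ) (s : Fin D → Icc (0 : ℝ) 1)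
    {x : (Fin m → ℝ) × (Fin D → ℝ)} (hx : ∀ i, 0 < x.1 i) (p : Fin m × ℕ) :
    ContDiffAt ℝ 1 (fun x => Baire_F ν η s x p) x := by
  unfold Baire_F
  have hc : ContDiffAt ℝ 1 (fun x : (Fin m → ℝ) × (Fin D → ℝ) => x.1 p.1) x := by fun_prop
  have h1 : ContDiffAt ℝ 1 (fun x : (Fin m → ℝ) × (Fin D → ℝ) => jt p.2 ν (x.1 p.1)) x :=
    ContDiffAt.comp x (g := jt p.2 ν)
      (((jt_contDiffOn p.2 ν).contDiffAt (Ioi_mem_nhds (hx p.1))).of_le (by simp)) hc
  have h2 : ∀ c : ℝ, 0 ≤ c →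
      ContDiffAt ℝ 1 (fun x : (Fin m → ℝ) × (Fin D → ℝ) => kk p.2 c (x.1 p.1)) x := fun c h =>
    ContDiffAt.comp x (g := kk p.2 c) (Baire_kk_contDiffAt p.2 h (hx p.1)) hc
  refine (contDiffAt_const.mul h1).add (contDiffAt_const.mul (ContDiffAt.add ?_ ?_))
  · exact ContDiffAt.mul (by fun_prop) (h2 0 le_rfl)
  · exact ContDiffAt.sum fun j _ => ContDiffAt.mul (by fun_prop) (h2 _ (s j).2.1)

theorem Baire_F_line {m D : ℕ} (ν : PrI) (η : ℝ) (s : Fin D → Icc (0 : ℝ) 1)
    (x : (Fin m → ℝ) × (Fin D → ℝ)) (j : Fin D) (p : Fin m × ℕ) :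
    HasDerivAt (fun ε : ℝ => Baire_F ν η s (x + ε • Baire_e m j) p)
      (η * (kk p.2 (s j) (x.1 p.1) - kk p.2 0 (x.1 p.1))) 0 := by
  have e : (fun ε : ℝ => Baire_F ν η s (x + ε • Baire_e m j) p)
      = fun ε => Baire_F ν η s x p
        + ε * (η * (kk p.2 (s j) (x.1 p.1) - kk p.2 0 (x.1 p.1))) := by
    funext ε
    simp only [Baire_F, Baire_e, Prod.fst_add, Prod.smul_fst, smul_zero, add_zero, Prod.snd_add,
      Prod.smul_snd, Pi.add_apply, Pi.smul_apply, smul_eq_mul, Finset.sum_add_distrib, ← add_assoc,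
      add_mul, Pi.zero_apply]
    have e1 : ∑ i, ε * (Pi.single j (1 : ℝ) : Fin D → ℝ) i = ε := by
      simp [Pi.single_apply]
    have e2 : ∑ i, ε * (Pi.single j (1 : ℝ) : Fin D → ℝ) i * kk p.2 (s i) (x.1 p.1)
        = ε * kk p.2 (s j) (x.1 p.1) := by
      simp [Pi.single_apply]
    rw [e1, e2]
    ring
  rw [e]
  simpa using ((hasDerivAt_id (0 : ℝ)).mul_const
    (η * (kk p.2 (s j) (x.1 p.1) - kk p.2 0 (x.1 p.1)))).const_add (Baire_F ν η s x p)

theorem Baire_step {m r : ℕ} (hr : m < r) (Q : Fin r → MvPolynomial (Fin m × ℕ) ℚ)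
    (v : Fin r → Fin m × ℕ) (hQ : ∀ a b, a ≠ b → MvPolynomial.pderiv (v b) (Q a) = 0) (N : ℕ)
    (ν : PrI) {η : ℝ} (h0 : 0 < η) (h1 : η ≤ 1) :
    ∃ ν' ρ : PrI, ν' ∉ Bad Q v N ∧ ∀ g : Icc (0 : ℝ) 1 → ℝ, Continuous g →
      ∫ s, g s ∂(ν' : Measure (Icc (0 : ℝ) 1)) =
        (1 - η) * ∫ s, g s ∂(ν : Measure (Icc (0 : ℝ) 1))
          + η * ∫ s, g s ∂(ρ : Measure (Icc (0 : ℝ) 1)) := by
  classical
  choose S₀ hS₀ using fun a => Baire_aeval_deriv (Q a)
  obtain ⟨J, hJ1, hJ2⟩ : ∃ J : ℕ, (∀ a, ∀ p ∈ S₀ a, p.2 < J) ∧ ∀ a, (v a).2 < J := by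
    refine ⟨(Finset.univ.sup fun a => (S₀ a).sup fun p => p.2)
      + (Finset.univ.sup fun a => (v a).2) + 1, fun a p hp => ?_, fun a => ?_⟩
    · have h2 : p.2 ≤ (S₀ a).sup fun p => p.2 := Finset.le_sup (f := fun p : Fin m × ℕ => p.2) hp
      have h3 : ((S₀ a).sup fun p => p.2) ≤ Finset.univ.sup fun a => (S₀ a).sup fun p => p.2 :=
        Finset.le_sup (f := fun a => (S₀ a).sup fun p => p.2) (Finset.mem_univ a)
      omega
    · have h3 : (v a).2 ≤ Finset.univ.sup fun a => (v a).2 :=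
        Finset.le_sup (f := fun a => (v a).2) (Finset.mem_univ a)
      omega
  obtain ⟨D, s, hs⟩ := exists_nodes m J
  let em : Fin m × Fin J ↪ Fin m × ℕ :=
    ⟨fun q => (q.1, (q.2 : ℕ)), fun q q' h => by
      simp only [Prod.mk.injEq] at h
      exact Prod.ext h.1 (Fin.ext h.2)⟩
  have hS : ∀ a, S₀ a ⊆ Finset.univ.map em := fun a p hp =>
    Finset.mem_map.mpr ⟨(p.1, ⟨p.2, hJ1 a p hp⟩), Finset.mem_univ _, rfl⟩
  let f : (Fin m → ℝ) × (Fin D → ℝ) → Fin r → ℝ := fun x a =>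
    MvPolynomial.aeval (Baire_F ν η s x) (Q a)
  let U : Set ((Fin m → ℝ) × (Fin D → ℝ)) := {x | (∀ i, 1 < x.1 i) ∧ Function.Injective x.1 ∧
    f x = 0 ∧ ∀ a, MvPolynomial.aeval (Baire_F ν η s x) (MvPolynomial.pderiv (v a) (Q a)) ≠ 0}
  have hU : ∀ x ∈ U, ∃ f' : ((Fin m → ℝ) × (Fin D → ℝ)) →L[ℝ] (Fin r → ℝ),
      HasStrictFDerivAt f f' x ∧ Function.Surjective f' := by
    rintro x ⟨hx1, hx2, -, hx4⟩
    have hcd : ContDiffAt ℝ 1 f x := contDiffAt_pi.mpr fun a =>
      Baire_aeval_contDiffAt (Baire_F_contDiffAt ν η s fun i => lt_trans one_pos (hx1 i)) (Q a)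
    have hst := hcd.hasStrictFDerivAt one_ne_zero
    refine ⟨_, hst, ?_⟩
    set f' := fderiv ℝ f x with hf'
    have hdir : ∀ (j : Fin D) (a : Fin r), f' (Baire_e m j) a =
        ∑ q : Fin m × Fin J, MvPolynomial.aeval (Baire_F ν η s x) (MvPolynomial.pderiv (em q) (Q a))
          * (η * (kk q.2 (s j) (x.1 q.1) - kk q.2 0 (x.1 q.1))) := by
      intro j a
      have d1 : HasDerivAt (fun ε : ℝ => f (x + ε • Baire_e m j))
          (f' (Baire_e m j)) 0 :=
        hst.hasFDerivAt.hasLineDerivAt _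
      have d2 := hasDerivAt_pi.mp d1 a
      have d3 := hS₀ a (Finset.univ.map em) (hS a)
        (fun ε : ℝ => Baire_F ν η s (x + ε • Baire_e m j))
        (fun p => η * (kk p.2 (s j) (x.1 p.1) - kk p.2 0 (x.1 p.1)))
        (fun p => Baire_F_line ν η s x j p)
      rw [d2.unique d3, Finset.sum_map]
      simp only [zero_smul, add_zero]
      rfl
    by_contra hne
    have hlt : LinearMap.range (f' : ((Fin m → ℝ) × (Fin D → ℝ)) →ₗ[ℝ] (Fin r → ℝ)) < ⊤ := by
      rw [lt_top_iff_ne_top]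
      intro h
      exact hne (LinearMap.range_eq_top.mp h)
    obtain ⟨φ, hφ0, hφ⟩ := Submodule.exists_le_ker_of_lt_top _ hlt
    have hφe : ∀ y : Fin r → ℝ, φ y = ∑ a, y a * φ (Pi.single a 1) := by
      intro y
      conv_lhs => rw [pi_eq_sum_univ' y]
      simp
    let lam : Fin m × Fin J → ℝ := fun q => ∑ a, φ (Pi.single a 1) *
      MvPolynomial.aeval (Baire_F ν η s x) (MvPolynomial.pderiv (em q) (Q a))
    have hlam : lam = 0 := by
      refine hs x.1 hx2 hx1 lam (∑ q, lam q * kk q.2 0 (x.1 q.1)) fun j => ?_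
      have h2 : φ (f' (Baire_e m j)) = 0 := hφ ⟨_, rfl⟩
      rw [hφe] at h2
      simp only [hdir] at h2
      have h3 : η * (∑ q, lam q * kk q.2 (s j) (x.1 q.1) - ∑ q, lam q * kk q.2 0 (x.1 q.1)) = 0 := by
        refine Eq.trans ?_ h2
        rw [← Finset.sum_sub_distrib, Finset.mul_sum]
        simp only [Finset.sum_mul]
        rw [Finset.sum_comm]
        refine Finset.sum_congr rfl fun q _ => ?_
        simp only [lam, Finset.sum_mul, ← Finset.sum_sub_distrib, Finset.mul_sum]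
        exact Finset.sum_congr rfl fun a _ => by ring
      exact sub_eq_zero.mp ((mul_eq_zero.mp h3).resolve_left h0.ne')
    have hμ : ∀ b, φ (Pi.single b 1) = 0 := by
      intro b
      have h2 := congrFun hlam ((v b).1, ⟨(v b).2, hJ2 b⟩)
      have h3 : em ((v b).1, ⟨(v b).2, hJ2 b⟩) = v b := rfl
      simp only [lam, h3, Pi.zero_apply] at h2
      rw [Finset.sum_eq_single b (fun a _ hab => by rw [hQ a b hab]; simp) (by simp)] at h2
      exact (mul_eq_zero.mp h2).resolve_right (hx4 b)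
    refine hφ0 (LinearMap.ext fun y => ?_)
    rw [hφe]
    simp [hμ]
  have hden := dense_avoid hr hU fun x hx => hx.2.2.1
  have hD : (0 : ℝ) < (D : ℝ) + 1 := by positivity
  obtain ⟨u, hu1, hu2⟩ := hden.inter_open_nonempty (Metric.ball 0 (1 / ((D : ℝ) + 1) ^ 2))
    Metric.isOpen_ball ⟨0, Metric.mem_ball_self (by positivity)⟩
  have hu : ∀ j, |u j| ≤ 1 / ((D : ℝ) + 1) ^ 2 := fun j => by
    have := norm_le_pi_norm u j
    rw [mem_ball_zero_iff] at hu1
    exact this.trans hu1.le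
  have hle : 1 / ((D : ℝ) + 1) ^ 2 * D ≤ 1 / ((D : ℝ) + 1) := by
    rw [div_mul_eq_mul_div, div_le_div_iff₀ (by positivity) hD]
    nlinarith
  have hle' : 1 / ((D : ℝ) + 1) ^ 2 ≤ 1 / ((D : ℝ) + 1) := by
    rw [div_le_div_iff₀ (by positivity) hD]
    have : (0 : ℝ) ≤ D := Nat.cast_nonneg D
    nlinarith
  obtain ⟨ρ, hρ⟩ := Baire_atoms (ι := Option (Fin D))
    (fun o => o.elim ⟨0, le_rfl, zero_le_one⟩ s)
    (fun o => o.elim (1 / ((D : ℝ) + 1) - ∑ j, u j) fun j => 1 / ((D : ℝ) + 1) + u j)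
    (by
      rintro (_ | j)
      · have : ∑ j, u j ≤ ∑ _j : Fin D, 1 / ((D : ℝ) + 1) ^ 2 :=
          Finset.sum_le_sum fun j _ => (le_abs_self _).trans (hu j)
        simp only [Finset.sum_const, Finset.card_univ, Fintype.card_fin, nsmul_eq_mul] at this
        simp only [Option.elim]
        nlinarith
      · have := neg_abs_le (u j)
        have := hu j
        simp only [Option.elim]
        linarith)
    (by
      rw [Fintype.sum_option]
      simp only [Option.elim, Finset.sum_add_distrib, Finset.sum_const, Finset.card_univ,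
        Fintype.card_fin, nsmul_eq_mul]
      field_simp
      ring)
  obtain ⟨ν', hν'⟩ := Baire_mix ν ρ h0.le h1
  refine ⟨ν', ρ, ?_, hν'⟩
  rintro ⟨t, ht1, ht2, ht3⟩
  have hN : (0 : ℝ) < 1 / ((N : ℝ) + 1) := by positivity
  have ht : ∀ i, 1 < t i := fun i => by linarith [(ht1 i).1]
  have hjet : (fun p : Fin m × ℕ => jt p.2 ν' (t p.1)) = Baire_F ν η s (t, u) := by
    funext p
    have hc := kk_continuous p.2 (lt_trans one_pos (ht p.1))
    unfold jt
    rw [hν' _ hc, hρ _ hc, Fintype.sum_option]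
    rfl
  rw [hjet] at ht3
  refine hu2 ⟨(t, u), ⟨ht, fun i j hij => ?_, funext fun a => (ht3 a).1, fun a h => ?_⟩, rfl⟩
  · by_contra hne
    have := ht2 i j hne
    have hij' : t i = t j := hij
    rw [hij', sub_self, abs_zero] at this
    linarith
  · have := (ht3 a).2
    rw [h, abs_zero] at this
    linarith

theorem bad_dense {m r : ℕ} (hr : m < r) (Q : Fin r → MvPolynomial (Fin m × ℕ) ℚ)
    (v : Fin r → Fin m × ℕ) (hQ : ∀ a b, a ≠ b → MvPolynomial.pderiv (v b) (Q a) = 0) (N : ℕ) :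
    Dense (Bad Q v N)ᶜ := by
  intro ν
  have hη : ∀ k : ℕ, (0 : ℝ) < 1 / ((k : ℝ) + 1) ∧ 1 / ((k : ℝ) + 1) ≤ 1 := fun k =>
    ⟨by positivity, by
      rw [div_le_one (by positivity)]
      have : (0 : ℝ) ≤ k := Nat.cast_nonneg k
      linarith⟩
  choose ν' ρ h1 h2 using fun k : ℕ => Baire_step hr Q v hQ N ν (hη k).1 (hη k).2
  refine mem_closure_of_tendsto (f := ν') (b := atTop) ?_ (Eventually.of_forall h1)
  rw [ProbabilityMeasure.tendsto_iff_forall_integral_tendsto]
  intro g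
  simp only [h2 _ g g.continuous]
  have t0 : Tendsto (fun k : ℕ => 1 / ((k : ℝ) + 1)) atTop (𝓝 0) :=
    tendsto_one_div_add_atTop_nhds_zero_nat
  have t1 : Tendsto (fun k : ℕ => 1 / ((k : ℝ) + 1) * ∫ s, g s ∂(ρ k : Measure (Icc (0 : ℝ) 1)))
      atTop (𝓝 0) := by
    refine squeeze_zero_norm (a := fun k : ℕ => 1 / ((k : ℝ) + 1) * ‖g‖) (fun k => ?_) ?_
    · rw [norm_mul, Real.norm_of_nonneg (hη k).1.le]
      exact mul_le_mul_of_nonneg_left (g.norm_integral_le_norm _) (hη k).1.le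
    · simpa using t0.mul_const ‖g‖
  simpa using ((tendsto_const_nhds (x := (1 : ℝ)).sub t0).mul_const
    (∫ s, g s ∂(ν : Measure (Icc (0 : ℝ) 1)))).add t1

theorem residual_generic : {ν : PrI | IsGeneric (fMeas ν)} ∈ residual PrI := by
  classical
  have : ∀ m : ℕ, Countable (MvPolynomial (Fin m × ℕ) ℚ) := fun m =>
    AddMonoidAlgebra.coeff_injective.countable
  have key : ∀ᶠ ν in residual PrI, ∀ (m : ℕ) (Q : Fin (m + 1) → MvPolynomial (Fin m × ℕ) ℚ)
      (v : Fin (m + 1) → Fin m × ℕ) (N : ℕ),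
      (∀ a b, a ≠ b → MvPolynomial.pderiv (v b) (Q a) = 0) → ν ∉ Bad Q v N := by
    refine eventually_countable_forall.mpr fun m => eventually_countable_forall.mpr fun Q =>
      eventually_countable_forall.mpr fun v => eventually_countable_forall.mpr fun N => ?_
    by_cases hQ : ∀ a b, a ≠ b → MvPolynomial.pderiv (v b) (Q a) = 0
    · filter_upwards [residual_of_dense_open (bad_closed Q v N).isOpen_compl
        (bad_dense (Nat.lt_succ_self m) Q v hQ N)] with ν h _ using h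
    · exact Eventually.of_forall fun ν h => absurd h hQ
  filter_upwards [key] with ν hν
  intro S hS
  by_contra hne
  push Not at hne
  let e : Fin S.card ≃ S := S.equivFin.symm
  let t : Fin S.card → ℝ := fun i => e i
  have ht : ∀ i, 1 < t i := fun i => hS _ (e i).2
  have hinj : Function.Injective t := Subtype.val_injective.comp e.injective
  obtain ⟨Q, v, h1, h2, h3⟩ := exists_blocks (fun p : Fin S.card × ℕ => jt p.2 ν (t p.1))
    (fun K hK => by
      refine hne (K + 1) ?_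
      have := hK.comp (fun p : S × ℕ => (e.symm p.1, p.2)) (fun p q h => by
        simp only [Prod.mk.injEq, EmbeddingLike.apply_eq_iff_eq] at h
        exact Prod.ext h.1 h.2)
      convert this using 2 with p
      have hp : 0 < (p.1 : ℝ) := lt_trans one_pos (hS _ p.1.2)
      rw [show K + 1 + p.2 = K + p.2 + 1 by ring, iteratedDeriv_fMeas ν _ hp]
      simp [t]) (S.card + 1)
  have t0 : Tendsto (fun k : ℕ => 1 / ((k : ℝ) + 1)) atTop (𝓝 0) :=
    tendsto_one_div_add_atTop_nhds_zero_nat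
  have small : ∀ c : ℝ, 0 < c → ∀ᶠ N : ℕ in atTop, 1 / ((N : ℝ) + 1) ≤ c := fun c hc =>
    t0.eventually (ge_mem_nhds hc)
  have e1 : ∀ᶠ N : ℕ in atTop, ∀ i, 1 + 1 / ((N : ℝ) + 1) ≤ t i ∧ t i ≤ N := by
    refine eventually_all.mpr fun i => ?_
    filter_upwards [small (t i - 1) (by linarith [ht i]),
      tendsto_natCast_atTop_atTop.eventually_ge_atTop (t i)] with N ha hb
    exact ⟨by linarith, hb⟩
  have e2 : ∀ᶠ N : ℕ in atTop, ∀ i j, i ≠ j → 1 / ((N : ℝ) + 1) ≤ |t i - t j| := by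
    refine eventually_all.mpr fun i => eventually_all.mpr fun j => eventually_all.mpr fun hij => ?_
    exact small _ (abs_pos.mpr (sub_ne_zero.mpr fun h => hij (hinj h)))
  have e3 : ∀ᶠ N : ℕ in atTop, ∀ a, 1 / ((N : ℝ) + 1) ≤
      |MvPolynomial.aeval (fun p : Fin S.card × ℕ => jt p.2 ν (t p.1))
        (MvPolynomial.pderiv (v a) (Q a))| :=
    eventually_all.mpr fun a => small _ (abs_pos.mpr (h2 a))
  obtain ⟨N, n1, n2, n3⟩ := (e1.and (e2.and e3)).exists
  exact hν _ Q v N h3 ⟨t, n1, n2, fun a => ⟨h1 a, n3 a⟩⟩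

end Pool.Agent.Work.MP_2482e4_mp.Gn
end
end
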