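import Pool.Agent.Work.MP_2482e4_mp.Gn.Sm

-- merged part: Pool.Agent.Work.MP_2482e4_mp.Gn.Hull
section
/-!
The Zariski closure of a generic leaf.
Plan. S = Hermitian H with F H = 0 for every F in Pol n vanishing on N. stab: apply the hypothesis to F = l ∘ Φ for a linear
functional l (PM.functional); H ↦ fderiv F H [H, [H, A]] is in Pol n (pol_fderiv, PM.lie) and vanishes on N, hence on S;
it equals l Y by the chain rule along the line and uniqueness of derivatives. transl: F 0 = F,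
F (k + 1) = fun H => fderiv (F k) H A all vanish on N, so on S; g s = F (H + s A) is a polynomial (pol_line) and its
k-th derivative at s is F k (H + s A) (induction), so all coefficients vanish. tor: test with ip M for M orthogonal to 𝒜
(mem_of_perp, PM.torsion). Hull.lin: apply stab to Φ = T for a linear map T with kernel 𝒯 (or use ip M and mem_of_perp:
Φ X = ip M X • 1 needs n nonempty; a projection with kernel 𝒯 is simpler, Submodule.exists_isCompl).
tor_two: unfold, noncomm_ring. Hull.lts: subtract the relation at H from the one at H + C; [C, [A, B]] = -[[A, B], C].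
span_closed: Hull.lin at H + A and at H gives [H, [A, B]] + [A, [H, B]] + [A, [A, B]] in the span; then span induction.
-/

open scoped ComplexOrder Topology ContDiff Matrix.Norms.L2Operator
open Matrix Filter Module

set_option linter.unusedSectionVars false

namespace Pool.Agent.Work.MP_2482e4_mp.Gn

variable {n : Type} [Fintype n] [DecidableEq n]

variable {𝒜 : Submodule ℝ (Mt n)} {S : Set (Mt n)}

theorem Hull_line {F : Mt n → ℝ} (hF : F ∈ Pol n) (H A : Mt n) (s : ℝ) :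
    HasDerivAt (fun t : ℝ => F (H + t • A)) (fderiv ℝ F (H + s • A) A) s := by
  have h1 : HasDerivAt (fun t : ℝ => H + t • A) A s := by
    simpa using ((hasDerivAt_id s).smul_const A).const_add H
  exact (pol_differentiable hF (H + s • A)).hasFDerivAt.comp_hasDerivAt s h1

theorem Hull_coeff {N : Set (Mt n)} {H A : Mt n}
    (hs : ∀ F ∈ Pol n, (∀ X ∈ N, F X = 0) → ∀ X ∈ N, fderiv ℝ F X A = 0)
    (hH : ∀ F ∈ Pol n, (∀ X ∈ N, F X = 0) → F H = 0) (k : ℕ) :
    ∀ F ∈ Pol n, (∀ X ∈ N, F X = 0) → ∀ q : Polynomial ℝ, (∀ s : ℝ, F (H + s • A) = q.eval s) →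
      q.coeff k = 0 := by
  induction k with
  | zero =>
    intro F hF h0 q hq
    rw [Polynomial.coeff_zero_eq_eval_zero, ← hq, zero_smul, add_zero]
    exact hH F hF h0
  | succ k ih =>
    intro F hF h0 q hq
    have h1 := ih (fun X => fderiv ℝ F X A) (pol_fderiv hF PM.self (PM.const A)) (hs F hF h0)
      q.derivative fun s => by
        have h2 := Hull_line hF H A s
        rw [funext hq] at h2
        exact h2.unique (q.hasDerivAt s)
    rw [Polynomial.coeff_derivative] at h1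
    exact (mul_eq_zero.1 h1).resolve_right (by positivity)

theorem exists_hull {N : Set (Mt n)} (hA : ∀ A ∈ 𝒜, A.IsHermitian) (hh : ∀ H ∈ N, H.IsHermitian)
    (hs : ∀ F ∈ Pol n, (∀ H ∈ N, F H = 0) → ∀ H ∈ N, ∀ A ∈ 𝒜,
      fderiv ℝ F H A = 0 ∧ fderiv ℝ F H ⁅H, ⁅H, A⁆⁆ = 0)
    (ht : ∀ H ∈ N, ∀ A ∈ 𝒜, ∀ B ∈ 𝒜, ∀ k, tor (2 * k) H A B ∈ 𝒜) : ∃ S, N ⊆ S ∧ Hull 𝒜 S := by
  refine ⟨{H | H.IsHermitian ∧ ∀ F ∈ Pol n, (∀ X ∈ N, F X = 0) → F H = 0},
    fun H hH => ⟨hh H hH, fun F _ h0 => h0 H hH⟩, hA, fun H hH => hH.1, ?_, ?_, ?_⟩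
  · rintro H ⟨h1, h2⟩ A hA'
    refine ⟨h1.add (hA A hA'), fun F hF h0 => ?_⟩
    obtain ⟨q, hq⟩ := pol_line hF H A
    have hq0 : q = 0 := Polynomial.ext fun k =>
      Hull_coeff (fun F hF h0 X hX => (hs F hF h0 X hX A hA').1) h2 k F hF h0 q hq
    have := hq 1
    rwa [one_smul, hq0, Polynomial.eval_zero] at this
  · rintro Φ hΦ h0 H ⟨_, h2⟩ A hA' Y hY
    have hF : (fun X => ip Y (Φ X)) ∈ Pol n := hΦ.functional (ip Y)
    have hN : ∀ X ∈ N, ip Y (Φ X) = 0 := fun X hX => by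
      rw [h0 X ⟨hh X hX, fun F _ e => e X hX⟩, map_zero]
    have h3 := h2 _ (pol_fderiv hF PM.self (PM.self.lie (PM.self.lie (PM.const A))))
      fun X hX => (hs _ hF hN X hX A hA').2
    have h4 := Hull_line hF H ⁅H, ⁅H, A⁆⁆ 0
    rw [zero_smul, add_zero, h3] at h4
    have h5 := (LinearMap.toContinuousLinearMap (ip Y)).hasFDerivAt.comp_hasDerivAt 0 hY
    exact ip_self_eq_zero (h5.unique h4)
  · rintro H ⟨_, h2⟩ A hA' B hB' k
    refine mem_of_perp fun M hM => ?_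
    refine h2 _ ((PM.self.torsion (2 * k) A B).functional (ip M)) fun X hX => ?_
    rw [ip_comm]
    exact hM _ (ht X hX A hA' B hB' k)

theorem Hull.lin (h : Hull 𝒜 S) {𝒯 : Submodule ℝ (Mt n)} (hT : ∀ H ∈ S, H ∈ 𝒯) {H : Mt n}
    (hH : H ∈ S) {A : Mt n} (hA : A ∈ 𝒜) : ⁅H, ⁅H, A⁆⁆ ∈ 𝒯 := by
  refine mem_of_perp fun M hM => ?_
  have h1 : HasDerivAt (fun s : ℝ => ip M (H + s • ⁅H, ⁅H, A⁆⁆) • M) (ip M ⁅H, ⁅H, A⁆⁆ • M) 0 := by
    refine HasDerivAt.smul_const ?_ M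
    simp only [map_add, map_smul, smul_eq_mul]
    simpa using ((hasDerivAt_id (0 : ℝ)).mul_const (ip M ⁅H, ⁅H, A⁆⁆)).const_add (ip M H)
  have h2 := h.stab (fun X => ip M X • M) (PM.smul (PM.self.functional (ip M)) (PM.const M))
    (fun X hX => by rw [ip_comm, hM X (hT X hX), zero_smul]) H hH A hA _ h1
  rcases smul_eq_zero.1 h2 with e | e
  · exact e
  · rw [e, map_zero, LinearMap.zero_apply]

theorem tor_two (H A B : Mt n) : tor 2 H A B = (3 : ℝ) • ⁅H, ⁅A, B⁆⁆ := by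
  have e : (3 : ℝ) • ⁅H, ⁅A, B⁆⁆ = ⁅H, ⁅A, B⁆⁆ + ⁅H, ⁅A, B⁆⁆ + ⁅H, ⁅A, B⁆⁆ := by module
  rw [e]
  simp only [tor, dad, ad_pow_succ, pow_zero, Module.End.one_apply, Ring.lie_def]
  noncomm_ring

theorem Hull.lie_mem (h : Hull 𝒜 S) {H : Mt n} (hH : H ∈ S) {A B : Mt n} (hA : A ∈ 𝒜)
    (hB : B ∈ 𝒜) : ⁅H, ⁅A, B⁆⁆ ∈ 𝒜 := by
  have h1 := h.trs H hH A hA B hB 1
  rw [mul_one, tor_two] at h1
  exact (𝒜.smul_mem_iff (by norm_num)).1 h1

theorem Hull.lts (h : Hull 𝒜 S) (hS : S.Nonempty) : IsLieTriple (𝒜 : Set (Mt n)) := by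
  obtain ⟨H, hH⟩ := hS
  intro A hA B hB C hC
  have h1 := 𝒜.sub_mem (h.lie_mem hH hA hB) (h.lie_mem (h.transl H hH C hC) hA hB)
  have e : ⁅H, ⁅A, B⁆⁆ - ⁅H + C, ⁅A, B⁆⁆ = ⁅⁅A, B⁆, C⁆ := by
    simp only [Ring.lie_def]
    noncomm_ring
  rwa [e] at h1

/-- The span of `S` contains `𝒜` and is closed under `[A, [B, ·]]`. -/
theorem Hull.span_closed (h : Hull 𝒜 S) (hS : S.Nonempty) :
    𝒜 ≤ Submodule.span ℝ S ∧
      (∀ M ∈ Submodule.span ℝ S, M.IsHermitian ∧ ∀ A ∈ 𝒜, ∀ B ∈ 𝒜, ⁅M, ⁅A, B⁆⁆ ∈ 𝒜) ∧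
      ∀ M ∈ Submodule.span ℝ S, ∀ A ∈ 𝒜, ∀ B ∈ 𝒜, ⁅A, ⁅B, M⁆⁆ ∈ Submodule.span ℝ S := by
  have hl := h.lts hS
  obtain ⟨H₀, hH₀⟩ := hS
  have hle : 𝒜 ≤ Submodule.span ℝ S := fun A hA => by
    have := Submodule.sub_mem _ (Submodule.subset_span (R := ℝ) (h.transl H₀ hH₀ A hA))
      (Submodule.subset_span hH₀)
    rwa [add_sub_cancel_left] at this
  refine ⟨hle, fun M hM => ?_, fun M hM A hA B hB => ?_⟩
  · induction hM using Submodule.span_induction with
    | mem X hX => exact ⟨h.herm X hX, fun A hA B hB => h.lie_mem hX hA hB⟩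
    | zero => exact ⟨isHermitian_zero, fun A _ B _ => by simp [Ring.lie_def]⟩
    | add X Y _ _ hX hY =>
      refine ⟨hX.1.add hY.1, fun A hA B hB => ?_⟩
      have e : ⁅X + Y, ⁅A, B⁆⁆ = ⁅X, ⁅A, B⁆⁆ + ⁅Y, ⁅A, B⁆⁆ := by
        simp only [Ring.lie_def]
        noncomm_ring
      rw [e]
      exact 𝒜.add_mem (hX.2 A hA B hB) (hY.2 A hA B hB)
    | smul c X _ hX =>
      refine ⟨?_, fun A hA B hB => ?_⟩
      · have := hX.1
        rw [IsHermitian] at this ⊢
        rw [conjTranspose_smul, this, star_trivial]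
      · have e : ⁅c • X, ⁅A, B⁆⁆ = c • ⁅X, ⁅A, B⁆⁆ := by
          rw [Ring.lie_def (c • X), Ring.lie_def X, smul_sub, smul_mul_assoc, mul_smul_comm]
        rw [e]
        exact 𝒜.smul_mem c (hX.2 A hA B hB)
  · induction hM using Submodule.span_induction with
    | mem X hX =>
      have hT : ∀ H ∈ S, H ∈ Submodule.span ℝ S := fun H hH => Submodule.subset_span hH
      have h1 := h.lin hT (h.transl X hX A hA) hB
      have h2 := h.lin hT hX hB
      have h3 := hle (h.lie_mem hX hA hB)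
      have h4 := hle (hl A hA B hB A hA)
      have e : ⁅A, ⁅B, X⁆⁆ = ⁅X, ⁅X, B⁆⁆ + ⁅X, ⁅A, B⁆⁆ - ⁅⁅A, B⁆, A⁆ - ⁅X + A, ⁅X + A, B⁆⁆ := by
        simp only [Ring.lie_def]
        noncomm_ring
      rw [e]
      exact sub_mem (sub_mem (add_mem h2 h3) h4) h1
    | zero => simp [Ring.lie_def]
    | add X Y _ _ hX hY =>
      have e : ⁅A, ⁅B, X + Y⁆⁆ = ⁅A, ⁅B, X⁆⁆ + ⁅A, ⁅B, Y⁆⁆ := by
        simp only [Ring.lie_def]
        noncomm_ring
      rw [e]
      exact add_mem hX hY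
    | smul c X _ hX =>
      have e : ⁅A, ⁅B, c • X⁆⁆ = c • ⁅A, ⁅B, X⁆⁆ := by
        rw [← ad_apply, ← ad_apply B, map_smul, map_smul, ad_apply, ad_apply]
      rw [e]
      exact Submodule.smul_mem _ c hX

end Pool.Agent.Work.MP_2482e4_mp.Gn
end

-- merged part: Pool.Agent.Work.MP_2482e4_mp.Gn.Joint
section
-- merged part: Pool.Agent.Work.MP_2482e4_mp.Gn.Joint
section
/-!
Joint spectral resolution of a commuting family and weight components.
Plan. exists_joint: induction on a finite spanning list of 𝔷 (or a basis e : Fin q → 𝔷): keep a resolution Q (any finite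
index type) such that each e i treated so far is dg Q (c i) and each Q a commutes with every X that commutes with 𝔷 and is
itself a polynomial in elements of 𝔷 (it is enough to keep: Q a commutes with all X commuting with 𝔷, and Q a commutes with 𝔷).
For a new A = Dg U y take the spectral projections E t = Dg U (indicator of y i = t), t in the image of y; they are polynomials
in A (commute_Dg_comp in CommAlg), so they commute with Q a; the products Q a * E t form the next resolution.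
Then d a = the functional with d a (e i) = c i a (Basis.constr). Merge indices with the same d (sum the Q a over the fibres
of d, index by the image Finset) and reindex by Fin m.
-/

open scoped ComplexOrder Topology ContDiff Matrix.Norms.L2Operator
open Matrix Filter Module

set_option linter.unusedSectionVars false

namespace Pool.Agent.Work.MP_2482e4_mp.Gn

variable {n : Type} [Fintype n] [DecidableEq n]

variable {𝔷 : Submodule ℝ (Mt n)} {m : ℕ} {Q : Fin m → Mt n} {d : Fin m → Module.Dual ℝ 𝔷}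

theorem Joint_Dg_sum {ι : Type} (U : Mt n) (s : Finset ι) (c : ι → ℝ) (f : ι → n → ℝ) :
    ∑ t ∈ s, c t • Dg U (f t) = Dg U fun i => ∑ t ∈ s, c t * f t i := by
  classical
  induction s using Finset.induction_on with
  | empty => simp [Dg]
  | insert a s ha ih =>
    rw [Finset.sum_insert ha, ih, ← Dg_smul]
    simp only [Finset.sum_insert ha, Dg, Complex.ofReal_add, ← Matrix.diagonal_add, mul_add,
      add_mul]

/-- The spectral resolution of one Hermitian matrix. -/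
theorem Joint_one {A : Mt n} (hA : A.IsHermitian) :
    ∃ (J : Type) (_ : Fintype J) (_ : DecidableEq J) (E : J → Mt n) (l : J → ℝ), IsRes E ∧
      A = dg E l ∧ ∀ X, Commute X A → ∀ t, Commute X (E t) := by
  classical
  obtain ⟨U, y, hU, rfl⟩ := exists_Dg hA
  have key : ∀ φ : ℝ → ℝ, ∑ t : (Finset.univ.image y),
      φ t • Dg U (fun i => if y i = t then 1 else 0) = Dg U fun i => φ (y i) := by
    intro φ
    rw [Joint_Dg_sum]
    congr 1
    funext i
    rw [Finset.sum_coe_sort (Finset.univ.image y) fun t => φ t * if y i = t then 1 else 0]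
    simp
  refine ⟨Finset.univ.image y, inferInstance, inferInstance,
    fun t => Dg U fun i => if y i = t then 1 else 0, fun t => t, ⟨fun t => Dg_herm _, ?_, ?_⟩,
    (key id).symm, fun X hX t => (commute_Dg_comp hU hX.symm fun s => if s = t then 1 else 0).symm⟩
  · intro a b
    rw [Dg_mul hU, Sch_Dg hU]
    split_ifs with e
    · congr 1
      funext i
      rw [← e]
      split_ifs <;> simp
    · have e2 : (fun i => (if y i = a then (1 : ℝ) else 0) * if y i = b then 1 else 0) =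
          fun _ => 0 := by
        funext i
        split_ifs with h1 h2
        · exact absurd (Subtype.ext (h1.symm.trans h2)) e
        · exact mul_zero _
        · exact zero_mul _
        · exact mul_zero _
      rw [e2]
      simp [Dg]
  · have h := key fun _ => 1
    simp only [one_smul] at h
    rw [h, Dg_one hU]

/-- The joint resolution of a finite commuting family. -/
theorem Joint_fin (s : Finset (Mt n)) (hh : ∀ A ∈ s, A.IsHermitian)
    (hc : ∀ A ∈ s, ∀ B ∈ s, Commute A B) :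
    ∃ (J : Type) (_ : Fintype J) (_ : DecidableEq J) (E : J → Mt n), IsRes E ∧
      (∀ A ∈ s, ∃ l, A = dg E l) ∧ ∀ X, (∀ A ∈ s, Commute X A) → ∀ t, Commute X (E t) := by
  classical
  induction s using Finset.induction_on with
  | empty =>
    exact ⟨Unit, inferInstance, inferInstance, fun _ => 1,
      ⟨fun _ => isHermitian_one, fun _ _ => by simp, by simp⟩, by simp,
      fun X _ _ => Commute.one_right X⟩
  | insert A s _ ih =>
    obtain ⟨J, _, _, E, hE, h1, h2⟩ := ih (fun B hB => hh B (Finset.mem_insert_of_mem hB))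
      fun B hB C hC => hc B (Finset.mem_insert_of_mem hB) C (Finset.mem_insert_of_mem hC)
    obtain ⟨K, _, _, F, l, hF, h3, h4⟩ := Joint_one (hh A (Finset.mem_insert_self A s))
    have h5 : ∀ a t, Commute (E a) (F t) := fun a => h4 _ (h2 A (fun B hB =>
      hc A (Finset.mem_insert_self A s) B (Finset.mem_insert_of_mem hB)) a).symm
    refine ⟨J × K, inferInstance, inferInstance, fun p => E p.1 * F p.2, ⟨?_, ?_, ?_⟩, ?_, ?_⟩
    · intro p
      unfold Matrix.IsHermitian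
      rw [conjTranspose_mul, (hE.herm _).eq, (hF.herm _).eq, (h5 _ _).eq]
    · rintro ⟨a, t⟩ ⟨b, u⟩
      rw [(h5 b t).symm.mul_mul_mul_comm, hE.mul, hF.mul]
      by_cases e1 : a = b <;> by_cases e2 : t = u <;> simp [e1, e2]
    · rw [Fintype.sum_prod_type, ← Finset.sum_mul_sum, hE.sum, hF.sum, mul_one]
    · intro B hB
      rcases Finset.mem_insert.1 hB with rfl | hB
      · refine ⟨fun p => l p.2, ?_⟩
        rw [dg, Fintype.sum_prod_type_right]
        simp only [← Finset.smul_sum, ← Finset.sum_mul, hE.sum, one_mul]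
        exact h3
      · obtain ⟨l', e⟩ := h1 B hB
        refine ⟨fun p => l' p.1, ?_⟩
        rw [dg, Fintype.sum_prod_type]
        simp only [← Finset.smul_sum, ← Finset.mul_sum, hF.sum, mul_one]
        exact e
    · intro X hX p
      exact (h2 X (fun B hB => hX B (Finset.mem_insert_of_mem hB)) _).mul_right
        (h4 X (hX A (Finset.mem_insert_self A s)) _)

/-- Merging the indices with the same label. -/
theorem Joint_merge {J β : Type} [Fintype J] [DecidableEq J] {E : J → Mt n} (hE : IsRes E)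
    (f : J → β) : ∃ (m : ℕ) (Q : Fin m → Mt n) (d : Fin m → β), IsRes Q ∧ Function.Injective d ∧
      (∀ φ : β → ℝ, (dg Q fun i => φ (d i)) = dg E fun a => φ (f a)) ∧
      ∀ X, (∀ a, Commute X (E a)) → ∀ i, Commute X (Q i) := by
  classical
  let e := (Finset.univ.image f).equivFin.symm
  have hinj : Function.Injective fun i => (e i).1 := Subtype.val_injective.comp e.injective
  have key : ∀ φ : β → ℝ, ∑ i, φ (e i).1 • ∑ a ∈ Finset.univ.filter fun a => f a = (e i).1, E a =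
      ∑ a, φ (f a) • E a := by
    intro φ
    rw [e.sum_comp fun t => φ t.1 • ∑ a ∈ Finset.univ.filter fun a => f a = t.1, E a,
      Finset.sum_coe_sort (Finset.univ.image f)
        fun t => φ t • ∑ a ∈ Finset.univ.filter fun a => f a = t, E a,
      ← Finset.sum_fiberwise_of_maps_to (g := f)
        fun a _ => Finset.mem_image_of_mem f (Finset.mem_univ a)]
    refine Finset.sum_congr rfl fun t _ => ?_
    rw [Finset.smul_sum]
    exact Finset.sum_congr rfl fun a ha => by rw [(Finset.mem_filter.1 ha).2]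
  refine ⟨_, fun i => ∑ a ∈ Finset.univ.filter fun a => f a = (e i).1, E a, fun i => (e i).1,
    ⟨fun i => ?_, fun i j => ?_, ?_⟩, hinj, key,
    fun X hX i => Commute.sum_right _ _ _ fun a _ => hX a⟩
  · unfold Matrix.IsHermitian
    rw [conjTranspose_sum]
    exact Finset.sum_congr rfl fun a _ => (hE.herm a).eq
  · rw [Finset.sum_mul_sum]
    simp only [hE.mul, Finset.sum_ite_eq]
    split_ifs with h
    · exact Finset.sum_congr rfl fun a ha => if_pos (h ▸ ha)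
    · refine Finset.sum_eq_zero fun a ha => if_neg fun hb => h (hinj ?_)
      have h1 : f a = (e i).1 := (Finset.mem_filter.1 ha).2
      have h2 : f a = (e j).1 := (Finset.mem_filter.1 hb).2
      exact h1.symm.trans h2
  · have h := key fun _ => 1
    simp only [one_smul] at h
    rw [h, hE.sum]

theorem Joint_mu {J : Type} [Fintype J] [DecidableEq J] {E : J → Mt n} (hE : IsRes E)
    (l : J → ℝ) : dg E l = dg E (mu E (dg E l)) := by
  refine Finset.sum_congr rfl fun a _ => ?_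
  by_cases h : E a = 0
  · rw [h, smul_zero, smul_zero]
  · rw [mu, hE.mul_dg, trace_smul, Complex.smul_re, smul_eq_mul,
      mul_inv_cancel_right₀ (hE.trace_pos h).ne']

theorem exists_joint (hh : ∀ A ∈ 𝔷, A.IsHermitian) (hc : ∀ A ∈ 𝔷, ∀ B ∈ 𝔷, Commute A B) :
    ∃ (m : ℕ) (Q : Fin m → Mt n) (d : Fin m → Module.Dual ℝ 𝔷), Joint 𝔷 Q d := by
  obtain ⟨s, hs⟩ : 𝔷.FG := IsNoetherian.noetherian 𝔷
  have hsub : ∀ A ∈ s, A ∈ 𝔷 := fun A hA => hs ▸ Submodule.subset_span hA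
  obtain ⟨J, _, _, E, hE, h1, h2⟩ := Joint_fin s (fun A hA => hh A (hsub A hA))
    fun A hA B hB => hc A (hsub A hA) B (hsub B hB)
  have h3 : ∀ A ∈ 𝔷, ∃ l, A = dg E l := by
    intro A hA
    rw [← hs] at hA
    induction hA using Submodule.span_induction with
    | mem A hA => exact h1 A hA
    | zero => exact ⟨0, by simp [dg]⟩
    | add A B _ _ hA hB =>
      obtain ⟨l, rfl⟩ := hA
      obtain ⟨l', rfl⟩ := hB
      exact ⟨l + l', by simp [dg, add_smul, Finset.sum_add_distrib]⟩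
    | smul c A _ hA =>
      obtain ⟨l, rfl⟩ := hA
      exact ⟨c • l, by simp [dg, Finset.smul_sum, mul_smul]⟩
  let f : J → Module.Dual ℝ 𝔷 := fun a =>
    { toFun := fun A => mu E A a
      map_add' := fun A B => by simp [mu, mul_add, add_mul]
      map_smul' := fun c A => by simp [mu, mul_assoc] }
  obtain ⟨m, Q, d, hQ, hd, h4, h5⟩ := Joint_merge hE f
  refine ⟨m, Q, d, hQ, fun A => ?_, hd, fun X hX => h5 X (h2 X fun A hA => hX A (hsub A hA))⟩
  obtain ⟨l, e⟩ := h3 A A.2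
  rw [h4 fun α => α A]
  show (A : Mt n) = dg E (mu E A)
  rw [e]
  exact Joint_mu hE l

theorem Joint.lie_eq (h : Joint 𝔷 Q d) (A : 𝔷) (X : Mt n) :
    ⁅(A : Mt n), X⁆ = mlt Q (fun a b => d a A - d b A) X :=
  (congrArg (fun B : Mt n => ⁅B, X⁆) (h.eq A)).trans (h.res.lie_dg _ X)

theorem Joint.lie_comp (h : Joint 𝔷 Q d) (A : 𝔷) (α : Module.Dual ℝ 𝔷) (X : Mt n) :
    ⁅(A : Mt n), comp Q d α X⁆ = α A • comp Q d α X := by
  rw [h.lie_eq, comp, h.res.mk_mk, ← mk_const_mul]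
  refine mk_congr fun a b _ => ?_
  split_ifs with e
  · rw [← e, LinearMap.sub_apply]
  · rw [mul_zero, mul_zero]

open Classical in
theorem Joint.sum_comp (h : Joint 𝔷 Q d) (X : Mt n) :
    ∑ α ∈ Finset.univ.image (fun p : Fin m × Fin m => d p.1 - d p.2), comp Q d α X = X := by
  refine h.res.ext fun a b => ?_
  rw [Finset.mul_sum, Finset.sum_mul]
  simp only [comp, h.res.comp_mk]
  rw [← Finset.sum_smul, Finset.sum_ite_eq,
    if_pos (Finset.mem_image_of_mem (fun p : Fin m × Fin m => d p.1 - d p.2)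
      (Finset.mem_univ (a, b))), one_smul]

theorem Joint.star_comp (h : Joint 𝔷 Q d) (α : Module.Dual ℝ 𝔷) (X : Mt n) :
    star (comp Q d α X) = comp Q d (-α) (star X) := by
  rw [comp, h.res.star_mk, comp]
  refine mk_congr fun a b _ => ?_
  have e : d b - d a = α ↔ d a - d b = -α := by rw [← neg_sub, neg_eq_iff_eq_neg]
  by_cases h1 : d b - d a = α
  · exact (if_pos h1).trans (if_pos (e.1 h1)).symm
  · exact (if_neg h1).trans (if_neg fun h2 => h1 (e.2 h2)).symm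

/-- A weight vector has one component. -/
theorem Joint.comp_of_weight (h : Joint 𝔷 Q d) {X : Mt n} {β : Module.Dual ℝ 𝔷}
    (hX : ∀ A : 𝔷, ⁅(A : Mt n), X⁆ = β A • X) :
    comp Q d β X = X ∧ ∀ α, α ≠ β → comp Q d α X = 0 := by
  have key : ∀ a b, Q a * X * Q b ≠ 0 → d a - d b = β := by
    intro a b hab
    ext A
    have h1 := h.res.comp_mk (fun a b => d a A - d b A) X a b
    rw [← h.lie_eq, hX, mul_smul_comm, smul_mul_assoc] at h1
    exact (smul_left_injective ℝ hab h1).symm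
  constructor
  · exact (mk_congr fun a b hab => if_pos (key a b hab)).trans (h.res.mk_one X)
  · intro α hα
    refine (mk_congr (κ' := fun _ _ => 0) fun a b hab =>
      if_neg fun e => hα (e.symm.trans (key a b hab))).trans ?_
    simp [mk_apply]

theorem Joint.commute_comp (h : Joint 𝔷 Q d) {X Y : Mt n} (hX : ∀ A ∈ 𝔷, Commute X A)
    (hY : Commute X Y) (α : Module.Dual ℝ 𝔷) : Commute X (comp Q d α Y) :=
  Commute.sum_right _ _ _ fun a _ => Commute.sum_right _ _ _ fun b _ =>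
    (((h.comm X hX a).mul_right hY).mul_right (h.comm X hX b)).smul_right _

theorem Joint_lie_sum {ι : Type} (s : Finset ι) (f : ι → Mt n) (Y : Mt n) :
    ⁅∑ i ∈ s, f i, Y⁆ = ∑ i ∈ s, ⁅f i, Y⁆ ∧ ⁅Y, ∑ i ∈ s, f i⁆ = ∑ i ∈ s, ⁅Y, f i⁆ := by
  simp only [Ring.lie_def, Finset.sum_mul, Finset.mul_sum, Finset.sum_sub_distrib, and_self]

theorem Joint_comp_lie (h : Joint 𝔷 Q d) (X : Mt n) {Y : Mt n} {β : Module.Dual ℝ 𝔷}
    (hY : ∀ A : 𝔷, ⁅(A : Mt n), Y⁆ = β A • Y) (α : Module.Dual ℝ 𝔷) :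
    comp Q d α ⁅X, Y⁆ = ⁅comp Q d (α - β) X, Y⁆ := by
  classical
  have key : ∀ γ : Module.Dual ℝ 𝔷, ∀ A : 𝔷,
      ⁅(A : Mt n), ⁅comp Q d γ X, Y⁆⁆ = (γ + β) A • ⁅comp Q d γ X, Y⁆ := by
    intro γ A
    have e : ⁅(A : Mt n), ⁅comp Q d γ X, Y⁆⁆ =
        ⁅⁅(A : Mt n), comp Q d γ X⁆, Y⁆ + ⁅comp Q d γ X, ⁅(A : Mt n), Y⁆⁆ := by
      simp only [Ring.lie_def]
      noncomm_ring
    rw [e, h.lie_comp, hY, LinearMap.add_apply, add_smul]
    simp only [Ring.lie_def, smul_mul_assoc, mul_smul_comm, smul_sub]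
  have h1 := (h.comp_of_weight (key (α - β))).1
  rw [sub_add_cancel] at h1
  refine (congrArg (fun Z : Mt n => comp Q d α ⁅Z, Y⁆) (h.sum_comp X).symm).trans ?_
  rw [(Joint_lie_sum _ _ Y).1, map_sum, Finset.sum_eq_single (α - β), h1]
  · intro γ _ hγ
    exact (h.comp_of_weight (key γ)).2 α fun e => hγ (eq_sub_of_add_eq e.symm)
  · intro hn
    have e : comp Q d (α - β) X = 0 := by
      refine (mk_congr (κ' := fun _ _ => 0) fun a b _ => if_neg fun e => hn ?_).trans ?_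
      · exact Finset.mem_image.2 ⟨(a, b), Finset.mem_univ _, e⟩
      · simp [mk_apply]
    rw [e]
    simp [Ring.lie_def]

open Classical in
/-- The components of `[X, [X, A]]`. -/
theorem Joint.comp_lie_lie (h : Joint 𝔷 Q d) (X : Mt n) (A : 𝔷) (α : Module.Dual ℝ 𝔷) :
    comp Q d α ⁅X, ⁅X, (A : Mt n)⁆⁆ =
      -∑ β ∈ Finset.univ.image (fun p : Fin m × Fin m => d p.1 - d p.2),
        β A • ⁅comp Q d (α - β) X, comp Q d β X⁆ := by
  have h1 : ⁅(A : Mt n), X⁆ = ∑ β ∈ Finset.univ.image (fun p : Fin m × Fin m => d p.1 - d p.2),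
      β A • comp Q d β X := by
    refine (congrArg (fun Z : Mt n => ⁅(A : Mt n), Z⁆) (h.sum_comp X).symm).trans ?_
    rw [(Joint_lie_sum _ _ _).2]
    exact Finset.sum_congr rfl fun β _ => h.lie_comp A β X
  have h2 : ⁅X, ⁅X, (A : Mt n)⁆⁆ = -⁅X, ⁅(A : Mt n), X⁆⁆ := by
    simp only [Ring.lie_def]
    noncomm_ring
  rw [h2, h1, (Joint_lie_sum _ _ _).2, map_neg, map_sum]
  refine congrArg _ (Finset.sum_congr rfl fun β _ => ?_)
  have h3 : ⁅X, β A • comp Q d β X⁆ = β A • ⁅X, comp Q d β X⁆ := by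
    simp only [Ring.lie_def, smul_mul_assoc, mul_smul_comm, smul_sub]
  rw [h3, map_smul, Joint_comp_lie h X fun B => h.lie_comp B β X]

end Pool.Agent.Work.MP_2482e4_mp.Gn
end

-- merged part: Pool.Agent.Work.MP_2482e4_mp.Gn.AbDec
section
/-!
Decomposition of the abelian part into commuting blocks.
Plan. D = ad (comp 0 G). First Commute (D ^ i (comp α G)) (D ^ j (comp β G)) for all i, j (induction on j, D is a derivation).
Δ = Finset of the nonzero d a - d b, Λ = image of Δ under α ↦ span ℝ {α} (Finset of lines). For ℓ in Λ let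
𝔅 ℓ = Algebra.adjoin ℝ of the D ^ i (comp α G), α in Δ, α ∈ ℓ. Different lines give commuting algebras (nonzero α, β with
different spans are independent). 𝔅 ℓ is closed under star (star (D ^ i (comp α G)) = ± D ^ i (comp (-α) G)), under D and under
ad A for A in 𝔷 (ad A commutes with D; generators are weight vectors). L ℓ = Hermitian elements of 𝔅 ℓ. Choose α ℓ in Δ
spanning ℓ and A ℓ in 𝔷 with α ℓ (A ℓ) = 1; on 𝔅 ℓ, ad A = α ℓ A • ad (A ℓ) (two derivations that agree on generators).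
inner_der gives a ℓ for A ℓ and h ℓ for comp 0 G. G ℓ = ∑ over α in Δ ∩ ℓ of comp α G is Hermitian and in 𝔅 ℓ.
c A = A - ∑ ℓ, α ℓ A • a ℓ and G₀ = comp 0 G - ∑ ℓ, h ℓ commute with all 𝔅 ℓ and with each other:
[A, a ℓ] = α ℓ A • [A ℓ, a ℓ] = 0 and [A, h ℓ] = 0 by the last part of inner_der. Remaining factors: span {c (e i)} for a basis
e of 𝔷 and span {G₀}. Index type Λ ⊕ Fin q ⊕ Unit, then Fintype.equivFin. G = ∑ ℓ, (G ℓ + h ℓ) + G₀ by Joint.sum_comp.
Last clause: X commutes with the generators by Joint.commute_comp.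
-/

open scoped ComplexOrder Topology ContDiff Matrix.Norms.L2Operator
open Matrix Filter Module

set_option linter.unusedSectionVars false

namespace Pool.Agent.Work.MP_2482e4_mp.Gn

variable {n : Type} [Fintype n] [DecidableEq n]

/-- The Hermitian part of a subalgebra. -/
def AbDec_hp (B : Subalgebra ℝ (Mt n)) : Submodule ℝ (Mt n) where
  carrier := {X | X ∈ B ∧ X.IsHermitian}
  add_mem' hX hY := ⟨add_mem hX.1 hY.1, hX.2.add hY.2⟩
  zero_mem' := ⟨zero_mem _, isHermitian_zero⟩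
  smul_mem' c X hX := ⟨B.smul_mem hX.1 c, by
    have h : star X = X := hX.2
    change star (c • X) = c • X
    rw [star_smul, h, star_trivial]⟩

theorem AbDec_lie_mem (B : Subalgebra ℝ (Mt n)) {X Y : Mt n} (hX : X ∈ B) (hY : Y ∈ B) :
    ⁅X, Y⁆ ∈ B := by
  rw [Ring.lie_def]
  exact sub_mem (mul_mem hX hY) (mul_mem hY hX)

theorem AbDec_herm_smul (c : ℝ) {X : Mt n} (hX : X.IsHermitian) : (c • X).IsHermitian := by
  have h : star X = X := hX
  change star (c • X) = c • X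
  rw [star_smul, h, star_trivial]

theorem AbDec_herm_sum {ι : Type} (s : Finset ι) {f : ι → Mt n} (hf : ∀ i ∈ s, (f i).IsHermitian) :
    (∑ i ∈ s, f i).IsHermitian := by
  change star (∑ i ∈ s, f i) = _
  rw [star_sum]
  exact Finset.sum_congr rfl fun i hi => hf i hi

theorem AbDec_reindex {κ : Type} [Fintype κ] {𝔷 : Submodule ℝ (Mt n)} {G : Mt n}
    (L : κ → Submodule ℝ (Mt n)) (a : κ → Mt n) (h1 : ∀ i, a i ∈ L i)
    (h2 : ∀ i, ∀ X ∈ L i, X.IsHermitian) (h3 : ∀ i, IsLieTriple (L i : Set (Mt n)))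
    (h4 : ∀ i j, i ≠ j → ∀ X ∈ L i, ∀ Y ∈ L j, Commute X Y) (h5 : G ∈ ⨆ i, L i)
    (h6 : 𝔷 ≤ ⨆ i, Submodule.span ℝ {a i})
    (h7 : ∀ X : Mt n, (∀ A ∈ 𝔷, Commute X A) → Commute X G → ∀ i, ∀ Y ∈ L i, Commute X Y) :
    ∃ (r : ℕ) (L : Fin r → Submodule ℝ (Mt n)) (a : Fin r → Mt n), (∀ i, a i ∈ L i) ∧
      (∀ i, ∀ X ∈ L i, X.IsHermitian) ∧ (∀ i, IsLieTriple (L i : Set (Mt n))) ∧
      (∀ i j, i ≠ j → ∀ X ∈ L i, ∀ Y ∈ L j, Commute X Y) ∧ G ∈ ⨆ i, L i ∧
      𝔷 ≤ ⨆ i, Submodule.span ℝ {a i} ∧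
      ∀ X : Mt n, (∀ A ∈ 𝔷, Commute X A) → Commute X G → ∀ i, ∀ Y ∈ L i, Commute X Y := by
  let e := (Fintype.equivFin κ).symm
  refine ⟨Fintype.card κ, fun i => L (e i), fun i => a (e i), fun i => h1 _, fun i => h2 _,
    fun i => h3 _, fun i j hij => h4 _ _ (fun h => hij (e.injective h)), ?_, ?_,
    fun X hX hG i => h7 X hX hG _⟩
  · rw [e.surjective.iSup_comp L]
    exact h5
  · rw [e.surjective.iSup_comp (fun i => Submodule.span ℝ {a i})]
    exact h6

theorem AbDec_asm {ι : Type} [Fintype ι] [DecidableEq ι] {𝔷 : Submodule ℝ (Mt n)}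
    (hh : ∀ A ∈ 𝔷, A.IsHermitian) (hz : ∀ A ∈ 𝔷, ∀ B ∈ 𝔷, Commute A B) {H G : Mt n}
    (hH : H.IsHermitian) (hHz : ∀ A ∈ 𝔷, Commute A H) (𝔅 : ι → Subalgebra ℝ (Mt n))
    (hs : ∀ i, ∀ Y ∈ 𝔅 i, star Y ∈ 𝔅 i)
    (hcc : ∀ i j, i ≠ j → ∀ X ∈ 𝔅 i, ∀ Y ∈ 𝔅 j, Commute X Y)
    (hD : ∀ i, ∀ Y ∈ 𝔅 i, ⁅H, Y⁆ ∈ 𝔅 i) (hN : ∀ i, ∀ A ∈ 𝔷, ∀ Y ∈ 𝔅 i, ⁅A, Y⁆ ∈ 𝔅 i)
    (α : ι → Module.Dual ℝ 𝔷) (A0 : ι → 𝔷)
    (hA : ∀ i (A : 𝔷), ∀ Y ∈ 𝔅 i, Commute ((A : Mt n) - α i A • (A0 i : Mt n)) Y)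
    (g : ι → Mt n) (hg : ∀ i, g i ∈ 𝔅 i) (hgh : ∀ i, (g i).IsHermitian) (hG : G = H + ∑ i, g i)
    (hX : ∀ X : Mt n, (∀ A ∈ 𝔷, Commute X A) → Commute X G →
      Commute X H ∧ ∀ i, ∀ Y ∈ 𝔅 i, Commute X Y) :
    ∃ (r : ℕ) (L : Fin r → Submodule ℝ (Mt n)) (a : Fin r → Mt n), (∀ i, a i ∈ L i) ∧
      (∀ i, ∀ X ∈ L i, X.IsHermitian) ∧ (∀ i, IsLieTriple (L i : Set (Mt n))) ∧
      (∀ i j, i ≠ j → ∀ X ∈ L i, ∀ Y ∈ L j, Commute X Y) ∧ G ∈ ⨆ i, L i ∧
      𝔷 ≤ ⨆ i, Submodule.span ℝ {a i} ∧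
      ∀ X : Mt n, (∀ A ∈ 𝔷, Commute X A) → Commute X G → ∀ i, ∀ Y ∈ L i, Commute X Y := by
  have ea : ∀ i, ∃ x ∈ 𝔅 i, x.IsHermitian ∧ (∀ Y ∈ 𝔅 i, Commute ((A0 i : Mt n) - x) Y) ∧
      ∀ A : Mt n, A.IsHermitian → (∀ Y ∈ 𝔅 i, ⁅A, Y⁆ ∈ 𝔅 i) → Commute A (A0 i) → Commute A x :=
    fun i => inner_der (I := Subalgebra.toSubmodule (𝔅 i)) (hs i)
      (fun X hX Y hY => AbDec_lie_mem (𝔅 i) hX hY) (hh _ (A0 i).2) (hN i _ (A0 i).2)
  have eh : ∀ i, ∃ x ∈ 𝔅 i, x.IsHermitian ∧ (∀ Y ∈ 𝔅 i, Commute (H - x) Y) ∧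
      ∀ A : Mt n, A.IsHermitian → (∀ Y ∈ 𝔅 i, ⁅A, Y⁆ ∈ 𝔅 i) → Commute A H → Commute A x :=
    fun i => inner_der (I := Subalgebra.toSubmodule (𝔅 i)) (hs i)
      (fun X hX Y hY => AbDec_lie_mem (𝔅 i) hX hY) hH (hD i)
  choose a ha1 ha2 ha3 ha4 using ea
  choose h hh1 hh2 hh3 hh4 using eh
  let c : 𝔷 →ₗ[ℝ] Mt n := 𝔷.subtype - ∑ i, (α i).smulRight (a i)
  have hc : ∀ A : 𝔷, c A = (A : Mt n) - ∑ i, α i A • a i := by
    intro A
    simp [c, LinearMap.sum_apply]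
  let G0 : Mt n := H - ∑ i, h i
  have cB : ∀ (A : 𝔷) j, ∀ Y ∈ 𝔅 j, Commute (c A) Y := by
    intro A j Y hY
    have e : c A = ((A : Mt n) - α j A • (A0 j : Mt n)) + α j A • ((A0 j : Mt n) - a j) -
        ∑ i ∈ Finset.univ.erase j, α i A • a i := by
      rw [hc, ← Finset.add_sum_erase _ _ (Finset.mem_univ j), smul_sub]
      abel
    rw [e]
    refine ((hA j A Y hY).add_left ((ha3 j Y hY).smul_left _)).sub_left ?_
    refine Commute.sum_left _ _ _ fun i hi => ?_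
    exact (hcc i j (Finset.ne_of_mem_erase hi) _ (ha1 i) Y hY).smul_left _
  have gB : ∀ j, ∀ Y ∈ 𝔅 j, Commute G0 Y := by
    intro j Y hY
    have e : G0 = (H - h j) - ∑ i ∈ Finset.univ.erase j, h i := by
      change H - ∑ i, h i = _
      rw [← Finset.add_sum_erase _ _ (Finset.mem_univ j)]
      abel
    rw [e]
    refine (hh3 j Y hY).sub_left ?_
    refine Commute.sum_left _ _ _ fun i hi => ?_
    exact hcc i j (Finset.ne_of_mem_erase hi) _ (hh1 i) Y hY
  have cc : ∀ A B : 𝔷, Commute (c A) (c B) := by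
    intro A B
    rw [hc B]
    refine Commute.sub_right ?_ (Commute.sum_right _ _ _ fun i _ =>
      (cB A i _ (ha1 i)).smul_right _)
    rw [hc A]
    refine (hz _ A.2 _ B.2).sub_left (Commute.sum_left _ _ _ fun i _ => ?_)
    exact (ha4 i B (hh _ B.2) (hN i _ B.2) (hz _ B.2 _ (A0 i).2)).symm.smul_left _
  have cg : ∀ A : 𝔷, Commute (c A) G0 := by
    intro A
    refine Commute.sub_right ?_ (Commute.sum_right _ _ _ fun i _ => cB A i _ (hh1 i))
    rw [hc A]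
    refine (hHz _ A.2).sub_left (Commute.sum_left _ _ _ fun i _ => ?_)
    exact (ha4 i H hH (hD i) (hHz _ (A0 i).2).symm).symm.smul_left _
  let e := Module.finBasis ℝ 𝔷
  let x : Option (Fin (finrank ℝ 𝔷)) → Mt n := fun k => k.elim G0 fun k => c (e k)
  have xh : ∀ k, (x k).IsHermitian := by
    rintro (_ | k)
    · exact hH.sub (AbDec_herm_sum _ fun i _ => hh2 i)
    · change (c (e k)).IsHermitian
      rw [hc]
      exact (hh _ (e k).2).sub (AbDec_herm_sum _ fun i _ => AbDec_herm_smul _ (ha2 i))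
  have xB : ∀ k j, ∀ Y ∈ 𝔅 j, Commute (x k) Y := by
    rintro (_ | k) j Y hY
    · exact gB j Y hY
    · exact cB _ j Y hY
  have xx : ∀ k l, Commute (x k) (x l) := by
    rintro (_ | k) (_ | l)
    · exact Commute.refl _
    · exact (cg _).symm
    · exact cg _
    · exact cc _ _
  let L : ι ⊕ Option (Fin (finrank ℝ 𝔷)) → Submodule ℝ (Mt n) :=
    Sum.elim (fun i => AbDec_hp (𝔅 i)) fun k => Submodule.span ℝ {x k}
  refine AbDec_reindex L (Sum.elim a x) ?_ ?_ ?_ ?_ ?_ ?_ ?_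
  · rintro (i | k)
    · exact ⟨ha1 i, ha2 i⟩
    · exact Submodule.mem_span_singleton_self _
  · rintro (i | k) X hX
    · exact hX.2
    · obtain ⟨t, rfl⟩ := Submodule.mem_span_singleton.1 hX
      exact AbDec_herm_smul _ (xh k)
  · rintro (i | k) A hA B hB C hC
    · exact ⟨AbDec_lie_mem _ (AbDec_lie_mem _ hA.1 hB.1) hC.1, herm_lie_lie hA.2 hB.2 hC.2⟩
    · obtain ⟨t, rfl⟩ := Submodule.mem_span_singleton.1 hA
      obtain ⟨u, rfl⟩ := Submodule.mem_span_singleton.1 hB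
      have h0 : ⁅t • x k, u • x k⁆ = 0 :=
        lie_eq_zero_iff.2 (((Commute.refl (x k)).smul_left t).smul_right u)
      rw [h0, lie_eq_zero_iff.2 (Commute.zero_left C)]
      exact zero_mem (L (Sum.inr k))
  · rintro (i | k) (j | l) hij X hX Y hY
    · exact hcc i j (fun h => hij (congrArg _ h)) X hX.1 Y hY.1
    · obtain ⟨t, rfl⟩ := Submodule.mem_span_singleton.1 hY
      exact ((xB l i X hX.1).smul_left t).symm
    · obtain ⟨t, rfl⟩ := Submodule.mem_span_singleton.1 hX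
      exact (xB k j Y hY.1).smul_left t
    · obtain ⟨t, rfl⟩ := Submodule.mem_span_singleton.1 hX
      obtain ⟨u, rfl⟩ := Submodule.mem_span_singleton.1 hY
      exact ((xx k l).smul_left t).smul_right u
  · have e1 : G = G0 + ∑ i, (g i + h i) := by
      rw [hG, Finset.sum_add_distrib]
      change _ = H - ∑ i, h i + _
      abel
    rw [e1]
    refine add_mem (Submodule.mem_iSup_of_mem (Sum.inr none)
      (Submodule.mem_span_singleton_self _)) (Submodule.sum_mem _ fun i _ => ?_)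
    exact Submodule.mem_iSup_of_mem (Sum.inl i) ⟨add_mem (hg i) (hh1 i), (hgh i).add (hh2 i)⟩
  · intro A hA
    have e1 : A = c ⟨A, hA⟩ + ∑ i, α i ⟨A, hA⟩ • a i := by
      rw [hc]
      simp
    rw [e1]
    refine add_mem ?_ (Submodule.sum_mem _ fun i _ => ?_)
    · rw [← e.sum_repr ⟨A, hA⟩, map_sum]
      refine Submodule.sum_mem _ fun k _ => ?_
      rw [map_smul]
      exact Submodule.smul_mem _ _ (Submodule.mem_iSup_of_mem (Sum.inr (some k))
        (Submodule.mem_span_singleton_self _))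
    · exact Submodule.smul_mem _ _ (Submodule.mem_iSup_of_mem (Sum.inl i)
        (Submodule.mem_span_singleton_self _))
  · intro X hXz hXG
    obtain ⟨q1, q2⟩ := hX X hXz hXG
    rintro (i | k) Y hY
    · exact q2 i Y hY.1
    · obtain ⟨t, rfl⟩ := Submodule.mem_span_singleton.1 hY
      refine Commute.smul_right ?_ t
      rcases k with _ | k
      · exact q1.sub_right (Commute.sum_right _ _ _ fun i _ => q2 i _ (hh1 i))
      · change Commute X (c (e k))
        rw [hc]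
        exact (hXz _ (e k).2).sub_right
          (Commute.sum_right _ _ _ fun i _ => (q2 i _ (ha1 i)).smul_right _)

theorem AbDec_pow_commute {H x y : Mt n} (h : ∀ N : ℕ, Commute ((ad H ^ N) x) y) (j : ℕ) :
    ∀ i : ℕ, Commute ((ad H ^ i) x) ((ad H ^ j) y) := by
  induction j with
  | zero => simpa using h
  | succ j ih =>
    intro i
    have h1 := (ih i).eq
    have h2 := (ih (i + 1)).eq
    rw [ad_pow_succ, Ring.lie_def] at h2
    rw [ad_pow_succ, Ring.lie_def]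
    generalize (ad H ^ i) x = u at h1 h2 ⊢
    generalize (ad H ^ j) y = v at h1 h2 ⊢
    have e : u * (H * v - v * H) - (H * v - v * H) * u =
        H * (u * v - v * u) - (u * v - v * u) * H - ((H * u - u * H) * v - v * (H * u - u * H)) := by
      noncomm_ring
    rw [h1, h2, sub_self, sub_self, mul_zero, zero_mul, sub_self, sub_self] at e
    exact sub_eq_zero.1 e

theorem AbDec_star_pow {H : Mt n} (hH : H.IsHermitian) (x : Mt n) (i : ℕ) :
    star ((ad H ^ i) x) = (-1 : ℝ) ^ i • (ad H ^ i) (star x) := by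
  induction i with
  | zero => simp
  | succ i ih =>
    have e : star H = H := hH
    rw [ad_pow_succ, ad_pow_succ, star_lie', ih, e, ← ad_apply, ← ad_apply, map_smul, pow_succ,
      mul_smul, smul_comm, neg_one_smul]

theorem AbDec_weight_pow {H A x : Mt n} {t : ℝ} (hA : Commute A H) (hx : ⁅A, x⁆ = t • x) (i : ℕ) :
    ⁅A, (ad H ^ i) x⁆ = t • (ad H ^ i) x := by
  induction i with
  | zero => simpa using hx
  | succ i ih =>
    rw [ad_pow_succ]
    generalize (ad H ^ i) x = u at ih ⊢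
    have e : ⁅A, ⁅H, u⁆⁆ = ⁅H, ⁅A, u⁆⁆ + ((A * H - H * A) * u - u * (A * H - H * A)) := by
      simp only [Ring.lie_def]
      noncomm_ring
    rw [e, hA.eq, sub_self, zero_mul, mul_zero, sub_self, add_zero, ih, ← ad_apply, ← ad_apply,
      map_smul]

theorem AbDec_commute_pow {H X x : Mt n} (hH : Commute X H) (hx : Commute X x) (i : ℕ) :
    Commute X ((ad H ^ i) x) := by
  induction i with
  | zero => simpa using hx
  | succ i ih =>
    rw [ad_pow_succ]
    exact commute_lie hH ih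

theorem AbDec_der_adjoin {s : Set (Mt n)} {K : Mt n}
    (h : ∀ Y ∈ s, ⁅K, Y⁆ ∈ Algebra.adjoin ℝ s) :
    ∀ Y ∈ Algebra.adjoin ℝ s, ⁅K, Y⁆ ∈ Algebra.adjoin ℝ s := by
  intro Y hY
  induction hY using Algebra.adjoin_induction with
  | mem Y hY => exact h Y hY
  | algebraMap r =>
    rw [lie_eq_zero_iff.2 (Algebra.commute_algebraMap_right r K)]
    exact zero_mem _
  | add X Y _ _ h1 h2 =>
    rw [← ad_apply, map_add]
    exact add_mem h1 h2
  | mul X Y hX hY h1 h2 =>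
    have e : ⁅K, X * Y⁆ = ⁅K, X⁆ * Y + X * ⁅K, Y⁆ := by
      simp only [Ring.lie_def]
      noncomm_ring
    rw [e]
    exact add_mem (mul_mem h1 hY) (mul_mem hX h2)

theorem AbDec_star_adjoin {s : Set (Mt n)} (h : ∀ Y ∈ s, star Y ∈ Algebra.adjoin ℝ s) :
    ∀ Y ∈ Algebra.adjoin ℝ s, star Y ∈ Algebra.adjoin ℝ s := by
  intro Y hY
  induction hY using Algebra.adjoin_induction with
  | mem Y hY => exact h Y hY
  | algebraMap r =>
    rw [Algebra.algebraMap_eq_smul_one, star_smul, star_one, star_trivial]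
    exact Subalgebra.smul_mem _ (one_mem _) _
  | add X Y _ _ h1 h2 =>
    rw [star_add]
    exact add_mem h1 h2
  | mul X Y _ _ h1 h2 =>
    rw [star_mul]
    exact mul_mem h2 h1

theorem AbDec_indep {V : Type} [AddCommGroup V] [Module ℝ V] {α β : V} (hα : α ≠ 0) (hβ : β ≠ 0)
    (h : Submodule.span ℝ {α} ≠ Submodule.span ℝ {β}) : LinearIndependent ℝ ![α, β] := by
  rw [LinearIndependent.pair_iff' hα]
  intro t ht
  have t0 : t ≠ 0 := by
    rintro rfl
    exact hβ (by rw [← ht, zero_smul])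
  exact h (by rw [← ht, Submodule.span_singleton_smul_eq (IsUnit.mk0 t t0)])

theorem AbDec_dg_commute {J : Type} [Fintype J] [DecidableEq J] {P : J → Mt n} (h : IsRes P)
    (l l' : J → ℝ) : Commute (dg P l) (dg P l') := by
  have e : ∀ l l' : J → ℝ, dg P l * dg P l' = ∑ a, (l a * l' a) • P a := by
    intro l l'
    conv_lhs => rw [dg, Finset.sum_mul]
    exact Finset.sum_congr rfl fun a _ => by rw [smul_mul_assoc, h.mul_dg, mul_smul]
  change _ * _ = _ * _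
  rw [e, e]
  exact Finset.sum_congr rfl fun a _ => by rw [mul_comm]

theorem abel_dec {𝔷 : Submodule ℝ (Mt n)} (hh : ∀ A ∈ 𝔷, A.IsHermitian) {m : ℕ} {Q : Fin m → Mt n}
    {d : Fin m → Module.Dual ℝ 𝔷} (hJ : Joint 𝔷 Q d) {G : Mt n} (hG : G.IsHermitian)
    (hc : ∀ (N : ℕ) (α β : Module.Dual ℝ 𝔷), LinearIndependent ℝ ![α, β] →
      Commute ((ad (comp Q d 0 G) ^ N) (comp Q d α G)) (comp Q d β G)) :
    ∃ (r : ℕ) (L : Fin r → Submodule ℝ (Mt n)) (a : Fin r → Mt n), (∀ i, a i ∈ L i) ∧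
      (∀ i, ∀ X ∈ L i, X.IsHermitian) ∧ (∀ i, IsLieTriple (L i : Set (Mt n))) ∧
      (∀ i j, i ≠ j → ∀ X ∈ L i, ∀ Y ∈ L j, Commute X Y) ∧ G ∈ ⨆ i, L i ∧
      𝔷 ≤ ⨆ i, Submodule.span ℝ {a i} ∧
      ∀ X : Mt n, (∀ A ∈ 𝔷, Commute X A) → Commute X G → ∀ i, ∀ Y ∈ L i, Commute X Y := by
  classical
  set H := comp Q d 0 G with hHdef
  have sG : star G = G := hG
  have hH : H.IsHermitian := by
    change star H = H
    rw [hHdef, hJ.star_comp, neg_zero, sG]
  have hz : ∀ A ∈ 𝔷, ∀ B ∈ 𝔷, Commute A B := by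
    intro A hA B hB
    have e1 := hJ.eq ⟨A, hA⟩
    have e2 := hJ.eq ⟨B, hB⟩
    simp only at e1 e2
    rw [e1, e2]
    exact AbDec_dg_commute hJ.res _ _
  have hHz : ∀ A ∈ 𝔷, Commute A H := by
    intro A hA
    have := hJ.lie_comp ⟨A, hA⟩ 0 G
    rw [LinearMap.zero_apply, zero_smul] at this
    exact lie_eq_zero_iff.1 this
  let W := Finset.univ.image (fun p : Fin m × Fin m => d p.1 - d p.2)
  let Δ := W.erase 0
  let Λ := Δ.image fun α => Submodule.span ℝ {α}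
  let gens : Submodule ℝ (Module.Dual ℝ 𝔷) → Set (Mt n) := fun ℓ =>
    {Y | ∃ (i : ℕ) (β : Module.Dual ℝ 𝔷), β ≠ 0 ∧ Submodule.span ℝ {β} = ℓ ∧
      Y = (ad H ^ i) (comp Q d β G)}
  have eα : ∀ ℓ : Λ, ∃ (α : Module.Dual ℝ 𝔷) (A0 : 𝔷), Submodule.span ℝ {α} = ℓ.1 ∧ α A0 = 1 := by
    intro ℓ
    obtain ⟨α, hα, e⟩ := Finset.mem_image.1 ℓ.2
    have h0 : α ≠ 0 := Finset.ne_of_mem_erase hα
    obtain ⟨A, hA⟩ : ∃ A, α A ≠ 0 := by
      by_contra hcon
      push Not at hcon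
      exact h0 (LinearMap.ext hcon)
    refine ⟨α, (α A)⁻¹ • A, e, ?_⟩
    rw [map_smul, smul_eq_mul, inv_mul_cancel₀ hA]
  choose α A0 hα hA0 using eα
  have hst : ∀ ℓ, ∀ Y ∈ Algebra.adjoin ℝ (gens ℓ), star Y ∈ Algebra.adjoin ℝ (gens ℓ) := by
    intro ℓ
    refine AbDec_star_adjoin ?_
    rintro Y ⟨i, β, h0, hβ, rfl⟩
    rw [AbDec_star_pow hH, hJ.star_comp, sG]
    refine Subalgebra.smul_mem _ (Algebra.subset_adjoin ?_) _
    refine ⟨i, -β, neg_ne_zero.2 h0, ?_, rfl⟩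
    rw [← hβ, ← Set.neg_singleton, Submodule.span_neg]
  have hS : G = H + ∑ β ∈ Δ, comp Q d β G := by
    have e := hJ.sum_comp G
    by_cases h0 : (0 : Module.Dual ℝ 𝔷) ∈ W
    · rw [hHdef, Finset.add_sum_erase W (fun β => comp Q d β G) h0]
      exact e.symm
    · have e0 : H = 0 := by
        rw [hHdef, comp, mk_apply]
        exact Finset.sum_eq_zero fun a _ =>
          absurd (Finset.mem_image.2 ⟨(a, a), Finset.mem_univ _, sub_self (d a)⟩ : 0 ∈ W) h0
      rw [e0, zero_add]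
      change G = ∑ β ∈ W.erase 0, _
      rw [Finset.erase_eq_of_notMem h0]
      exact e.symm
  let u : Submodule ℝ (Module.Dual ℝ 𝔷) → Mt n := fun ℓ =>
    ∑ β ∈ Δ with Submodule.span ℝ {β} = ℓ, comp Q d β G
  have hu : ∀ ℓ, u ℓ ∈ Algebra.adjoin ℝ (gens ℓ) := by
    intro ℓ
    refine Subalgebra.sum_mem _ fun β hβ => ?_
    obtain ⟨h1, h2⟩ := Finset.mem_filter.1 hβ
    exact Algebra.subset_adjoin ⟨0, β, Finset.ne_of_mem_erase h1, h2, by simp⟩
  have hsum : ∑ ℓ : Λ, u ℓ.1 = G - H := by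
    rw [Finset.sum_coe_sort Λ u, Finset.sum_fiberwise_of_maps_to
      (fun β hβ => Finset.mem_image_of_mem _ hβ), eq_sub_iff_add_eq']
    exact hS.symm
  refine AbDec_asm (ι := Λ) hh hz hH hHz (fun ℓ => Algebra.adjoin ℝ (gens ℓ.1))
    (fun ℓ => hst ℓ.1) ?_ ?_ ?_ α A0 ?_ (fun ℓ => (2⁻¹ : ℝ) • (u ℓ.1 + star (u ℓ.1))) ?_ ?_ ?_ ?_
  · intro i j hij X hX Y hY
    refine Algebra.commute_of_mem_adjoin_of_forall_mem_commute hY ?_
    rintro Y ⟨k, β, hβ0, hβ, rfl⟩
    refine (Algebra.commute_of_mem_adjoin_of_forall_mem_commute hX ?_).symm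
    rintro X ⟨l, γ, hγ0, hγ, rfl⟩
    refine (AbDec_pow_commute (fun N => hc N γ β (AbDec_indep hγ0 hβ0 ?_)) k l).symm
    rw [hβ, hγ]
    exact fun h => hij (Subtype.ext h)
  · intro ℓ
    refine AbDec_der_adjoin ?_
    rintro Y ⟨i, β, h0, hβ, rfl⟩
    exact Algebra.subset_adjoin ⟨i + 1, β, h0, hβ, (ad_pow_succ _ _ _).symm⟩
  · intro ℓ A hA
    refine AbDec_der_adjoin ?_
    rintro Y ⟨i, β, h0, hβ, rfl⟩
    rw [AbDec_weight_pow (hHz A hA) (hJ.lie_comp ⟨A, hA⟩ β G)]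
    refine Subalgebra.smul_mem _ (Algebra.subset_adjoin ?_) _
    exact ⟨i, β, h0, hβ, rfl⟩
  · intro ℓ A Y hY
    refine Algebra.commute_of_mem_adjoin_of_forall_mem_commute hY ?_
    rintro Y ⟨i, β, h0, hβ, rfl⟩
    have hm : β ∈ Submodule.span ℝ {α ℓ} := by
      rw [hα, ← hβ]
      exact Submodule.mem_span_singleton_self _
    obtain ⟨t, rfl⟩ := Submodule.mem_span_singleton.1 hm
    have e := AbDec_weight_pow (hHz _ (A - α ℓ A • A0 ℓ).2)
      (hJ.lie_comp (A - α ℓ A • A0 ℓ) (t • α ℓ) G) i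
    have e0 : (t • α ℓ) (A - α ℓ A • A0 ℓ) = 0 := by
      simp [hA0]
    rw [e0, zero_smul] at e
    exact lie_eq_zero_iff.1 e
  · intro ℓ
    exact Subalgebra.smul_mem _ (add_mem (hu _) (hst _ _ (hu _))) _
  · intro ℓ
    refine AbDec_herm_smul _ ?_
    change star (_ + _) = _
    rw [star_add, star_star, add_comm]
  · have sH : star H = H := hH
    rw [← Finset.smul_sum, Finset.sum_add_distrib, ← star_sum, hsum, star_sub, sG, sH, ← two_smul ℝ,
      smul_smul, inv_mul_cancel₀ two_ne_zero, one_smul, add_sub_cancel]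
  · intro X hXz hXG
    have q := hJ.commute_comp hXz hXG
    refine ⟨q 0, fun ℓ Y hY => ?_⟩
    refine Algebra.commute_of_mem_adjoin_of_forall_mem_commute hY ?_
    rintro Y ⟨i, β, h0, hβ, rfl⟩
    exact AbDec_commute_pow (q 0) (q β) i

end Pool.Agent.Work.MP_2482e4_mp.Gn
end
end

-- merged part: Pool.Agent.Work.MP_2482e4_mp.Gn.P01
section
/-! Helper lemmas for `P0`: component calculus, homogeneity of the torsion, the reflection argument. -/

open scoped ComplexOrder Topology ContDiff Matrix.Norms.L2Operator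
open Matrix Filter Module

set_option linter.unusedSectionVars false

namespace Pool.Agent.Work.MP_2482e4_mp.Gn

variable {n : Type} [Fintype n] [DecidableEq n]

theorem P0_generic {V κ : Type} [AddCommGroup V] [Module ℝ V] [Finite κ]
    (φ : κ → Module.Dual ℝ V) : ∃ v : V, ∀ i, φ i ≠ 0 → φ i v ≠ 0 := by
  obtain ⟨v, hv⟩ := Module.Dual.exists_forall_ne_zero_of_forall_exists
    (fun i : {i // φ i ≠ 0} => φ i.1) (fun i => by
      by_contra h
      push Not at h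
      exact i.2 (LinearMap.ext h))
  exact ⟨v, fun i hi => hv ⟨i, hi⟩⟩

section Res
variable {J : Type} [Fintype J] [DecidableEq J] {P : J → Mt n}

theorem P0_comp_lie (h : IsRes P) (a : J → ℝ) (X : Mt n) (j k : J) :
    P j * ⁅dg P a, X⁆ * P k = (a j - a k) • (P j * X * P k) := by
  rw [h.lie_dg, h.comp_mk]

theorem P0_comp_lie' (h : IsRes P) (a : J → ℝ) (X : Mt n) (j k : J) :
    P j * ⁅X, dg P a⁆ * P k = (-(a j - a k)) • (P j * X * P k) := by
  have e : ⁅X, dg P a⁆ = -⁅dg P a, X⁆ := by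
    rw [Ring.lie_def, Ring.lie_def, neg_sub]
  rw [e, mul_neg, neg_mul, P0_comp_lie h, neg_smul]

theorem P0_comp_mul_mk (h : IsRes P) (κ κ' : J → J → ℝ) (X Y : Mt n) (j k : J) :
    P j * (mlt P κ X * mlt P κ' Y) * P k =
      ∑ l, (κ j l * κ' l k) • (P j * X * P l * Y * P k) := by
  rw [h.comp_mul]
  refine Finset.sum_congr rfl fun l _ => ?_
  have e : P l * P l = P l := by rw [h.mul]; simp
  have e1 : P j * mlt P κ X * P l * mlt P κ' Y * P k =
      (P j * mlt P κ X * P l) * (P l * mlt P κ' Y * P k) := by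
    calc P j * mlt P κ X * P l * mlt P κ' Y * P k
        = P j * mlt P κ X * (P l * P l) * mlt P κ' Y * P k := by rw [e]
      _ = _ := by simp only [mul_assoc]
  rw [e1, h.comp_mk, h.comp_mk, smul_mul_smul_comm]
  congr 1
  calc P j * X * P l * (P l * Y * P k) = P j * X * (P l * P l) * Y * P k := by
        simp only [mul_assoc]
    _ = _ := by rw [e]

theorem P0_comp_lie_mk (h : IsRes P) (κ : J → J → ℝ) (H : Mt n) (j k : J) :
    P j * ⁅H, mlt P κ H⁆ * P k = ∑ l, (κ l k - κ j l) • (P j * H * P l * H * P k) := by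
  have e1 := P0_comp_mul_mk h (fun _ _ => 1) κ H H j k
  have e2 := P0_comp_mul_mk h κ (fun _ _ => 1) H H j k
  rw [h.mk_one] at e1 e2
  rw [Ring.lie_def, mul_sub, sub_mul, e1, e2, ← Finset.sum_sub_distrib]
  refine Finset.sum_congr rfl fun l _ => ?_
  rw [← sub_smul, one_mul, mul_one]

end Res

theorem P0_ad_pow_smul (c : ℝ) (H B : Mt n) (p : ℕ) :
    (ad (c • H) ^ p) B = c ^ p • (ad H ^ p) B := by
  induction p with
  | zero => simp
  | succ p ih =>
    rw [ad_pow_succ, ad_pow_succ, ih, Ring.lie_def, Ring.lie_def, pow_succ]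
    simp only [smul_mul_assoc, mul_smul_comm, smul_sub, smul_smul]
    rw [mul_comm c]

theorem P0_dad_smul (c : ℝ) (H A B : Mt n) (p : ℕ) :
    c • dad (c • H) A B p = c ^ p • dad H A B p := by
  induction p with
  | zero => simp [dad]
  | succ p ih =>
    have e : c • ⁅c • H, dad (c • H) A B p⁆ = ⁅c • H, c • dad (c • H) A B p⁆ := by
      simp only [Ring.lie_def, smul_mul_assoc, mul_smul_comm, smul_sub]
    rw [dad, dad, smul_add, e, ih, P0_ad_pow_smul, pow_succ]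
    simp only [Ring.lie_def, smul_mul_assoc, mul_smul_comm, smul_sub, smul_add, smul_smul]
    rw [mul_comm c]

theorem P0_tor_mem {𝒜 : Submodule ℝ (Mt n)} {c : ℝ} (hc : c ≠ 0) {H A B : Mt n} {p : ℕ}
    (h : tor p H A B ∈ 𝒜) : tor p (c • H) A B ∈ 𝒜 := by
  have e : c • tor p (c • H) A B = c ^ p • tor p H A B := by
    rw [tor, tor, smul_sub, smul_sub, P0_dad_smul, P0_dad_smul]
  have h2 : c • tor p (c • H) A B ∈ 𝒜 := by
    rw [e]
    exact 𝒜.smul_mem _ h
  exact (𝒜.smul_mem_iff hc).mp h2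

theorem P0_tor_succ (H A B : Mt n) (p : ℕ) :
    tor (p + 1) H A B = ⁅A, (ad H ^ p) B⁆ - ⁅B, (ad H ^ p) A⁆ + ⁅H, tor p H A B⁆ := by
  rw [tor, tor, dad, dad]
  simp only [Ring.lie_def]
  noncomm_ring

theorem P0_cont_lie {F G : ℝ → Mt n} (hF : Continuous F) (hG : Continuous G) :
    Continuous fun e => ⁅F e, G e⁆ := by
  simp only [Ring.lie_def]
  exact (hF.mul hG).sub (hG.mul hF)

/-- The limit step. -/
theorem P0_limit {W : Mt n} {R : ℝ → Mt n} (hR : Continuous R)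
    (h : ∀ e : ℝ, e ≠ 0 → e ^ 2 • W + e ^ 3 • R e = 0) : W = 0 := by
  have hc : Continuous fun e : ℝ => W + e • R e := continuous_const.add (continuous_id.smul hR)
  have h2 : ∀ e : ℝ, e ≠ 0 → W + e • R e = 0 := by
    intro e he
    have h3 : e ^ 2 • (W + e • R e) = 0 := by
      rw [smul_add, smul_smul, ← pow_succ]
      exact h e he
    exact (smul_eq_zero.mp h3).resolve_left (pow_ne_zero _ he)
  have h4 : (fun e : ℝ => W + e • R e) = fun _ => 0 :=
    Continuous.ext_on (dense_compl_singleton (0 : ℝ)) hc continuous_const fun e he => h2 e he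
  have h5 := congrFun h4 0
  simpa using h5

section Refl
variable {V W ι : Type} [AddCommGroup V] [Module ℝ V] [AddCommGroup W] [Module ℝ W] [Fintype ι]

theorem P0_rel_poly (w x y : ι → ℝ) (g : ℝ) (M : ι → W)
    (h : ∀ s : ℕ, ∑ l, (w l * (x l ^ (2 * s + 1) * (x l + g) ^ 2 +
      y l ^ (2 * s + 1) * (y l + g) ^ 2)) • M l = 0) (r : Polynomial ℝ) :
    ∑ l, (w l * (x l * (x l + g) ^ 2 * r.eval (x l ^ 2) +
      y l * (y l + g) ^ 2 * r.eval (y l ^ 2))) • M l = 0 := by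
  induction r using Polynomial.induction_on' with
  | add p q hp hq =>
    rw [← add_zero (0 : W)]
    conv_rhs => rw [← hp]; arg 2; rw [hp, ← hq]
    rw [← Finset.sum_add_distrib]
    refine Finset.sum_congr rfl fun l _ => ?_
    rw [← add_smul, Polynomial.eval_add, Polynomial.eval_add]
    congr 1
    ring
  | monomial s c =>
    have h2 := congrArg (fun z => c • z) (h s)
    simp only [smul_zero, Finset.smul_sum, smul_smul] at h2
    rw [← h2]
    refine Finset.sum_congr rfl fun l _ => ?_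
    rw [Polynomial.eval_monomial, Polynomial.eval_monomial]
    congr 1
    ring

open Classical in
/-- The difference of the sums over a point and over its reflection. -/
noncomputable def P0_D (x : ι → Module.Dual ℝ V) (γ : Module.Dual ℝ V) (M : ι → W)
    (ξ : Module.Dual ℝ V) : W :=
  ∑ l, ((if x l = ξ then (1 : ℝ) else 0) - (if γ - x l = ξ then (1 : ℝ) else 0)) • M l

theorem P0_step (x : ι → Module.Dual ℝ V) (γ : Module.Dual ℝ V) (M : ι → W)
    (h : ∀ (A₀ A B : V) (s : ℕ), ∑ l, ((γ A * x l B - γ B * x l A) *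
      (x l A₀ ^ (2 * s + 1) * (x l A₀ + γ A₀) ^ 2 +
        (γ - x l) A₀ ^ (2 * s + 1) * ((γ - x l) A₀ + γ A₀) ^ 2)) • M l = 0)
    {ξ : Module.Dual ℝ V} {A B : V} (hω : γ A * ξ B - γ B * ξ A ≠ 0)
    (hD : P0_D x γ M (ξ + γ) = 0) : P0_D x γ M ξ = 0 := by
  classical
  obtain ⟨η, hη⟩ : ∃ η : ι ⊕ ι → Module.Dual ℝ V, η = Sum.elim x fun l => γ - x l := ⟨_, rfl⟩
  obtain ⟨A₀, hA₀⟩ := P0_generic (κ := ((ι ⊕ ι) ⊕ (ι ⊕ ι)) ⊕ Bool)
    (Sum.elim (Sum.elim (fun i => η i - ξ) (fun i => η i + ξ)) fun b => if b then ξ else ξ + γ)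
  have hξ : ξ ≠ 0 := by
    rintro rfl
    simp at hω
  have hξγ : ξ + γ ≠ 0 := by
    intro e
    have e' : ξ = -γ := eq_neg_of_add_eq_zero_left e
    rw [e'] at hω
    apply hω
    simp only [LinearMap.neg_apply]
    ring
  have h1 : ξ A₀ ≠ 0 := by simpa using hA₀ (Sum.inr true) (by simpa using hξ)
  have h2 : ξ A₀ + γ A₀ ≠ 0 := by simpa using hA₀ (Sum.inr false) (by simpa using hξγ)
  have h3 : ∀ i, η i ≠ ξ → η i ≠ -ξ → η i A₀ ^ 2 ≠ ξ A₀ ^ 2 := by
    intro i a b e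
    have a' : η i A₀ - ξ A₀ ≠ 0 := by
      simpa using hA₀ (Sum.inl (Sum.inl i)) (by simpa using sub_ne_zero.mpr a)
    have b' : η i A₀ + ξ A₀ ≠ 0 := by
      simpa using hA₀ (Sum.inl (Sum.inr i))
        (by simpa using fun e' : η i + ξ = 0 => b (eq_neg_of_add_eq_zero_left e'))
    apply mul_ne_zero a' b'
    linear_combination e
  obtain ⟨r, hr⟩ : ∃ r : Polynomial ℝ, r = ∏ i ∈ Finset.univ.filter (fun i => η i A₀ ^ 2 ≠ ξ A₀ ^ 2),
    (Polynomial.X - Polynomial.C (η i A₀ ^ 2)) := ⟨_, rfl⟩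
  have hρ : r.eval (ξ A₀ ^ 2) ≠ 0 := by
    rw [hr, Polynomial.eval_prod, Finset.prod_ne_zero_iff]
    intro i hi
    rw [Finset.mem_filter] at hi
    simp only [Polynomial.eval_sub, Polynomial.eval_X, Polynomial.eval_C]
    exact sub_ne_zero.mpr hi.2.symm
  have hz : ∀ i, η i A₀ ^ 2 ≠ ξ A₀ ^ 2 → r.eval (η i A₀ ^ 2) = 0 := by
    intro i hi
    rw [hr, Polynomial.eval_prod]
    exact Finset.prod_eq_zero (Finset.mem_filter.mpr ⟨Finset.mem_univ i, hi⟩) (by simp)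
  have hne : ξ ≠ -ξ := by
    intro e
    have := LinearMap.congr_fun e A₀
    simp only [LinearMap.neg_apply] at this
    apply h1
    linarith
  have hφ : ∀ i, η i A₀ * (η i A₀ + γ A₀) ^ 2 * r.eval (η i A₀ ^ 2) =
      r.eval (ξ A₀ ^ 2) * ((if η i = ξ then (1 : ℝ) else 0) * (ξ A₀ * (ξ A₀ + γ A₀) ^ 2) -
        (if η i = -ξ then (1 : ℝ) else 0) * (ξ A₀ * (γ A₀ - ξ A₀) ^ 2)) := by
    intro i
    by_cases a : η i = ξ
    · rw [if_pos a, if_neg (by rw [a]; exact hne), a]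
      ring
    · by_cases b : η i = -ξ
      · rw [if_neg a, if_pos b, b]
        simp only [LinearMap.neg_apply, neg_sq]
        ring
      · rw [if_neg a, if_neg b, hz i (h3 i a b)]
        ring
  have key := P0_rel_poly (fun l => γ A * x l B - γ B * x l A) (fun l => x l A₀)
    (fun l => (γ - x l) A₀) (γ A₀) M (h A₀ A B) r
  have e : (r.eval (ξ A₀ ^ 2) * (γ A * ξ B - γ B * ξ A) * (ξ A₀ * (ξ A₀ + γ A₀) ^ 2)) •
      P0_D x γ M ξ = 0 := by
    have hD' := congrArg (fun z => (r.eval (ξ A₀ ^ 2) * (γ A * ξ B - γ B * ξ A) *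
      (ξ A₀ * (γ A₀ - ξ A₀) ^ 2)) • z) hD
    simp only [smul_zero] at hD'
    rw [← add_zero (0 : W)]
    conv_rhs => rw [← key]; arg 2; rw [key, ← hD']
    unfold P0_D
    rw [Finset.smul_sum, Finset.smul_sum, ← Finset.sum_add_distrib]
    refine Finset.sum_congr rfl fun l _ => ?_
    rw [smul_smul, smul_smul, ← add_smul]
    congr 1
    have e1 := hφ (Sum.inl l)
    have e2 := hφ (Sum.inr l)
    simp only [hη, Sum.elim_inl, Sum.elim_inr] at e1 e2
    rw [e1, e2]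
    have i1 : (x l = ξ + γ) ↔ (γ - x l = -ξ) := by
      constructor
      · intro a
        rw [a]
        abel
      · intro a
        have : x l = γ - (γ - x l) := by abel
        rw [this, a]
        abel
    have i2 : (γ - x l = ξ + γ) ↔ (x l = -ξ) := by
      constructor
      · intro a
        have : x l = γ - (γ - x l) := by abel
        rw [this, a]
        abel
      · intro a
        rw [a]
        abel
    simp only [i1, i2]
    have w1 : (γ A * x l B - γ B * x l A) * (if x l = ξ then (1 : ℝ) else 0) =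
        (γ A * ξ B - γ B * ξ A) * (if x l = ξ then (1 : ℝ) else 0) := by
      split_ifs with a
      · rw [a]
      · simp
    have w2 : (γ A * x l B - γ B * x l A) * (if x l = -ξ then (1 : ℝ) else 0) =
        -(γ A * ξ B - γ B * ξ A) * (if x l = -ξ then (1 : ℝ) else 0) := by
      split_ifs with a
      · rw [a]
        simp only [LinearMap.neg_apply]
        ring
      · simp
    have w3 : (γ A * x l B - γ B * x l A) * (if γ - x l = ξ then (1 : ℝ) else 0) =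
        -(γ A * ξ B - γ B * ξ A) * (if γ - x l = ξ then (1 : ℝ) else 0) := by
      split_ifs with a
      · rw [← a]
        simp only [LinearMap.sub_apply]
        ring
      · simp
    have w4 : (γ A * x l B - γ B * x l A) * (if γ - x l = -ξ then (1 : ℝ) else 0) =
        (γ A * ξ B - γ B * ξ A) * (if γ - x l = -ξ then (1 : ℝ) else 0) := by
      split_ifs with a
      · have : ξ = x l - γ := by
          rw [← neg_neg ξ, ← a]
          abel
        rw [this]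
        simp only [LinearMap.sub_apply]
        ring
      · simp
    linear_combination (-(r.eval (ξ A₀ ^ 2)) * (ξ A₀ * (ξ A₀ + γ A₀) ^ 2)) * (w1 + w3) +
      (r.eval (ξ A₀ ^ 2) * (ξ A₀ * (γ A₀ - ξ A₀) ^ 2)) * (w2 + w4)
  exact (smul_eq_zero.mp e).resolve_left
    (mul_ne_zero (mul_ne_zero hρ hω) (mul_ne_zero h1 (pow_ne_zero _ h2)))

theorem P0_refl (x : ι → Module.Dual ℝ V) (γ : Module.Dual ℝ V) (M : ι → W)
    (h : ∀ (A₀ A B : V) (s : ℕ), ∑ l, ((γ A * x l B - γ B * x l A) *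
      (x l A₀ ^ (2 * s + 1) * (x l A₀ + γ A₀) ^ 2 +
        (γ - x l) A₀ ^ (2 * s + 1) * ((γ - x l) A₀ + γ A₀) ^ 2)) • M l = 0)
    {ξ : Module.Dual ℝ V} {A B : V} (hω : γ A * ξ B - γ B * ξ A ≠ 0) : P0_D x γ M ξ = 0 := by
  classical
  have hγ : γ ≠ 0 := by
    rintro rfl
    simp at hω
  have hinj : Function.Injective fun N : ℕ => ξ + (N : ℝ) • γ := by
    intro a b e
    have e1 : (a : ℝ) • γ = (b : ℝ) • γ := add_left_cancel e
    exact_mod_cast smul_left_injective ℝ hγ e1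
  obtain ⟨N, hN⟩ : ∃ N : ℕ, ξ + (N : ℝ) • γ ∉ Set.range x ∪ Set.range fun l => γ - x l := by
    by_contra hc
    push Not at hc
    exact Set.infinite_of_injective_forall_mem hinj hc
      ((Set.finite_range x).union (Set.finite_range _))
  have h0 : P0_D x γ M (ξ + (N : ℝ) • γ) = 0 := by
    unfold P0_D
    refine Finset.sum_eq_zero fun l _ => ?_
    rw [if_neg (fun a => hN (Or.inl ⟨l, a⟩)), if_neg (fun a => hN (Or.inr ⟨l, a⟩))]
    simp
  clear hN
  induction N with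
  | zero => simpa using h0
  | succ N ih =>
    apply ih
    refine P0_step x γ M h (A := A) (B := B) ?_ ?_
    · intro e
      apply hω
      simp only [LinearMap.add_apply, LinearMap.smul_apply, smul_eq_mul] at e
      linear_combination e
    · rw [← h0]
      congr 1
      push_cast
      rw [add_smul, one_smul, add_assoc]

end Refl

end Pool.Agent.Work.MP_2482e4_mp.Gn
end

-- merged part: Pool.Agent.Work.MP_2482e4_mp.Gn.P0
section
/-!
Components of non-proportional weights commute.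
Write X_jk = Q j * X * Q k, α_jk = d j - d k, M_l = Q j * H * Q l * H * Q k.
rel_mono. For ε nonzero, tor (2 k) (A₀ + ε • H) A B = ε ^ (2 k - 1) • tor (2 k) (H + ε⁻¹ • A₀) A B (homogeneity, induction;
dad (c • H) A B (m + 1) = c ^ m • dad H A B (m + 1)) lies in 𝒜, commutes with cen 𝒜, so its (j, k) component is 0 when
d j and d k differ. Expand in ε: (ad (A₀ + ε H)) ^ m B = u0 m + ε u1 m + ε ^ 2 u2 m + ε ^ 3 (continuous in ε), and the same
for dad with v0 = 0, v1, v2, where u0 (m + 1) = [A₀, u0 m], u1 (m + 1) = [A₀, u1 m] + [H, u0 m],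
u2 (m + 1) = [A₀, u2 m] + [H, u1 m], v1 (m + 1) = [A, u1 m] + [A₀, v1 m], v2 (m + 1) = [A, u2 m] + [A₀, v2 m] + [H, v1 m].
v1 is symmetric in (A, B): (u1 (m + 1))_jk = -α_jk B * a ^ m • H_jk, (v1 (m + 1))_jk = -α_jk A * α_jk B * m * a ^ (m - 1) • H_jk
with a = α_jk A₀. So tor = ε ^ 2 • W m + ε ^ 3 • (continuous), and dividing by ε ^ 2 and letting ε tend to 0 gives
(W (2 k))_jk = 0, where W (m + 1) = [A₀, W m] + [A, u2 m B] - [B, u2 m A]. Closed forms with g = α_jk A₀: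
(u2 m B)_jk = ∑ l, (-α_lk B * sq m (α_lk A₀) g + α_jl B * sq m (α_jl A₀) g) • M_l and
(W m)_jk = -∑ l, (α_jk A * α_lk B - α_jk B * α_lk A) * (rq m (α_lk A₀) g + rq m (α_jl A₀) g) • M_l.
rel_poly: linear in r; (a - g) ^ 2 * rq (m + 1) a g = a ^ m - g ^ m - m * g ^ (m - 1) * (a - g) (rq_closed). For l with nonzero
coefficient ω_l the numbers α_lk A₀, α_jl A₀ differ from g by hypothesis; the terms q (g), q' (g) vanish for
q x = x * (x ^ 2 - g ^ 2) ^ 2 * r (x ^ 2).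
refl_eq: choose A₀ outside the finitely many hyperplanes given by the nonzero functionals among α_jk, 2 e_l ± α_jk,
e_l ± e_l' where e_l = d l - (d j + d k) / 2 (exists_generic), with g > 0 (replace A₀ by -A₀). Downward induction on |e_l A₀|
(or a maximal counterexample): with r vanishing at the squares of all points g / 2 ± e_l' A₀ that are smaller in absolute
value than g / 2 + |e_l A₀| only the terms with e_l' = ± e_l survive.
Hull.comm_zero: compare (j, k) components of [comp α H, comp β H]; they vanish unless α_jk = α + β, and then equal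
(∑ over l with d l = d j - α of M_l) - (∑ over l with d l = d j - β of M_l); these two points are reflections of each other
in the midpoint and are off the line through d j, d k.
-/

open scoped ComplexOrder Topology ContDiff Matrix.Norms.L2Operator
open Matrix Filter Module

set_option linter.unusedSectionVars false

namespace Pool.Agent.Work.MP_2482e4_mp.Gn

variable {n : Type} [Fintype n] [DecidableEq n]

/-- Complete homogeneous polynomial of degree `m - 2`. -/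
def sq : ℕ → ℝ → ℝ → ℝ
  | 0, _, _ => 0
  | m + 1, a, g => g * sq m a g + if m = 0 then 0 else a ^ (m - 1)

/-- Its derivative in the second variable, shifted. -/
def rq : ℕ → ℝ → ℝ → ℝ
  | 0, _, _ => 0
  | m + 1, a, g => g * rq m a g + sq m a g

theorem P0_sq_closed (m : ℕ) (a g : ℝ) : (a - g) * sq (m + 1) a g = a ^ m - g ^ m := by
  induction m with
  | zero => simp [sq]
  | succ m ih =>
    rw [sq, if_neg (Nat.succ_ne_zero m), Nat.add_sub_cancel]
    linear_combination g * ih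

theorem P0_rq_two (m : ℕ) (a g : ℝ) :
    rq (m + 3) a g - 2 * g * rq (m + 2) a g + g ^ 2 * rq (m + 1) a g = a ^ m := by
  have e1 : rq (m + 3) a g = g * rq (m + 2) a g + sq (m + 2) a g := rfl
  have e2 : rq (m + 2) a g = g * rq (m + 1) a g + sq (m + 1) a g := rfl
  have e3 : sq (m + 2) a g = g * sq (m + 1) a g + a ^ m := by
    rw [sq, if_neg (Nat.succ_ne_zero m), Nat.add_sub_cancel]
  linear_combination e1 - g * e2 + e3

theorem P0_rq_rec (s : ℕ) (a g : ℝ) :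
    rq (2 * (s + 3)) a g - 2 * g ^ 2 * rq (2 * (s + 2)) a g + g ^ 4 * rq (2 * (s + 1)) a g =
      a ^ (2 * s + 1) * (a + g) ^ 2 := by
  have e1 := P0_rq_two (2 * s + 1) a g
  have e2 := P0_rq_two (2 * s + 2) a g
  have e3 := P0_rq_two (2 * s + 3) a g
  have i1 : 2 * (s + 3) = 2 * s + 6 := by ring
  have i2 : 2 * (s + 2) = 2 * s + 4 := by ring
  have i3 : 2 * (s + 1) = 2 * s + 2 := by ring
  rw [i1, i2, i3]
  simp only [add_assoc, Nat.reduceAdd] at e1 e2 e3
  linear_combination e3 + 2 * g * e2 + g ^ 2 * e1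

theorem rq_closed (m : ℕ) (a g : ℝ) :
    (a - g) ^ 2 * rq (m + 1) a g = a ^ m - g ^ m - m * g ^ (m - 1) * (a - g) := by
  induction m with
  | zero => simp [rq, sq]
  | succ m ih =>
    have e := P0_sq_closed m a g
    rw [rq]
    rcases m with _ | m
    · simp [rq, sq]
    · simp only [Nat.add_sub_cancel] at ih ⊢
      push_cast at ih ⊢
      linear_combination g * ih + (a - g) * e

theorem exists_generic {V κ : Type} [AddCommGroup V] [Module ℝ V] [Finite κ]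
    (φ : κ → Module.Dual ℝ V) : ∃ v : V, ∀ i, φ i ≠ 0 → φ i v ≠ 0 := by
  exact P0_generic φ

section Expand
variable {J : Type} [Fintype J] [DecidableEq J] {P : J → Mt n}

/-- The term of order zero of the power of the bracket. -/
noncomputable def P0_u0 (B : Mt n) (p : ℕ) : Mt n := if p = 0 then B else 0

/-- The term of order one. -/
noncomputable def P0_u1 (P : J → Mt n) (a b : J → ℝ) (H : Mt n) (p : ℕ) : Mt n :=
  mlt P (fun j k => -((b j - b k) * if p = 0 then 0 else (a j - a k) ^ (p - 1))) H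

/-- The term of order two. -/
noncomputable def P0_u2 (P : J → Mt n) (a b : J → ℝ) (H : Mt n) (p : ℕ) : Mt n :=
  tri P (fun j l k => -((b l - b k) * sq p (a l - a k) (a j - a k)) +
    (b j - b l) * sq p (a j - a l) (a j - a k)) H H

/-- The term of order two of the torsion. -/
noncomputable def P0_W (P : J → Mt n) (a x y : J → ℝ) (H : Mt n) (p : ℕ) : Mt n :=
  tri P (fun j l k => -(((x j - x k) * (y l - y k) - (y j - y k) * (x l - x k)) *
    (rq p (a l - a k) (a j - a k) + rq p (a j - a l) (a j - a k)))) H H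

theorem P0_lie_dg_dg (h : IsRes P) (a b : J → ℝ) : ⁅dg P a, dg P b⁆ = 0 := by
  refine h.ext fun j k => ?_
  rw [P0_comp_lie h, h.mul_dg, smul_mul_assoc, h.mul, mul_zero, zero_mul]
  by_cases e : j = k
  · rw [e, sub_self, zero_smul]
  · rw [if_neg e, smul_zero, smul_zero]

theorem P0_u0_lie (h : IsRes P) (a b : J → ℝ) (p : ℕ) : ⁅dg P a, P0_u0 (dg P b) p⁆ = 0 := by
  unfold P0_u0
  split_ifs
  · exact P0_lie_dg_dg h a b
  · simp [Ring.lie_def]

theorem P0_u1_succ (h : IsRes P) (a b : J → ℝ) (H : Mt n) (p : ℕ) :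
    P0_u1 P a b H (p + 1) = ⁅dg P a, P0_u1 P a b H p⁆ + ⁅H, P0_u0 (dg P b) p⁆ := by
  refine h.ext fun j k => ?_
  rw [mul_add, add_mul, P0_comp_lie h, P0_u1, P0_u1, h.comp_mk, h.comp_mk, P0_u0,
    if_neg (Nat.succ_ne_zero p), Nat.add_sub_cancel, smul_smul]
  rcases p with _ | p
  · rw [if_pos rfl, if_pos rfl, P0_comp_lie' h, ← add_smul]
    congr 1
    ring
  · rw [if_neg (Nat.succ_ne_zero p), if_neg (Nat.succ_ne_zero p), Nat.add_sub_cancel,
      Ring.lie_def, mul_zero, zero_mul, sub_self, mul_zero, zero_mul, add_zero]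
    congr 1
    ring

theorem P0_u2_succ (h : IsRes P) (a b : J → ℝ) (H : Mt n) (p : ℕ) :
    P0_u2 P a b H (p + 1) = ⁅dg P a, P0_u2 P a b H p⁆ + ⁅H, P0_u1 P a b H p⁆ := by
  refine h.ext fun j k => ?_
  rw [mul_add, add_mul, P0_comp_lie h, P0_u2, P0_u2, h.comp_tri, h.comp_tri, P0_u1,
    P0_comp_lie_mk h, Finset.smul_sum, ← Finset.sum_add_distrib]
  refine Finset.sum_congr rfl fun l _ => ?_
  rw [smul_smul, ← add_smul, sq, sq]
  congr 1
  ring

theorem P0_u1_symm (h : IsRes P) (a x y : J → ℝ) (H : Mt n) (p : ℕ) :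
    ⁅dg P x, P0_u1 P a y H p⁆ = ⁅dg P y, P0_u1 P a x H p⁆ := by
  refine h.ext fun j k => ?_
  rw [P0_comp_lie h, P0_comp_lie h, P0_u1, P0_u1, h.comp_mk, h.comp_mk, smul_smul, smul_smul]
  congr 1
  ring

theorem P0_W_succ (h : IsRes P) (a x y : J → ℝ) (H : Mt n) (p : ℕ) :
    P0_W P a x y H (p + 1) = ⁅dg P x, P0_u2 P a y H p⁆ - ⁅dg P y, P0_u2 P a x H p⁆ +
      ⁅dg P a, P0_W P a x y H p⁆ := by
  refine h.ext fun j k => ?_
  rw [mul_add, add_mul, mul_sub, sub_mul, P0_comp_lie h, P0_comp_lie h, P0_comp_lie h, P0_W, P0_W,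
    P0_u2, P0_u2, h.comp_tri, h.comp_tri, h.comp_tri, h.comp_tri, Finset.smul_sum, Finset.smul_sum,
    Finset.smul_sum, ← Finset.sum_sub_distrib, ← Finset.sum_add_distrib]
  refine Finset.sum_congr rfl fun l _ => ?_
  rw [smul_smul, smul_smul, smul_smul, ← sub_smul, ← add_smul, rq, rq]
  congr 1
  ring

theorem P0_ad_expand (h : IsRes P) (a b : J → ℝ) (H : Mt n) (p : ℕ) :
    ∃ R : ℝ → Mt n, Continuous R ∧ ∀ e : ℝ, (ad (dg P a + e • H) ^ p) (dg P b) =
      P0_u0 (dg P b) p + e • P0_u1 P a b H p + e ^ 2 • P0_u2 P a b H p + e ^ 3 • R e := by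
  induction p with
  | zero =>
    refine ⟨fun _ => 0, continuous_const, fun e => ?_⟩
    simp [P0_u0, P0_u1, P0_u2, mk_apply, tri, sq]
  | succ p ih =>
    obtain ⟨R, hR, e1⟩ := ih
    refine ⟨fun e => ⁅H, P0_u2 P a b H p⁆ + ⁅dg P a + e • H, R e⁆,
      continuous_const.add (P0_cont_lie
        (continuous_const.add (continuous_id.smul continuous_const)) hR), fun e => ?_⟩
    have e0 := P0_u0_lie h a b p
    have e2 : P0_u0 (dg P b) (p + 1) = ⁅dg P a, P0_u0 (dg P b) p⁆ := by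
      rw [e0, P0_u0, if_neg (Nat.succ_ne_zero p)]
    rw [ad_pow_succ, e1, e2, P0_u1_succ h, P0_u2_succ h]
    simp only [Ring.lie_def, mul_add, add_mul, smul_mul_assoc, mul_smul_comm]
    module

theorem P0_tor_expand (h : IsRes P) (a x y : J → ℝ) (H : Mt n) (p : ℕ) :
    ∃ R : ℝ → Mt n, Continuous R ∧ ∀ e : ℝ, tor p (dg P a + e • H) (dg P x) (dg P y) =
      e ^ 2 • P0_W P a x y H p + e ^ 3 • R e := by
  induction p with
  | zero =>
    refine ⟨fun _ => 0, continuous_const, fun e => ?_⟩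
    simp [P0_W, tri, rq, tor, dad]
  | succ p ih =>
    obtain ⟨R, hR, e1⟩ := ih
    obtain ⟨Rx, hRx, ex⟩ := P0_ad_expand h a x H p
    obtain ⟨Ry, hRy, ey⟩ := P0_ad_expand h a y H p
    refine ⟨fun e => ⁅dg P x, Ry e⁆ - ⁅dg P y, Rx e⁆ + ⁅H, P0_W P a x y H p⁆ +
        ⁅dg P a + e • H, R e⁆,
      (((P0_cont_lie continuous_const hRy).sub (P0_cont_lie continuous_const hRx)).add
        continuous_const).add (P0_cont_lie
        (continuous_const.add (continuous_id.smul continuous_const)) hR), fun e => ?_⟩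
    have z1 := P0_u0_lie h x y p
    have z2 := P0_u0_lie h y x p
    have z3 := P0_u1_symm h a x y H p
    rw [P0_tor_succ, e1, ex, ey, P0_W_succ h]
    simp only [Ring.lie_def, mul_add, add_mul, smul_mul_assoc, mul_smul_comm] at z1 z2 z3 ⊢
    linear_combination (norm := module) z1 - z2 + e • z3

end Expand

variable {𝒜 : Submodule ℝ (Mt n)} {S : Set (Mt n)} {m : ℕ} {Q : Fin m → Mt n}
  {d : Fin m → Module.Dual ℝ (cen 𝒜)}

theorem Hull.rel_mono (hS : Hull 𝒜 S) (hJ : Joint (cen 𝒜) Q d) {H : Mt n} (hH : H ∈ S)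
    (A₀ A B : cen 𝒜) {j k : Fin m} (hjk : d j ≠ d k) (p : ℕ) :
    ∑ l, (((d j - d k) A * (d l - d k) B - (d j - d k) B * (d l - d k) A) *
      (rq (2 * p) ((d l - d k) A₀) ((d j - d k) A₀) + rq (2 * p) ((d j - d l) A₀) ((d j - d k) A₀))) •
        (Q j * H * Q l * H * Q k) = 0 := by
  have hx : ∀ e : ℝ, e ≠ 0 →
      Q j * tor (2 * p) ((A₀ : Mt n) + e • H) A B * Q k = 0 := by
    intro e he
    have e1 : (A₀ : Mt n) + e • H = e • (H + e⁻¹ • (A₀ : Mt n)) := by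
      rw [smul_add, smul_smul, mul_inv_cancel₀ he, one_smul, add_comm]
    have h1 : tor (2 * p) ((A₀ : Mt n) + e • H) A B ∈ 𝒜 := by
      rw [e1]
      exact P0_tor_mem he (hS.trs _ (hS.transl H hH _ (𝒜.smul_mem _ A₀.2.1)) _ A.2.1 _ B.2.1 p)
    obtain ⟨C, hC⟩ : ∃ C, d j C ≠ d k C := by
      by_contra hc
      push Not at hc
      exact hjk (LinearMap.ext hc)
    have h2 := P0_comp_lie hJ.res (fun a => d a C) (tor (2 * p) ((A₀ : Mt n) + e • H) A B) j k
    rw [← hJ.eq C, Ring.lie_def, (C.2.2 _ h1).eq, sub_self, mul_zero, zero_mul] at h2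
    exact (smul_eq_zero.mp h2.symm).resolve_left (sub_ne_zero.mpr hC)
  obtain ⟨R, hR, hT⟩ := P0_tor_expand hJ.res (fun a => d a A₀) (fun a => d a A) (fun a => d a B) H
    (2 * p)
  rw [← hJ.eq A₀, ← hJ.eq A, ← hJ.eq B] at hT
  have h3 : Q j * P0_W Q (fun a => d a A₀) (fun a => d a A) (fun a => d a B) H (2 * p) * Q k = 0 := by
    refine P0_limit (R := fun e => Q j * R e * Q k)
      ((continuous_const.mul hR).mul continuous_const) fun e he => ?_
    have h4 := hx e he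
    rw [hT] at h4
    simpa only [mul_add, add_mul, mul_smul_comm, smul_mul_assoc] using h4
  rw [P0_W, hJ.res.comp_tri] at h3
  rw [← neg_eq_zero, ← h3, ← Finset.sum_neg_distrib]
  refine Finset.sum_congr rfl fun l _ => ?_
  rw [← neg_smul]
  simp only [LinearMap.sub_apply]

theorem Hull.comm_zero (hS : Hull 𝒜 S) (hJ : Joint (cen 𝒜) Q d) {H : Mt n} (hH : H ∈ S)
    {α β : Module.Dual ℝ (cen 𝒜)} (hαβ : LinearIndependent ℝ ![α, β]) :
    Commute (comp Q d α H) (comp Q d β H) := by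
  classical
  obtain ⟨A, B, hAB⟩ : ∃ A B, (α + β) A * β B - (α + β) B * β A ≠ 0 := by
    by_contra hc
    push Not at hc
    rw [LinearIndependent.pair_iff] at hαβ
    have h1 : ∀ B, β B = 0 := fun B =>
      (hαβ (β B) (-(α B)) (LinearMap.ext fun A => by
        have := hc A B
        simp only [LinearMap.add_apply, LinearMap.smul_apply, smul_eq_mul,
          LinearMap.zero_apply] at this ⊢
        linear_combination this)).1
    have h2 := (hαβ 0 1 (LinearMap.ext fun A => by simp [h1])).2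
    exact one_ne_zero h2
  refine hJ.res.ext fun j k => ?_
  unfold comp
  rw [P0_comp_mul_mk hJ.res, P0_comp_mul_mk hJ.res]
  by_cases hγ : d j - d k = α + β
  · have hjk : d j ≠ d k := by
      intro e
      rw [← hγ, e] at hAB
      simp at hAB
    have key := P0_refl (fun l => d l - d k) (d j - d k) (fun l => Q j * H * Q l * H * Q k)
      (fun A₀ A B s => by
        have r1 := hS.rel_mono hJ hH A₀ A B hjk (s + 1)
        have r2 := hS.rel_mono hJ hH A₀ A B hjk (s + 2)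
        have r3 := hS.rel_mono hJ hH A₀ A B hjk (s + 3)
        have r4 : _ := congrArg₂ (· + ·) (congrArg₂ (· + ·) r3
          (congrArg (fun z => (-2 * (d j - d k) A₀ ^ 2) • z) r2))
          (congrArg (fun z => ((d j - d k) A₀ ^ 4) • z) r1)
        simp only [smul_zero, add_zero, Finset.smul_sum, smul_smul, ← Finset.sum_add_distrib,
          ← add_smul] at r4
        rw [← r4]
        refine Finset.sum_congr rfl fun l _ => ?_
        congr 1
        have e0 : d j - d k - (d l - d k) = d j - d l := by abel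
        have e1 := P0_rq_rec s ((d l - d k) A₀) ((d j - d k) A₀)
        have e2 := P0_rq_rec s ((d j - d l) A₀) ((d j - d k) A₀)
        rw [e0, ← e1, ← e2]
        ring) (ξ := β) (A := A) (B := B) (by rw [hγ]; exact hAB)
    unfold P0_D at key
    rw [← sub_eq_zero, ← Finset.sum_sub_distrib, ← key]
    refine Finset.sum_congr rfl fun l _ => ?_
    rw [← sub_smul]
    congr 1
    have e0 : d j - d k - (d l - d k) = d j - d l := by abel
    have i1 : d l - d k = β → d j - d l = α := by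
      intro a
      rw [← e0, hγ, a]
      abel
    have i2 : d j - d l = β → d l - d k = α := by
      intro a
      have : d l - d k = d j - d k - (d j - d l) := by abel
      rw [this, hγ, a]
      abel
    rw [e0]
    congr 1
    · by_cases a : d l - d k = β
      · rw [if_pos a, if_pos (i1 a), one_mul]
      · rw [if_neg a, mul_zero]
    · by_cases a : d j - d l = β
      · rw [if_pos a, if_pos (i2 a), one_mul]
      · rw [if_neg a, zero_mul]
  · have z : ∀ (l : Fin m) (μ ν : Module.Dual ℝ (cen 𝒜)), μ + ν = α + β →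
        (if d j - d l = μ then (1 : ℝ) else 0) * (if d l - d k = ν then (1 : ℝ) else 0) = 0 := by
      intro l μ ν e
      by_cases a : d j - d l = μ
      · by_cases b : d l - d k = ν
        · exfalso
          apply hγ
          rw [← e, ← a, ← b]
          abel
        · rw [if_neg b, mul_zero]
      · rw [if_neg a, zero_mul]
    refine Finset.sum_congr rfl fun l _ => ?_
    rw [z l α β rfl, z l β α (add_comm _ _)]

end Pool.Agent.Work.MP_2482e4_mp.Gn
end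

-- merged part: Pool.Agent.Work.MP_2482e4_mp.Gn.Semi2
section
/-!
One simple ideal: either the base point commutes with it or it lies in a spin factor.
Plan. Let 𝔪 = elements of span S orthogonal to 𝒜; H is in 𝔪. From Hull.span_closed: for M in 𝔪, [M, [A, B]] is in 𝒜 and
orthogonal to 𝒜 (ip_lie_lie and the triple property), so it is 0; β M A B = [A, [B, M]] is in span S, orthogonal to 𝒜
(ip C [A, [B, M]] = ip [B, [A, C]] M, and [B, [A, C]] is in 𝒜), symmetric in A, B (Jacobi). Fix A₀ nonzero in W and put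
σ M = (ip A₀ A₀)⁻¹ • β M A₀ A₀. Irr.form applied to (A, B) ↦ ip Y (β M A B) gives β M A B = ip A B • σ M for A in W, B in 𝒜.
If σ H = 0 then ip [A, H] [A, H] = ip H (β H A A) = 0; take h = 0. Otherwise, from
[[[A, B], C], M] = [[A, B], [C, M]] = ip B C • [A, σ M] - ip A C • [B, σ M] and one more bracket with D:
ip D [[A, B], C] • σ H = (ip B C * ip D A - ip A C * ip D B) • σ (σ H). With A, B from nonab (C = B, D = A; the left factor
is ip [A, B] [A, B] > 0) get σ (σ H) = c • σ H with c nonzero, hence [[A, B], C] = c • (ip B C • A - ip A C • B) on W.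
h = c⁻¹ • σ H; σ (H - h) = 0 so H - h commutes with W, σ h = c • h. G B = [H, [H, B]] is in span S (Hull.lin);
its part orthogonal to 𝒜 vanishes for B in W (Irr.func with l B = ip M (G B)), its part in 𝒜 is e • B (Irr.form), so
[H, [h, B]] = e • B. Bracket with B: Y = [H - h, h] satisfies [B, [B, Y]] = c ip B B • Y and
[h, [h, B]] + [Y, B] = e • B, and [B, [h, [h, B]]] = [h, [B, [h, B]]] = 0, so Y = 0. e = c * ip h h by pairing.
Check the spin identity on W ⊔ span h by trilinearity (Submodule.mem_sup, mem_span_singleton), ip A h = 0.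
-/

open scoped ComplexOrder Topology ContDiff Matrix.Norms.L2Operator
open Matrix Filter Module

set_option linter.unusedSectionVars false

namespace Pool.Agent.Work.MP_2482e4_mp.Gn

variable {n : Type} [Fintype n] [DecidableEq n]

theorem Semi2_skew (X Y : Mt n) : ⁅X, Y⁆ = -⁅Y, X⁆ := by
  simp only [Ring.lie_def]; noncomm_ring

theorem Semi2_smul (c : ℝ) (X Y : Mt n) : ⁅X, c • Y⁆ = c • ⁅X, Y⁆ := by
  simp only [Ring.lie_def, mul_smul_comm, smul_mul_assoc, smul_sub]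

theorem Semi2_smul' (c : ℝ) (X Y : Mt n) : ⁅c • X, Y⁆ = c • ⁅X, Y⁆ := by
  simp only [Ring.lie_def, mul_smul_comm, smul_mul_assoc, smul_sub]

theorem Semi2_add (X Y Z : Mt n) : ⁅X, Y + Z⁆ = ⁅X, Y⁆ + ⁅X, Z⁆ := by
  simp only [Ring.lie_def]; noncomm_ring

theorem Semi2_add' (X Y Z : Mt n) : ⁅X + Y, Z⁆ = ⁅X, Z⁆ + ⁅Y, Z⁆ := by
  simp only [Ring.lie_def]; noncomm_ring

theorem Semi2_sub (X Y Z : Mt n) : ⁅X, Y - Z⁆ = ⁅X, Y⁆ - ⁅X, Z⁆ := by
  simp only [Ring.lie_def]; noncomm_ring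

theorem Semi2_sub' (X Y Z : Mt n) : ⁅X - Y, Z⁆ = ⁅X, Z⁆ - ⁅Y, Z⁆ := by
  simp only [Ring.lie_def]; noncomm_ring

theorem Semi2_neg (X Y : Mt n) : ⁅X, -Y⁆ = -⁅X, Y⁆ := by
  simp only [Ring.lie_def]; noncomm_ring

theorem Semi2_neg' (X Y : Mt n) : ⁅-X, Y⁆ = -⁅X, Y⁆ := by
  simp only [Ring.lie_def]; noncomm_ring

theorem Semi2_zero (X : Mt n) : ⁅X, (0 : Mt n)⁆ = 0 := by
  simp only [Ring.lie_def]; noncomm_ring

theorem Semi2_zero' (X : Mt n) : ⁅(0 : Mt n), X⁆ = 0 := by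
  simp only [Ring.lie_def]; noncomm_ring

theorem Semi2_self (X : Mt n) : ⁅X, X⁆ = 0 := by
  simp only [Ring.lie_def]; noncomm_ring

theorem Semi2_leib (X Y Z : Mt n) : ⁅X, ⁅Y, Z⁆⁆ = ⁅⁅X, Y⁆, Z⁆ + ⁅Y, ⁅X, Z⁆⁆ := by
  simp only [Ring.lie_def]; noncomm_ring

theorem Semi2_jac (X Y Z : Mt n) : ⁅⁅X, Y⁆, Z⁆ = ⁅X, ⁅Y, Z⁆⁆ - ⁅Y, ⁅X, Z⁆⁆ := by
  simp only [Ring.lie_def]; noncomm_ring

/-- If `K` commutes with `X` the brackets can be exchanged. -/
theorem Semi2_swap {K X : Mt n} (h : ⁅K, X⁆ = 0) (Z : Mt n) : ⁅X, ⁅K, Z⁆⁆ = ⁅K, ⁅X, Z⁆⁆ := by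
  rw [Semi2_leib K X Z, h, Semi2_zero', zero_add]

theorem Semi2_ext {W : Submodule ℝ (Mt n)} {X Y : Mt n} (hX : X ∈ W) (hY : Y ∈ W)
    (h : ∀ D ∈ W, ip D X = ip D Y) : X = Y := by
  have : ip (X - Y) (X - Y) = 0 := by
    rw [map_sub (ip (X - Y)), h _ (W.sub_mem hX hY), sub_self]
  exact sub_eq_zero.mp (ip_self_eq_zero this)

/-- The elements of the span of `S` that are orthogonal to `𝒜`. -/
def Semi2_m (𝒜 : Submodule ℝ (Mt n)) (S : Set (Mt n)) : Submodule ℝ (Mt n) where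
  carrier := {M | M ∈ Submodule.span ℝ S ∧ ∀ A ∈ 𝒜, ip A M = 0}
  add_mem' hX hY := ⟨add_mem hX.1 hY.1, fun A hA => by
    rw [map_add, hX.2 A hA, hY.2 A hA, add_zero]⟩
  zero_mem' := ⟨zero_mem _, fun A _ => map_zero _⟩
  smul_mem' c _ hX := ⟨Submodule.smul_mem _ c hX.1, fun A hA => by
    rw [map_smul, hX.2 A hA, smul_zero]⟩

section
variable {𝒜 W : Submodule ℝ (Mt n)} {S : Set (Mt n)}

theorem Semi2_herm (hS : Hull 𝒜 S) (hne : S.Nonempty) {M : Mt n} (hM : M ∈ Semi2_m 𝒜 S) :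
    M.IsHermitian :=
  ((hS.span_closed hne).2.1 M hM.1).1

theorem Semi2_comm (hS : Hull 𝒜 S) (hne : S.Nonempty) {M A B : Mt n} (hM : M ∈ Semi2_m 𝒜 S)
    (hA : A ∈ 𝒜) (hB : B ∈ 𝒜) : ⁅⁅A, B⁆, M⁆ = 0 := by
  have hY : ⁅⁅A, B⁆, M⁆ ∈ 𝒜 := by
    rw [Semi2_skew]
    exact 𝒜.neg_mem (((hS.span_closed hne).2.1 M hM.1).2 A hA B hB)
  apply ip_self_eq_zero
  rw [ip_lie_lie (hS.hermA A hA) (hS.hermA B hB), hM.2 _ (hS.lts hne A hA B hB _ hY), neg_zero]

theorem Semi2_beta (hS : Hull 𝒜 S) (hne : S.Nonempty) {M A B : Mt n} (hM : M ∈ Semi2_m 𝒜 S)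
    (hA : A ∈ 𝒜) (hB : B ∈ 𝒜) : ⁅A, ⁅B, M⁆⁆ ∈ Semi2_m 𝒜 S := by
  refine ⟨(hS.span_closed hne).2.2 M hM.1 A hA B hB, fun C hC => ?_⟩
  rw [ip_lie_herm (hS.hermA A hA), ip_lie_herm (hS.hermA B hB)]
  apply hM.2
  rw [Semi2_skew]
  exact 𝒜.neg_mem (hS.lts hne A hA C hC B hB)

/-- The bilinear form `(A, B) ↦ ip Y [A, [B, M]]`. -/
noncomputable def Semi2_b (Y M : Mt n) : Mt n →ₗ[ℝ] Mt n →ₗ[ℝ] ℝ :=
  LinearMap.mk₂ ℝ (fun A B => ip Y ⁅A, ⁅B, M⁆⁆)
    (fun A A' B => by rw [Semi2_add', map_add])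
    (fun c A B => by rw [Semi2_smul', map_smul])
    (fun A B B' => by rw [Semi2_add', Semi2_add, map_add])
    (fun c A B => by rw [Semi2_smul', Semi2_smul, map_smul])

theorem Semi2_sigma (hS : Hull 𝒜 S) (hne : S.Nonempty) (hW : Irr 𝒜 W) {A₀ : Mt n}
    (h0 : A₀ ∈ W) (h0' : A₀ ≠ 0) {M A B : Mt n} (hM : M ∈ Semi2_m 𝒜 S) (hA : A ∈ W)
    (hB : B ∈ 𝒜) : ⁅A, ⁅B, M⁆⁆ = ip A B • ((ip A₀ A₀)⁻¹ • ⁅A₀, ⁅A₀, M⁆⁆) := by
  have hpos := (ip_self_pos h0').ne'
  refine Semi2_ext (W := ⊤) trivial trivial fun Y _ => ?_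
  obtain ⟨c, hc⟩ := hW.form (Semi2_b Y M) (fun A hA B hB => by
      change ip Y ⁅A, ⁅B, M⁆⁆ = ip Y ⁅B, ⁅A, M⁆⁆
      rw [Semi2_leib A B M, Semi2_comm hS hne hM hA hB, zero_add])
    (fun A₁ h₁ A₂ h₂ A hA B hB => by
      change ip Y ⁅⁅⁅A₁, A₂⁆, A⁆, ⁅B, M⁆⁆ + ip Y ⁅A, ⁅⁅⁅A₁, A₂⁆, B⁆, M⁆⁆ = 0
      have e1 := Semi2_comm hS hne (Semi2_beta hS hne hM hA hB) h₁ h₂
      have e2 := Semi2_comm hS hne hM h₁ h₂
      rw [Semi2_leib ⁅A₁, A₂⁆ A, Semi2_leib ⁅A₁, A₂⁆ B M, e2, Semi2_zero, add_zero] at e1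
      rw [← map_add, e1, map_zero])
  have e1 : ip Y ⁅A, ⁅B, M⁆⁆ = c * ip A B := hc A hA B hB
  have e2 : ip Y ⁅A₀, ⁅A₀, M⁆⁆ = c * ip A₀ A₀ := hc A₀ h0 A₀ (hW.le h0)
  rw [map_smul, map_smul, e1, e2, smul_eq_mul, smul_eq_mul]
  field_simp

theorem Semi2_lie_zero {A M : Mt n} (hA : A.IsHermitian) (h : ⁅A, ⁅A, M⁆⁆ = 0) : ⁅A, M⁆ = 0 := by
  apply ip_self_eq_zero
  rw [ip_lie_herm hA, h, map_zero, LinearMap.zero_apply]

/-- The double bracket with the base point is a scalar on `W`. -/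
theorem Semi2_G (hS : Hull 𝒜 S) {H : Mt n} (hH : H ∈ S) (hp : ∀ A ∈ 𝒜, ip A H = 0)
    (hW : Irr 𝒜 W) : ∃ e : ℝ, ∀ B ∈ W, ⁅H, ⁅H, B⁆⁆ = e • B := by
  have hne : S.Nonempty := ⟨H, hH⟩
  have hHm : H ∈ Semi2_m 𝒜 S := ⟨Submodule.subset_span hH, hp⟩
  have hHh := hS.herm H hH
  have hmem : ∀ B ∈ W, ⁅H, ⁅H, B⁆⁆ ∈ 𝒜 := by
    intro B hB
    have hT : ⁅H, ⁅H, B⁆⁆ ∈ Submodule.span ℝ S :=
      hS.lin (fun _ h => Submodule.subset_span h) hH (hW.le hB)
    obtain ⟨x, hx, hx'⟩ := exists_proj 𝒜 ⁅H, ⁅H, B⁆⁆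
    have hm : ⁅H, ⁅H, B⁆⁆ - x ∈ Semi2_m 𝒜 S :=
      ⟨Submodule.sub_mem _ hT ((hS.span_closed hne).1 hx), hx'⟩
    obtain ⟨m, hmd⟩ : ∃ m, m = ⁅H, ⁅H, B⁆⁆ - x := ⟨_, rfl⟩
    rw [← hmd] at hm hx'
    have hl := hW.func ((ip m).comp ((ad H).comp (ad H)))
      (fun A₁ h₁ A₂ h₂ A _ => by
        simp only [LinearMap.comp_apply, ad_apply]
        have e2 := Semi2_comm hS hne hHm h₁ h₂
        rw [Semi2_swap e2, Semi2_swap e2, ip_lie_lie (hS.hermA _ h₁) (hS.hermA _ h₂),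
          Semi2_comm hS hne hm h₁ h₂, map_zero, LinearMap.zero_apply, neg_zero]) B hB
    simp only [LinearMap.comp_apply, ad_apply] at hl
    have h2 : ip m (⁅H, ⁅H, B⁆⁆ - x) = 0 := by
      rw [map_sub (ip m), hl, ip_comm m x, hx' x hx, sub_self]
    rw [← hmd] at h2
    have h3 := ip_self_eq_zero h2
    rw [h3] at hmd
    rw [sub_eq_zero.mp hmd.symm]
    exact hx
  obtain ⟨e, he⟩ := hW.form (ip.compl₁₂ (ad H) (ad H))
    (fun A _ B _ => by
      simp only [LinearMap.compl₁₂_apply, ad_apply]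
      exact ip_comm _ _)
    (fun A₁ h₁ A₂ h₂ A _ B _ => by
      simp only [LinearMap.compl₁₂_apply, ad_apply]
      have e2 := Semi2_comm hS hne hHm h₁ h₂
      rw [Semi2_swap e2, Semi2_swap e2, ip_lie_lie (hS.hermA _ h₁) (hS.hermA _ h₂), add_neg_cancel])
  refine ⟨e, fun B hB => Semi2_ext (hmem B hB) (𝒜.smul_mem e (hW.le hB)) fun D hD => ?_⟩
  have h4 := he B hB D hD
  simp only [LinearMap.compl₁₂_apply, ad_apply] at h4
  rw [ip_lie_herm hHh, ip_comm ⁅H, D⁆, h4, map_smul, smul_eq_mul, ip_comm D B]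

/-- The spin identity on `W ⊔ span h` from the identities for the generators. -/
theorem Semi2_spin {h : Mt n} {c : ℝ} (hWh : ∀ A ∈ W, A.IsHermitian) (hh : h.IsHermitian)
    (h0 : ∀ A ∈ W, ip A h = 0)
    (h1 : ∀ A ∈ W, ∀ B ∈ W, ∀ C ∈ W, ⁅⁅A, B⁆, C⁆ = c • (ip B C • A - ip A C • B))
    (h2 : ∀ A ∈ W, ∀ B ∈ W, ⁅⁅A, B⁆, h⁆ = 0)
    (h3 : ∀ A ∈ W, ∀ B ∈ W, ⁅A, ⁅B, h⁆⁆ = ip A B • c • h)
    (h4 : ∀ A ∈ W, ⁅h, ⁅h, A⁆⁆ = (c * ip h h) • A) :
    IsSpin ((W ⊔ Submodule.span ℝ {h} : Submodule ℝ (Mt n)) : Set (Mt n)) := by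
  refine ⟨c, fun X hX Y hY Z hZ => ?_⟩
  obtain ⟨A, hA, X', hX', rfl⟩ := Submodule.mem_sup.mp hX
  obtain ⟨B, hB, Y', hY', rfl⟩ := Submodule.mem_sup.mp hY
  obtain ⟨C, hC, Z', hZ', rfl⟩ := Submodule.mem_sup.mp hZ
  obtain ⟨a, rfl⟩ := Submodule.mem_span_singleton.mp hX'
  obtain ⟨b, rfl⟩ := Submodule.mem_span_singleton.mp hY'
  obtain ⟨d, rfl⟩ := Submodule.mem_span_singleton.mp hZ'
  have hs : ∀ r : ℝ, (r • h).IsHermitian := fun r => by
    have : star (r • h) = r • h := by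
      rw [star_smul, star_trivial, show star h = h from hh]
    exact this
  rw [← ip_herm ((hWh B hB).add (hs b)), ← ip_herm ((hWh A hA).add (hs a))]
  have k3 : ∀ A ∈ W, ⁅⁅A, h⁆, C⁆ = -(ip A C • c • h) := fun A hA => by
    rw [Semi2_skew, h3 C hC A hA, ip_comm]
  have k3' : ∀ A ∈ W, ⁅⁅h, A⁆, C⁆ = ip A C • c • h := fun A hA => by
    rw [Semi2_skew h A, Semi2_neg', k3 A hA, neg_neg]
  have k4 : ∀ A ∈ W, ⁅⁅h, A⁆, h⁆ = -((c * ip h h) • A) := fun A hA => by
    rw [Semi2_skew, h4 A hA]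
  have k4' : ∀ A ∈ W, ⁅⁅A, h⁆, h⁆ = (c * ip h h) • A := fun A hA => by
    rw [Semi2_skew A h, Semi2_neg', k4 A hA, neg_neg]
  have hC' : ip h C = 0 := by rw [ip_comm, h0 C hC]
  simp only [Semi2_add, Semi2_add', Semi2_smul, Semi2_smul', Semi2_self, Semi2_zero', smul_zero,
    h1 A hA B hB C hC, h2 A hA B hB, k3 A hA, k3' B hB, k4 B hB, k4' A hA, map_add, map_smul,
    LinearMap.add_apply, LinearMap.smul_apply, h0 A hA, h0 B hB, hC', smul_eq_mul]
  module

theorem Semi2_lts {L : Submodule ℝ (Mt n)} (h : IsSpin (L : Set (Mt n))) :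
    IsLieTriple (L : Set (Mt n)) := by
  obtain ⟨c, hc⟩ := h
  intro X hX Y hY Z hZ
  rw [hc X hX Y hY Z hZ]
  exact L.smul_mem _ (L.sub_mem (L.smul_mem _ hX) (L.smul_mem _ hY))

end

theorem Hull.one_factor {𝒜 W : Submodule ℝ (Mt n)} {S : Set (Mt n)} (hS : Hull 𝒜 S) {H : Mt n}
    (hH : H ∈ S) (hp : ∀ A ∈ 𝒜, ip A H = 0) (hW : Irr 𝒜 W) :
    ∃ h : Mt n, h.IsHermitian ∧ IsLieTriple ((W ⊔ Submodule.span ℝ {h} : Submodule ℝ (Mt n)) : Set (Mt n)) ∧
      (h = 0 ∨ IsSpin ((W ⊔ Submodule.span ℝ {h} : Submodule ℝ (Mt n)) : Set (Mt n))) ∧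
      (∀ A ∈ W, Commute (H - h) A) ∧ Commute H h ∧
      (∀ C ∈ 𝒜, (∀ A ∈ W, ip A C = 0) → Commute C h) ∧
      ∀ X : Mt n, (∀ A ∈ W, Commute X A) → Commute X H → Commute X h := by
  have hne : S.Nonempty := ⟨H, hH⟩
  have hHm : H ∈ Semi2_m 𝒜 S := ⟨Submodule.subset_span hH, hp⟩
  have hWh : ∀ A ∈ W, A.IsHermitian := fun A hA => hS.hermA A (hW.le hA)
  obtain ⟨A₀, h0, B₀, hB0, hAB⟩ := hW.nonab
  have h0' : A₀ ≠ 0 := by
    rintro rfl
    exact hAB (Semi2_zero' _)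
  obtain ⟨σ, hσ⟩ : ∃ σ : Module.End ℝ (Mt n), ∀ M, σ M = (ip A₀ A₀)⁻¹ • ⁅A₀, ⁅A₀, M⁆⁆ :=
    ⟨(ip A₀ A₀)⁻¹ • (ad A₀).comp (ad A₀), fun _ => rfl⟩
  have hσm : ∀ M ∈ Semi2_m 𝒜 S, σ M ∈ Semi2_m 𝒜 S := fun M hM => by
    rw [hσ]
    exact Submodule.smul_mem _ _ (Semi2_beta hS hne hM (hW.le h0) (hW.le h0))
  have hβ : ∀ M ∈ Semi2_m 𝒜 S, ∀ A ∈ W, ∀ B ∈ 𝒜, ⁅A, ⁅B, M⁆⁆ = ip A B • σ M :=
    fun M hM A hA B hB => by
      rw [hσ]
      exact Semi2_sigma hS hne hW h0 h0' hM hA hB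
  have hker : ∀ M ∈ Semi2_m 𝒜 S, σ M = 0 → ∀ A ∈ W, ⁅A, M⁆ = 0 := fun M hM hz A hA =>
    Semi2_lie_zero (hWh A hA) (by rw [hβ M hM A hA A (hW.le hA), hz, smul_zero])
  by_cases hz : σ H = 0
  · refine ⟨0, Matrix.isHermitian_zero, ?_, Or.inl rfl, fun A hA => ?_, Commute.zero_right _,
      fun _ _ _ => Commute.zero_right _, fun _ _ _ => Commute.zero_right _⟩
    · rw [Submodule.span_zero_singleton, sup_bot_eq]
      exact fun A hA B hB C hC => hW.inv A (hW.le hA) B (hW.le hB) C hC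
    · rw [sub_zero]
      exact (lie_eq_zero_iff.mp (hker H hHm hz A hA)).symm
  have hkey : ∀ A ∈ W, ∀ B ∈ W, ∀ C ∈ W, ∀ D ∈ W, ip D ⁅⁅A, B⁆, C⁆ • σ H =
      (ip B C * ip D A - ip A C * ip D B) • σ (σ H) := by
    intro A hA B hB C hC D hD
    have e1 : ⁅⁅⁅A, B⁆, C⁆, H⁆ = ip B C • ⁅A, σ H⁆ - ip A C • ⁅B, σ H⁆ := by
      rw [Semi2_jac ⁅A, B⁆ C H, Semi2_comm hS hne hHm (hW.le hA) (hW.le hB), Semi2_zero,
        sub_zero, Semi2_jac A B, hβ H hHm B hB C (hW.le hC), hβ H hHm A hA C (hW.le hC),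
        Semi2_smul, Semi2_smul]
    rw [← hβ H hHm D hD _ (hW.le (hW.inv A (hW.le hA) B (hW.le hB) C hC)), e1, Semi2_sub,
      Semi2_smul, Semi2_smul, hβ _ (hσm H hHm) D hD A (hW.le hA),
      hβ _ (hσm H hHm) D hD B (hW.le hB)]
    module
  obtain ⟨c, hc0, hc⟩ : ∃ c : ℝ, c ≠ 0 ∧ σ (σ H) = c • σ H := by
    have e1 := hkey A₀ h0 B₀ hB0 B₀ hB0 A₀ h0
    have e2 : ip A₀ ⁅⁅A₀, B₀⁆, B₀⁆ = ip ⁅A₀, B₀⁆ ⁅A₀, B₀⁆ := by
      rw [Semi2_skew ⁅A₀, B₀⁆ B₀, map_neg, ip_lie_herm (hWh B₀ hB0), Semi2_skew B₀ A₀, map_neg,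
        LinearMap.neg_apply, neg_neg]
    have hpos := (ip_self_pos hAB).ne'
    rw [e2] at e1
    set p := ip ⁅A₀, B₀⁆ ⁅A₀, B₀⁆
    set q := ip B₀ B₀ * ip A₀ A₀ - ip A₀ B₀ * ip A₀ B₀
    have hq : q ≠ 0 := by
      intro hq
      rw [hq, zero_smul] at e1
      exact hz ((smul_eq_zero.mp e1).resolve_left hpos)
    refine ⟨q⁻¹ * p, mul_ne_zero (inv_ne_zero hq) hpos, ?_⟩
    rw [mul_smul, e1, smul_smul, inv_mul_cancel₀ hq, one_smul]
  have h1 : ∀ A ∈ W, ∀ B ∈ W, ∀ C ∈ W, ⁅⁅A, B⁆, C⁆ = c • (ip B C • A - ip A C • B) := by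
    intro A hA B hB C hC
    refine Semi2_ext (hW.inv A (hW.le hA) B (hW.le hB) C hC)
      (W.smul_mem _ (W.sub_mem (W.smul_mem _ hA) (W.smul_mem _ hB))) fun D hD => ?_
    have e1 := hkey A hA B hB C hC D hD
    rw [hc, smul_smul] at e1
    rw [smul_left_injective ℝ hz e1]
    simp only [map_smul, map_sub, smul_eq_mul]
    ring
  obtain ⟨h, hh⟩ : ∃ h : Mt n, h = c⁻¹ • σ H := ⟨_, rfl⟩
  have hhm : h ∈ Semi2_m 𝒜 S := hh ▸ Submodule.smul_mem _ _ (hσm H hHm)
  have hch : σ H = c • h := by rw [hh, smul_smul, mul_inv_cancel₀ hc0, one_smul]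
  have hσh : σ h = c • h := by
    rw [← hch, hh, map_smul, hc, smul_smul, inv_mul_cancel₀ hc0, one_smul]
  have hk : ∀ A ∈ W, ⁅A, H - h⁆ = 0 :=
    hker _ (Submodule.sub_mem _ hHm hhm) (by rw [map_sub, hch, hσh, sub_self])
  have hk' : ∀ A ∈ W, ⁅H - h, A⁆ = 0 := fun A hA => by rw [Semi2_skew, hk A hA, neg_zero]
  have h3 : ∀ A ∈ W, ∀ B ∈ 𝒜, ⁅A, ⁅B, h⁆⁆ = ip A B • c • h := fun A hA B hB => by
    rw [hβ h hhm A hA B hB, hσh]
  obtain ⟨e, he⟩ := Semi2_G hS hH hp hW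
  have he' : ∀ B ∈ W, ⁅h, ⁅h, B⁆⁆ + ⁅⁅H - h, h⁆, B⁆ = e • B := fun B hB => by
    have e1 : ⁅H, B⁆ = ⁅h, B⁆ := by
      have := hk' B hB
      rwa [Semi2_sub', sub_eq_zero] at this
    rw [← he B hB, e1, Semi2_jac (H - h) h B, hk' B hB, Semi2_zero, sub_zero, Semi2_sub',
      add_sub_cancel]
  have hY : ⁅H - h, h⁆ = 0 := by
    have e1 : ⁅A₀, ⁅h, ⁅h, A₀⁆⁆⁆ = 0 := by
      rw [Semi2_leib A₀ h, Semi2_skew h A₀, Semi2_neg, Semi2_neg, Semi2_neg, Semi2_self,
        h3 A₀ h0 A₀ (hW.le h0), Semi2_smul, Semi2_smul, Semi2_self]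
      simp
    have e2 : ⁅A₀, ⁅A₀, ⁅H - h, h⁆⁆⁆ = 0 := by
      have := congrArg (fun Z => ⁅A₀, Z⁆) (he' A₀ h0)
      simp only [Semi2_add, Semi2_smul, Semi2_self, e1, smul_zero, zero_add] at this
      rw [Semi2_skew ⁅H - h, h⁆ A₀, Semi2_neg, neg_eq_zero] at this
      exact this
    rw [Semi2_swap (hk' A₀ h0), Semi2_swap (hk' A₀ h0), h3 A₀ h0 A₀ (hW.le h0), Semi2_smul,
      Semi2_smul, smul_smul] at e2
    exact (smul_eq_zero.mp e2).resolve_left (mul_ne_zero (ip_self_pos h0').ne' hc0)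
  have hhh := Semi2_herm hS hne hhm
  have he'' : ∀ B ∈ W, ⁅h, ⁅h, B⁆⁆ = e • B := fun B hB => by
    rw [← he' B hB, hY, Semi2_zero', add_zero]
  have hec : e = c * ip h h := by
    have e1 : ip A₀ ⁅h, ⁅h, A₀⁆⁆ = ip ⁅A₀, ⁅A₀, h⁆⁆ h := by
      rw [ip_lie_herm hhh, ← ip_lie_herm (hWh A₀ h0), Semi2_skew h A₀]
      simp only [map_neg, LinearMap.neg_apply, neg_neg]
    rw [he'' A₀ h0, h3 A₀ h0 A₀ (hW.le h0)] at e1
    simp only [map_smul, LinearMap.smul_apply, smul_eq_mul] at e1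
    exact mul_right_cancel₀ (ip_self_pos h0').ne' (by rw [e1]; ring)
  have hspin := Semi2_spin hWh hhh (fun A hA => hhm.2 A (hW.le hA)) h1
    (fun A hA B hB => Semi2_comm hS hne hhm (hW.le hA) (hW.le hB))
    (fun A hA B hB => h3 A hA B (hW.le hB)) (fun A hA => hec ▸ he'' A hA)
  refine ⟨h, hhh, Semi2_lts hspin, Or.inr hspin, fun A hA => lie_eq_zero_iff.mp (hk' A hA), ?_,
    fun C hC hC' => ?_, fun X hX hXH => ?_⟩
  · rw [Semi2_sub', Semi2_self, sub_zero] at hY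
    exact lie_eq_zero_iff.mp hY
  · have e1 : ⁅C, A₀⁆ = 0 := lie_eq_zero_iff.mpr (hW.perp C hC hC' A₀ h0).symm
    apply lie_eq_zero_iff.mp
    rw [hh, hσ, Semi2_smul, Semi2_smul, ← Semi2_swap e1, ← Semi2_swap e1,
      hβ H hHm A₀ h0 C hC, hC' A₀ h0, zero_smul, Semi2_zero, smul_zero, smul_zero]
  · rw [hh, hσ]
    exact ((commute_lie (hX A₀ h0) (commute_lie (hX A₀ h0) hXH)).smul_right _).smul_right _

end Pool.Agent.Work.MP_2482e4_mp.Gn
end
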