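import Pool.Agent.Work.MP_2482e4_mp.Gn.Sm
import Pool.Agent.Work.MP_2482e4_mp.Gn.Semi2
import Pool.Agent.Work.MP_e1e788_gt.FlowA
import Pool.Agent.Work.MP_2482e4_mp.Gn.Baire

-- merged part: Pool.Agent.Work.MP_2482e4_mp.Gn.Tors
section
/-!
The torsion keeps 𝒜 on the sum of the factors of a product type pair.
Here D H U B is the derivative at s = 0 of s ↦ Zf w (H + s • U) B; it is assumed to exist and to be bilinear in (U, B).
Plan. T A B = D H (Zf w H A) B - D H (Zf w H B) A is bilinear; the set of Zf w H C, C in 𝒜, is a subspace (𝒜.map); reduce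
by Submodule.iSup_induction (twice) to A in B i, B in B j. Zf_iSup_mem gives H = h + R and, for U in L i, H + s U is again in the
sum. If i and j differ, s ↦ Zf w (H + s U) B is constant (Zf_add_comm), so D = 0. If i = j it equals Zf w (h + s U) B
(Zf_add_comm) and lies in L i (closed), so D is in L i. Case L i ⊆ 𝒜: C = Zf w⁻¹ h T (Zf_mem, Zf_Zf, Zf_one).
Case finrank ≤ 1: A, B are multiples of one vector (finrank_le_one_iff), T = 0.
Spin case (spin_tors): if h = 0 the function is even in s (Zf_neg), so D = 0. Otherwise for y in L i nonzero, with r = ip y y,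
α r = w (√(c r)), β r = (1 - α r) / r: Zf w y B = α r • B + (β r * ip y B) • y (split B along y, Zf_of_commute, Zf_eig;
[y, [y, B]] = [[B, y], y]). α is differentiable at r > 0 (constant 1 if c ≤ 0). Differentiate along y = h + s U with
U = Zf w h A, ip h U = ip h A, ip U B symmetric in A, B: T = (2 α' - β α) • C₀ with C₀ = ip h A • B - ip h B • A and
Zf w h C₀ = α • C₀, α > 0.
-/

open scoped ComplexOrder Topology ContDiff Matrix.Norms.L2Operator
open Matrix Filter Module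

set_option linter.unusedSectionVars false

namespace Pool.Agent.Work.MP_2482e4_mp.Gn

variable {n : Type} [Fintype n] [DecidableEq n]

variable {w : ℝ → ℝ}

theorem Tors_lie (y B : Mt n) : ⁅y, ⁅y, B⁆⁆ = ⁅⁅B, y⁆, y⁆ := by
  simp only [Ring.lie_def]
  noncomm_ring

theorem Tors_deriv_mem {W : Submodule ℝ (Mt n)} {F : ℝ → Mt n} {X : Mt n}
    (hF : HasDerivAt F X 0) (hW : ∀ s, F s ∈ W) : X ∈ W := by
  have hc : IsClosed (W : Set (Mt n)) := W.closed_of_finiteDimensional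
  refine hc.mem_of_tendsto (hasDerivAt_iff_tendsto_slope.1 hF) (Eventually.of_forall fun s => ?_)
  rw [slope_def_module]
  exact W.smul_mem _ (W.sub_mem (hW s) (hW 0))

theorem Tors_even {F : ℝ → Mt n} {X : Mt n} (hF : HasDerivAt F X 0) (he : ∀ s, F (-s) = F s) :
    X = 0 := by
  have h1 : HasDerivAt F X (-(0 : ℝ)) := by simpa using hF
  have h2 : HasDerivAt (fun s : ℝ => F (-s)) ((-1 : ℝ) • X) 0 :=
    h1.scomp (0 : ℝ) (hasDerivAt_neg (0 : ℝ))
  have h3 : (fun s : ℝ => F (-s)) = F := funext he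
  rw [h3] at h2
  have h4 : X = (-1 : ℝ) • X := hF.unique h2
  have h5 : (2 : ℝ) • X = 0 := by
    rw [two_smul]
    nth_rewrite 1 [h4]
    simp
  simpa using h5

theorem Tors_formula (hw : ∀ x, w (-x) = w x) (h0 : w 0 = 1) {L : Submodule ℝ (Mt n)}
    (hh : ∀ X ∈ L, X.IsHermitian) {c : ℝ}
    (hc : ∀ X ∈ L, ∀ Y ∈ L, ∀ Z ∈ L,
      ⁅⁅X, Y⁆, Z⁆ = c • ((Y * Z).trace.re • X - (X * Z).trace.re • Y))
    {y B : Mt n} (hy : y ∈ L) (hB : B ∈ L) :
    Zf w y B = w (√(c * ip y y)) • B +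
      ((1 - w (√(c * ip y y))) * (ip y y)⁻¹ * ip y B) • y := by
  by_cases h : y = 0
  · subst h
    rw [Zf_of_commute w (hh _ hy) (Commute.zero_left B)]
    simp [h0]
  have hr : ip y y ≠ 0 := (ip_self_pos h).ne'
  have e1 : ⁅y, ⁅y, B⁆⁆ = c • (ip y y • B - ip y B • y) := by
    rw [Tors_lie, hc B hB y hy y hy, ← ip_herm (hh y hy), ← ip_herm (hh B hB), ip_comm B y]
  have e2 : ⁅y, ⁅y, B - ((ip y y)⁻¹ * ip y B) • y⁆⁆ =
      (c * ip y y) • (B - ((ip y y)⁻¹ * ip y B) • y) := by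
    have : ⁅y, B - ((ip y y)⁻¹ * ip y B) • y⁆ = ⁅y, B⁆ := by
      simp only [Ring.lie_def, mul_sub, sub_mul, mul_smul_comm, smul_mul_assoc]
      abel
    rw [this, e1, smul_sub, smul_sub, smul_smul, smul_smul, smul_smul]
    congr 2
    field_simp
  have e3 := Zf_eig hw (hh y hy) e2
  have e4 : Zf w y y = y := by
    rw [Zf_of_commute w (hh y hy) (Commute.refl y), h0, one_smul]
  rw [map_sub, map_smul, e4] at e3
  rw [eq_add_of_sub_eq e3]
  module

theorem Tors_alpha (hd : ∀ x, 0 < x → DifferentiableAt ℝ w x) (c : ℝ) {r : ℝ} (hr : 0 < r) :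
    DifferentiableAt ℝ (fun t : ℝ => w (√(c * t))) r := by
  by_cases hc : 0 < c
  · have h1 : 0 < c * r := mul_pos hc hr
    have h2 : DifferentiableAt ℝ (fun t : ℝ => √(c * t)) r :=
      (differentiableAt_id.const_mul c).sqrt h1.ne'
    exact (hd _ (Real.sqrt_pos.2 h1)).comp r h2
  · have h1 : (fun t : ℝ => w (√(c * t))) =ᶠ[𝓝 r] fun _ => w 0 := by
      filter_upwards [lt_mem_nhds hr] with t ht
      rw [Real.sqrt_eq_zero_of_nonpos (mul_nonpos_of_nonpos_of_nonneg (not_lt.1 hc) ht.le)]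
    exact (differentiableAt_const _).congr_of_eventuallyEq h1

theorem Tors_deriv (hw : ∀ x, w (-x) = w x) (h0 : w 0 = 1) {L : Submodule ℝ (Mt n)}
    (hh : ∀ X ∈ L, X.IsHermitian) {c : ℝ}
    (hc : ∀ X ∈ L, ∀ Y ∈ L, ∀ Z ∈ L,
      ⁅⁅X, Y⁆, Z⁆ = c • ((Y * Z).trace.re • X - (X * Z).trace.re • Y))
    {h U B X : Mt n} (hL : h ∈ L) (hU : U ∈ L) (hB : B ∈ L) {a' b' : ℝ}
    (ha : HasDerivAt (fun t : ℝ => w (√(c * t))) a' (ip h h))
    (hb : HasDerivAt (fun t : ℝ => (1 - w (√(c * t))) * t⁻¹) b' (ip h h))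
    (hX : HasDerivAt (fun s : ℝ => Zf w (h + s • U) B) X 0) :
    X = (a' * (2 * ip h U)) • B +
      (((1 - w (√(c * ip h h))) * (ip h h)⁻¹ * ip h B) • U +
        (b' * (2 * ip h U) * ip h B + (1 - w (√(c * ip h h))) * (ip h h)⁻¹ * ip U B) • h) := by
  have hr : HasDerivAt (fun s : ℝ => ip (h + s • U) (h + s • U)) (2 * ip h U) 0 := by
    have e : (fun s : ℝ => ip (h + s • U) (h + s • U)) =
        fun s : ℝ => ip h h + s * (2 * ip h U) + s * s * ip U U := by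
      funext s
      simp only [map_add, map_smul, LinearMap.add_apply, LinearMap.smul_apply, smul_eq_mul]
      rw [ip_comm U h]
      ring
    rw [e]
    have := (((hasDerivAt_id' (0 : ℝ)).mul_const (2 * ip h U)).const_add (ip h h)).fun_add
      (((hasDerivAt_id' (0 : ℝ)).fun_mul (hasDerivAt_id' (0 : ℝ))).mul_const (ip U U))
    exact this.congr_deriv (by ring)
  have r0 : ip (h + (0 : ℝ) • U) (h + (0 : ℝ) • U) = ip h h := by simp
  have ha2 : HasDerivAt (fun s : ℝ => w (√(c * ip (h + s • U) (h + s • U))))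
      (a' * (2 * ip h U)) 0 := by
    rw [← r0] at ha
    exact HasDerivAt.comp (h₂ := fun t : ℝ => w (√(c * t))) (0 : ℝ) ha hr
  have hb2 : HasDerivAt (fun s : ℝ => (1 - w (√(c * ip (h + s • U) (h + s • U)))) *
      (ip (h + s • U) (h + s • U))⁻¹) (b' * (2 * ip h U)) 0 := by
    rw [← r0] at hb
    exact HasDerivAt.comp (h₂ := fun t : ℝ => (1 - w (√(c * t))) * t⁻¹) (0 : ℝ) hb hr
  have hi : HasDerivAt (fun s : ℝ => ip (h + s • U) B) (ip U B) 0 := by
    have e : (fun s : ℝ => ip (h + s • U) B) = fun s : ℝ => ip h B + s * ip U B := by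
      funext s
      simp only [map_add, map_smul, LinearMap.add_apply, LinearMap.smul_apply, smul_eq_mul]
    rw [e]
    simpa using ((hasDerivAt_id (0 : ℝ)).mul_const (ip U B)).const_add (ip h B)
  have hy : HasDerivAt (fun s : ℝ => h + s • U) U 0 := by
    simpa using ((hasDerivAt_id (0 : ℝ)).smul_const U).const_add h
  have hF := (ha2.smul_const B).add ((hb2.mul hi).smul hy)
  have e : (fun s : ℝ => Zf w (h + s • U) B) = fun s : ℝ =>
      w (√(c * ip (h + s • U) (h + s • U))) • B +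
        ((1 - w (√(c * ip (h + s • U) (h + s • U)))) * (ip (h + s • U) (h + s • U))⁻¹ *
          ip (h + s • U) B) • (h + s • U) := by
    funext s
    exact Tors_formula hw h0 hh hc (L.add_mem hL (L.smul_mem s hU)) hB
  rw [e] at hX
  have := hX.unique hF
  simpa using this

theorem spin_tors (hw : ∀ x, w (-x) = w x) (hp : ∀ x, 0 < w x) (h0 : w 0 = 1)
    (hd : ∀ x, 0 < x → DifferentiableAt ℝ w x) {L : Submodule ℝ (Mt n)}
    (hh : ∀ X ∈ L, X.IsHermitian) (hs : IsSpin (L : Set (Mt n))) {h A B X Y : Mt n} (hL : h ∈ L)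
    (hA : A ∈ L) (hB : B ∈ L) (hX : HasDerivAt (fun s : ℝ => Zf w (h + s • Zf w h A) B) X 0)
    (hY : HasDerivAt (fun s : ℝ => Zf w (h + s • Zf w h B) A) Y 0) :
    ∃ e : ℝ, X - Y = Zf w h (e • (ip h A • B - ip h B • A)) := by
  obtain ⟨c, hc⟩ := hs
  by_cases hz : h = 0
  · subst hz
    have e1 : X = 0 := Tors_even hX fun s => by
      simp only [zero_add, neg_smul]
      exact Zf_neg hw _ _
    have e2 : Y = 0 := Tors_even hY fun s => by
      simp only [zero_add, neg_smul]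
      exact Zf_neg hw _ _
    exact ⟨0, by simp [e1, e2]⟩
  have hr : 0 < ip h h := ip_self_pos hz
  have hα := Tors_alpha hd c hr
  have hβ : DifferentiableAt ℝ (fun t : ℝ => (1 - w (√(c * t))) * t⁻¹) (ip h h) :=
    (hα.const_sub 1).mul (differentiableAt_inv hr.ne')
  have fA := Tors_formula hw h0 hh hc hL hA
  have fB := Tors_formula hw h0 hh hc hL hB
  have mA : Zf w h A ∈ L := by
    rw [fA]
    exact L.add_mem (L.smul_mem _ hA) (L.smul_mem _ hL)
  have mB : Zf w h B ∈ L := by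
    rw [fB]
    exact L.add_mem (L.smul_mem _ hB) (L.smul_mem _ hL)
  have eX := Tors_deriv hw h0 hh hc hL mA hB hα.hasDerivAt hβ.hasDerivAt hX
  have eY := Tors_deriv hw h0 hh hc hL mB hA hα.hasDerivAt hβ.hasDerivAt hY
  have hα0 : w (√(c * ip h h)) ≠ 0 := (hp _).ne'
  generalize deriv (fun t : ℝ => w (√(c * t))) (ip h h) = a' at eX eY
  generalize deriv (fun t : ℝ => (1 - w (√(c * t))) * t⁻¹) (ip h h) = b' at eX eY
  refine ⟨(2 * a' - (1 - w (√(c * ip h h))) * (ip h h)⁻¹ * w (√(c * ip h h))) *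
    (w (√(c * ip h h)))⁻¹, ?_⟩
  rw [eX, eY, map_smul, map_sub, map_smul, map_smul, fA, fB]
  simp only [map_add, map_smul, LinearMap.add_apply, LinearMap.smul_apply, smul_eq_mul]
  rw [ip_comm B A]
  generalize w (√(c * ip h h)) = α at hα0 ⊢
  have hr' := hr.ne'
  match_scalars <;> field_simp <;> ring

theorem Tors_inv (hw : ∀ x, w (-x) = w x) (hp : ∀ x, 0 < w x) {r : ℕ}
    {L : Fin r → Submodule ℝ (Mt n)} (hh : ∀ i, ∀ X ∈ L i, X.IsHermitian)
    (hl : ∀ i, IsLieTriple (L i : Set (Mt n)))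
    (hc : ∀ i j, i ≠ j → ∀ X ∈ L i, ∀ Y ∈ L j, Commute X Y) {H : Mt n} (hH : H ∈ ⨆ i, L i)
    (hH' : H.IsHermitian) {i : Fin r} {T : Mt n} (hT : T ∈ L i) : ∃ C ∈ L i, T = Zf w H C := by
  have hw' : ∀ x, (fun x => (w x)⁻¹) (-x) = (fun x => (w x)⁻¹) x := fun x => by simp [hw]
  obtain ⟨h, -, -, -, h4⟩ := Zf_iSup_mem (w := fun x => (w x)⁻¹) hw' hh hl hc hH i
  refine ⟨_, (h4 T hT).2, ?_⟩
  rw [Zf_Zf hH']
  have : (fun x => w x * (w x)⁻¹) = fun _ => 1 := funext fun x => mul_inv_cancel₀ (hp x).ne'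
  rw [this, Zf_one hH']

theorem prod_tors (hw : ∀ x, w (-x) = w x) (hp : ∀ x, 0 < w x) (h0 : w 0 = 1)
    (hd : ∀ x, 0 < x → DifferentiableAt ℝ w x) {𝒜 : Submodule ℝ (Mt n)} {H₀ : Mt n}
    (h : IsProductType H₀ (𝒜 : Set (Mt n))) :
    ∃ L : Submodule ℝ (Mt n), (∀ X ∈ L, X.IsHermitian) ∧ H₀ ∈ L ∧
      (∀ H ∈ L, ∀ A ∈ 𝒜, Zf w H A ∈ L) ∧
      ∀ H ∈ L, ∀ D : Mt n →ₗ[ℝ] Mt n →ₗ[ℝ] Mt n,
        (∀ U : Mt n, U.IsHermitian → ∀ B : Mt n, B.IsHermitian →
          HasDerivAt (fun s : ℝ => Zf w (H + s • U) B) (D U B) 0) →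
        ∀ A ∈ 𝒜, ∀ B ∈ 𝒜, ∃ C ∈ 𝒜, D (Zf w H A) B - D (Zf w H B) A = Zf w H C := by
  obtain ⟨r, L, Bs, hh, hl, hc, hle, hH₀, hA, hcase⟩ := h
  have herm : ∀ X ∈ ⨆ i, L i, X.IsHermitian := by
    intro X hX
    refine Submodule.iSup_induction L (motive := fun X => X.IsHermitian) hX hh ?_ ?_
    · exact isHermitian_zero
    · exact fun _ _ => IsHermitian.add
  refine ⟨⨆ i, L i, herm, hH₀, ?_, ?_⟩
  · intro H hH A hA'
    refine Submodule.iSup_induction Bs (motive := fun A => Zf w H A ∈ ⨆ i, L i) (hA A hA') ?_ ?_ ?_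
    · intro i X hX
      obtain ⟨h, -, -, -, h4⟩ := Zf_iSup_mem hw hh hl hc hH i
      exact Submodule.mem_iSup_of_mem i (h4 X (hle i hX)).2
    · simp
    · intro X Y hX hY
      rw [map_add]
      exact add_mem hX hY
  intro H hH D hD
  have hH' := herm H hH
  have off : ∀ i j, i ≠ j → ∀ U ∈ L i, ∀ B ∈ L j, D U B = 0 := by
    intro i j hij U hU B hB
    obtain ⟨h, h1, h2, h3, -⟩ := Zf_iSup_mem hw hh hl hc hH j
    have e : (fun s : ℝ => Zf w (H + s • U) B) = fun _ => Zf w h B := by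
      funext s
      have e1 : H + s • U = h + (H - h + s • U) := by abel
      rw [e1]
      exact Zf_add_comm w (hh j h h1) (h2.add (hh i _ ((L i).smul_mem s hU)))
        ((h3 h h1).add_left (hc i j hij _ ((L i).smul_mem s hU) h h1))
        ((h3 B hB).add_left (hc i j hij _ ((L i).smul_mem s hU) B hB))
    have := hD U (hh i U hU) B (hh j B hB)
    rw [e] at this
    exact this.unique (hasDerivAt_const _ _)
  have key : ∀ i, ∀ A ∈ Bs i, ∀ j, ∀ B ∈ Bs j,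
      D (Zf w H A) B - D (Zf w H B) A ∈ 𝒜.map (Zf w H) := by
    intro i A hAi j B hBj
    have hAL := hle i hAi
    obtain ⟨h, h1, h2, h3, h4⟩ := Zf_iSup_mem hw hh hl hc hH i
    by_cases hij : i = j
    swap
    · have hBL := hle j hBj
      obtain ⟨h', -, -, -, h4'⟩ := Zf_iSup_mem hw hh hl hc hH j
      rw [off i j hij _ (h4 A hAL).2 B hBL, off j i (Ne.symm hij) _ (h4' B hBL).2 A hAL, sub_zero]
      exact zero_mem _
    subst hij
    have hBL := hle i hBj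
    have on : ∀ U ∈ L i, ∀ B ∈ L i,
        HasDerivAt (fun s : ℝ => Zf w (h + s • U) B) (D U B) 0 := by
      intro U hU B hB
      have e : (fun s : ℝ => Zf w (H + s • U) B) = fun s : ℝ => Zf w (h + s • U) B := by
        funext s
        have e1 : H + s • U = h + s • U + (H - h) := by abel
        have hm : h + s • U ∈ L i := (L i).add_mem h1 ((L i).smul_mem s hU)
        rw [e1]
        exact Zf_add_comm w (hh i _ hm) h2 (h3 _ hm) (h3 B hB)
      have := hD U (hh i U hU) B (hh i B hB)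
      rwa [e] at this
    rcases hcase i with h5 | ⟨h5, h6⟩ | h5
    · have mem : ∀ U ∈ L i, ∀ B ∈ L i, D U B ∈ L i := by
        intro U hU B hB
        refine Tors_deriv_mem (on U hU B hB) fun s => ?_
        have hm : h + s • U ∈ L i := (L i).add_mem h1 ((L i).smul_mem s hU)
        refine Zf_mem hw (hh i _ hm) (fun B' hB' => ?_) hB
        rw [Tors_lie]
        exact hl i B' hB' _ hm _ hm
      obtain ⟨C, hC, e⟩ := Tors_inv hw hp hh hl hc hH hH'
        ((L i).sub_mem (mem _ (h4 A hAL).2 B hBL) (mem _ (h4 B hBL).2 A hAL))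
      exact ⟨C, h5 C hC, e.symm⟩
    · have dA := on _ (h4 A hAL).2 B hBL
      have dB := on _ (h4 B hBL).2 A hAL
      have eA : (fun s : ℝ => Zf w (h + s • Zf w H A) B) =
          fun s : ℝ => Zf w (h + s • Zf w h A) B := by rw [(h4 A hAL).1]
      have eB : (fun s : ℝ => Zf w (h + s • Zf w H B) A) =
          fun s : ℝ => Zf w (h + s • Zf w h B) A := by rw [(h4 B hBL).1]
      rw [eA] at dA
      rw [eB] at dB
      obtain ⟨e, he⟩ := spin_tors hw hp h0 hd (hh i) h5 h1 hAL hBL dA dB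
      have hC : e • (ip h A • B - ip h B • A) ∈ Bs i :=
        (Bs i).smul_mem e ((Bs i).sub_mem ((Bs i).smul_mem _ hBj) ((Bs i).smul_mem _ hAi))
      exact ⟨_, h6 _ hC, by rw [he, (h4 _ (hle i hC)).1]⟩
    · obtain ⟨v, hv⟩ := finrank_le_one_iff.1 h5
      obtain ⟨a, ha⟩ := hv ⟨A, hAi⟩
      obtain ⟨b, hb⟩ := hv ⟨B, hBj⟩
      have ea : A = a • (v : Mt n) := (congrArg Subtype.val ha).symm
      have eb : B = b • (v : Mt n) := (congrArg Subtype.val hb).symm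
      have : D (Zf w H A) B - D (Zf w H B) A = 0 := by
        rw [ea, eb]
        simp only [map_smul, LinearMap.smul_apply]
        rw [smul_comm a b, sub_self]
      rw [this]
      exact zero_mem _
  intro A hA' B hB'
  have main : D (Zf w H A) B - D (Zf w H B) A ∈ 𝒜.map (Zf w H) := by
    refine Submodule.iSup_induction Bs
      (motive := fun A => D (Zf w H A) B - D (Zf w H B) A ∈ 𝒜.map (Zf w H)) (hA A hA') ?_ ?_ ?_
    · intro i A hAi
      refine Submodule.iSup_induction Bs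
        (motive := fun B => D (Zf w H A) B - D (Zf w H B) A ∈ 𝒜.map (Zf w H)) (hA B hB') ?_ ?_ ?_
      · exact key i A hAi
      · simp
      · intro X Y hX hY
        have := add_mem hX hY
        simp only [map_add, LinearMap.add_apply]
        convert this using 1
        abel
    · simp
    · intro X Y hX hY
      have := add_mem hX hY
      simp only [map_add, LinearMap.add_apply]
      convert this using 1
      abel
  obtain ⟨C, hC, e⟩ := main
  exact ⟨C, hC, e.symm⟩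

end Pool.Agent.Work.MP_2482e4_mp.Gn
end

-- merged part: Pool.Agent.Work.MP_2482e4_mp.Gn.Main
section
-- merged part: Pool.Agent.Work.MP_2482e4_mp.Gn.Semi1
section
/-!
Decomposition of a Lie triple system of Hermitian matrices into its centre and simple ideals.
Plan. Call W invariant if W ≤ 𝒜 and [[A, B], C] is in W for A, B in 𝒜, C in W. (1) If W is invariant so is
W' = elements of 𝒜 orthogonal to W (ip_lie_lie), and [A, C] = 0 for A in W, C in W': with k = [A, C],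
ip k k = ± ip ([k, A]) C = 0 as [k, A] is in W (use ip_lie, star k = -k). (2) Strong induction on finrank: an invariant V
orthogonal to cen 𝒜 is an orthogonal sum of minimal nonzero invariant subspaces (take W ≤ V nonzero invariant of least
finrank and recurse on V ⊓ W', exists_proj gives V ≤ W ⊔ (V ⊓ W')). Start with V = elements of 𝒜 orthogonal to cen 𝒜
(cen 𝒜 is invariant). (3) Key fact K: if x is in W (minimal) and [[A₁, A₂], x] = 0 for all A₁, A₂ in W, then x commutes with W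
(ip [x, C] [x, C] = ± ip [[x, C], x] C), with W', hence with 𝒜, so x is in cen 𝒜 and x = 0. func: represent l by x
(exists_riesz) and use K. nonab: otherwise K kills a nonzero element. form: for C in W' the functional A ↦ b A C on W is
represented by x with [[A₁, A₂], x] = 0 for A₁, A₂ in W since [[A₁, A₂], C] = 0, so it vanishes; exists_eig gives c and a
nonzero eigenvector; the set of A in W with b A B = c * ip A B for all B in 𝒜 is invariant and nonzero, so it is W.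
-/

open scoped ComplexOrder Topology ContDiff Matrix.Norms.L2Operator
open Matrix Filter Module

set_option linter.unusedSectionVars false

namespace Pool.Agent.Work.MP_2482e4_mp.Gn

variable {n : Type} [Fintype n] [DecidableEq n]

/-- Invariant subspaces. -/
def Semi1_Inv (𝒜 W : Submodule ℝ (Mt n)) : Prop :=
  W ≤ 𝒜 ∧ ∀ A ∈ 𝒜, ∀ B ∈ 𝒜, ∀ C ∈ W, ⁅⁅A, B⁆, C⁆ ∈ W

/-- Minimal invariant subspaces. -/
def Semi1_Min (𝒜 W : Submodule ℝ (Mt n)) : Prop :=
  Semi1_Inv 𝒜 W ∧ W ≠ ⊥ ∧ ∀ U, Semi1_Inv 𝒜 U → U ≤ W → U ≠ ⊥ → U = W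

/-- The orthogonal complement. -/
def Semi1_perp (W : Submodule ℝ (Mt n)) : Submodule ℝ (Mt n) where
  carrier := {C | ∀ A ∈ W, ip A C = 0}
  add_mem' hX hY A hA := by rw [map_add, hX A hA, hY A hA, add_zero]
  zero_mem' A _ := map_zero _
  smul_mem' c _ hX A hA := by rw [map_smul, hX A hA, smul_zero]

theorem Semi1_skew (X Y : Mt n) : ⁅X, Y⁆ = -⁅Y, X⁆ := by
  simp only [Ring.lie_def]
  noncomm_ring

variable {𝒜 W V : Submodule ℝ (Mt n)}

theorem Semi1_comm (hA : ∀ A ∈ 𝒜, A.IsHermitian) (hW : Semi1_Inv 𝒜 W) {A C : Mt n} (h1 : A ∈ W)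
    (h2 : C ∈ 𝒜) (h3 : ∀ X ∈ W, ip X C = 0) : Commute A C := by
  refine lie_eq_zero_iff.1 (ip_self_eq_zero ?_)
  rw [ip_lie_herm (hA A (hW.1 h1)), Semi1_skew A]
  exact h3 _ (neg_mem (hW.2 A (hW.1 h1) C h2 A h1))

theorem Semi1_inf (hA : ∀ A ∈ 𝒜, A.IsHermitian) (hV : Semi1_Inv 𝒜 V) (hW : Semi1_Inv 𝒜 W) :
    Semi1_Inv 𝒜 (V ⊓ Semi1_perp W) := by
  refine ⟨inf_le_left.trans hV.1, fun A h1 B h2 C h3 => ⟨hV.2 A h1 B h2 C h3.1, fun X hX => ?_⟩⟩
  rw [ip_lie_lie (hA A h1) (hA B h2), h3.2 _ (hW.2 A h1 B h2 X hX), neg_zero]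

theorem Semi1_split (h : W ≤ V) : V ≤ W ⊔ (V ⊓ Semi1_perp W) := by
  intro X hX
  obtain ⟨x, hx, hp⟩ := exists_proj W X
  have : X = x + (X - x) := by abel
  rw [this]
  exact Submodule.add_mem_sup hx ⟨sub_mem hX (h hx), hp⟩

theorem Semi1_dec (hA : ∀ A ∈ 𝒜, A.IsHermitian) (V : Submodule ℝ (Mt n)) :
    Semi1_Inv 𝒜 V → ∃ (r : ℕ) (W : Fin r → Submodule ℝ (Mt n)),
      (∀ j, Semi1_Min 𝒜 (W j) ∧ W j ≤ V) ∧ V ≤ ⨆ j, W j ∧
        ∀ i j, i ≠ j → ∀ X ∈ W i, ∀ Y ∈ W j, ip X Y = 0 := by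
  induction V using WellFoundedLT.induction with
  | ind V ih =>
    intro hV
    by_cases h0 : V = ⊥
    · exact ⟨0, Fin.elim0, fun j => j.elim0, by simp [h0], fun j => j.elim0⟩
    obtain ⟨W0, ⟨h1, h2, h3⟩, hm⟩ := (wellFounded_lt (α := Submodule ℝ (Mt n))).has_min
      {U | Semi1_Inv 𝒜 U ∧ U ≤ V ∧ U ≠ ⊥} ⟨V, hV, le_rfl, h0⟩
    have hlt : V ⊓ Semi1_perp W0 < V := by
      refine lt_of_le_of_ne inf_le_left fun e => ?_
      obtain ⟨x, hx, hx0⟩ := Submodule.exists_mem_ne_zero_of_ne_bot h3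
      have : x ∈ V ⊓ Semi1_perp W0 := by rw [e]; exact h2 hx
      exact hx0 (ip_self_eq_zero (this.2 x hx))
    obtain ⟨r, W, h4, h5, h6⟩ := ih _ hlt (Semi1_inf hA hV h1)
    refine ⟨r + 1, Fin.cons W0 W, fun j => ?_, ?_, fun i j => ?_⟩
    · refine Fin.cases ⟨⟨h1, h3, fun U hU hle hne => ?_⟩, h2⟩
        (fun j => ⟨(h4 j).1, (h4 j).2.trans inf_le_left⟩) j
      by_contra hne'
      exact hm U ⟨hU, hle.trans h2, hne⟩ (lt_of_le_of_ne hle hne')
    · refine (Semi1_split h2).trans (sup_le ?_ (h5.trans (iSup_le fun j => ?_)))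
      · exact le_iSup (Fin.cons W0 W : Fin (r + 1) → Submodule ℝ (Mt n)) 0
      · exact le_iSup (Fin.cons W0 W : Fin (r + 1) → Submodule ℝ (Mt n)) j.succ
    · refine Fin.cases ?_ (fun i => ?_) i <;> refine Fin.cases ?_ (fun j => ?_) j
      · exact fun h => absurd rfl h
      · exact fun _ X hX Y hY => ((h4 j).2 hY).2 X hX
      · exact fun _ X hX Y hY => by rw [ip_comm]; exact ((h4 i).2 hX).2 Y hY
      · exact fun h => h6 i j fun e => h (by rw [e])

theorem Semi1_key (hA : ∀ A ∈ 𝒜, A.IsHermitian) (hW : Semi1_Inv 𝒜 W)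
    (hc : ∀ X ∈ W, ∀ Z ∈ cen 𝒜, ip X Z = 0) {x : Mt n} (hx : x ∈ W)
    (h : ∀ A₁ ∈ W, ∀ A₂ ∈ W, ⁅⁅A₁, A₂⁆, x⁆ = 0) : x = 0 := by
  refine ip_self_eq_zero (hc x hx x ⟨hW.1 hx, fun C hC => ?_⟩)
  obtain ⟨c, h1, h2⟩ := exists_proj W C
  have h3 : Commute x c := by
    refine lie_eq_zero_iff.1 (ip_self_eq_zero ?_)
    rw [ip_lie_herm (hA x (hW.1 hx)), Semi1_skew x, h x hx c h1]
    simp
  have h4 := Semi1_comm hA hW hx (sub_mem hC (hW.1 h1)) h2
  simpa using h3.add_right h4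

theorem Semi1_func (hA : ∀ A ∈ 𝒜, A.IsHermitian) (hW : Semi1_Inv 𝒜 W)
    (hc : ∀ X ∈ W, ∀ Z ∈ cen 𝒜, ip X Z = 0) (l : Mt n →ₗ[ℝ] ℝ)
    (hl : ∀ A₁ ∈ W, ∀ A₂ ∈ W, ∀ A ∈ W, l ⁅⁅A₁, A₂⁆, A⁆ = 0) : ∀ A ∈ W, l A = 0 := by
  obtain ⟨x, hx, hr⟩ := exists_riesz W l
  have h0 : x = 0 := by
    refine Semi1_key hA hW hc hx fun A₁ h1 A₂ h2 => ip_self_eq_zero ?_
    have hy := hW.2 A₁ (hW.1 h1) A₂ (hW.1 h2) x hx
    rw [ip_lie_lie (hA _ (hW.1 h1)) (hA _ (hW.1 h2)),
      ← hr _ (hW.2 A₁ (hW.1 h1) A₂ (hW.1 h2) _ hy), hl A₁ h1 A₂ h2 _ hy, neg_zero]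
  intro A h1
  rw [hr A h1, h0, map_zero]

theorem Semi1_irr (hA : ∀ A ∈ 𝒜, A.IsHermitian) (hL : IsLieTriple (𝒜 : Set (Mt n)))
    (hM : Semi1_Min 𝒜 W) (hc : ∀ X ∈ W, ∀ Z ∈ cen 𝒜, ip X Z = 0) : Irr 𝒜 W := by
  obtain ⟨hW, h0, hm⟩ := hM
  refine ⟨hW.1, hW.2, fun C hC hp A h1 => Semi1_comm hA hW h1 hC hp, fun b hs hb => ?_,
    fun l hl => Semi1_func hA hW hc l fun A₁ h1 A₂ h2 => hl A₁ (hW.1 h1) A₂ (hW.1 h2), ?_⟩
  · have h1 : ∀ C ∈ 𝒜, (∀ X ∈ W, ip X C = 0) → ∀ A ∈ W, b A C = 0 := by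
      intro C hC hp
      refine Semi1_func hA hW hc (b.flip C) fun A₁ h1 A₂ h2 A h3 => ?_
      have h4 := hb A₁ (hW.1 h1) A₂ (hW.1 h2) A (hW.1 h3) C hC
      have h5 : ⁅⁅A₁, A₂⁆, C⁆ = 0 := lie_eq_zero_iff.2
        (commute_lie (Semi1_comm hA hW h1 hC hp).symm (Semi1_comm hA hW h2 hC hp).symm).symm
      rw [h5, map_zero, add_zero] at h4
      exact h4
    obtain ⟨c, A0, h2, h3, h4⟩ := exists_eig h0 b fun A hA B hB => hs A (hW.1 hA) B (hW.1 hB)
    let U : Submodule ℝ (Mt n) :=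
      { carrier := {A | A ∈ W ∧ ∀ B ∈ 𝒜, b A B = c * ip A B}
        add_mem' := fun hX hY => ⟨add_mem hX.1 hY.1, fun B hB => by
          simp only [map_add, LinearMap.add_apply, hX.2 B hB, hY.2 B hB, mul_add]⟩
        zero_mem' := ⟨zero_mem _, fun B _ => by simp⟩
        smul_mem' := fun t _ hX => ⟨W.smul_mem t hX.1, fun B hB => by
          simp only [map_smul, LinearMap.smul_apply, hX.2 B hB, smul_eq_mul]
          ring⟩ }
    have hU : U = W := by
      refine hm U ⟨fun A h => hW.1 h.1, fun A₁ h5 A₂ h6 A h7 =>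
        ⟨hW.2 A₁ h5 A₂ h6 A h7.1, fun B hB => ?_⟩⟩ (fun A h => h.1) fun e => h3 ?_
      · have h8 := hb A₁ h5 A₂ h6 A (hW.1 h7.1) B hB
        rw [h7.2 _ (hL A₁ h5 A₂ h6 B hB), ip_lie_lie (hA _ h5) (hA _ h6)] at h8
        linarith
      · have : A0 ∈ U := ⟨h2, fun B hB => by
          obtain ⟨x, hx, hp⟩ := exists_proj W B
          have h9 := h1 _ (sub_mem hB (hW.1 hx)) hp A0 h2
          have h10 := hp A0 h2
          rw [map_sub, sub_eq_zero] at h9 h10
          rw [h9, h10, h4 x hx]⟩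
        rwa [e, Submodule.mem_bot] at this
    exact ⟨c, fun A h => (show A ∈ U by rw [hU]; exact h).2⟩
  · by_contra hn
    push Not at hn
    obtain ⟨x, hx, hx0⟩ := Submodule.exists_mem_ne_zero_of_ne_bot h0
    refine hx0 (Semi1_key hA hW hc hx fun A₁ h1 A₂ h2 => ?_)
    rw [hn A₁ h1 A₂ h2]
    simp [Ring.lie_def]

theorem exists_irr {𝒜 : Submodule ℝ (Mt n)} (hA : ∀ A ∈ 𝒜, A.IsHermitian)
    (hL : IsLieTriple (𝒜 : Set (Mt n))) :
    ∃ (r : ℕ) (W : Fin r → Submodule ℝ (Mt n)), (∀ j, Irr 𝒜 (W j)) ∧ 𝒜 ≤ cen 𝒜 ⊔ ⨆ j, W j ∧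
      (∀ i j, i ≠ j → ∀ X ∈ W i, ∀ Y ∈ W j, ip X Y = 0) ∧
      ∀ j, ∀ X ∈ W j, ∀ Z ∈ cen 𝒜, ip X Z = 0 := by
  have h1 : Semi1_Inv 𝒜 (cen 𝒜) := by
    refine ⟨fun Z hZ => hZ.1, fun A h1 B h2 Z hZ => ?_⟩
    rw [lie_eq_zero_iff.2 (commute_lie (hZ.2 A h1) (hZ.2 B h2)).symm]
    exact zero_mem _
  obtain ⟨r, W, h2, h3, h4⟩ := Semi1_dec hA _ (Semi1_inf hA ⟨le_rfl, hL⟩ h1)
  have h5 : ∀ j, ∀ X ∈ W j, ∀ Z ∈ cen 𝒜, ip X Z = 0 := fun j X hX Z hZ => by
    rw [ip_comm]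
    exact ((h2 j).2 hX).2 Z hZ
  exact ⟨r, W, fun j => Semi1_irr hA hL (h2 j).1 (h5 j),
    (Semi1_split h1.1).trans (sup_le_sup_left h3 _), h4, h5⟩

end Pool.Agent.Work.MP_2482e4_mp.Gn
end

-- merged part: Pool.Agent.Work.MP_2482e4_mp.Gn.Ab1
section
/-!
All derivatives of the components by the zero component commute with components of other lines.
Plan. Write D H = ad (comp 0 H), F N H = (D H ^ N) (comp α H). Induction on N for all pairs α, β and all H in S at once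
(statement C N: for all i ≤ N). Let 𝔅 N = Algebra.adjoin ℝ of the (D H ^ i) (comp α' H), i ≤ N, α' a nonzero multiple of α.
D maps 𝔅 N into 𝔅 (N + 1) (derivation, adjoin induction); under C N every element of 𝔅 N commutes with comp β' H for β' not
proportional to α. Let V = [H, [H, A]] with β A = 0 and α A nonzero (A exists by independence). By Joint.comp_lie_lie and
Hull.comm_zero: comp α V + α A • D (comp α H) is in 𝔅 0 (terms with β' not proportional to α vanish, β' = 0 has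
coefficient 0), comp β V = 0 (the surviving β' are proportional to β, so β' A = 0), and comp 0 V = V₁ + V₂ with V₁ in 𝔅 0 and V₂ a sum of
brackets of components not proportional to α. The derivative F' N of s ↦ F N (H + s • V) at 0 satisfies
F' (N + 1) = [comp 0 V, F N H] + D (F' N), so F' i + α A • F (i + 1) H is in 𝔅 i for i ≤ N under C N. Apply Hull.stab to
Φ X = [F N X, comp β X] (PM.adPow, PM.map, PM.lie): [F' N, comp β H] + [F N H, comp β V] = 0, hence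
α A • [F (N + 1) H, comp β H] = 0.
-/

open scoped ComplexOrder Topology ContDiff Matrix.Norms.L2Operator
open Matrix Filter Module

set_option linter.unusedSectionVars false

namespace Pool.Agent.Work.MP_2482e4_mp.Gn

variable {n : Type} [Fintype n] [DecidableEq n]

variable {𝒜 : Submodule ℝ (Mt n)} {S : Set (Mt n)} {m : ℕ} {Q : Fin m → Mt n}
  {d : Fin m → Module.Dual ℝ (cen 𝒜)}

attribute [local instance 100] LieRing.ofAssociativeRing

/-- Elements whose first `k` brackets with `X₀` lie in `C`. -/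
def Ab1_T (X₀ : Mt n) (C : Subalgebra ℝ (Mt n)) : ℕ → Subalgebra ℝ (Mt n)
  | 0 => C
  | k + 1 =>
    { carrier := {X | X ∈ Ab1_T X₀ C k ∧ ⁅X₀, X⁆ ∈ Ab1_T X₀ C k}
      mul_mem' := fun {a b} ha hb => ⟨mul_mem ha.1 hb.1, by
        rw [show ⁅X₀, a * b⁆ = ⁅X₀, a⁆ * b + a * ⁅X₀, b⁆ by
          simp only [Ring.lie_def]
          noncomm_ring]
        exact add_mem (mul_mem ha.2 hb.1) (mul_mem ha.1 hb.2)⟩
      add_mem' := fun {a b} ha hb => ⟨add_mem ha.1 hb.1, by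
        rw [lie_add]
        exact add_mem ha.2 hb.2⟩
      algebraMap_mem' := fun r => ⟨algebraMap_mem _ r, by
        rw [lie_eq_zero_iff.2 (Algebra.commute_algebraMap_right r X₀)]
        exact zero_mem _⟩ }

theorem Ab1_mono {X₀ : Mt n} {C : Subalgebra ℝ (Mt n)} {k l : ℕ} (h : k ≤ l) :
    Ab1_T X₀ C l ≤ Ab1_T X₀ C k := by
  induction l, h using Nat.le_induction with
  | base => exact le_rfl
  | succ l _ ih => exact fun X hX => ih hX.1

theorem Ab1_mem {X₀ : Mt n} {C : Subalgebra ℝ (Mt n)} (k : ℕ) :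
    ∀ X : Mt n, (∀ i ≤ k, (ad X₀ ^ i) X ∈ C) → X ∈ Ab1_T X₀ C k := by
  induction k with
  | zero => exact fun X h => h 0 le_rfl
  | succ k ih =>
    exact fun X h => ⟨ih X fun i hi => h i (by omega), ih _ fun i hi => by
      have := h (i + 1) (by omega)
      rwa [pow_succ] at this⟩

theorem Ab1_lie {T : Subalgebra ℝ (Mt n)} {X Y : Mt n} (hX : X ∈ T) (hY : Y ∈ T) : ⁅X, Y⁆ ∈ T :=
  sub_mem (mul_mem hX hY) (mul_mem hY hX)

theorem Ab1_dlie {f g : ℝ → Mt n} {f' g' : Mt n} (hf : HasDerivAt f f' 0) (hg : HasDerivAt g g' 0) :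
    HasDerivAt (fun s => ⁅f s, g s⁆) (⁅f', g 0⁆ + ⁅f 0, g'⁆) 0 := by
  refine ((hf.fun_mul hg).fun_sub (hg.fun_mul hf)).congr_deriv ?_
  simp only [Ring.lie_def]
  abel

theorem Ab1_dlin (L : Module.End ℝ (Mt n)) (H V : Mt n) :
    HasDerivAt (fun s : ℝ => L (H + s • V)) (L V) 0 := by
  simp only [map_add, map_smul]
  simpa using ((hasDerivAt_id (0 : ℝ)).smul_const (L V)).const_add (L H)

theorem Ab1_der (L M : Module.End ℝ (Mt n)) (H V : Mt n) : ∃ F : ℕ → Mt n, F 0 = M V ∧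
    (∀ i, F (i + 1) = ⁅L V, (ad (L H) ^ i) (M H)⁆ + ⁅L H, F i⁆) ∧
    ∀ i, HasDerivAt (fun s : ℝ => (ad (L (H + s • V)) ^ i) (M (H + s • V))) (F i) 0 := by
  refine ⟨fun i => Nat.rec (M V) (fun i Y => ⁅L V, (ad (L H) ^ i) (M H)⁆ + ⁅L H, Y⁆) i, rfl,
    fun _ => rfl, fun i => ?_⟩
  induction i with
  | zero => exact Ab1_dlin M H V
  | succ i ih =>
    simp only [ad_pow_succ]
    refine (Ab1_dlie (Ab1_dlin L H V) ih).congr_deriv ?_
    simp only [zero_smul, add_zero]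

section
variable {E : Type} [AddCommGroup E] [Module ℝ E] {α β : E}

theorem Ab1_li (h : LinearIndependent ℝ ![α, β]) {a c : ℝ} (b : ℝ) (ha : a ≠ 0) (hc : c ≠ 0) :
    LinearIndependent ℝ ![a • α + b • β, c • β] := by
  rw [LinearIndependent.pair_iff] at h ⊢
  intro s t e
  obtain ⟨h1, h2⟩ := h (s * a) (s * b + t * c) (by rw [← e]; module)
  have hs : s = 0 := (mul_eq_zero.1 h1).resolve_right ha
  rw [hs, zero_mul, zero_add] at h2
  exact ⟨hs, (mul_eq_zero.1 h2).resolve_right hc⟩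

theorem Ab1_cases (hα : α ≠ 0) (β : E) : LinearIndependent ℝ ![α, β] ∨ ∃ t : ℝ, t • α = β := by
  rw [LinearIndependent.pair_iff' hα]
  by_cases h : ∃ t : ℝ, t • α = β
  · exact Or.inr h
  · exact Or.inl (not_exists.1 h)

theorem Ab1_vec {α β : Module.Dual ℝ E} (h : LinearIndependent ℝ ![α, β]) :
    ∃ A, β A = 0 ∧ α A ≠ 0 := by
  by_contra hc
  push Not at hc
  have h' := LinearIndependent.pair_symm_iff.1 h
  obtain ⟨v, hv⟩ := DFunLike.ne_iff.1 (h'.ne_zero 0)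
  change β v ≠ 0 at hv
  refine (LinearIndependent.pair_iff' (h'.ne_zero 0)).1 h' (α v / β v) (LinearMap.ext fun x => ?_)
  have := hc (β v • x - β x • v) (by simp [mul_comm])
  simp only [map_sub, map_smul, smul_eq_mul] at this
  change α v / β v * β x = α x
  field_simp
  linarith

end

theorem Ab1_step (hS : Hull 𝒜 S) (hJ : Joint (cen 𝒜) Q d) (N : ℕ)
    (ih : ∀ i ≤ N, ∀ H ∈ S, ∀ α β : Module.Dual ℝ (cen 𝒜), LinearIndependent ℝ ![α, β] →
      Commute ((ad (comp Q d 0 H) ^ i) (comp Q d α H)) (comp Q d β H))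
    {H : Mt n} (hH : H ∈ S) {α β : Module.Dual ℝ (cen 𝒜)} (hαβ : LinearIndependent ℝ ![α, β]) :
    Commute ((ad (comp Q d 0 H) ^ (N + 1)) (comp Q d α H)) (comp Q d β H) := by
  classical
  obtain ⟨A, hβ, hα⟩ := Ab1_vec hαβ
  have α0 : α ≠ 0 := hαβ.ne_zero 0
  have β0 : β ≠ 0 := hαβ.ne_zero 1
  obtain ⟨C, hC⟩ : ∃ C : Subalgebra ℝ (Mt n), ∀ X, X ∈ C ↔
      ∀ γ, LinearIndependent ℝ ![α, γ] → Commute X (comp Q d γ H) :=
    ⟨Subalgebra.centralizer ℝ {Y | ∃ γ, LinearIndependent ℝ ![α, γ] ∧ Y = comp Q d γ H}, fun X =>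
      ⟨fun h γ hγ => (h _ ⟨γ, hγ, rfl⟩).symm, by
        rintro h _ ⟨γ, hγ, rfl⟩
        exact (h γ hγ).symm⟩⟩
  have hF : ∀ t : ℝ, t ≠ 0 → ∀ i k, i + k ≤ N →
      (ad (comp Q d 0 H) ^ i) (comp Q d (t • α) H) ∈ Ab1_T (comp Q d 0 H) C k := by
    intro t ht i k hik
    refine Ab1_mem k _ fun j hj => (hC _).2 fun γ hγ => ?_
    rw [← Module.End.mul_apply, ← pow_add]
    refine ih _ (by omega) H hH _ _ ?_
    simpa using Ab1_li hγ 0 ht one_ne_zero
  have hc : ∀ t : ℝ, t ≠ 0 → comp Q d (t • α) H ∈ Ab1_T (comp Q d 0 H) C N := fun t ht =>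
    hF t ht 0 N (by omega)
  have hz : ∀ γ δ, LinearIndependent ℝ ![γ, δ] → ⁅comp Q d (γ - δ) H, comp Q d δ H⁆ = 0 := by
    intro γ δ h
    refine lie_eq_zero_iff.2 (hS.comm_zero hJ hH ?_)
    simpa [sub_eq_add_neg] using Ab1_li h (-1) one_ne_zero one_ne_zero
  obtain ⟨F, f0, f1, f2⟩ := Ab1_der (comp Q d 0) (comp Q d α) H ⁅H, ⁅H, (A : Mt n)⁆⁆
  have v1 : F 0 + α A • ⁅comp Q d 0 H, comp Q d α H⁆ ∈ Ab1_T (comp Q d 0 H) C N := by
    have e : ∑ γ ∈ Finset.univ.image (fun p : Fin m × Fin m => d p.1 - d p.2),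
        γ A • ⁅comp Q d (α - γ) H, comp Q d γ H⁆ = α A • ⁅comp Q d 0 H, comp Q d α H⁆ +
        ∑ γ ∈ (Finset.univ.image fun p : Fin m × Fin m => d p.1 - d p.2).erase α,
          γ A • ⁅comp Q d (α - γ) H, comp Q d γ H⁆ := by
      by_cases h : α ∈ Finset.univ.image fun p : Fin m × Fin m => d p.1 - d p.2
      · rw [← Finset.add_sum_erase _ _ h, sub_self]
      · have : comp Q d α H = 0 := by
          rw [comp, mk_apply]
          refine Finset.sum_eq_zero fun a _ => Finset.sum_eq_zero fun b _ => ?_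
          rw [if_neg fun e => h (Finset.mem_image.2 ⟨(a, b), Finset.mem_univ _, e⟩), zero_smul]
        rw [Finset.erase_eq_of_notMem h, this, lie_zero, smul_zero, zero_add]
    rw [f0, hJ.comp_lie_lie, e, neg_add, neg_add_cancel_comm]
    refine neg_mem (sum_mem fun γ hγ => ?_)
    rcases Ab1_cases α0 γ with h | ⟨t, rfl⟩
    · rw [hz _ _ h, smul_zero]
      exact zero_mem _
    rcases eq_or_ne t 0 with rfl | ht
    · rw [zero_smul, LinearMap.zero_apply, zero_smul]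
      exact zero_mem _
    refine Subalgebra.smul_mem _ (Ab1_lie ?_ (hc t ht)) _
    rw [show α - t • α = (1 - t) • α by module]
    refine hc _ fun e1 => Finset.ne_of_mem_erase hγ ?_
    rw [← sub_eq_zero.1 e1, one_smul]
  have v2 : comp Q d β ⁅H, ⁅H, (A : Mt n)⁆⁆ = 0 := by
    rw [hJ.comp_lie_lie, neg_eq_zero]
    refine Finset.sum_eq_zero fun γ _ => ?_
    rcases Ab1_cases β0 γ with h | ⟨t, rfl⟩
    · rw [hz _ _ h, smul_zero]
    · rw [LinearMap.smul_apply, hβ, smul_zero, zero_smul]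
  have v3 : ∀ k ≤ N, ∀ X ∈ Ab1_T (comp Q d 0 H) C k,
      ⁅comp Q d 0 ⁅H, ⁅H, (A : Mt n)⁆⁆, X⁆ ∈ Ab1_T (comp Q d 0 H) C k := by
    intro k hk X hX
    rw [hJ.comp_lie_lie, neg_lie, sum_lie]
    refine neg_mem (sum_mem fun γ _ => ?_)
    rw [smul_lie, zero_sub]
    rcases Ab1_cases α0 γ with h | ⟨t, rfl⟩
    · have a1 := (hC X).1 (Ab1_mono (Nat.zero_le k) hX)
      have a2 := a1 (-γ) (by simpa using Ab1_li h 0 one_ne_zero (neg_ne_zero.2 one_ne_zero))
      rw [lie_eq_zero_iff.2 (commute_lie a2 (a1 γ h)).symm, smul_zero]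
      exact zero_mem _
    rcases eq_or_ne t 0 with rfl | ht
    · rw [zero_smul, LinearMap.zero_apply, zero_smul]
      exact zero_mem _
    rw [← neg_smul]
    exact Subalgebra.smul_mem _ (Ab1_lie (Ab1_mono hk
      (Ab1_lie (hc _ (neg_ne_zero.2 ht)) (hc t ht))) hX) _
  have hG : ∀ i k, i + k ≤ N → F i + α A • (ad (comp Q d 0 H) ^ (i + 1)) (comp Q d α H) ∈
      Ab1_T (comp Q d 0 H) C k := by
    intro i
    induction i with
    | zero =>
      intro k hk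
      rw [zero_add, pow_one]
      exact Ab1_mono (by omega) v1
    | succ i ih2 =>
      intro k hk
      rw [f1, ad_pow_succ, add_assoc, ← lie_smul, ← lie_add]
      refine add_mem (v3 k (by omega) _ ?_) (ih2 (k + 1) (by omega)).2
      simpa only [one_smul] using hF 1 one_ne_zero i k (by omega)
  have h1 := hS.stab (fun X => ⁅(ad (comp Q d 0 X) ^ N) (comp Q d α X), comp Q d β X⁆)
    (((PM.self.map _).adPow (PM.self.map _) N).lie (PM.self.map _))
    (fun X hX => lie_eq_zero_iff.2 (ih N le_rfl X hX α β hαβ)) H hH A A.2.1 _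
    (Ab1_dlie (f2 N) (Ab1_dlin (comp Q d β) H _))
  rw [v2, lie_zero, add_zero, zero_smul, add_zero] at h1
  have h2 := lie_eq_zero_iff.2 ((hC _).1 (hG N 0 le_rfl) β hαβ)
  rw [add_lie, h1, zero_add, smul_lie] at h2
  exact lie_eq_zero_iff.1 ((smul_eq_zero.1 h2).resolve_left hα)

theorem Hull.comm_pow (hS : Hull 𝒜 S) (hJ : Joint (cen 𝒜) Q d) (N : ℕ) {H : Mt n} (hH : H ∈ S)
    {α β : Module.Dual ℝ (cen 𝒜)} (hαβ : LinearIndependent ℝ ![α, β]) :
    Commute ((ad (comp Q d 0 H) ^ N) (comp Q d α H)) (comp Q d β H) := by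
  induction N using Nat.strong_induction_on generalizing H α β with
  | _ N ih =>
  rcases N with _ | N
  · exact hS.comm_zero hJ hH hαβ
  · exact Ab1_step hS hJ N (fun i hi X hX γ δ h => ih i (by omega) hX h) hH hαβ

end Pool.Agent.Work.MP_2482e4_mp.Gn
end

-- merged part: Pool.Agent.Work.MP_2482e4_mp.Gn.Asm
section
/-!
Assembly: every point of a hull is of product type; transport along a leaf.
Plan of Hull.prod. H = H₁ + A₀ with A₀ the projection of H on 𝒜 (exists_proj), H₁ = H + (-A₀) in S. exists_irr gives W j,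
one_factor gives h j, L j = W j ⊔ span {h j}. For i different from j: W i, W j commute (Irr.perp), W j commutes with h i
(sixth clause), h i commutes with h j (last clause with X = h i). cen 𝒜 commutes with every L j. G = H₁ - ∑ h j commutes with
every L j. g = ∑ h j commutes with cen 𝒜 and with G, so comp α H₁ = comp α G for α nonzero, comp 0 H₁ = comp 0 G + g
(Joint.comp_of_weight with weight 0) and g commutes with comp α G (Joint.commute_comp); so Hull.comm_pow gives the hypothesis of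
abel_dec for G (independent α, β are nonzero). Join the two families over Fin r ⊕ Fin r' with B = W j, resp. span {a i}
(finrank_span_singleton or finrank_span_le_card), reindex with finSumFinEquiv.
prod_transport: apply the hypothesis to the sum of the L i; Zf_iSup_mem and Submodule.iSup_induction.
-/

open scoped ComplexOrder Topology ContDiff Matrix.Norms.L2Operator
open Matrix Filter Module

set_option linter.unusedSectionVars false

namespace Pool.Agent.Work.MP_2482e4_mp.Gn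

variable {n : Type} [Fintype n] [DecidableEq n]

theorem Asm_fin {ι : Type} [Fintype ι] {H : Mt n} {𝒜 : Set (Mt n)} (L B : ι → Submodule ℝ (Mt n))
    (h1 : ∀ i, ∀ X ∈ L i, X.IsHermitian) (h2 : ∀ i, IsLieTriple (L i : Set (Mt n)))
    (h3 : ∀ i j, i ≠ j → ∀ X ∈ L i, ∀ Y ∈ L j, Commute X Y) (h4 : ∀ i, B i ≤ L i)
    (h5 : H ∈ ⨆ i, L i) (h6 : ∀ A ∈ 𝒜, A ∈ ⨆ i, B i)
    (h7 : ∀ i, (∀ X ∈ L i, X ∈ 𝒜) ∨ (IsSpin (L i : Set (Mt n)) ∧ ∀ X ∈ B i, X ∈ 𝒜) ∨
      Module.finrank ℝ (B i) ≤ 1) : IsProductType H 𝒜 := by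
  let e := (Fintype.equivFin ι).symm
  refine ⟨_, fun i => L (e i), fun i => B (e i), fun i => h1 _, fun i => h2 _,
    fun i j hij => h3 _ _ (e.injective.ne hij), fun i => h4 _, ?_, fun A hA => ?_, fun i => h7 _⟩
  · rwa [e.iSup_comp (g := L)]
  · rw [e.iSup_comp (g := B)]
    exact h6 A hA

theorem Asm_ind {W : Submodule ℝ (Mt n)} {h : Mt n} {p : Mt n → Prop} (h1 : ∀ A ∈ W, p A)
    (h2 : ∀ c : ℝ, p (c • h)) (h3 : ∀ X Y, p X → p Y → p (X + Y)) :
    ∀ Y ∈ W ⊔ Submodule.span ℝ {h}, p Y := by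
  intro Y hY
  obtain ⟨A, hA, Z, hZ, rfl⟩ := Submodule.mem_sup.1 hY
  obtain ⟨c, rfl⟩ := Submodule.mem_span_singleton.1 hZ
  exact h3 _ _ (h1 A hA) (h2 c)

theorem Asm_sup {W : Submodule ℝ (Mt n)} {h X : Mt n} (h1 : ∀ A ∈ W, Commute X A)
    (h2 : Commute X h) : ∀ Y ∈ W ⊔ Submodule.span ℝ {h}, Commute X Y :=
  Asm_ind h1 (fun c => h2.smul_right c) fun _ _ => Commute.add_right

theorem Asm_pow {c g X : Mt n} (h1 : Commute g c) (h2 : Commute g X) (N : ℕ) :
    (ad (c + g) ^ N) X = (ad c ^ N) X ∧ Commute g ((ad c ^ N) X) := by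
  induction N with
  | zero => exact ⟨rfl, h2⟩
  | succ N ih =>
    rw [ad_pow_succ, ad_pow_succ, ih.1]
    refine ⟨?_, commute_lie h1 ih.2⟩
    rw [Ring.lie_def, Ring.lie_def, add_mul, mul_add, ih.2.eq]
    abel

theorem Hull.prod {𝒜 : Submodule ℝ (Mt n)} {S : Set (Mt n)} (hS : Hull 𝒜 S) {H : Mt n}
    (hH : H ∈ S) : IsProductType H (𝒜 : Set (Mt n)) := by
  obtain ⟨A₀, hA₀, hp⟩ := exists_proj 𝒜 H
  have h1 : H - A₀ ∈ S := by
    rw [sub_eq_add_neg]
    exact hS.transl H hH _ (neg_mem hA₀)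
  obtain ⟨r, W, hW, hle, ort, orc⟩ := exists_irr hS.hermA (hS.lts ⟨H, hH⟩)
  choose h hh hl hs hc hH' hC hX using fun j => hS.one_factor h1 hp (hW j)
  have WW : ∀ i j, i ≠ j → ∀ X ∈ W i, ∀ Y ∈ W j, Commute X Y := fun i j hij X hX Y hY =>
    (hW i).perp Y ((hW j).le hY) (fun A hA => ort i j hij A hA Y hY) X hX
  have Wh : ∀ i j, i ≠ j → ∀ Y ∈ W j, Commute Y (h i) := fun i j hij Y hY =>
    hC i Y ((hW j).le hY) fun A hA => ort i j hij A hA Y hY
  have h2 : ∀ i j, Commute (h i) (h j) := fun i j => by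
    rcases eq_or_ne i j with rfl | hij
    · exact Commute.refl _
    · exact hX j (h i) (fun A hA => (Wh i j hij A hA).symm) (hH' i).symm
  have Zh : ∀ Z ∈ cen 𝒜, ∀ j, Commute Z (h j) := fun Z hZ j =>
    hC j Z hZ.1 fun A hA => orc j A hA Z hZ
  obtain ⟨G, hG⟩ : ∃ G, G = H - A₀ - ∑ j, h j := ⟨_, rfl⟩
  have Gh : ∀ j, Commute G (h j) := fun j => by
    rw [hG]
    exact (hH' j).sub_left (Commute.sum_left _ _ _ fun i _ => h2 i j)
  have GW : ∀ j, ∀ Y ∈ W j, Commute G Y := fun j Y hY => by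
    rw [hG, ← Finset.add_sum_erase _ _ (Finset.mem_univ j), ← sub_sub]
    exact (hc j Y hY).sub_left (Commute.sum_left _ _ _ fun i hi =>
      (Wh i j (Finset.ne_of_mem_erase hi) Y hY).symm)
  have hZ : ∀ A ∈ cen 𝒜, A.IsHermitian := fun A hA => hS.hermA A hA.1
  obtain ⟨m, Q, d, hJ⟩ := exists_joint hZ fun A hA B hB => hA.2 B hB.1
  have gZ : ∀ A ∈ cen 𝒜, Commute (∑ j, h j) A := fun A hA =>
    Commute.sum_left _ _ _ fun j _ => (Zh A hA j).symm
  have gG : Commute (∑ j, h j) G := Commute.sum_left _ _ _ fun j _ => (Gh j).symm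
  have g0 := hJ.comp_of_weight (X := ∑ j, h j) (β := 0) fun A => by
    rw [LinearMap.zero_apply, zero_smul]
    exact lie_eq_zero_iff.2 (gZ A A.2).symm
  have e1 : H - A₀ = G + ∑ j, h j := by rw [hG, sub_add_cancel]
  have Gs : G.IsHermitian := by
    rw [hG]
    exact (hS.herm _ h1).sub (isSelfAdjoint_sum _ fun j _ => hh j)
  obtain ⟨r', L, a, ha, l1, l2, l3, l4, l5, l6⟩ := abel_dec hZ hJ Gs fun N α β hαβ => by
    have := hS.comm_pow hJ N h1 hαβ
    simp only [e1, map_add] at this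
    rwa [g0.1, g0.2 α (hαβ.ne_zero 0), g0.2 β (hαβ.ne_zero 1), map_zero, add_zero, add_zero,
      (Asm_pow (hJ.commute_comp gZ gG 0) (hJ.commute_comp gZ gG α) N).1] at this
  have LL : ∀ j, ∀ X ∈ W j ⊔ Submodule.span ℝ {h j}, ∀ i, ∀ Y ∈ L i, Commute X Y :=
    fun j X hX => l6 X (fun A hA => (Asm_sup (fun B hB => hA.2 B ((hW j).le hB)) (Zh A hA j)
      X hX).symm) (Asm_sup (GW j) (Gh j) X hX).symm
  have b4 : ∀ i, Sum.elim W (fun i => Submodule.span ℝ {a i}) i ≤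
      Sum.elim (fun j => W j ⊔ Submodule.span ℝ {h j}) L i := by
    rintro (j | i)
    · exact le_sup_left
    · exact (Submodule.span_singleton_le_iff_mem _ _).2 (ha i)
  have b6 : ∀ A ∈ 𝒜, A ∈ ⨆ i, Sum.elim W (fun i => Submodule.span ℝ {a i}) i := fun A hA => by
    rw [iSup_sum, sup_comm]
    exact sup_le_sup_right l5 _ (hle hA)
  refine Asm_fin _ _ ?_ ?_ ?_ b4 ?_ b6 ?_
  · rintro (j | i)
    · exact Asm_ind (fun A hA => hS.hermA A ((hW j).le hA))
        (fun c => IsSelfAdjoint.smul (IsSelfAdjoint.all c) (hh j)) fun _ _ => IsHermitian.add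
    · exact l1 i
  · rintro (j | i)
    · exact hl j
    · exact l2 i
  · rintro (i | i) (j | j) hij X hX Y hY
    · have hij' : i ≠ j := fun e => hij (congrArg _ e)
      exact Asm_sup (fun B hB => (Asm_sup (fun A hA => WW j i hij'.symm B hB A hA)
        (Wh i j hij' B hB) X hX).symm) (Asm_sup (fun A hA => (Wh j i hij'.symm A hA).symm)
          (h2 j i) X hX).symm Y hY
    · exact LL i X hX j Y hY
    · exact (LL j Y hY i X hX).symm
    · exact l3 i j (fun e => hij (congrArg _ e)) X hX Y hY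
  · rw [show H = G + ∑ j, h j + A₀ by rw [← e1, sub_add_cancel]]
    refine add_mem (add_mem ?_ (sum_mem fun j _ => ?_)) (iSup_mono b4 (b6 A₀ hA₀))
    · rw [iSup_sum]
      exact Submodule.mem_sup_right l4
    · exact Submodule.mem_iSup_of_mem (Sum.inl j)
        (Submodule.mem_sup_right (Submodule.mem_span_singleton_self _))
  · rintro (j | i)
    · rcases hs j with e | e
      · refine Or.inl (Asm_ind (fun A hA => (hW j).le hA) (fun c => ?_) fun _ _ => 𝒜.add_mem)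
        rw [e, smul_zero]
        exact 𝒜.zero_mem
      · exact Or.inr (Or.inl ⟨e, fun X hX => (hW j).le hX⟩)
    · refine Or.inr (Or.inr ?_)
      exact (finrank_span_le_card (R := ℝ) ({a i} : Set (Mt n))).trans (by simp)

theorem prod_transport {w : ℝ → ℝ} (hw : ∀ x, w (-x) = w x) {𝒜 : Set (Mt n)} {H H' : Mt n}
    (h : IsProductType H' 𝒜)
    (ht : ∀ L : Submodule ℝ (Mt n), (∀ X ∈ L, X.IsHermitian) → H' ∈ L →
      (∀ X ∈ L, ∀ A ∈ 𝒜, Zf w X A ∈ L) → H ∈ L) : IsProductType H 𝒜 := by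
  obtain ⟨r, L, B, h1, h2, h3, h4, h5, h6, h7⟩ := h
  refine ⟨r, L, B, h1, h2, h3, h4, ht _ (fun X hX => ?_) h5 fun X hX A hA => ?_, h6, h7⟩
  · exact Submodule.iSup_induction L (motive := fun X => X.IsHermitian) hX h1 isHermitian_zero
      fun _ _ => IsHermitian.add
  · refine Submodule.iSup_induction B (motive := fun A => Zf w X A ∈ ⨆ i, L i) (h6 A hA)
      (fun i Y hY => ?_) (by simp) fun Y Z hY hZ => ?_
    · obtain ⟨g, -, -, -, hg⟩ := Zf_iSup_mem hw h1 h2 h3 hX i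
      exact Submodule.mem_iSup_of_mem i (hg Y (h4 i hY)).2
    · rw [map_add]
      exact add_mem hY hZ

end Pool.Agent.Work.MP_2482e4_mp.Gn
end

-- merged part: Pool.Agent.Work.MP_2482e4_mp.Gn.Leaf
section
/-!
From an autoparallel submanifold to a leaf in logarithmic coordinates.
-/

open scoped ComplexOrder Topology ContDiff Matrix.Norms.L2Operator
open Matrix Filter Module

set_option linter.unusedSectionVars false

namespace Pool.Agent.Work.MP_2482e4_mp.Gn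

variable {n : Type} [Fintype n] [DecidableEq n]

variable {E : Type} [NormedAddCommGroup E] [NormedSpace ℝ E] [FiniteDimensional ℝ E]
variable {ι : E →ₗ[ℝ] Mt n} {g : E → E →L[ℝ] E →L[ℝ] ℝ} {f : ℝ → ℝ}

theorem exists_Zc [Nonempty n] (hι : IsHermModel ι) (hg : IsPetz ι f g) (hf : ∀ t, 0 < t → 0 < f t)
    (hfs : ∀ t, 0 < t → f t = t * f t⁻¹) (hsm : ∀ q ∈ states ι, ContDiffAt ℝ ∞ g q) :
    ∃ Z : E → E →L[ℝ] E, ContDiff ℝ ∞ Z ∧ (∀ x, (Z x).IsInvertible) ∧
      ∀ x a, ι (Z x a) = Zf (wf f) (ι x) (ι a) := by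
  have hst : ∀ x, chi ι x ∈ states ι := fun x => nrm_states hι (ex_posDef hι x)
  obtain ⟨K, -, hK⟩ := exists_K hι hg hf hfs (hst 0).1 (hsm _ (hst 0))
  have hKc : ∀ q ∈ states ι, ContDiffAt ℝ ∞ K q := fun q hq => by
    obtain ⟨K', h1, h2⟩ := exists_K hι hg hf hfs hq.1 (hsm q hq)
    refine h1.congr_of_eventuallyEq ?_
    filter_upwards [posDef_near hι hq.1] with p hp
    obtain ⟨U, d, hU, hx, hd⟩ := exists_Dg_pos hp
    ext a
    exact hι.1 (by rw [hK p U d hU hx hd, h2 p U d hU hx hd])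
  have key : ∀ x a, ι (fderiv ℝ (lg ι) (chi ι x) (K (chi ι x) a)) = Zf (wf f) (ι x) (ι a) := by
    intro x a
    obtain ⟨U, y, hU, hy⟩ := exists_Dg (herm_ι hι x)
    have hT := trL_pos (ex_posDef hι x)
    have h1 : ι (chi ι x) = Dg U fun i => (trL ι (ex ι x))⁻¹ * Real.exp (y i) := by
      rw [chi, nrm, map_smul, ι_ex_Dg hι hU hy, Dg_smul]
    have h2 : ∀ i, 0 < (trL ι (ex ι x))⁻¹ * Real.exp (y i) := fun i => by positivity
    rw [ι_fderiv_lg hι hU h1 h2, hK _ U _ hU h1 h2, Sch_Sch hU, hy, Zf_Dg hU]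
    refine Sch_congr (fun i j => ?_) _
    have h3 := wt_eq f (Real.log ((trL ι (ex ι x))⁻¹ * Real.exp (y i)))
      (Real.log ((trL ι (ex ι x))⁻¹ * Real.exp (y j)))
    have h4 : Real.log ((trL ι (ex ι x))⁻¹ * Real.exp (y i)) -
        Real.log ((trL ι (ex ι x))⁻¹ * Real.exp (y j)) = y i - y j := by
      rw [Real.log_mul (by positivity) (by positivity), Real.log_mul (by positivity) (by positivity),
        Real.log_exp, Real.log_exp]
      ring
    rw [Real.exp_log (h2 i), Real.exp_log (h2 j), h4] at h3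
    rw [wf, ← h3, mul_inv, inv_inv, mul_comm]
  refine ⟨fun x => (fderiv ℝ (lg ι) (chi ι x)).comp (K (chi ι x)), contDiff_iff_contDiffAt.2
    fun x => ?_, fun x => ?_, key⟩
  · have h1 : ContDiffAt ℝ ∞ (chi ι) x := (chi_cd hι x).of_le le_top
    exact (((lg_cd hι (hst x).1).fderiv_right (m := ∞) le_top).comp x h1).clm_comp
      ((hKc _ (hst x)).comp x h1)
  · have hinj : Function.Injective
        ((fderiv ℝ (lg ι) (chi ι x)).comp (K (chi ι x))).toLinearMap := fun a b h => by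
      obtain ⟨U, y, hU, hy⟩ := exists_Dg (herm_ι hι x)
      have h1 : Zf (wf f) (ι x) (ι a) = Zf (wf f) (ι x) (ι b) := by
        rw [← key, ← key]
        exact congrArg ι h
      rw [hy, Zf_Dg hU, Zf_Dg hU] at h1
      exact hι.1 (Sch_inj hU (fun i j => (wf_pos hf _).ne') h1)
    exact ⟨(LinearEquiv.ofInjectiveEndo _ hinj).toContinuousLinearEquiv, rfl⟩

theorem chi_mem_iff [Nonempty n] (hι : IsHermModel ι) (hg : IsPetz ι f g)
    (hf : ∀ t, 0 < t → 0 < f t) (hfs : ∀ t, 0 < t → f t = t * f t⁻¹) {ρ : E} (hρ : ρ ∈ states ι)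
    {V : Submodule ℝ E} (hV : ∀ X ∈ V, trL ι X = 0) (x v : E) :
    fderiv ℝ (chi ι) x v ∈ orth (trL ι) (g (chi ι x)).flip (orth (trL ι) (g ρ) V) ↔
      ∃ C ∈ eRepS ι g ρ V, ι v = Zf (wf f) (ι x) C := by
  obtain ⟨U, y, hU, hy⟩ := exists_Dg (herm_ι hι x)
  have hw : ∀ u, wt f u ≠ 0 := fun u => inv_ne_zero (wf_pos hf u).ne' ∘ fun h => by
    rw [wf, inv_inv, h]
  rw [chi_D_iff hι hg hfs (petz_pos hι hg hf hρ.1) hV hU hy, hy]
  constructor
  · intro h
    refine ⟨_, h, ?_⟩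
    rw [Zf_Dg hU, Sch_Sch hU, Sch_congr (l := fun _ _ => 1)
      (k := fun i j => wf f (y i - y j) * wt f (y i - y j))
      (fun i j => inv_mul_cancel₀ (hw _)), Sch_one hU]
  · rintro ⟨C, hC, h⟩
    rw [h, Zf_Dg hU, Sch_Sch hU, Sch_congr (l := fun _ _ => 1)
      (k := fun i j => wt f (y i - y j) * wf f (y i - y j))
      (fun i j => mul_inv_cancel₀ (hw _)), Sch_one hU]
    exact hC

theorem stay_path {Z : E → E →L[ℝ] E} (hZ : ContDiff ℝ ∞ Z) (hi : ∀ x, (Z x).IsInvertible)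
    {L : Submodule ℝ E} {W : Set E} (hL : ∀ x ∈ L, ∀ a ∈ W, Z x a ∈ L) {y y' : ℝ → E}
    (hy : ∀ t ∈ Set.Icc (0 : ℝ) 1, HasDerivAt y (y' t) t) (hc : ContinuousOn y' (Set.Icc 0 1))
    (hW : ∀ t ∈ Set.Icc (0 : ℝ) 1, ∃ c ∈ W, y' t = Z (y t) c) (h0 : y 0 ∈ L) : y 1 ∈ L := by
  obtain ⟨Q, hQ, hQ'⟩ := exists_Q L
  have yc : ContinuousOn y (Set.Icc 0 1) := fun t ht => (hy t ht).continuousAt.continuousWithinAt
  have cc : ContinuousOn (fun t => (Z (y t)).inverse (y' t)) (Set.Icc 0 1) := fun t ht => by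
    have h1 : ContinuousAt (fun x => (Z x).inverse) (y t) :=
      ContinuousAt.comp (g := ContinuousLinearMap.inverse) (f := Z)
        ((hi (y t)).contDiffAt_map_inverse (n := 0)).continuousAt hZ.continuous.continuousAt
    exact (h1.comp_continuousWithinAt (yc t ht)).clm_apply (hc t ht)
  obtain ⟨B, hB⟩ := isCompact_Icc.exists_bound_of_continuousOn cc
  obtain ⟨B1, hB1⟩ := isCompact_Icc.exists_bound_of_continuousOn yc
  obtain ⟨B2, hB2⟩ := isCompact_Icc.exists_bound_of_continuousOn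
    (yc.sub (Q.continuous.comp_continuousOn yc))
  obtain ⟨K, hK⟩ := (hZ.contDiffOn (s := Metric.closedBall 0 (max B1 B2))).exists_lipschitzOnWith
    (by simp) (convex_closedBall _ _) (isCompact_closedBall _ _)
  refine (hQ _).1 (eq_zero_of_abs_deriv_le_mul_abs_self_of_eq_zero_right
    (f := fun t => Q (y t)) (f' := fun t => Q (y' t)) (K := ‖Q‖ * K * B) (a := 0) (b := 1)
    (Q.continuous.comp_continuousOn yc)
    (fun t ht => (Q.hasFDerivAt.comp_hasDerivAt t (hy t ⟨ht.1, ht.2.le⟩)).hasDerivWithinAt)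
    ((hQ _).2 h0) (fun t ht => ?_) 1 ⟨zero_le_one, le_rfl⟩)
  have ht' : t ∈ Set.Icc (0 : ℝ) 1 := ⟨ht.1, ht.2.le⟩
  obtain ⟨c, hcW, hc'⟩ := hW t ht'
  have h1 : ‖c‖ ≤ B := by
    have := hB t ht'
    rwa [((hi (y t)).inverse_apply_eq (x := c)).2 hc'] at this
  have h2 : Q (Z (y t - Q (y t)) c) = 0 := (hQ _).2 (hL _ (hQ' _) c hcW)
  have h3 : ‖Z (y t) - Z (y t - Q (y t))‖ ≤ K * ‖Q (y t)‖ := by
    have := hK.dist_le_mul (y t) (mem_closedBall_zero_iff.2 ((hB1 t ht').trans (le_max_left _ _)))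
      (y t - Q (y t)) (mem_closedBall_zero_iff.2 ((hB2 t ht').trans (le_max_right _ _)))
    rwa [dist_eq_norm, dist_eq_norm, sub_sub_cancel] at this
  calc ‖Q (y' t)‖ = ‖Q ((Z (y t) - Z (y t - Q (y t))) c)‖ := by
        rw [_root_.sub_apply, map_sub, h2, sub_zero, hc']
    _ ≤ ‖Q‖ * (‖Z (y t) - Z (y t - Q (y t))‖ * ‖c‖) :=
        (Q.le_opNorm _).trans (by gcongr; exact ContinuousLinearMap.le_opNorm _ _)
    _ ≤ ‖Q‖ * (K * ‖Q (y t)‖ * B) := by gcongr
    _ = _ := by ring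

theorem chi_lg (hι : IsHermModel ι) {p : E} (hp : p ∈ states ι) : chi ι (lg ι p) = p := by
  rw [chi, ex_lg hι hp.1, nrm, nrm_of_states hι hp]
  simp

theorem fderiv_lg_ex (hι : IsHermModel ι) (x v : E) :
    fderiv ℝ (lg ι) (ex ι x) (fderiv ℝ (ex ι) x v) = v := by
  have h1 := ((lg_cd hι (ex_posDef hι x)).differentiableAt (by simp)).hasFDerivAt.comp x
    ((ex_cd (ι := ι) x).differentiableAt (by simp)).hasFDerivAt
  have h2 : HasFDerivAt (lg ι ∘ ex ι) (ContinuousLinearMap.id ℝ E) x :=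
    (hasFDerivAt_id x).congr_of_eventuallyEq (Eventually.of_forall fun p => lg_ex hι p)
  exact congrArg (fun L : E →L[ℝ] E => L v) (h1.unique h2)

theorem lg_chi [Nonempty n] (hι : IsHermModel ι) (x : E) :
    ∃ c : ℝ, ι (lg ι (chi ι x)) = ι x + c • (1 : Mt n) := by
  obtain ⟨U, y, hU, hy⟩ := exists_Dg (herm_ι hι x)
  have hT := trL_pos (ex_posDef hι x)
  have h1 : ι (chi ι x) = Dg U fun i => (trL ι (ex ι x))⁻¹ * Real.exp (y i) := by
    rw [chi, nrm, map_smul, ι_ex_Dg hι hU hy, Dg_smul]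
  refine ⟨Real.log (trL ι (ex ι x))⁻¹, ?_⟩
  rw [(ι_lg_Dg hι hU h1 fun i => by positivity).1, hy]
  refine conj_ext hU fun i j => ?_
  rw [Matrix.mul_add, Matrix.add_mul, conj_Dg hU, conj_Dg hU, Matrix.mul_smul, Matrix.smul_mul,
    Matrix.mul_one, unit_comm hU]
  by_cases h : i = j
  · subst h
    simp only [diagonal_apply_eq, Matrix.add_apply, Matrix.smul_apply, one_apply_eq]
    rw [Real.log_mul (by positivity) (by positivity), Real.log_exp]
    simp [add_comm]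
  · simp [h]

theorem tangent_chi [Nonempty n] (hι : IsHermModel ι) {N O : Set E} (hNs : N ⊆ states ι)
    (hO : IsOpen O) {x v : E} (hx : chi ι x ∈ O)
    (h : fderiv ℝ (chi ι) x v ∈ tangent N (chi ι x)) :
    v ∈ tangent {y | chi ι y ∈ N ∧ chi ι y ∈ O} x := by
  rw [fderiv_chi hι] at h
  obtain ⟨γ, h0, h1, h2⟩ := tangent_cone (fun q hq => nrm_of_states hι (hNs hq))
    (trL_pos (ex_posDef hι x)) h
  have h3 : HasDerivAt (fun t => lg ι (γ t)) v 0 := by
    have := HasFDerivAt.comp_hasDerivAt_of_eq (0 : ℝ)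
      ((lg_cd hι (ex_posDef hι x)).differentiableAt (by simp)).hasFDerivAt h2 h0.symm
    rwa [fderiv_lg_ex hι] at this
  have h4 : lg ι (γ 0) = x := by rw [h0, lg_ex hι]
  refine ⟨fun t => lg ι (γ t), h4, ?_, h3⟩
  have h5 : ContinuousAt (fun t => chi ι (lg ι (γ t))) 0 :=
    ContinuousAt.comp (f := fun t => lg ι (γ t)) (chi_cd hι _).continuousAt h3.continuousAt
  filter_upwards [h1, h5.eventually (hO.mem_nhds (by simpa only [h4] using hx))] with t ht ht'
  obtain ⟨c, hc, p, hp, e⟩ := ht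
  refine ⟨?_, ht'⟩
  rw [e, chi, ex_lg hι (smul_posDef (hNs hp).1 hc), nrm_smul (nrm_of_states hι (hNs hp)) hc.ne']
  exact hp

theorem leaf_of_adm (hι : IsHermModel ι) (hg : IsPetz ι f g) (hf : ∀ t, 0 < t → 0 < f t)
    (hfs : ∀ t, 0 < t → f t = t * f t⁻¹) (hf1 : f 1 = 1)
    (hsm : ∀ q ∈ states ι, ContDiffAt ℝ ∞ g q) {ρ : E} (hρ : ρ ∈ states ι) {V : Submodule ℝ E}
    (hV : ∀ X ∈ V, trL ι X = 0) (h : Admissible ι g ρ V) :
    ∃ N : Set (Mt n), Leaf (wf f) (eRepS ι g ρ V) N ∧ N.Nonempty ∧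
      ∀ H' ∈ N, ∀ L : Submodule ℝ (Mt n), (∀ X ∈ L, X.IsHermitian) → H' ∈ L →
        (∀ X ∈ L, ∀ A ∈ eRep ι g ρ V, Zf (wf f) X A ∈ L) → ι (lg ι ρ) ∈ L := by
  have := nonempty_of_states hρ
  obtain ⟨N, hNs, hNm, hauto, hρN, hT⟩ := h
  obtain ⟨Φ, F, hρs, hΦ, hΦ', hN⟩ := hNm ρ hρN
  have hA := tangent_eq_near (trL_iff hι) (fun q hq => nrm_of_states hι (hNs hq))
    (fun q hq => hsm q (hNs hq)) (fun q hq => petz_pos hι hg hf (hNs hq).1) hρs hΦ hΦ' hN hauto
    hρN hT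
  obtain ⟨r, hr, hball⟩ := Metric.eventually_nhds_iff_ball.1
    (((Φ.tendsto_symm hρs).eventually (eventually_nhdsWithin_iff.1 hA)).and
      (Φ.open_target.mem_nhds (Φ.map_source hρs)))
  obtain ⟨Z, hZ, hZi, hZι⟩ := exists_Zc hι hg hf hfs hsm
  obtain ⟨Q, hQ, -⟩ := exists_Q F
  set O := Φ.source ∩ Φ ⁻¹' Metric.ball (Φ ρ) r with hO
  have hOo : IsOpen O := Φ.isOpen_inter_preimage Metric.isOpen_ball
  set M := {y | chi ι y ∈ N ∧ chi ι y ∈ O} with hM
  have hD : ∀ x ∈ M, ∀ v, fderiv ℝ (chi ι) x v ∈ tangent N (chi ι x) ↔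
      ∃ C ∈ eRepS ι g ρ V, ι v = Zf (wf f) (ι x) C := fun x hx v => by
    have h1 := (hball _ hx.2.2).1
    rw [Φ.left_inv hx.2.1] at h1
    rw [h1 hx.1, SetLike.mem_coe, chi_mem_iff hι hg hf hfs hρ hV]
  have hcd : ∀ x ∈ M, ContDiffAt ℝ ∞ (fun y => Q (Φ (chi ι y))) x := fun x hx =>
    Q.contDiff.contDiffAt.comp x ((chart_cd hΦ hx.2.1).comp x ((chi_cd hι x).of_le le_top))
  have hh : ∀ x ∈ M, ∀ v, fderiv ℝ (fun y => Q (Φ (chi ι y))) x v = 0 ↔
      ∃ C ∈ eRepS ι g ρ V, ι v = Zf (wf f) (ι x) C := fun x hx v => by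
    have h1 : HasFDerivAt (fun y => Q (Φ (chi ι y))) _ x := Q.hasFDerivAt.comp x
      (((chart_cd hΦ hx.2.1).differentiableAt (by simp)).hasFDerivAt.comp x
        ((chi_cd hι x).differentiableAt (by simp)).hasFDerivAt)
    rw [h1.fderiv, ← hD x hx, tangent_iff hΦ hΦ' hN hx.2.1 hx.1, ← hQ]
    rfl
  have hZA : ∀ x, ∀ A ∈ eRepS ι g ρ V, ι (Z x (jL ι A)) = Zf (wf f) (ι x) A := fun x A hA => by
    rw [hZι, ι_jL hι hA.1]
  have htan : ∀ x ∈ M, ∀ A ∈ eRepS ι g ρ V, Z x (jL ι A) ∈ tangent M x := fun x hx A hA =>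
    tangent_chi hι hNs hOo hx.2 ((hD x hx _).2 ⟨A, hA, hZA x A hA⟩)
  refine ⟨ι '' M, ⟨?_, ?_, ?_⟩, ⟨_, lg ι ρ, ?_, rfl⟩, ?_⟩
  · rintro _ ⟨x, -, rfl⟩
    exact herm_ι hι x
  · rintro _ ⟨x, hx, rfl⟩ A hA
    obtain ⟨γ, h0, h1, h2⟩ := htan x hx A hA
    refine ⟨fun t => ι (γ t), by simp only [h0], h1.mono fun t ht => ⟨_, ht, rfl⟩, ?_⟩
    rw [← hZA x A hA]
    exact (iL ι).hasFDerivAt.comp_hasDerivAt 0 h2
  · rintro _ ⟨x, hx, rfl⟩ A hA B hB γ δ X Y γ0 δ0 γN δN γd δd hX hY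
    have hd : ∀ a, DifferentiableAt ℝ (fun y => Z y a) x := fun a =>
      (hZ.differentiable (by simp) x).clm_apply (differentiableAt_const a)
    have one : ∀ A ∈ eRepS ι g ρ V, ∀ B ∈ eRepS ι g ρ V, ∀ (γ : ℝ → Mt n) (X : Mt n), γ 0 = ι x →
        (∀ᶠ s in 𝓝 (0 : ℝ), γ s ∈ ι '' M) → HasDerivAt γ (Zf (wf f) (ι x) A) 0 →
        HasDerivAt (fun s => Zf (wf f) (γ s) B) X 0 →
        X = ι (fderiv ℝ (fun y => Z y (jL ι B)) x (Z x (jL ι A))) := by
      intro A hA B hB γ X γ0 γN γd hX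
      have h1 : HasDerivAt (fun s => jL ι (γ s)) (Z x (jL ι A)) 0 := by
        have := (jL ι).hasFDerivAt.comp_hasDerivAt 0 γd
        rwa [← hZA x A hA, jL_ι hι] at this
      have h2 := (iL ι).hasFDerivAt.comp_hasDerivAt 0 (HasFDerivAt.comp_hasDerivAt_of_eq (0 : ℝ)
        (hd (jL ι B)).hasFDerivAt h1 (by simp only [γ0, jL_ι hι]))
      refine hX.unique (h2.congr_of_eventuallyEq ?_)
      filter_upwards [γN] with s hs
      obtain ⟨y, -, hy⟩ := hs
      simp only [Function.comp_apply, iL_apply, ← hy, jL_ι hι, hZA y B hB]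
    have key := VectorField.fderiv_apply_lieBracket (V := fun y => Z y (jL ι A))
      (W := fun y => Z y (jL ι B)) ((hcd x hx).of_le (m := 2) (by decide)) (by simp) (hd _) (hd _)
    have z : ∀ A ∈ eRepS ι g ρ V, ∀ᶠ y in 𝓝[M] x,
        fderiv ℝ (fun y => Q (Φ (chi ι y))) y (Z y (jL ι A)) = 0 := fun A hA =>
      eventually_nhdsWithin_of_forall fun y hy => (hh y hy _).2 ⟨A, hA, hZA y A hA⟩
    rw [fderiv_tangent_zero (z B hB) (htan x hx A hA), fderiv_tangent_zero (z A hA) (htan x hx B hB),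
      sub_zero] at key
    obtain ⟨C, hC, e⟩ := (hh x hx _).1 key
    refine ⟨C, hC, ?_⟩
    rw [one A hA B hB γ X γ0 γN γd hX, one B hB A hA δ Y δ0 δN δd hY, ← e, ← map_sub]
    rfl
  · simp only [hM, Set.mem_ofPred_eq, chi_lg hι hρ]
    exact ⟨hρN, hρs, Metric.mem_ball_self hr⟩
  · rintro _ ⟨x, hx, rfl⟩ L hL hxL hinv
    set p := chi ι x with hp
    have hl : ∀ t : ℝ, HasDerivAt (fun t : ℝ => Φ p + t • (Φ ρ - Φ p)) (Φ ρ - Φ p) t := fun t => by
      simpa using ((hasDerivAt_id t).smul_const (Φ ρ - Φ p)).const_add (Φ p)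
    have hb : ∀ t ∈ Set.Icc (0 : ℝ) 1, Φ p + t • (Φ ρ - Φ p) ∈ Metric.ball (Φ ρ) r := fun t ht =>
      (convex_ball (Φ ρ) r).add_smul_sub_mem hx.2.2 (Metric.mem_ball_self hr) ht
    have hF : ∀ t : ℝ, Φ p + t • (Φ ρ - Φ p) ∈ F := fun t =>
      F.add_mem ((hN p hx.2.1).1 hx.1)
        (F.smul_mem t (F.sub_mem ((hN ρ hρs).1 hρN) ((hN p hx.2.1).1 hx.1)))
    have hq : ∀ z ∈ Metric.ball (Φ ρ) r, z ∈ F → Φ.symm z ∈ N ∧ Φ.symm z ∈ O := fun z hz hzF => by
      have h1 := (hball z hz).2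
      refine ⟨?_, Φ.map_target h1, ?_⟩
      · rwa [hN _ (Φ.map_target h1), Φ.right_inv h1]
      · rwa [Set.mem_preimage, Φ.right_inv h1]
    have hc : ∀ t ∈ Set.Icc (0 : ℝ) 1,
        ContDiffAt ℝ ∞ (fun z => lg ι (Φ.symm z)) (Φ p + t • (Φ ρ - Φ p)) := fun t ht =>
      ((lg_cd hι (hNs (hq _ (hb t ht) (hF t)).1).1).of_le le_top).comp _
        (chart_cd' hΦ' (hball _ (hb t ht)).2)
    have hy : ∀ t ∈ Set.Icc (0 : ℝ) 1, HasDerivAt (fun t : ℝ => lg ι (Φ.symm (Φ p + t • (Φ ρ - Φ p))))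
        (fderiv ℝ (fun z => lg ι (Φ.symm z)) (Φ p + t • (Φ ρ - Φ p)) (Φ ρ - Φ p)) t := fun t ht => by
      have := ((hc t ht).differentiableAt (by simp)).hasFDerivAt.comp_hasDerivAt t (hl t)
      exact this
    have := stay_path hZ hZi (L := L.comap ι) (W := {a | ι a ∈ eRep ι g ρ V})
      (fun x hx a ha => by
        rw [Submodule.mem_comap, hZι]
        exact hinv _ hx _ ha) hy
      (fun t ht => ((((hc t ht).fderiv_right (m := 0) (by simp)).continuousAt.comp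
        (f := fun t : ℝ => Φ p + t • (Φ ρ - Φ p)) (hl t).continuousAt).clm_apply
          continuousAt_const).continuousWithinAt)
      (fun t ht => ?_) ?_
    · simpa [Φ.left_inv hρs] using this
    · have h1 := hq _ (hb t ht) (hF t)
      have h2 := chi_lg hι (hNs h1.1)
      obtain ⟨C, hC, e⟩ := (hD (lg ι (Φ.symm (Φ p + t • (Φ ρ - Φ p)))) (by
        simp only [hM, Set.mem_ofPred_eq, h2]
        exact h1) (fderiv ℝ (fun z => lg ι (Φ.symm z)) (Φ p + t • (Φ ρ - Φ p)) (Φ ρ - Φ p))).1 (by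
        have h3 := ((chi_cd hι _).differentiableAt (by simp)).hasFDerivAt.comp_hasDerivAt t (hy t ht)
        refine ⟨fun s => chi ι (lg ι (Φ.symm (Φ p + (t + s) • (Φ ρ - Φ p)))), by simp, ?_, ?_⟩
        · have h4 : ContinuousAt (fun s : ℝ => Φ p + (t + s) • (Φ ρ - Φ p)) 0 := by fun_prop
          filter_upwards [h4.eventually (Metric.isOpen_ball.mem_nhds (by simpa using hb t ht))]
            with s hs
          have h5 := (hq _ hs (hF _)).1
          rwa [chi_lg hι (hNs h5)]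
        · exact HasDerivAt.comp_const_add t 0 (by rw [add_zero]; exact h3))
      exact ⟨jL ι C, by rw [Set.mem_ofPred_eq, ι_jL hι hC.1]; exact hC,
        hι.1 (by rw [e, hZA _ C hC])⟩
    · obtain ⟨c, hc⟩ := lg_chi hι x
      have h1 := hinv _ hxL 1 (one_mem_eRep ρ V)
      rw [Zf_of_commute _ (herm_ι hι x) (Commute.one_right _), wf_zero hf1, one_smul] at h1
      simp only [zero_smul, add_zero, Submodule.mem_comap]
      rw [hp, Φ.left_inv hx.2.1, hc]
      exact L.add_mem hxL (L.smul_mem c h1)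

end Pool.Agent.Work.MP_2482e4_mp.Gn
end

-- merged part: Pool.Agent.Work.MP_2482e4_mp.Gn.Cartan
section
/-!
The geodesic umbrella of a flat connection with torsion.
Plan. smooth_flow: global solutions exist for a Lipschitz field (truncate nothing: `SpunKnot.FlowAAux.core` gives the time-one
map; for `φ (t, x)` use the field `(s, (τ, x)) ↦ (0, (b τ * τ) • X x)` with a bump `b` equal to one near `t₀`, as in
`odeAux_smooth` of Work/MP_8c604c_gt/ODE; existence of the flow as in `exists_flow` of Work/MP_05654f_an/Flow or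
Work/MP_8c604c_gt/ODE, which may be imported).
cartan: on `E × E` take `X (x, a) = (χ (x, a) • Z x a, 0)` with a `ContDiffBump` `χ` centred at `(x₀, 0)`; `φ` its flow,
`c (t, a) = (φ (t, (x₀, a))).1`, `Γ a = c (1, a)`. The second component stays `a`; `c (t, 0) = x₀` by uniqueness; by the tube lemma
(`IsCompact.eventually_forall_of_forall_eventually`) for `a` near `0` the curve stays where `χ = 1` near the point for
`t ∈ [0, 1]`. `c (t, a) ∈ L` for `a ∈ W` (`stay_lin`: project along `L`, Gronwall, the field is Lipschitz and tangent to `L` on `L`).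
`J t = fderiv (fun a => c (t, a)) a b` solves `J' = fderiv Z (c t) (J t) a + Z (c t) b` (exchange of derivatives as in
`hasDerivAt_fderiv` of Work/MP_c4e502_gt/Calc, copy it). `j t = (Z (c t)).inverse (J t)` is differentiable
(`IsInvertible.contDiffAt_map_inverse`) and `j' = b - T t (j t)` with
`T t u = (Z c).inverse (fderiv Z c (Z c a) u - fderiv Z c (Z c u) a)`, a linear map that keeps `W`; `j 0 = 0`; `stay_lin` again.
At `a = 0`: `J' = Z x₀ b`, so `fderiv Γ 0 b = Z x₀ b`.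
-/

open scoped Topology ContDiff
open Filter Set

set_option linter.unusedSectionVars false

namespace Pool.Agent.Work.MP_2482e4_mp.Gn

variable {E : Type} [NormedAddCommGroup E] [NormedSpace ℝ E] [FiniteDimensional ℝ E]

theorem Cartan_sol {X : E → E} (hX : ContDiff ℝ ∞ X) (hc : HasCompactSupport X) (T : ℝ) (x : E) :
    ∃ c : ℝ → E, 0 < T → c 0 = x ∧ ∀ t ∈ Ioo (-T) T, HasDerivAt c (X (c t)) t := by
  have : CompleteSpace E := FiniteDimensional.complete ℝ E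
  by_cases hT : 0 < T
  swap
  · exact ⟨fun _ => x, fun h => absurd h hT⟩
  obtain ⟨K, hK⟩ := hX.lipschitzWith_of_hasCompactSupport hc (by simp)
  obtain ⟨L, hL⟩ := hX.continuous.bounded_above_of_compact_support hc
  have hL0 : 0 ≤ L := (norm_nonneg _).trans (hL x)
  have hPL : IsPicardLindelof (fun _ x => X x) (tmin := -T) (tmax := T)
      ⟨0, by linarith, hT.le⟩ x ⟨L * T, by positivity⟩ 0 ⟨L, hL0⟩ K :=
    IsPicardLindelof.of_time_independent (fun y _ => hL y) hK.lipschitzOnWith (by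
      change L * max (T - 0) (0 - -T) ≤ L * T - 0
      simp)
  obtain ⟨c, c0, hc⟩ := hPL.exists_eq_forall_mem_Icc_hasDerivWithinAt₀
  exact ⟨c, fun _ => ⟨c0, fun t ht =>
    (hc t (Ioo_subset_Icc_self ht)).hasDerivAt (Icc_mem_nhds ht.1 ht.2)⟩⟩

theorem Cartan_glob {X : E → E} (hX : ContDiff ℝ ∞ X) (hc : HasCompactSupport X) :
    ∃ φ : ℝ → E → E, (∀ x, φ 0 x = x) ∧ ∀ t x, HasDerivAt (fun s => φ s x) (X (φ t x)) t := by
  obtain ⟨K, hK⟩ := hX.lipschitzWith_of_hasCompactSupport hc (by simp)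
  choose c hc using Cartan_sol hX hc
  have hm : ∀ t : ℝ, t ∈ Ioo (-(|t| + 1)) (|t| + 1) := fun t =>
    ⟨by linarith [neg_abs_le t], by linarith [le_abs_self t]⟩
  have hpos : ∀ t : ℝ, 0 < |t| + 1 := fun t => by positivity
  have hagree : ∀ x, ∀ T : ℝ, ∀ t ∈ Ioo (-T) T, c (|t| + 1) x t = c T x t := by
    intro x T t ht
    have hT : 0 < T := by linarith [ht.1, ht.2]
    have h1 := hc (|t| + 1) x (hpos t)
    have h2 := hc T x hT
    have hmin : 0 < min (|t| + 1) T := lt_min (hpos t) hT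
    have s1 : Ioo (-min (|t| + 1) T) (min (|t| + 1) T) ⊆ Ioo (-(|t| + 1)) (|t| + 1) :=
      Ioo_subset_Ioo (neg_le_neg (min_le_left _ _)) (min_le_left _ _)
    have s2 : Ioo (-min (|t| + 1) T) (min (|t| + 1) T) ⊆ Ioo (-T) T :=
      Ioo_subset_Ioo (neg_le_neg (min_le_right _ _)) (min_le_right _ _)
    refine ODE_solution_unique_of_mem_Ioo (v := fun _ => X) (s := fun _ => univ) (K := K) (t₀ := 0)
      (fun _ _ => hK.lipschitzOnWith) ⟨neg_lt_zero.2 hmin, hmin⟩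
      (fun r hr => ⟨h1.2 r (s1 hr), trivial⟩) (fun r hr => ⟨h2.2 r (s2 hr), trivial⟩)
      (h1.1.trans h2.1.symm) ?_
    exact ⟨neg_lt.1 (lt_min (neg_lt.1 (hm t).1) (neg_lt.1 ht.1)), lt_min (hm t).2 ht.2⟩
  refine ⟨fun t x => c (|t| + 1) x t, fun x => (hc _ x (hpos 0)).1, fun t x => ?_⟩
  refine ((hc _ x (hpos t)).2 t (hm t)).congr_of_eventuallyEq ?_
  filter_upwards [isOpen_Ioo.mem_nhds (hm t)] with s hs using hagree x _ s hs

theorem smooth_flow {X : E → E} (hX : ContDiff ℝ ∞ X) (hc : HasCompactSupport X) :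
    ∃ φ : ℝ × E → E, ContDiff ℝ ∞ φ ∧ (∀ x, φ (0, x) = x) ∧
      ∀ t x, HasDerivAt (fun s => φ (s, x)) (X (φ (t, x))) t := by
  have : CompleteSpace E := FiniteDimensional.complete ℝ E
  obtain ⟨φ, h0, hd⟩ := Cartan_glob hX hc
  refine ⟨fun p => φ p.1 p.2, contDiff_iff_contDiffAt.2 ?_, h0, hd⟩
  rintro ⟨t₀, x₀⟩
  let b : ContDiffBump t₀ := ⟨1, 2, one_pos, one_lt_two⟩
  obtain ⟨v, hv⟩ : ∃ v : ℝ × ℝ × E → ℝ × E,
      v = fun z => (0, (b z.2.1 * z.2.1) • X z.2.2) := ⟨_, rfl⟩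
  have sv : ContDiff ℝ ∞ v := by
    rw [hv]
    exact contDiff_const.prodMk
      (((b.contDiff.comp contDiff_snd.fst).mul contDiff_snd.fst).smul (hX.comp contDiff_snd.snd))
  obtain ⟨K, hK⟩ := SpunKnot.FlowAAux.exists_lip sv
    ((isCompact_closedBall t₀ 2).prod hc.isCompact) (by
    rintro s ⟨τ, x⟩ hz
    rw [hv]
    by_cases h : x ∈ tsupport X
    · have h1 : b.rOut ≤ dist τ t₀ := (not_le.1 fun h' => hz ⟨h', h⟩).le
      simp [b.zero_of_le_dist h1]
    · simp [image_eq_zero_of_notMem_tsupport h])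
  obtain ⟨Ξ, sΞ, hΞ⟩ := SpunKnot.FlowAAux.core sv hK
  refine (sΞ.snd.contDiffAt (x := (t₀, x₀))).congr_of_eventuallyEq ?_
  filter_upwards [prod_mem_nhds (Metric.closedBall_mem_nhds t₀ one_pos)
    (univ_mem (f := 𝓝 x₀))] with ⟨τ, x⟩ ⟨hτ, _⟩
  obtain ⟨γ, γ0, γ1, hγ⟩ := hΞ (τ, x)
  have hδ : ∀ s ∈ Icc (0 : ℝ) 1, HasDerivAt (fun s => (τ, φ (τ * s) x))
      (v (s, (fun s => (τ, φ (τ * s) x)) s)) s := by
    intro s _
    have a1 : HasDerivAt (fun s : ℝ => τ * s) τ s := by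
      simpa using (hasDerivAt_id s).const_mul τ
    have a2 := (hd (τ * s) x).scomp s a1
    have a4 : b τ = 1 := b.one_of_mem_closedBall hτ
    refine ((hasDerivAt_const s τ).prodMk a2).congr_deriv ?_
    simp only [hv, a4, one_mul]
  have := SpunKnot.FlowAAux.unique hK hγ hδ (by simp [γ0, h0 x])
  rw [← γ1, this, mul_one]

/-- A curve that starts in `L` and follows a Lipschitz field tangent to `L` stays in `L`. -/
theorem stay_lin {L : Submodule ℝ E} {γ : ℝ → E} {v : ℝ → E → E} {K : ℝ}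
    (hv : ∀ t ∈ Icc (0 : ℝ) 1, ∀ x y, ‖v t x - v t y‖ ≤ K * ‖x - y‖)
    (hL : ∀ t ∈ Icc (0 : ℝ) 1, ∀ x ∈ L, v t x ∈ L)
    (hγ : ∀ t ∈ Icc (0 : ℝ) 1, HasDerivAt γ (v t (γ t)) t) (h0 : γ 0 ∈ L) :
    ∀ t ∈ Icc (0 : ℝ) 1, γ t ∈ L := by
  obtain ⟨f, hf⟩ := Submodule.ClosedComplemented.of_finiteDimensional L
  obtain ⟨Q, hQ⟩ : ∃ Q : E →L[ℝ] E, ∀ x, Q x = x - (f x : E) :=
    ⟨ContinuousLinearMap.id ℝ E - L.subtypeL ∘L f, fun x => rfl⟩
  have q0 : ∀ x ∈ L, Q x = 0 := fun x hx => by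
    rw [hQ, hf ⟨x, hx⟩, sub_self]
  have hd : ∀ t ∈ Icc (0 : ℝ) 1, HasDerivAt (fun s => Q (γ s)) (Q (v t (γ t))) t := fun t ht =>
    Q.hasFDerivAt.comp_hasDerivAt t (hγ t ht)
  have key := eq_zero_of_abs_deriv_le_mul_abs_self_of_eq_zero_right (f := fun s => Q (γ s))
    (f' := fun t => Q (v t (γ t))) (K := ‖Q‖ * K) (a := 0) (b := 1)
    (fun t ht => (hd t ht).continuousAt.continuousWithinAt)
    (fun t ht => (hd t (Ico_subset_Icc_self ht)).hasDerivWithinAt) (q0 _ h0) (fun t ht => by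
      have ht' := Ico_subset_Icc_self ht
      have e : Q (v t (γ t)) = Q (v t (γ t) - v t (f (γ t))) := by
        rw [map_sub, q0 _ (hL t ht' _ (f (γ t)).2), sub_zero]
      rw [e, mul_assoc]
      refine (Q.le_opNorm _).trans (mul_le_mul_of_nonneg_left ?_ (norm_nonneg _))
      rw [hQ]
      exact hv t ht' _ _)
  intro t ht
  have := key t ht
  simp only [hQ] at this
  rw [sub_eq_zero.1 this]
  exact (f (γ t)).2

theorem Cartan_swap {c w : ℝ × E → E} (hc : ContDiff ℝ ∞ c)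
    (h : ∀ t p, HasDerivAt (fun s => c (s, p)) (w (t, p)) t) (t : ℝ) (p : E) :
    HasDerivAt (fun s => fderiv ℝ (fun r => c (s, r)) p) (fderiv ℝ (fun r => w (t, r)) p) t := by
  have hd := hc.differentiable (by simp)
  have hd1 := (hc.fderiv_right (m := ∞) le_rfl).differentiable (by simp)
  have e1 : ∀ s, fderiv ℝ (fun r => c (s, r)) p =
      (fderiv ℝ c (s, p)).comp (ContinuousLinearMap.inr ℝ ℝ E) := fun s =>
    ((hd _).hasFDerivAt.comp p (hasFDerivAt_prodMk_right s p)).fderiv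
  have e2 : ∀ r, w (t, r) = fderiv ℝ c (t, r) (1, 0) := fun r => by
    refine (h t r).unique ((hd (t, r)).hasFDerivAt.comp_hasDerivAt t ?_)
    exact (hasDerivAt_id t).prodMk (hasDerivAt_const t r)
  have e3 : HasFDerivAt (fun r => fderiv ℝ c (t, r) (1, 0)) _ p :=
    ((hd1 _).hasFDerivAt.comp p (hasFDerivAt_prodMk_right t p)).clm_apply (hasFDerivAt_const _ _)
  simp only [e1, e2, e3.fderiv]
  have e4 : HasDerivAt (fun s => fderiv ℝ c (s, p)) (fderiv ℝ (fderiv ℝ c) (t, p) (1, 0)) t :=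
    (hd1 (t, p)).hasFDerivAt.comp_hasDerivAt t ((hasDerivAt_id t).prodMk (hasDerivAt_const t p))
  refine (e4.clm_comp (hasDerivAt_const t _)).congr_deriv ?_
  ext v
  have := (hc.contDiffAt (x := (t, p))).isSymmSndFDerivAt
    (by
      simp only [minSmoothness_of_isRCLikeNormedField]
      exact WithTop.coe_le_coe.2 (le_top (a := (2 : ℕ∞))))
    (1, 0) (0, v)
  simp [this]

theorem Cartan_const {f : ℝ → E} {u : E} (h : ∀ t, HasDerivAt f u t) : f 1 = f 0 + u := by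
  have h1 : ∀ t, HasDerivAt (fun s : ℝ => f s - s • u) 0 t := fun t =>
    ((h t).sub ((hasDerivAt_id t).smul_const u)).congr_deriv (by simp)
  have := is_const_of_deriv_eq_zero (fun t => (h1 t).differentiableAt) (fun t => (h1 t).deriv) 1 0
  simp only [one_smul, zero_smul, sub_zero] at this
  rw [← this, sub_add_cancel]

/-- The family of geodesics of the truncated field. -/
theorem Cartan_fam {Z : E → E →L[ℝ] E} (hZ : ContDiff ℝ ∞ Z) (x₀ : E) :
    ∃ (χ : E × E → ℝ) (c : ℝ × E → E) (K : ℝ), ContDiff ℝ ∞ χ ∧ χ (x₀, 0) = 1 ∧ ContDiff ℝ ∞ c ∧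
      (∀ a, c (0, a) = x₀) ∧
      (∀ t a, HasDerivAt (fun s => c (s, a)) (χ (c (t, a), a) • Z (c (t, a)) a) t) ∧
      ∀ a x y, ‖χ (x, a) • Z x a - χ (y, a) • Z y a‖ ≤ K * ‖x - y‖ := by
  let χ : ContDiffBump ((x₀, 0) : E × E) := ⟨1, 2, one_pos, one_lt_two⟩
  have sF : ContDiff ℝ ∞ fun p : E × E => χ p • Z p.1 p.2 :=
    χ.contDiff.smul ((hZ.comp contDiff_fst).clm_apply contDiff_snd)
  have cF : HasCompactSupport fun p : E × E => χ p • Z p.1 p.2 :=
    χ.hasCompactSupport.smul_right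
  obtain ⟨K, hK⟩ := sF.lipschitzWith_of_hasCompactSupport cF (by simp)
  obtain ⟨φ, sφ, φ0, φd⟩ := smooth_flow (X := fun p : E × E => (χ p • Z p.1 p.2, (0 : E)))
    (sF.prodMk contDiff_const)
    (cF.comp_left (g := fun y : E => (y, (0 : E))) rfl)
  have e2 : ∀ t p, (φ (t, p)).2 = p.2 := fun t p => by
    have h1 : ∀ s, HasDerivAt (fun s => (φ (s, p)).2) 0 s := fun s =>
      (ContinuousLinearMap.snd ℝ E E).hasFDerivAt.comp_hasDerivAt s (φd s p)
    have := is_const_of_deriv_eq_zero (fun s => (h1 s).differentiableAt)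
      (fun s => (h1 s).deriv) t 0
    rw [this, φ0]
  refine ⟨χ, fun p => (φ (p.1, (x₀, p.2))).1, K, χ.contDiff,
    χ.one_of_mem_closedBall (Metric.mem_closedBall_self zero_le_one),
    (sφ.comp (contDiff_fst.prodMk (contDiff_const.prodMk contDiff_snd))).fst,
    fun a => by simp [φ0], fun t a => ?_, fun a x y => ?_⟩
  · have h1 := (ContinuousLinearMap.fst ℝ E E).hasFDerivAt.comp_hasDerivAt t (φd t (x₀, a))
    have e : φ (t, (x₀, a)) = ((φ (t, (x₀, a))).1, a) := Prod.ext rfl (e2 t _)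
    refine h1.congr_deriv ?_
    rw [e]
    rfl
  · have := hK.norm_sub_le (x, a) (y, a)
    simpa using this

theorem cartan {Z : E → E →L[ℝ] E} (hZ : ContDiff ℝ ∞ Z) (hi : ∀ x, (Z x).IsInvertible)
    {W L : Submodule ℝ E} {x₀ : E} (h0 : x₀ ∈ L) (hL : ∀ x ∈ L, ∀ a ∈ W, Z x a ∈ L)
    (hT : ∀ x ∈ L, ∀ a ∈ W, ∀ b ∈ W, ∃ c ∈ W,
      fderiv ℝ Z x (Z x a) b - fderiv ℝ Z x (Z x b) a = Z x c) :
    ∃ Γ : E → E, ContDiff ℝ ∞ Γ ∧ Γ 0 = x₀ ∧ (∀ b, fderiv ℝ Γ 0 b = Z x₀ b) ∧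
      ∀ᶠ a in 𝓝 (0 : E), a ∈ W → ∀ b ∈ W, ∃ c ∈ W, fderiv ℝ Γ a b = Z (Γ a) c := by
  have : CompleteSpace E := FiniteDimensional.complete ℝ E
  obtain ⟨χ, c, K, sχ, χ0, sc, c0, cd, hK⟩ := Cartan_fam hZ x₀
  have dZ := hZ.differentiable (by simp)
  have cz : ∀ t, c (t, 0) = x₀ := fun t => by
    have h1 : ∀ s, HasDerivAt (fun s => c (s, 0)) 0 s := fun s => by simpa using cd s 0
    have := is_const_of_deriv_eq_zero (fun s => (h1 s).differentiableAt)
      (fun s => (h1 s).deriv) t 0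
    rw [this, c0]
  have sl : ∀ t, ContDiff ℝ ∞ fun r => c (t, r) := fun t =>
    sc.comp (contDiff_const.prodMk contDiff_id)
  have hJ : ∀ a b, ∃ l : ℝ → ℝ, ∀ t, HasDerivAt (fun s => fderiv ℝ (fun r => c (s, r)) a b)
      (χ (c (t, a), a) • (fderiv ℝ Z (c (t, a)) (fderiv ℝ (fun r => c (t, r)) a b) a +
        Z (c (t, a)) b) + l t • Z (c (t, a)) a) t := by
    intro a b
    refine ⟨fun t => fderiv ℝ (fun r => χ (c (t, r), r)) a b, fun t => ?_⟩
    have h1 := (Cartan_swap (w := fun p => χ (c p, p.2) • Z (c p) p.2) sc cd t a).clm_apply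
      (hasDerivAt_const t b)
    refine h1.congr_deriv ?_
    have a1 := ((sl t).differentiable (by simp) a).hasFDerivAt
    have a2 : HasFDerivAt (fun r => χ (c (t, r), r)) (fderiv ℝ (fun r => χ (c (t, r), r)) a) a :=
      ((sχ.comp ((sl t).prodMk contDiff_id)).differentiable (by simp) a).hasFDerivAt
    have a3 := ((dZ (c (t, a))).hasFDerivAt.comp a a1).clm_apply (hasFDerivAt_id a)
    have a4 : HasFDerivAt (fun r => χ (c (t, r), r) • Z (c (t, r)) r) _ a := a2.smul a3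
    rw [a4.fderiv]
    simp [add_comm]
  have J0 : ∀ a b, fderiv ℝ (fun r => c (0, r)) a b = 0 := fun a b => by simp [c0]
  refine ⟨fun a => c (1, a), sl 1, cz 1, fun b => ?_, Eventually.of_forall fun a ha b hb => ?_⟩
  · obtain ⟨l, hl⟩ := hJ 0 b
    have := Cartan_const (u := Z x₀ b) (fun t => by simpa [cz, χ0] using hl t)
    rw [this, J0, zero_add]
  · obtain ⟨l, hl⟩ := hJ a b
    have cL : ∀ t ∈ Icc (0 : ℝ) 1, c (t, a) ∈ L :=
      stay_lin (γ := fun t => c (t, a)) (v := fun _ x => χ (x, a) • Z x a)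
        (fun _ _ => hK a) (fun _ _ x hx => L.smul_mem _ (hL x hx a ha)) (fun t _ => cd t a)
        (by simpa [c0] using h0)
    obtain ⟨Y, hY⟩ : ∃ Y : E → E →L[ℝ] E, Y = fun x => (Z x).inverse := ⟨_, rfl⟩
    have sY : ContDiff ℝ ∞ Y := by
      rw [hY]
      exact contDiff_iff_contDiffAt.2 fun x =>
        (hi x).contDiffAt_map_inverse.comp x hZ.contDiffAt
    have ZY : ∀ x u, Z x (Y x u) = u := fun x u => by
      rw [hY]
      exact (hi x).self_apply_inverse u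
    have YZ : ∀ x u, Y x (Z x u) = u := fun x u => by
      rw [hY]
      exact (hi x).inverse_apply_self u
    obtain ⟨A, hA⟩ : ∃ A : ℝ → E →L[ℝ] E, A = fun t => χ (c (t, a), a) • (Y (c (t, a)) ∘L
        (fderiv ℝ Z (c (t, a)) (Z (c (t, a)) a) -
          ContinuousLinearMap.apply ℝ E a ∘L fderiv ℝ Z (c (t, a)) ∘L Z (c (t, a)))) := ⟨_, rfl⟩
    have cc : Continuous fun t : ℝ => c (t, a) :=
      sc.continuous.comp (continuous_id.prodMk continuous_const)
    have cA : Continuous A := by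
      rw [hA]
      have b1 := (hZ.continuous_fderiv (by simp)).comp cc
      have b2 := hZ.continuous.comp cc
      exact (sχ.continuous.comp (cc.prodMk continuous_const)).smul
        ((sY.continuous.comp cc).clm_comp ((b1.clm_apply (b2.clm_apply continuous_const)).sub
          (continuous_const.clm_comp (b1.clm_comp b2))))
    have Aap : ∀ t u, A t u = χ (c (t, a), a) • Y (c (t, a))
        (fderiv ℝ Z (c (t, a)) (Z (c (t, a)) a) u - fderiv ℝ Z (c (t, a)) (Z (c (t, a)) u) a) :=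
      fun t u => by rw [hA]; rfl
    obtain ⟨M, hM⟩ := (isCompact_Icc (a := (0 : ℝ)) (b := 1)).exists_bound_of_continuousOn
      cA.continuousOn
    obtain ⟨J, hJ'⟩ : ∃ J : ℝ → E, J = fun s => fderiv ℝ (fun r => c (s, r)) a b := ⟨_, rfl⟩
    have hl' : ∀ t, HasDerivAt J (χ (c (t, a), a) • (fderiv ℝ Z (c (t, a)) (J t) a +
        Z (c (t, a)) b) + l t • Z (c (t, a)) a) t := by
      rw [hJ']
      exact hl
    have hj : ∀ t, HasDerivAt (fun s => Y (c (s, a)) (J s))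
        (χ (c (t, a), a) • b + l t • a - A t (Y (c (t, a)) (J t))) t := by
      intro t
      have a1 : DifferentiableAt ℝ (fun s => Y (c (s, a)) (J s)) t :=
        ((sY.differentiable (by simp) _).comp t (cd t a).differentiableAt).clm_apply
          (hl' t).differentiableAt
      have a0 := (dZ (c (t, a))).hasFDerivAt.comp_hasDerivAt t (cd t a)
      have a1' := a1.hasDerivAt
      have a2 := a0.clm_apply a1'
      have a3 : HasDerivAt J _ t := a2.congr_of_eventuallyEq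
        (Eventually.of_forall fun s => (ZY _ _).symm)
      have a4 := congrArg (Y (c (t, a))) (a3.unique (hl' t))
      refine a1.hasDerivAt.congr_deriv ?_
      rw [Aap, ZY]
      simp only [Function.comp_apply, map_add, map_smul, YZ, smul_apply,
        smul_add] at a4
      rw [map_sub, smul_sub, eq_sub_of_add_eq' a4]
      abel
    have jW := stay_lin (L := W) (γ := fun s => Y (c (s, a)) (J s))
      (v := fun t u => χ (c (t, a), a) • b + l t • a - A t u) (K := M)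
      (fun t ht x y => by
        rw [sub_sub_sub_cancel_left, ← map_sub, norm_sub_rev x y]
        exact ((A t).le_opNorm _).trans (mul_le_mul_of_nonneg_right (hM t ht) (norm_nonneg _)))
      (fun t ht u hu => by
        obtain ⟨e, he, he'⟩ := hT _ (cL t ht) a ha u hu
        rw [Aap, he', YZ]
        exact W.sub_mem (W.add_mem (W.smul_mem _ hb) (W.smul_mem _ ha)) (W.smul_mem _ he))
      (fun t _ => hj t) (by simp [hJ', J0]) 1 ⟨zero_le_one, le_rfl⟩
    refine ⟨_, jW, ?_⟩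
    rw [ZY, hJ']

end Pool.Agent.Work.MP_2482e4_mp.Gn
end

-- merged part: Pool.Agent.Work.MP_2482e4_mp.Gn.Suf
section
/-!
Product type pairs are admissible for every f.
Plan. admissible_of_smooth: copy admissible_of (Suff); Θ is smooth everywhere; the local inverse is smooth at the points
Θ x where fderiv Θ x is invertible (true near 0: fderiv Θ is continuous and invertible maps are open; or use
ContinuousLinearEquiv.unitsEquiv / isOpen of units), by OpenPartialHomeomorph.contDiffAt_symm.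
adm_of_prod: Z from exists_Zc, L from prod_tors, W = 𝒜.comap ι, L.comap ι, x₀ = lg ι ρ; D U B = ι (fderiv Z x (jL U) (jL B)).
cartan gives Γ. exists_section (FamSuf) for T = fderiv chi x₀ ∘ Z x₀ ∘ jL gives C with values in 𝒜 and T (C v) = v on V
(onto: for v in V let A be its e-representation, mem_V_iff; compare comm_suf in Comm). Ψ = chi ∘ Γ ∘ jL ∘ C, chi_mem_iff.
-/

open scoped ComplexOrder Topology ContDiff Matrix.Norms.L2Operator
open Matrix Filter Module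

set_option linter.unusedSectionVars false

namespace Pool.Agent.Work.MP_2482e4_mp.Gn

variable {n : Type} [Fintype n] [DecidableEq n]

variable {E : Type} [NormedAddCommGroup E] [NormedSpace ℝ E] [FiniteDimensional ℝ E]
variable {ι : E →ₗ[ℝ] Mt n} {g : E → E →L[ℝ] E →L[ℝ] ℝ} {f : ℝ → ℝ}

theorem admissible_of_smooth {τ : E →L[ℝ] ℝ} (hτ : ∀ X, (ι X).trace = 0 ↔ τ X = 0) {ρ : E}
    {V : Submodule ℝ E} (hV : ∀ X ∈ V, τ X = 0)
    (hpos : ∀ q ∈ states ι, ∀ X, X ≠ 0 → 0 < g q X X) {Ψ : E → E} (hΨ : ContDiff ℝ ∞ Ψ)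
    (hΨ0 : Ψ 0 = ρ) (hd0 : ∀ v ∈ V, fderiv ℝ Ψ 0 v = v)
    (hev : ∀ᶠ x in 𝓝 (0 : E), Ψ x ∈ states ι ∧
      ∀ v, fderiv ℝ Ψ x v ∈ orth τ (g (Ψ x)).flip (orth τ (g ρ) V)) :
    Admissible ι g ρ V := by
  have : CompleteSpace E := FiniteDimensional.complete ℝ E
  obtain ⟨G, hG⟩ := V.exists_isCompl
  set π : E →L[ℝ] E := LinearMap.toContinuousLinearMap (V.projection G hG) with hπ
  have hπV : ∀ x, π x ∈ V := fun x => Submodule.projection_apply_mem hG x
  have hπs : ∀ x ∈ V, π x = x := fun x hx => Submodule.projection_apply_of_mem_left hG hx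
  set Θ : E → E := fun x => Ψ (π x) + (x - π x) with hΘ
  have hΘc : ContDiff ℝ ∞ Θ := (hΨ.comp π.contDiff).add (contDiff_id.sub π.contDiff)
  have hΨd : Differentiable ℝ Ψ := hΨ.differentiable (by simp)
  have hΘd : ∀ x, DifferentiableAt ℝ Ψ (π x) → HasFDerivAt Θ
      ((fderiv ℝ Ψ (π x)).comp π + (ContinuousLinearMap.id ℝ E - π)) x := fun x hx =>
    (hx.hasFDerivAt.comp x π.hasFDerivAt).add ((hasFDerivAt_id x).sub π.hasFDerivAt)
  have hΘ0 : HasFDerivAt Θ ((ContinuousLinearEquiv.refl ℝ E : E ≃L[ℝ] E) : E →L[ℝ] E) 0 := by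
    convert hΘd 0 (hΨd _) using 1
    ext v
    simp [hd0 _ (hπV v)]
  set e := hΘc.contDiffAt.toOpenPartialHomeomorph Θ hΘ0 (by simp) with he
  have he0 : (0 : E) ∈ e.source :=
    hΘc.contDiffAt.mem_toOpenPartialHomeomorph_source hΘ0 (by simp)
  have hinv : ∀ᶠ x in 𝓝 (0 : E), ∃ A : E ≃L[ℝ] E, (A : E →L[ℝ] E) = fderiv ℝ Θ x :=
    (hΘc.continuous_fderiv (by simp)).continuousAt.eventually
      (ContinuousLinearEquiv.isOpen.mem_nhds ⟨_, hΘ0.fderiv.symm⟩)
  obtain ⟨O, hO, hOo, hO0⟩ := eventually_nhds_iff.1 (hinv.and hev)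
  set Φ := (e.restrOpen O hOo).symm with hΦdef
  have htgt : ∀ x, x ∈ Φ.target ↔ x ∈ e.source ∧ x ∈ O := fun x => Iff.rfl
  have hsymm : (Φ.symm : E → E) = Θ := rfl
  have hΦ' : ContDiffOn ℝ ∞ Φ.symm Φ.target := hΘc.contDiffOn
  have hΦ : ContDiffOn ℝ ∞ Φ Φ.source := fun q hq => by
    obtain ⟨A, hA⟩ := (hO _ ((htgt _).1 (Φ.map_source hq)).2).1
    refine (Φ.symm.contDiffAt_symm (f₀' := A) hq ?_ hΘc.contDiffAt).contDiffWithinAt
    rw [hA]
    exact (hΘc.differentiable (by simp) _).hasFDerivAt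
  set N : Set E := {q | q ∈ Φ.source ∧ Φ q ∈ V} with hN
  have hNi : ∀ q ∈ Φ.source, q ∈ N ↔ Φ q ∈ V := fun q hq => ⟨fun h => h.2, fun h => ⟨hq, h⟩⟩
  have hΨq : ∀ q ∈ N, Ψ (Φ q) = q := fun q hq => by
    have h1 := Φ.left_inv hq.1
    rw [hsymm] at h1
    simpa [hΘ, hπs _ hq.2] using h1
  have hst : N ⊆ states ι := fun q hq => by
    rw [← hΨq q hq]; exact (hO _ ((htgt _).1 (Φ.map_source hq.1)).2).2.1
  have htan : ∀ q ∈ N, tangent N q = orth τ (g q).flip (orth τ (g ρ) V) := by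
    intro q hq
    have h1 : tangent N q = V.map (fderiv ℝ Φ.symm (Φ q)).toLinearMap := by
      ext v
      rw [tangent_iff hΦ hΦ' hNi hq.1 hq]
      constructor
      · intro hv
        exact ⟨_, hv, chart_BA hΦ hΦ' hq.1 v⟩
      · rintro ⟨w, hw, rfl⟩
        change fderiv ℝ Φ q (fderiv ℝ Φ.symm (Φ q) w) ∈ V
        rw [chart_AB hΦ hΦ' hq.1]; exact hw
    rw [h1]
    congr 1
    obtain ⟨-, -, h3⟩ := hO _ ((htgt _).1 (Φ.map_source hq.1)).2
    refine Submodule.eq_of_le_of_finrank_le ?_ ?_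
    · rintro _ ⟨w, hw, rfl⟩
      change fderiv ℝ Φ.symm (Φ q) w ∈ _
      rw [hsymm, (hΘd _ (hΨd _)).fderiv]
      have h4 := h3 w
      rw [hΨq q hq] at h4
      simpa [hπs _ hw, hπs _ hq.2] using h4
    · rw [← (LinearEquiv.finrank_eq (Submodule.equivMapOfInjective _
        (Function.LeftInverse.injective (g := fderiv ℝ Φ q) (chart_AB hΦ hΦ' hq.1)) V))]
      exact finrank_orth_le τ _ _ V (hpos _ (hst hq))
  have h0t : (0 : E) ∈ Φ.target := (htgt 0).2 ⟨he0, hO0⟩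
  have hρ : Φ.symm 0 = ρ := by rw [hsymm]; simp [hΘ, hΨ0]
  have hρN : ρ ∈ N := by
    rw [← hρ]
    exact ⟨Φ.map_target h0t, by rw [Φ.right_inv h0t]; exact V.zero_mem⟩
  refine ⟨N, hst, fun p hp => ⟨Φ, V, hp.1, hΦ, hΦ', hNi⟩, ?_, hρN, ?_⟩
  · intro p hp X Z _ _ hXt hZt W hW
    rw [htan p hp]
    refine mem_orth.2 ⟨(hτ W).1 hW.1, fun Y hY => ?_⟩
    have h1 := hW.2 (fun _ => Y) ⟨contDiffAt_const, Eventually.of_forall fun _ => (hτ Y).2 hY.1⟩
    rw [fderiv_tangent_zero (N := N) ?_ (hXt.self_of_nhdsWithin hp)] at h1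
    · simpa using h1.symm
    · filter_upwards [hZt, self_mem_nhdsWithin] with q hq hqN
      rw [htan q hqN] at hq
      exact hq.2 Y hY
  · rw [htan ρ hρN, orth_orth τ _ V (hpos _ (hst hρN)) hV]

theorem adm_of_prod (hι : IsHermModel ι) (hg : IsPetz ι f g) (hf : ∀ t, 0 < t → 0 < f t)
    (hfs : ∀ t, 0 < t → f t = t * f t⁻¹) (hf1 : f 1 = 1) (hfd : ContDiffOn ℝ ∞ f (Set.Ioi 0))
    (hsm : ∀ q ∈ states ι, ContDiffAt ℝ ∞ g q) {ρ : E} (hρ : ρ ∈ states ι) {V : Submodule ℝ E}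
    (hV : ∀ X ∈ V, trL ι X = 0) (h : IsProductType (ι (lg ι ρ)) (eRep ι g ρ V)) :
    Admissible ι g ρ V := by
  have := nonempty_of_states hρ
  obtain ⟨Z, hZ, hZi, hZι⟩ := exists_Zc hι hg hf hfs hsm
  obtain ⟨L, -, hL0, hL1, hL2⟩ := prod_tors (wf_neg hfs) (wf_pos hf) (wf_zero hf1)
    (fun x hx => (wf_hasDerivAt hfd hx.ne').differentiableAt) (𝒜 := eRepS ι g ρ V) h
  obtain ⟨Γ, hΓ, hΓ0, hΓd, hΓe⟩ := cartan hZ hZi (W := (eRepS ι g ρ V).comap ι) (L := L.comap ι)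
    (x₀ := lg ι ρ) hL0 (fun x hx a ha => by
      rw [Submodule.mem_comap, hZι]
      exact hL1 _ hx _ ha) (fun x hx a ha b hb => by
      obtain ⟨C, hC, e⟩ := hL2 _ hx (LinearMap.mk₂ ℝ
        (fun U B => ι (fderiv ℝ Z x (jL ι U) (jL ι B))) (by simp) (by simp) (by simp) (by simp))
        (fun U hU B hB => by
          have hl : HasDerivAt (fun s : ℝ => x + s • jL ι U) (jL ι U) 0 := by
            simpa using ((hasDerivAt_id (0 : ℝ)).smul_const (jL ι U)).const_add x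
          have h1 := HasFDerivAt.comp_hasDerivAt_of_eq (0 : ℝ)
            (hZ.differentiable (by simp) x).hasFDerivAt hl (by simp)
          have h2 := (iL ι).hasFDerivAt.comp_hasDerivAt 0
            (h1.clm_apply (hasDerivAt_const (0 : ℝ) (jL ι B)))
          simp only [map_zero, add_zero] at h2
          refine h2.congr_of_eventuallyEq (Eventually.of_forall fun s => ?_)
          simp only [Function.comp_apply, iL_apply, hZι, map_add, map_smul, ι_jL hι hU,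
            ι_jL hι hB]) _ ha _ hb
      refine ⟨jL ι C, by rw [Submodule.mem_comap, ι_jL hι hC.1]; exact hC, hι.1 ?_⟩
      rw [hZι, ι_jL hι hC.1, ← e, ← hZι, ← hZι]
      simp only [LinearMap.mk₂_apply, jL_ι hι, map_sub])
  have hρ1 := nrm_of_states hι hρ
  have hpos := petz_pos hι hg hf hρ.1
  obtain ⟨C, hC, hCT⟩ := exists_section (V := V) (𝒜 := eRepS ι g ρ V)
    ((fderiv ℝ (chi ι) (lg ι ρ)).comp ((Z (lg ι ρ)).comp (jL ι))) fun v hv => by
      obtain ⟨u, hu⟩ : ∃ u, fderiv ℝ (ex ι) (lg ι ρ) u = v :=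
        LinearMap.surjective_of_injective (f := (fderiv ℝ (ex ι) (lg ι ρ)).toLinearMap)
          (Function.LeftInverse.injective (fderiv_lg_ex hι _)) v
      have h1 : fderiv ℝ (chi ι) (lg ι ρ) u = v := by
        rw [fderiv_chi hι, hu, ex_lg hι hρ.1, fderiv_nrm (by simp [hρ1])]
        simp [hρ1, hV v hv]
      obtain ⟨A, hA, h2⟩ := (chi_mem_iff hι hg hf hfs hρ hV (lg ι ρ) u).1 (by
        rw [h1, chi_lg hι hρ, orth_orth _ _ V hpos hV]
        exact hv)
      refine ⟨A, hA, ?_⟩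
      rw [← h1, hι.1 (h2.trans (by rw [hZι, ι_jL hι hA.1]) : ι u = ι (Z (lg ι ρ) (jL ι A)))]
      rfl
  set K : E →L[ℝ] E := (jL ι).comp C with hK
  have hKW : ∀ x, K x ∈ (eRepS ι g ρ V).comap ι := fun x => by
    rw [Submodule.mem_comap, hK, ContinuousLinearMap.comp_apply, ι_jL hι (hC x).1]
    exact hC x
  have hχ : ContDiff ℝ ∞ (chi ι) := contDiff_iff_contDiffAt.2 fun x => (chi_cd hι x).of_le le_top
  have hΨd : ∀ x v, fderiv ℝ (fun y => chi ι (Γ (K y))) x v =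
      fderiv ℝ (chi ι) (Γ (K x)) (fderiv ℝ Γ (K x) (K v)) := fun x v => by
    have h1 : HasFDerivAt (fun y => chi ι (Γ (K y))) _ x :=
      (hχ.differentiable (by simp) _).hasFDerivAt.comp x
        ((hΓ.differentiable (by simp) _).hasFDerivAt.comp x K.hasFDerivAt)
    rw [h1.fderiv]
    rfl
  have hKt : Tendsto K (𝓝 0) (𝓝 0) := by simpa using K.continuous.tendsto 0
  refine admissible_of_smooth (trL_iff hι) hV (fun q hq => petz_pos hι hg hf hq.1)
    (Ψ := fun y => chi ι (Γ (K y))) (hχ.comp (hΓ.comp K.contDiff))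
    (by simp only [map_zero, hΓ0, chi_lg hι hρ]) (fun v hv => ?_) ?_
  · rw [hΨd, map_zero, hΓ0, hΓd]
    exact hCT v hv
  · filter_upwards [hKt.eventually hΓe] with x hx
    refine ⟨nrm_states hι (ex_posDef hι _), fun v => ?_⟩
    obtain ⟨c, hc, e⟩ := hx (hKW x) _ (hKW v)
    rw [hΨd, chi_mem_iff hι hg hf hfs hρ hV, e, hZι]
    exact ⟨_, hc, rfl⟩

end Pool.Agent.Work.MP_2482e4_mp.Gn
end

-- merged part: Pool.Agent.Work.MP_2482e4_mp.Gn.Main
section
open scoped ComplexOrder Topology ContDiff Matrix.Norms.L2Operator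
open Matrix Filter Module

set_option linter.unusedSectionVars false

namespace Pool.Agent.Work.MP_2482e4_mp.Gn

variable {n : Type} [Fintype n] [DecidableEq n]
variable {E : Type} [NormedAddCommGroup E] [NormedSpace ℝ E]
variable {ι : E →ₗ[ℝ] Mt n} {g : E → E →L[ℝ] E →L[ℝ] ℝ} {f : ℝ → ℝ}

theorem prod_of_adm [FiniteDimensional ℝ E] (hι : IsHermModel ι) (hg : IsPetz ι f g) (hf : GenF f)
    (hsm : ∀ q ∈ states ι, ContDiffAt ℝ ∞ g q) {ρ : E} (hρ : ρ ∈ states ι) {V : Submodule ℝ E}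
    (hV : ∀ X ∈ V, trL ι X = 0) (h : Admissible ι g ρ V) :
    IsProductType (ι (lg ι ρ)) (eRep ι g ρ V) := by
  obtain ⟨N, hN, hne, htr⟩ := leaf_of_adm hι hg hf.pos hf.symm hf.one hsm hρ hV h
  obtain ⟨N', hsub, ⟨H', hH'⟩, m, l, P, R, hG⟩ := exists_good hN hne
  have hA : ∀ A ∈ eRepS ι g ρ V, A.IsHermitian := fun A hA => hA.1
  obtain ⟨S, hS, hull⟩ := exists_hull hA hG.leaf.herm
    (fun F hF h0 H hH A hA' => hG.stab hf hA hF h0 hH hA')
    (fun H hH A hA' B hB k => hG.tor_mem hf hA hH hA' hB k)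
  exact prod_transport (wf_neg hf.symm) (hull.prod (hS hH')) (htr H' (hsub hH'))

theorem cfc_log_eq [FiniteDimensional ℝ E] (hι : IsHermModel ι) {ρ : E} (hρ : ρ ∈ states ι) :
    cfc Real.log (ι ρ) = ι (lg ι ρ) := by
  obtain ⟨U, d, hU, hx, hc⟩ := exists_Dg_cfc (herm_ι hι ρ)
  rw [hc, (ι_lg_Dg hι hU hx ((posDef_Dg hU d).1 (hx ▸ hρ.1))).1]

theorem main (hι : IsHermModel ι) (hf : ∀ t, 0 < t → 0 < f t)
    (hfs : ∀ t, 0 < t → f t = t * f t⁻¹) (hf1 : f 1 = 1) (hfd : ContDiffOn ℝ ∞ f (Set.Ioi 0))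
    (hg : IsPetz ι f g) (hsm : ∀ q ∈ states ι, ContDiffAt ℝ ∞ g q) {ρ : E} (hρ : ρ ∈ states ι)
    {V : Submodule ℝ E} (hV : ∀ X ∈ V, (ι X).trace = 0) :
    (IsProductType (cfc Real.log (ι ρ)) (eRep ι g ρ V) → Admissible ι g ρ V) ∧
      (IsGeneric f → Admissible ι g ρ V → IsProductType (cfc Real.log (ι ρ)) (eRep ι g ρ V)) := by
  haveI : FiniteDimensional ℝ E := FiniteDimensional.of_injective ι hι.1
  have hV' : ∀ X ∈ V, trL ι X = 0 := fun X hX => (trL_iff hι X).1 (hV X hX)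
  rw [cfc_log_eq hι hρ]
  exact ⟨adm_of_prod hι hg hf hfs hf1 hfd hsm hρ hV',
    fun hG => prod_of_adm hι hg ⟨hf, hfs, hf1, hfd, hG⟩ hsm hρ hV'⟩

end Pool.Agent.Work.MP_2482e4_mp.Gn
end
end
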